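import Pool.Agent.Lib.LQ.Basic

/-
Module AxisDense (library LQ, MP_9bf8b0_al), helper55.
V n <= C (n + 1), C >= 1.  L := len g >= 1.  Call x ~ y if y = g^m * x for some integer m (equivalence relation).
Pairwise inequivalent x_1..x_p satisfy p <= C * L: for n : ℕ the elements g^m x_i, 0 <= m <= n, are distinct
(g has infinite order because m <= len(g^m)) and have length <= n L + D0, so (n+1) p <= V (n L + D0) <= C (n L + D0 + 1).
If the statement fails there are arbitrarily many pairwise inequivalent elements.
-/

set_option autoImplicit false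

open Classical
open scoped Pointwise symmDiff

noncomputable section

namespace LQ

open LL

variable {A : Type} [Group A]

theorem axis_dense (a : NG A) (hl : Linear a) (g : A) (hg : ∀ m : ℕ, m ≤ a.len (g ^ m)) :
    ∃ D : ℕ, ∀ x, ∃ m : ℤ, a.len ((g ^ m)⁻¹ * x) ≤ D := by
  obtain ⟨C, hC⟩ := hl
  -- `g` has infinite order
  have hinj : ∀ m m' : ℕ, g ^ m = g ^ m' → m = m' := by
    have key : ∀ m d : ℕ, g ^ m = g ^ (m + d) → d = 0 := by
      intro m d h
      rw [pow_add] at h
      have h1 : g ^ d = 1 := by
        have h2 : g ^ m * 1 = g ^ m * g ^ d := by rw [mul_one]; exact h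
        exact (mul_left_cancel h2).symm
      have h2 := hg d
      rw [h1, a.len_one] at h2
      omega
    intro m m' h
    rcases le_total m m' with h1 | h1
    · obtain ⟨d, rfl⟩ := Nat.exists_eq_add_of_le h1
      have := key m d h
      omega
    · obtain ⟨d, rfl⟩ := Nat.exists_eq_add_of_le h1
      have := key m' d h.symm
      omega
  have hpow : ∀ m : ℕ, a.len (g ^ m) ≤ m * a.len g := by
    intro m
    induction m with
    | zero => rw [pow_zero, a.len_one]; omega
    | succ m ih =>
      rw [pow_succ]
      have := a.len_mul (g ^ m) g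
      rw [Nat.succ_mul]
      omega
  -- pairwise inequivalent elements
  have hcard : ∀ S : Finset A, (∀ x ∈ S, ∀ y ∈ S, ∀ m : ℤ, y = g ^ m * x → x = y) →
      S.card ≤ C * a.len g := by
    intro S hS
    by_contra hcon
    push Not at hcon
    set D0 : ℕ := S.sup a.len with hD0
    set n : ℕ := C * (D0 + 1) with hn
    have h1 : ((Finset.range (n + 1)) ×ˢ S).card ≤ a.V (n * a.len g + D0) := by
      have hi : Set.InjOn (fun p : ℕ × A => g ^ p.1 * p.2)
          (((Finset.range (n + 1)) ×ˢ S : Finset (ℕ × A)) : Set (ℕ × A)) := by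
        rintro ⟨m, x⟩ hx ⟨m', y⟩ hy h
        have hx2 := (Finset.mem_product.1 (Finset.mem_coe.1 hx)).2
        have hy2 := (Finset.mem_product.1 (Finset.mem_coe.1 hy)).2
        simp only at h hx2 hy2
        have h3 : y = g ^ ((m : ℤ) - (m' : ℤ)) * x := by
          rw [zpow_sub, zpow_natCast, zpow_natCast]
          have h4 : g ^ m * (g ^ m')⁻¹ = (g ^ m')⁻¹ * g ^ m := by
            have := (Commute.refl g).pow_pow m m'
            exact (this.inv_right).eq
          rw [h4, mul_assoc, h]
          simp
        have h5 := hS x hx2 y hy2 _ h3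
        subst h5
        have h6 := mul_right_cancel h
        rw [hinj m m' h6]
      rw [← Finset.card_image_of_injOn hi]
      apply Finset.card_le_card
      intro z hz
      rw [Finset.mem_image] at hz
      obtain ⟨⟨m, x⟩, hx, rfl⟩ := hz
      obtain ⟨hx1, hx2⟩ := Finset.mem_product.1 hx
      rw [NG.mem_ball]
      have h2 := a.len_mul (g ^ m) x
      have h3 := hpow m
      have h4 : a.len x ≤ D0 := Finset.le_sup (f := a.len) hx2
      have h5 : m * a.len g ≤ n * a.len g := by
        apply Nat.mul_le_mul_right
        have := Finset.mem_range.1 hx1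
        simp only at this
        omega
      simp only
      omega
    rw [Finset.card_product, Finset.card_range] at h1
    have h2 := h1.trans (hC _)
    have h3 : (n + 1) * (C * a.len g + 1) ≤ (n + 1) * S.card := Nat.mul_le_mul_left _ hcon
    have h4 := h3.trans h2
    have h5 : (n + 1) * (C * a.len g + 1) = C * (n * a.len g) + n + C * a.len g + 1 := by ring
    have h6 : C * (n * a.len g + D0 + 1) = C * (n * a.len g) + n := by rw [hn]; ring
    rw [h5, h6] at h4
    omega
  by_contra hcon
  push Not at hcon
  -- arbitrarily many pairwise inequivalent elements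
  have hbig : ∀ p : ℕ, ∃ S : Finset A, S.card = p ∧
      (∀ x ∈ S, ∀ y ∈ S, ∀ m : ℤ, y = g ^ m * x → x = y) := by
    intro p
    induction p with
    | zero => exact ⟨∅, rfl, by simp⟩
    | succ p ih =>
      obtain ⟨S, hS1, hS2⟩ := ih
      obtain ⟨x, hx⟩ := hcon (S.sup a.len)
      have hx' : ∀ y ∈ S, ∀ m : ℤ, y ≠ g ^ m * x := by
        intro y hy m h
        have h1 := hx (-m)
        rw [zpow_neg, inv_inv, ← h] at h1
        have h2 : a.len y ≤ S.sup a.len := Finset.le_sup (f := a.len) hy
        omega
      have hxS : x ∉ S := fun h => hx' x h 0 (by simp)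
      refine ⟨insert x S, by rw [Finset.card_insert_of_notMem hxS, hS1], ?_⟩
      intro y hy z hz m h
      rw [Finset.mem_insert] at hy hz
      rcases hy with rfl | hy
      · rcases hz with rfl | hz
        · rfl
        · exact absurd h (hx' z hz m)
      · rcases hz with rfl | hz
        · exfalso
          apply hx' y hy (-m)
          rw [h, zpow_neg, inv_mul_cancel_left]
        · exact hS2 y hy z hz m h
  obtain ⟨S, hS1, hS2⟩ := hbig (C * a.len g + 1)
  have := hcard S hS2
  omega

end LQ

end
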