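import Pool.Agent.Lib.LQ.Defs2

/-!
Basic facts on word lengths (MP_9bf8b0_al).
-/

set_option autoImplicit false

open Classical
open scoped Pointwise symmDiff

noncomputable section

namespace LQ

namespace NG

variable {G : Type} [Group G]

theorem len_symm (a : NG G) (x y : G) : a.len (x⁻¹ * y) = a.len (y⁻¹ * x) := by
  rw [← a.len_inv (x⁻¹ * y)]
  simp

theorem tri (a : NG G) (x y z : G) : a.len (x⁻¹ * z) ≤ a.len (x⁻¹ * y) + a.len (y⁻¹ * z) := by
  have := a.len_mul (x⁻¹ * y) (y⁻¹ * z)
  rwa [show x⁻¹ * y * (y⁻¹ * z) = x⁻¹ * z by group] at this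

theorem V_mono (a : NG G) {n m : ℕ} (h : n ≤ m) : a.V n ≤ a.V m := by
  apply Finset.card_le_card
  intro x hx
  rw [mem_ball] at hx ⊢
  exact hx.trans h

theorem one_mem_ball (a : NG G) (n : ℕ) : (1 : G) ∈ a.ball n := by
  rw [mem_ball, a.len_one]
  exact Nat.zero_le n

theorem V_pos (a : NG G) (n : ℕ) : 1 ≤ a.V n := Finset.card_pos.2 ⟨1, a.one_mem_ball n⟩

theorem V_zero (a : NG G) : a.V 0 = 1 := by
  have : a.ball 0 = {1} := by
    ext x
    rw [mem_ball, Finset.mem_singleton]
    constructor
    · intro h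
      exact a.eq_one x (Nat.le_zero.1 h)
    · rintro rfl
      rw [a.len_one]
  rw [V, this, Finset.card_singleton]

/-- Cutting an element of length at most `r + s` into two pieces. -/
theorem exists_cut (a : NG G) (r s : ℕ) (x : G) (hx : a.len x ≤ r + s) :
    ∃ y z, x = y * z ∧ a.len y ≤ r ∧ a.len z ≤ s := by
  induction s generalizing x with
  | zero => exact ⟨x, 1, by simp, hx, by rw [a.len_one]⟩
  | succ s ih =>
    by_cases h : a.len x ≤ r + s
    · obtain ⟨y, z, e, hy, hz⟩ := ih x h
      exact ⟨y, z, e, hy, by omega⟩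
    · have hl : a.len x = (r + s) + 1 := by omega
      obtain ⟨y, t, rfl, hy, ht⟩ := a.split x (r + s) hl
      obtain ⟨y', z, rfl, hy', hz⟩ := ih y (by omega)
      refine ⟨y', z * t, by rw [mul_assoc], hy', ?_⟩
      have := a.len_mul z t
      omega

theorem V_add_le (a : NG G) (r s : ℕ) : a.V (r + s) ≤ a.V r * a.V s := by
  have hsub : a.ball (r + s) ⊆ (a.ball r ×ˢ a.ball s).image (fun p => p.1 * p.2) := by
    intro x hx
    rw [mem_ball] at hx
    obtain ⟨y, z, rfl, hy, hz⟩ := a.exists_cut r s x hx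
    rw [Finset.mem_image]
    exact ⟨(y, z), Finset.mem_product.2 ⟨(a.mem_ball r y).2 hy, (a.mem_ball s z).2 hz⟩, rfl⟩
  calc a.V (r + s) ≤ _ := Finset.card_le_card hsub
    _ ≤ (a.ball r ×ˢ a.ball s).card := Finset.card_image_le
    _ = a.V r * a.V s := Finset.card_product _ _

theorem V_le_pow (a : NG G) (n : ℕ) : a.V n ≤ a.V 1 ^ n := by
  induction n with
  | zero => rw [a.V_zero, pow_zero]
  | succ n ih =>
    rw [pow_succ]
    exact (a.V_add_le n 1).trans (Nat.mul_le_mul_right _ ih)

/-- A finite set within distance `n` of a point has at most `V n` elements. -/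
theorem card_le_V (a : NG G) (x : G) (n : ℕ) (s : Finset G) (hs : ∀ y, y ∈ s → a.len (x⁻¹ * y) ≤ n) :
    s.card ≤ a.V n := by
  have hinj : Function.Injective (fun y : G => x⁻¹ * y) := fun y z h => mul_left_cancel h
  rw [← Finset.card_image_of_injective s hinj]
  apply Finset.card_le_card
  intro y hy
  rw [Finset.mem_image] at hy
  obtain ⟨z, hz, rfl⟩ := hy
  exact (a.mem_ball n _).2 (hs z hz)

/-- In an infinite group every length is attained. -/
theorem exists_len_eq (a : NG G) [Infinite G] (n : ℕ) : ∃ x, a.len x = n := by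
  have hbig : ∃ x, n ≤ a.len x := by
    by_contra hc
    push Not at hc
    have : (Set.univ : Set G).Finite := (a.fin n).subset (fun x _ => (hc x).le)
    exact Set.infinite_univ this
  obtain ⟨x, hx⟩ := hbig
  obtain ⟨m, hm⟩ : ∃ m, a.len x = n + m := ⟨a.len x - n, by omega⟩
  induction m generalizing x with
  | zero => exact ⟨x, hm⟩
  | succ m ih =>
    obtain ⟨y, t, rfl, hy, -⟩ := a.split x (n + m) (by omega)
    exact ih y (by omega) hy

/-- In an infinite group balls have at least `n + 1` elements. -/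
theorem succ_le_V (a : NG G) [Infinite G] (n : ℕ) : n + 1 ≤ a.V n := by
  choose f hf using a.exists_len_eq
  have hinj : Function.Injective f := by
    intro i j h
    rw [← hf i, ← hf j, h]
  have hsub : (Finset.range (n + 1)).image f ⊆ a.ball n := by
    intro x hx
    rw [Finset.mem_image] at hx
    obtain ⟨i, hi, rfl⟩ := hx
    rw [mem_ball, hf]
    rw [Finset.mem_range] at hi
    omega
  have := Finset.card_le_card hsub
  rwa [Finset.card_image_of_injective _ hinj, Finset.card_range] at this

end NG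

end LQ

end
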