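import Pool.Agent.Lib.LQ.TubeFacts

/-!
An element translating along a ray has linear orbits (MP_9bf8b0_al).
-/

set_option autoImplicit false

open Classical
open scoped Pointwise symmDiff

noncomputable section

namespace LQ

open LL

variable {A : Type} [Group A]

theorem BusemannAux.exists_bz (a : NG A) (γ : ℕ → A) (hγ : Ray a γ) (z : A) :
    ∃ v : ℤ, ∃ N : ℕ, ∀ n, N ≤ n → (a.len (z⁻¹ * γ n) : ℤ) - n = v := by
  have hlen : ∀ n, a.len (γ n) = n := by
    intro n
    have := hγ.2 0 n (Nat.zero_le n)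
    rwa [hγ.1, inv_one, one_mul, Nat.sub_zero] at this
  have hlow : ∀ n, n ≤ a.len z + a.len (z⁻¹ * γ n) := by
    intro n
    have := a.len_mul z (z⁻¹ * γ n)
    rwa [mul_inv_cancel_left, hlen] at this
  have hstep : ∀ n k, a.len (z⁻¹ * γ (n + k)) ≤ a.len (z⁻¹ * γ n) + k := by
    intro n k
    have h1 := a.tri z (γ n) (γ (n + k))
    rw [hγ.2 n (n + k) (Nat.le_add_right n k), Nat.add_sub_cancel_left] at h1
    exact h1
  obtain ⟨N, -, hN⟩ := WellFounded.has_min
    (InvImage.wf (fun n : ℕ => a.len z + a.len (z⁻¹ * γ n) - n) Nat.lt_wfRel.wf) Set.univ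
    ⟨0, Set.mem_univ _⟩
  refine ⟨(a.len (z⁻¹ * γ N) : ℤ) - N, N, fun n hn => ?_⟩
  have h1 : ¬ (a.len z + a.len (z⁻¹ * γ n) - n < a.len z + a.len (z⁻¹ * γ N) - N) :=
    hN n (Set.mem_univ _)
  obtain ⟨k, rfl⟩ := Nat.exists_eq_add_of_le hn
  have h2 := hstep N k
  have h3 := hlow N
  have h4 := hlow (N + k)
  omega

theorem axis_len (a : NG A) (γ : ℕ → A) (hγ : Ray a γ) (g : A) (i j : ℕ) (hij : i < j)
    (hinf : ∀ n : ℕ, ∃ k, n ≤ k ∧ g * γ (i + k) = γ (j + k)) : ∀ m : ℕ, m ≤ a.len (g ^ m) := by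
  choose bz hbz using BusemannAux.exists_bz a γ hγ
  have hlip : ∀ z z', bz z - bz z' ≤ a.len (z⁻¹ * z') := by
    intro z z'
    obtain ⟨N, hN⟩ := hbz z
    obtain ⟨N', hN'⟩ := hbz z'
    have h1 := hN (max N N') (le_max_left _ _)
    have h2 := hN' (max N N') (le_max_right _ _)
    have h3 := a.tri z z' (γ (max N N'))
    omega
  have hshift : ∀ z, bz (g⁻¹ * z) = bz z + (j - i : ℕ) := by
    intro z
    obtain ⟨N, hN⟩ := hbz z
    obtain ⟨N', hN'⟩ := hbz (g⁻¹ * z)
    obtain ⟨k, hk, hgk⟩ := hinf (max N N')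
    have hk1 : N ≤ j + k := ((le_max_left N N').trans hk).trans (Nat.le_add_left k j)
    have hk2 : N' ≤ i + k := ((le_max_right N N').trans hk).trans (Nat.le_add_left k i)
    have h1 := hN (j + k) hk1
    have h2 := hN' (i + k) hk2
    have e : (g⁻¹ * z)⁻¹ * γ (i + k) = z⁻¹ * γ (j + k) := by
      rw [← hgk]
      group
    rw [e] at h2
    push_cast [Nat.cast_sub hij.le] at h1 h2 ⊢
    linarith
  have hpow : ∀ m : ℕ, bz ((g⁻¹) ^ m) = bz 1 + m * (j - i : ℕ) := by
    intro m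
    induction m with
    | zero => simp
    | succ m ih =>
      rw [pow_succ', hshift, ih]
      push_cast
      ring
  intro m
  have h1 := hlip ((g⁻¹) ^ m) 1
  rw [hpow, inv_pow, inv_inv, mul_one] at h1
  have h2 : (m : ℤ) ≤ m * (j - i : ℕ) := by
    have h3 : (1 : ℤ) ≤ (j - i : ℕ) := by
      have : 1 ≤ j - i := by omega
      exact_mod_cast this
    nlinarith [Int.natCast_nonneg m]
  have h4 : (m : ℤ) ≤ a.len (g ^ m) := by linarith
  exact_mod_cast h4

end LQ

end
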