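import Pool.Agent.Lib.LQ.Basic

/-
Module CSC (library LQ, MP_9bf8b0_al).
Coulhon - Saloff-Coste.  bd := U.filter (exists t, len t <= 1, q * t not in U).
(1) For every g: #{u in U : u * g not in U} <= len g * bd.card.  Induction on n = len g: n = 0: g = 1, empty.  n+1: g = y * t (split): if u * g not in U then u * y not in U, or
u * y in U and (u * y) * t not in U, i.e. u * y in bd; u -> u * y is injective.  So <= n bd.card + bd.card.
(2) Count pairs (u, g), u in U, g in ball r, u * g not in U: for fixed u the g in ball r with u * g in U are at most U.card (g -> u * g injective), so there are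
>= V r - U.card >= V r / 2 (hU).  So 2 * #pairs >= U.card * V r.  By (1) #pairs <= V r * (r * bd.card).  V r >= 1: U.card <= 2 r bd.card.
-/

set_option autoImplicit false

open Classical
open scoped Pointwise symmDiff

noncomputable section

namespace LQ

open LL

variable {B : Type} [Group B]

private theorem csc_shift (b : NG B) (U : Finset B) (n : ℕ) : ∀ g : B, b.len g ≤ n →
    (U.filter (fun u => u * g ∉ U)).card
      ≤ n * (U.filter (fun q => ∃ t, b.len t ≤ 1 ∧ q * t ∉ U)).card := by
  induction n with
  | zero =>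
    intro g hg
    have h1 : g = 1 := b.eq_one g (Nat.le_zero.1 hg)
    have h2 : U.filter (fun u => u * g ∉ U) = ∅ := by
      refine Finset.filter_eq_empty_iff.2 fun u hu h => h ?_
      rw [h1, mul_one]
      exact hu
    rw [h2, Finset.card_empty]
    exact Nat.zero_le _
  | succ n ih =>
    intro g hg
    by_cases h : b.len g ≤ n
    · exact (ih g h).trans (Nat.mul_le_mul_right _ (Nat.le_succ n))
    · obtain ⟨y, t, rfl, hy, ht⟩ := b.split g n (by omega)
      have hsub : U.filter (fun u => u * (y * t) ∉ U) ⊆ U.filter (fun u => u * y ∉ U) ∪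
          U.filter (fun u => u * y ∈ U ∧ u * y * t ∉ U) := by
        intro u hu
        obtain ⟨h1, h2⟩ := Finset.mem_filter.1 hu
        by_cases h3 : u * y ∈ U
        · refine Finset.mem_union.2 (Or.inr (Finset.mem_filter.2 ⟨h1, h3, ?_⟩))
          rw [mul_assoc]
          exact h2
        · exact Finset.mem_union.2 (Or.inl (Finset.mem_filter.2 ⟨h1, h3⟩))
      have h4 : (U.filter (fun u => u * y ∈ U ∧ u * y * t ∉ U)).card
          ≤ (U.filter (fun q => ∃ t, b.len t ≤ 1 ∧ q * t ∉ U)).card := by
        refine Finset.card_le_card_of_injOn (fun u => u * y) ?_ ?_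
        · intro u hu
          obtain ⟨h5, h6, h7⟩ := Finset.mem_filter.1 hu
          exact Finset.mem_coe.2 (Finset.mem_filter.2 ⟨h6, t, ht, h7⟩)
        · intro u _ v _ huv
          exact mul_right_cancel huv
      have h5 := ih y (by omega)
      have h6 := (Finset.card_le_card hsub).trans (Finset.card_union_le _ _)
      rw [Nat.succ_mul]
      omega

theorem csc (b : NG B) (U : Finset B) (r : ℕ) (hU : 2 * U.card ≤ b.V r) :
    U.card ≤ 2 * r * (U.filter (fun q => ∃ t, b.len t ≤ 1 ∧ q * t ∉ U)).card := by
  set bd := U.filter (fun q => ∃ t, b.len t ≤ 1 ∧ q * t ∉ U) with hbd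
  have h1 : ∑ g ∈ b.ball r, (U.filter (fun u => u * g ∉ U)).card ≤ b.V r * (r * bd.card) := by
    have h := Finset.sum_le_card_nsmul (b.ball r) (fun g => (U.filter (fun u => u * g ∉ U)).card)
      (r * bd.card) fun g hg => csc_shift b U r g ((b.mem_ball r g).1 hg)
    rw [smul_eq_mul] at h
    exact h
  have h2 : ∑ g ∈ b.ball r, (U.filter (fun u => u * g ∉ U)).card
      = ∑ u ∈ U, ((b.ball r).filter (fun g => u * g ∉ U)).card := by
    simp only [Finset.card_filter]
    exact Finset.sum_comm
  have h3 : ∀ u ∈ U, b.V r ≤ 2 * ((b.ball r).filter (fun g => u * g ∉ U)).card := by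
    intro u _
    have h4 : ((b.ball r).filter (fun g => u * g ∈ U)).card ≤ U.card := by
      refine Finset.card_le_card_of_injOn (fun g => u * g) ?_ ?_
      · intro g hg
        exact Finset.mem_coe.2 (Finset.mem_filter.1 hg).2
      · intro g _ g' _ hgg
        exact mul_left_cancel hgg
    have h5 := Finset.card_filter_add_card_filter_not (s := b.ball r) (fun g => u * g ∈ U)
    have h6 : b.V r = (b.ball r).card := rfl
    omega
  have h4 : U.card * b.V r ≤ 2 * ∑ u ∈ U, ((b.ball r).filter (fun g => u * g ∉ U)).card := by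
    rw [Finset.mul_sum]
    have h := Finset.card_nsmul_le_sum U
      (fun u => 2 * ((b.ball r).filter (fun g => u * g ∉ U)).card) (b.V r) h3
    rw [smul_eq_mul] at h
    exact h
  have hV : 0 < b.V r := b.V_pos r
  refine Nat.le_of_mul_le_mul_left ?_ hV
  calc b.V r * U.card = U.card * b.V r := mul_comm _ _
    _ ≤ 2 * ∑ u ∈ U, ((b.ball r).filter (fun g => u * g ∉ U)).card := h4
    _ = 2 * ∑ g ∈ b.ball r, (U.filter (fun u => u * g ∉ U)).card := by rw [h2]
    _ ≤ 2 * (b.V r * (r * bd.card)) := Nat.mul_le_mul_left _ h1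
    _ = b.V r * (2 * r * bd.card) := by ring

end LQ

end
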