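import Pool.Agent.Lib.LQ.Basic

/-!
Comparison of two word lengths through an isomorphism (MP_9bf8b0_al).
-/

set_option autoImplicit false

open Classical
open scoped Pointwise symmDiff

noncomputable section

namespace LQ

open LL

theorem change_gen {G G' : Type} [Group G] [Group G'] (e : G ≃* G') (w : NG G) (w' : NG G') :
    ∃ C : ℕ, ∀ x, w'.len (e x) ≤ C * w.len x := by
  refine ⟨(w.ball 1).sup (fun t => w'.len (e t)), ?_⟩
  suffices H : ∀ n x, w.len x = n →
      w'.len (e x) ≤ ((w.ball 1).sup (fun t => w'.len (e t))) * n from fun x => H _ x rfl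
  intro n
  induction n with
  | zero =>
    intro x hx
    rw [w.eq_one x hx, map_one, w'.len_one]
    exact Nat.zero_le _
  | succ n ih =>
    intro x hx
    obtain ⟨y, t, rfl, hy, ht⟩ := w.split x n hx
    rw [map_mul]
    have h1 := w'.len_mul (e y) (e t)
    have h2 := ih y hy
    have h3 : w'.len (e t) ≤ (w.ball 1).sup (fun t => w'.len (e t)) :=
      Finset.le_sup (f := fun t => w'.len (e t)) ((w.mem_ball 1 t).2 ht)
    rw [Nat.mul_succ]
    omega

end LQ

end
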