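import Pool.Agent.Lib.LQ.Basic

/-!
Basic facts on the word length of lamplighter groups (MP_9bf8b0_al).
-/

set_option autoImplicit false

open Classical
open scoped Pointwise symmDiff

noncomputable section

namespace LQ

open LL

variable {A B : Type} [Group A] [Group B]

theorem LL.mv_mul (x y : A) : LL.mv (x * y) = LL.mv x * LL.mv y := by
  ext1 <;> simp [LL.mv]

theorem LL.mv_one : LL.mv (1 : A) = 1 := rfl

theorem LL.mv_inv (x : A) : (LL.mv x)⁻¹ = LL.mv x⁻¹ := by
  ext1 <;> simp [LL.mv]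

theorem LL.lamp_symmDiff (v w : Finset A) : LL.lamp (v ∆ w) = LL.lamp v * LL.lamp w := by
  ext1 <;> simp [LL.lamp]

theorem LL.lamp_empty : LL.lamp (∅ : Finset A) = 1 := rfl

theorem LL.lamp_inv (v : Finset A) : (LL.lamp v)⁻¹ = LL.lamp v := by
  ext1 <;> simp [LL.lamp]

theorem LL.lamp_comm (v w : Finset A) : LL.lamp v * LL.lamp w = LL.lamp w * LL.lamp v := by
  rw [← LL.lamp_symmDiff, ← LL.lamp_symmDiff, symmDiff_comm]

theorem LL.lamp_smul (g : A) (v : Finset A) :
    LL.lamp (g • v) = LL.mv g * LL.lamp v * LL.mv g⁻¹ := by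
  ext1
  · simp [LL.lamp, LL.mv]
  · simp [LL.lamp, LL.mv]

theorem LL.mul_mv_lamp (X : LL A) (t : A) (n : Finset A) :
    X * LL.lamp n * LL.mv t = X * LL.mv t * LL.lamp (t⁻¹ • n) := by
  rw [LL.lamp_smul]
  have : LL.mv t * LL.mv t⁻¹ = (1 : LL A) := by rw [← LL.mv_mul, mul_inv_cancel, LL.mv_one]
  rw [inv_inv, mul_assoc X (LL.mv t), ← mul_assoc (LL.mv t), ← mul_assoc (LL.mv t), this, one_mul,
    mul_assoc]

theorem LL.eq_lamp_mul_mv (X : LL A) : X = LL.lamp X.u * LL.mv X.q := by
  ext1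
  · simp only [LL.mul_u, LL.lamp, LL.mv, Finset.smul_finset_empty]
    exact (symmDiff_bot X.u).symm
  · simp [LL.lamp, LL.mv]

@[simp] theorem LL.mul_lamp_u (X : LL A) (n : Finset A) : (X * LL.lamp n).u = X.u ∆ (X.q • n) := rfl
@[simp] theorem LL.mul_lamp_q (X : LL A) (n : Finset A) : (X * LL.lamp n).q = X.q := by
  simp [LL.lamp]
@[simp] theorem LL.mul_mv_u (X : LL A) (t : A) : (X * LL.mv t).u = X.u := by
  simp only [LL.mul_u, LL.mv, Finset.smul_finset_empty]
  exact symmDiff_bot X.u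
@[simp] theorem LL.mul_mv_q (X : LL A) (t : A) : (X * LL.mv t).q = X.q * t := rfl

theorem LL.lamp_injective : Function.Injective (LL.lamp : Finset A → LL A) := by
  intro v w h
  exact congrArg LL.u h

theorem NG.wr_gen_le (a : NG A) (g : LL A) (hg : g ∈ a.wrGen) : a.wr.len g ≤ 1 := by
  rw [NG.wr, NG.ofGen_len_le, pow_one]
  exact Or.inr (Or.inl hg)

theorem NG.wr_lamp_one (a : NG A) : a.wr.len (LL.lamp {1}) ≤ 1 := by
  apply a.wr_gen_le
  simp [NG.wrGen]

theorem NG.wr_mv_le (a : NG A) (h : A) : a.wr.len (LL.mv h) ≤ a.len h := by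
  obtain ⟨n, hn⟩ : ∃ n, a.len h = n := ⟨_, rfl⟩
  rw [hn]
  induction n generalizing h with
  | zero =>
    rw [a.eq_one h hn, LL.mv_one, a.wr.len_one]
  | succ n ih =>
    obtain ⟨y, t, rfl, hy, ht⟩ := a.split h n hn
    rw [LL.mv_mul]
    have h1 : a.wr.len (LL.mv t) ≤ 1 := by
      apply a.wr_gen_le
      simp only [NG.wrGen, Finset.mem_insert, Finset.mem_image]
      exact Or.inr ⟨t, (a.mem_ball 1 t).2 ht, rfl⟩
    have := a.wr.len_mul (LL.mv y) (LL.mv t)
    have := ih y hy
    omega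

/-- A generator is a move of length at most one or the lamp at the cursor. -/
theorem NG.wr_gen_cases (a : NG A) (g : LL A) (hg : a.wr.len g ≤ 1) :
    g = LL.lamp {1} ∨ ∃ t, a.len t ≤ 1 ∧ g = LL.mv t := by
  rw [NG.wr, NG.ofGen_len_le, pow_one] at hg
  have key : ∀ g' ∈ a.wrGen, g' = LL.lamp {1} ∨ ∃ t, a.len t ≤ 1 ∧ g' = LL.mv t := by
    intro g' hg'
    simp only [NG.wrGen, Finset.mem_insert, Finset.mem_image] at hg'
    rcases hg' with rfl | ⟨t, ht, rfl⟩
    · exact Or.inl rfl
    · exact Or.inr ⟨t, (a.mem_ball 1 t).1 ht, rfl⟩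
  rcases hg with rfl | hg | hg
  · exact Or.inr ⟨1, by rw [a.len_one]; omega, LL.mv_one.symm⟩
  · exact key g hg
  · rcases key g⁻¹ hg with h | ⟨t, ht, h⟩
    · left
      rw [← inv_inv g, h, LL.lamp_inv]
    · right
      refine ⟨t⁻¹, by rwa [a.len_inv], ?_⟩
      rw [← inv_inv g, h, LL.mv_inv]

theorem NG.wr_bound (a : NG A) (R : ℕ) (X : LL A) (hX : a.wr.len X ≤ R) :
    a.len X.q ≤ R ∧ X.u.card ≤ R ∧ ∀ x, x ∈ X.u → a.len x ≤ R := by
  induction R generalizing X with
  | zero =>
    have : X = 1 := a.wr.eq_one X (Nat.le_zero.1 hX)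
    subst this
    simp [a.len_one]
  | succ R ih =>
    by_cases h : a.wr.len X ≤ R
    · obtain ⟨h1, h2, h3⟩ := ih X h
      exact ⟨by omega, by omega, fun x hx => (h3 x hx).trans (Nat.le_succ R)⟩
    · obtain ⟨Y, g, rfl, hY, hg⟩ := a.wr.split X R (by omega)
      obtain ⟨h1, h2, h3⟩ := ih Y hY.le
      rcases a.wr_gen_cases g hg with rfl | ⟨t, ht, rfl⟩
      · refine ⟨by rw [LL.mul_lamp_q]; omega, ?_, ?_⟩
        · rw [LL.mul_lamp_u, Finset.smul_finset_singleton]
          calc (Y.u ∆ {Y.q • (1 : A)}).card ≤ (Y.u ∪ {Y.q • (1 : A)}).card :=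
                Finset.card_le_card (by
                  intro x hx
                  rw [Finset.mem_symmDiff] at hx
                  rw [Finset.mem_union]
                  tauto)
            _ ≤ Y.u.card + 1 := by
                refine (Finset.card_union_le _ _).trans ?_
                rw [Finset.card_singleton]
            _ ≤ R + 1 := by omega
        · intro x hx
          rw [LL.mul_lamp_u, Finset.smul_finset_singleton, Finset.mem_symmDiff,
            Finset.mem_singleton] at hx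
          rcases hx with ⟨hx, _⟩ | ⟨hx, _⟩
          · exact (h3 x hx).trans (Nat.le_succ R)
          · rw [hx, smul_eq_mul, mul_one]
            omega
      · refine ⟨?_, by rw [LL.mul_mv_u]; omega, ?_⟩
        · rw [LL.mul_mv_q]
          have := a.len_mul Y.q t
          omega
        · intro x hx
          rw [LL.mul_mv_u] at hx
          exact (h3 x hx).trans (Nat.le_succ R)

theorem NG.len_q_le (a : NG A) (X : LL A) : a.len X.q ≤ a.wr.len X := (a.wr_bound _ X le_rfl).1

/-! ### The cost of switching lamps -/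

theorem NG.kap_empty (a : NG A) : a.kap ∅ = 0 := by
  rw [NG.kap, LL.lamp_empty, a.wr.len_one]

theorem NG.kap_symmDiff (a : NG A) (v w : Finset A) : a.kap (v ∆ w) ≤ a.kap v + a.kap w := by
  rw [NG.kap, LL.lamp_symmDiff]
  exact a.wr.len_mul _ _

theorem NG.kap_smul (a : NG A) (g : A) (v : Finset A) : a.kap (g • v) ≤ 2 * a.len g + a.kap v := by
  rw [NG.kap, LL.lamp_smul]
  have h1 := a.wr.len_mul (LL.mv g * LL.lamp v) (LL.mv g⁻¹)
  have h2 := a.wr.len_mul (LL.mv g) (LL.lamp v)
  have h3 := a.wr_mv_le g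
  have h4 := a.wr_mv_le g⁻¹
  rw [a.len_inv] at h4
  rw [NG.kap]
  omega

theorem NG.kap_singleton (a : NG A) (x : A) : a.kap {x} ≤ 2 * a.len x + 1 := by
  have h := a.kap_smul x {1}
  rw [Finset.smul_finset_singleton, smul_eq_mul, mul_one] at h
  have := a.wr_lamp_one
  rw [NG.kap] at h ⊢
  rw [NG.kap] at h
  omega

theorem NG.kap_le_card (a : NG A) (v : Finset A) (s : ℕ) (hs : ∀ x, x ∈ v → a.len x ≤ s) :
    a.kap v ≤ (2 * s + 1) * v.card := by
  induction v using Finset.induction_on with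
  | empty => simp [a.kap_empty]
  | insert x v hx ih =>
    have e : insert x v = v ∆ {x} := by
      ext y
      simp only [Finset.mem_insert, Finset.mem_symmDiff, Finset.mem_singleton]
      constructor
      · rintro (rfl | h)
        · exact Or.inr ⟨rfl, hx⟩
        · exact Or.inl ⟨h, fun h' => hx (h' ▸ h)⟩
      · rintro (⟨h, _⟩ | ⟨h, _⟩)
        · exact Or.inr h
        · exact Or.inl h
    rw [e]
    have h1 := a.kap_symmDiff v {x}
    have h2 := a.kap_singleton x
    have h3 := ih (fun y hy => hs y (Finset.mem_insert_of_mem hy))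
    have h4 := hs x (Finset.mem_insert_self x v)
    have h5 : (v ∆ {x}).card = v.card + 1 := by rw [← e, Finset.card_insert_of_notMem hx]
    rw [h5]
    nlinarith

end LQ

end
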