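import Pool.Agent.Lib.LQ.TubeFacts
import Pool.Agent.Lib.LQ.WrFacts

/-
Module Comb (library LQ, MP_9bf8b0_al).
q := 2 ρ + 1, g_i := γ(i q), v_i := part a γ ρ n i.
comb: claim by induction on k: there is X with X.q = g_k... precisely: for all k, with U_k := n ∩ tube a γ ρ k, the element (U_k, g_k) of LL A satisfies
a.wr.len ⟨U_k, g_k⟩ <= k q + ∑_{i<k} a.kap (v_i).
k = 0: ⟨∅, γ 0⟩ = 1.  Step: ⟨U_{k+1}, g_{k+1}⟩ = ⟨U_k, g_k⟩ * lamp v_k * mv (g_k⁻¹ g_{k+1}), because U_{k+1} = U_k ∆ (g_k • v_k) (disjoint union; g_k • v_k = n ∩ g_k • ball ρ), and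
len(g_k⁻¹ g_{k+1}) = q, wr_mv_le.
Then for n ⊆ tube k: U_k = n, lamp n = ⟨n, g_k⟩ * mv g_k⁻¹, len(g_k⁻¹) = k q.  So kap n <= 2 k q + ∑.
kap_tube_card: kap (v_i) <= (2 ρ + 1) card v_i (kap_le_card) and sum_part.
-/

set_option autoImplicit false

open Classical
open scoped Pointwise symmDiff

noncomputable section

namespace LQ

open LL

variable {A : Type} [Group A] {a : NG A} {γ : ℕ → A}

namespace CombAux

theorem cell_eq (ρ : ℕ) (n : Finset A) (i : ℕ) :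
    γ (i * (2 * ρ + 1)) • part a γ ρ n i = n ∩ γ (i * (2 * ρ + 1)) • a.ball ρ := by
  unfold part
  rw [Finset.smul_finset_inter, smul_inv_smul]

theorem tube_succ (ρ k : ℕ) :
    tube a γ ρ (k + 1) = tube a γ ρ k ∪ γ (k * (2 * ρ + 1)) • a.ball ρ := by
  unfold tube
  rw [Finset.range_add_one, Finset.biUnion_insert, Finset.union_comm]

theorem comb (hγ : Ray a γ) (ρ : ℕ) (n : Finset A) (k : ℕ) :
    a.wr.len (⟨n ∩ tube a γ ρ k, γ (k * (2 * ρ + 1))⟩ : LL A) ≤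
      k * (2 * ρ + 1) + ∑ i ∈ Finset.range k, a.kap (part a γ ρ n i) := by
  induction k with
  | zero =>
    have h1 : (⟨n ∩ tube a γ ρ 0, γ (0 * (2 * ρ + 1))⟩ : LL A) = 1 := by
      have h2 : tube a γ ρ 0 = ∅ := by simp [tube]
      rw [h2, Nat.zero_mul, hγ.1, Finset.inter_empty]
      rfl
    rw [h1, NG.len_one]
    exact Nat.zero_le _
  | succ k ih =>
    have h1 : (⟨n ∩ tube a γ ρ (k + 1), γ ((k + 1) * (2 * ρ + 1))⟩ : LL A) =
        (⟨n ∩ tube a γ ρ k, γ (k * (2 * ρ + 1))⟩ : LL A) * LL.lamp (part a γ ρ n k) *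
          LL.mv ((γ (k * (2 * ρ + 1)))⁻¹ * γ ((k + 1) * (2 * ρ + 1))) := by
      ext1
      · rw [LL.mul_mv_u, LL.mul_lamp_u]
        show n ∩ tube a γ ρ (k + 1) = (n ∩ tube a γ ρ k) ∆ (γ (k * (2 * ρ + 1)) • part a γ ρ n k)
        rw [cell_eq, tube_succ, Finset.inter_union_distrib_left]
        have hd : Disjoint (n ∩ tube a γ ρ k) (n ∩ γ (k * (2 * ρ + 1)) • a.ball ρ) := by
          rw [Finset.disjoint_left]
          intro x hx hx'
          obtain ⟨i, hi, hxi⟩ := Finset.mem_biUnion.1 (Finset.mem_inter.1 hx).2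
          exact Finset.disjoint_left.1 (tube_disj hγ ρ i k (Finset.mem_range.1 hi).ne) hxi
            (Finset.mem_inter.1 hx').2
        rw [hd.symmDiff_eq_sup, Finset.sup_eq_union]
      · rw [LL.mul_mv_q, LL.mul_lamp_q]
        show γ ((k + 1) * (2 * ρ + 1)) = γ (k * (2 * ρ + 1)) * _
        group
    rw [h1]
    refine (a.wr.len_mul _ _).trans ?_
    have h2 := a.wr.len_mul (⟨n ∩ tube a γ ρ k, γ (k * (2 * ρ + 1))⟩ : LL A)
      (LL.lamp (part a γ ρ n k))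
    have h3 := a.wr_mv_le ((γ (k * (2 * ρ + 1)))⁻¹ * γ ((k + 1) * (2 * ρ + 1)))
    rw [hγ.2 _ _ (Nat.mul_le_mul_right _ (Nat.le_succ k))] at h3
    rw [Finset.sum_range_succ]
    have h4 : a.kap (part a γ ρ n k) = a.wr.len (LL.lamp (part a γ ρ n k)) := rfl
    have h5 : (k + 1) * (2 * ρ + 1) = k * (2 * ρ + 1) + (2 * ρ + 1) := by ring
    have h6 : (k + 1) * (2 * ρ + 1) - k * (2 * ρ + 1) = 2 * ρ + 1 := by omega
    rw [Nat.succ_eq_add_one, h6] at h3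
    have h7 : k * (2 * ρ + 1) + (2 * ρ + 1) + (∑ i ∈ Finset.range k, a.kap (part a γ ρ n i) +
        a.kap (part a γ ρ n k)) = (k * (2 * ρ + 1) + ∑ i ∈ Finset.range k, a.kap (part a γ ρ n i)) +
        a.kap (part a γ ρ n k) + (2 * ρ + 1) := by ring
    refine le_trans ?_ (le_of_eq (by rw [h5, h7]))
    refine Nat.add_le_add (h2.trans ?_) h3
    exact Nat.add_le_add ih h4.ge

end CombAux

theorem kap_tube (hγ : Ray a γ) (ρ k : ℕ) (n : Finset A) (hn : n ⊆ tube a γ ρ k) :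
    a.kap n ≤ 2 * (k * (2 * ρ + 1)) + ∑ i ∈ Finset.range k, a.kap (part a γ ρ n i) := by
  have h1 := CombAux.comb hγ ρ n k
  rw [Finset.inter_eq_left.2 hn] at h1
  have h2 : LL.lamp n = (⟨n, γ (k * (2 * ρ + 1))⟩ : LL A) *
      LL.mv (γ (k * (2 * ρ + 1)))⁻¹ := by
    ext1
    · rw [LL.mul_mv_u]
      rfl
    · rw [LL.mul_mv_q]
      show (1 : A) = γ (k * (2 * ρ + 1)) * (γ (k * (2 * ρ + 1)))⁻¹
      group
  have h3 : a.kap n = a.wr.len (LL.lamp n) := rfl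
  rw [h3, h2]
  refine (a.wr.len_mul _ _).trans ?_
  have h4 := a.wr_mv_le (γ (k * (2 * ρ + 1)))⁻¹
  rw [a.len_inv, ray_len hγ] at h4
  omega

theorem kap_tube_card (hγ : Ray a γ) (ρ k : ℕ) (n : Finset A) (hn : n ⊆ tube a γ ρ k) :
    a.kap n ≤ 2 * (k * (2 * ρ + 1)) + (2 * ρ + 1) * n.card := by
  refine (kap_tube hγ ρ k n hn).trans ?_
  have h1 : ∑ i ∈ Finset.range k, a.kap (part a γ ρ n i) ≤
      ∑ i ∈ Finset.range k, (2 * ρ + 1) * (part a γ ρ n i).card := by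
    refine Finset.sum_le_sum fun i _ => ?_
    refine a.kap_le_card _ ρ fun x hx => ?_
    exact (a.mem_ball ρ x).1 (Finset.mem_inter.1 hx).2
  rw [← Finset.mul_sum, sum_part hγ ρ k n hn] at h1
  omega

end LQ

end
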