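import Pool.Agent.Lib.LQ.WrFacts

/-!
Basic consequences of quasi-isometry data (MP_9bf8b0_al).
-/

set_option autoImplicit false

open Classical
open scoped Pointwise symmDiff

noncomputable section

namespace LQ

open LL

variable {A B : Type} [Group A] [Group B] {a : NG A} {b : NG B} {K : ℕ} {ψ : LL A → LL B}

theorem QD.path (h : QD a b K ψ) (X g : LL A) :
    b.wr.len ((ψ X)⁻¹ * ψ (X * g)) ≤ K * a.wr.len g := by
  obtain ⟨n, hn⟩ : ∃ n, a.wr.len g = n := ⟨_, rfl⟩
  rw [hn]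
  induction n generalizing g with
  | zero =>
    rw [a.wr.eq_one g hn, mul_one, inv_mul_cancel, b.wr.len_one]
    exact Nat.zero_le _
  | succ n ih =>
    obtain ⟨y, t, rfl, hy, ht⟩ := a.wr.split g n hn
    have h1 := ih y hy
    have h2 := h.q1 (X * y) t ht
    have h3 := b.wr.tri (ψ X) (ψ (X * y)) (ψ (X * (y * t)))
    rw [← mul_assoc] at h3 ⊢
    rw [Nat.mul_succ]
    omega

/-- The image of `X * g` is the image of `X` times a short element. -/
theorem QD.exists_step (h : QD a b K ψ) (X g : LL A) :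
    ∃ w, ψ (X * g) = ψ X * w ∧ b.wr.len w ≤ K * a.wr.len g :=
  ⟨(ψ X)⁻¹ * ψ (X * g), by rw [mul_inv_cancel_left], h.path X g⟩

theorem QD.pos (h : QD a b K ψ) (X g : LL A) :
    b.len ((ψ X).q⁻¹ * (ψ (X * g)).q) ≤ K * a.wr.len g := by
  have h1 := b.len_q_le ((ψ X)⁻¹ * ψ (X * g))
  exact h1.trans (h.path X g)

theorem QD.mem_u (h : QD a b K ψ) (X g : LL A) (z : B) (hz : z ∈ (ψ X).u ∆ (ψ (X * g)).u) :
    b.len ((ψ X).q⁻¹ * z) ≤ K * a.wr.len g := by
  obtain ⟨w, hw, hl⟩ := h.exists_step X g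
  rw [hw, LL.mul_u, ← symmDiff_assoc, symmDiff_self] at hz
  have hz' : z ∈ (ψ X).q • w.u := by
    rwa [show (⊥ : Finset B) ∆ ((ψ X).q • w.u) = (ψ X).q • w.u from bot_symmDiff _] at hz
  obtain ⟨x, hx, rfl⟩ := Finset.mem_smul_finset.1 hz'
  rw [smul_eq_mul, inv_mul_cancel_left]
  exact (b.wr_bound _ w hl).2.2 x hx

theorem QD.card_u (h : QD a b K ψ) (X g : LL A) :
    ((ψ X).u ∆ (ψ (X * g)).u).card ≤ K * a.wr.len g := by
  obtain ⟨w, hw, hl⟩ := h.exists_step X g
  rw [hw, LL.mul_u, ← symmDiff_assoc, symmDiff_self,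
    show (⊥ : Finset B) ∆ ((ψ X).q • w.u) = (ψ X).q • w.u from bot_symmDiff _,
    Finset.card_smul_finset]
  exact (b.wr_bound _ w hl).2.1

/-- Fibres of `ψ` have at most `V K` elements. -/
theorem QD.fib (h : QD a b K ψ) (Y : LL B) (G : Finset (LL A)) (hG : ∀ X, X ∈ G → ψ X = Y) :
    G.card ≤ a.wr.V K := by
  rcases G.eq_empty_or_nonempty with rfl | ⟨X, hX⟩
  · simp
  · refine a.wr.card_le_V X K G (fun X' hX' => ?_)
    have := h.q2 X X'
    rwa [hG X hX, hG X' hX', inv_mul_cancel, b.wr.len_one, mul_zero, zero_add] at this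

/-- Fibres over the sets `n` of switched lamps. -/
theorem QD.fib_cube (h : QD a b K ψ) (X : LL A) (Y : LL B) (G : Finset (Finset A))
    (hG : ∀ n, n ∈ G → cc ψ X n = Y.u ∧ pp ψ X n = Y.q) : G.card ≤ a.wr.V K := by
  have hinj : Function.Injective (fun n : Finset A => X * LL.lamp n) :=
    fun n m hnm => LL.lamp_injective (mul_left_cancel hnm)
  rw [← Finset.card_image_of_injective G hinj]
  refine h.fib Y _ (fun X' hX' => ?_)
  rw [Finset.mem_image] at hX'
  obtain ⟨n, hn, rfl⟩ := hX'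
  obtain ⟨h1, h2⟩ := hG n hn
  ext1
  · exact h1
  · exact h2

/-- The states over `{X * lamp n : n ⊆ Ω}` form a hypercube with `l = K * (2 * s + 1)`. -/
theorem QD.cube (h : QD a b K ψ) (X : LL A) (Ω : Finset A) (s l : ℕ) (hs : ∀ x, x ∈ Ω → a.len x ≤ s)
    (hl : K * (2 * s + 1) ≤ l) : Cube b Ω l (cc ψ X) (pp ψ X) := by
  have key : ∀ x, x ∈ Ω → K * a.wr.len (LL.lamp {x}) ≤ l := by
    intro x hx
    have h1 := a.kap_singleton x
    rw [NG.kap] at h1
    have h2 := hs x hx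
    exact (Nat.mul_le_mul_left K (h1.trans (by omega))).trans hl
  have e : ∀ (n : Finset A) (x : A), X * LL.lamp (n ∆ {x}) = X * LL.lamp n * LL.lamp {x} := by
    intro n x
    rw [LL.lamp_symmDiff, mul_assoc]
  refine ⟨?_, ?_, ?_⟩
  · intro n _ x hx
    simp only [pp]
    rw [e]
    exact (h.pos _ _).trans (key x hx)
  · intro n _ x hx
    simp only [cc]
    rw [e]
    exact (h.card_u _ _).trans (key x hx)
  · intro n _ x hx z hz
    simp only [cc] at hz
    simp only [pp]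
    rw [e] at hz
    exact (h.mem_u _ _ z hz).trans (key x hx)

theorem pp_lamp (ψ : LL A → LL B) (X : LL A) (m n : Finset A) :
    pp ψ (X * LL.lamp m) n = pp ψ X (m ∆ n) := by
  rw [pp, pp, LL.lamp_symmDiff, mul_assoc]

theorem cc_lamp (ψ : LL A → LL B) (X : LL A) (m n : Finset A) :
    cc ψ (X * LL.lamp m) n = cc ψ X (m ∆ n) := by
  rw [cc, cc, LL.lamp_symmDiff, mul_assoc]

end LQ

end
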