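import Pool.Agent.Lib.LQ.Defs2

/-
Module EdgeIso (library LQ, MP_9bf8b0_al).
Edge isoperimetry of the hypercube (ordered pairs, log base 2).
Proof: induction on Ω, for all F.  Ω = ∅: the left side is 0; the right side is >= 0 (card * logb 2 card >= 0 for naturals).
Step Ω = insert x0 Ω', x0 not in Ω': let F0 = {n in F : x0 not in n}, F1 = {n in F : x0 in n}, a = F0.card, b = F1.card.
For x in Ω' (x ≠ x0) the sets n and n ∆ {x} lie on the same side, so the part of the sum with x in Ω' is the sum for F0 plus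
the sum for F1: at most a logb a + b logb b by induction.  The part with x = x0: n -> n ∆ {x0} is an injection of
{n in F0 : n ∆ {x0} in F} into F1 and of {n in F1 : ...} into F0, so this part is at most 2 min(a,b).
Inequality: for 0 < a <= b: a logb a + b logb b + 2a <= (a+b) logb (a+b):  a logb((a+b)/a) >= a since (a+b)/a >= 2, and
b logb(1 + a/b) >= b (a/b) = a since logb 2 (1+t) >= t for 0 <= t <= 1 (i.e. 2^t <= 1+t: convexity / Bernoulli
rpow_one_add_le_one_add_mul_self).  If a = 0 or b = 0 trivial.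
-/

set_option autoImplicit false

open Classical
open scoped Pointwise symmDiff

noncomputable section

namespace LQ

open LL

namespace EdgeIsoAux

/-- the number of ordered edges inside `F` in the directions of `Ω` -/
def ee {α : Type} (Ω : Finset α) (F : Finset (Finset α)) : ℕ :=
  ∑ n ∈ F, (Ω.filter (fun x => n ∆ {x} ∈ F)).card

theorem logb_one_add {t : ℝ} (h0 : 0 ≤ t) (h1 : t ≤ 1) : t ≤ Real.logb 2 (1 + t) := by
  rw [Real.le_logb_iff_rpow_le (by norm_num) (by linarith)]
  have := rpow_one_add_le_one_add_mul_self (s := 1) (by norm_num) h0 h1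
  have h2 : (1 : ℝ) + 1 = 2 := by norm_num
  rw [h2] at this
  linarith

theorem ineq_pos {x y : ℝ} (hx : 0 < x) (hxy : x ≤ y) :
    x * Real.logb 2 x + y * Real.logb 2 y + 2 * x ≤ (x + y) * Real.logb 2 (x + y) := by
  have hy : 0 < y := lt_of_lt_of_le hx hxy
  have h1 : 1 + Real.logb 2 x ≤ Real.logb 2 (x + y) := by
    have h2 : Real.logb 2 (2 * x) = 1 + Real.logb 2 x := by
      rw [Real.logb_mul (by norm_num) hx.ne', Real.logb_self_eq_one (by norm_num)]
    rw [← h2]
    exact Real.logb_le_logb_of_le (by norm_num) (by linarith) (by linarith)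
  have h3 : Real.logb 2 y + x / y ≤ Real.logb 2 (x + y) := by
    have h4 : x + y = y * (1 + x / y) := by field_simp; ring
    have h5 : (0 : ℝ) ≤ x / y := by positivity
    rw [h4, Real.logb_mul hy.ne' (by positivity)]
    have := logb_one_add h5 ((div_le_one hy).2 hxy)
    linarith
  have h6 : x * (1 + Real.logb 2 x) ≤ x * Real.logb 2 (x + y) :=
    mul_le_mul_of_nonneg_left h1 hx.le
  have h7 : y * (Real.logb 2 y + x / y) ≤ y * Real.logb 2 (x + y) :=
    mul_le_mul_of_nonneg_left h3 hy.le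
  have h8 : y * (x / y) = x := by field_simp
  nlinarith

theorem ineq_le (x y : ℕ) (hxy : x ≤ y) :
    (x : ℝ) * Real.logb 2 x + y * Real.logb 2 y + 2 * x ≤
      ((x + y : ℕ) : ℝ) * Real.logb 2 ((x + y : ℕ) : ℝ) := by
  rcases Nat.eq_zero_or_pos x with h | h
  · subst h
    simp
  · have := ineq_pos (x := x) (y := y) (by exact_mod_cast h) (by exact_mod_cast hxy)
    push_cast
    exact this

theorem ineq_min (x y : ℕ) :
    (x : ℝ) * Real.logb 2 x + y * Real.logb 2 y + 2 * (min x y : ℕ) ≤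
      ((x + y : ℕ) : ℝ) * Real.logb 2 ((x + y : ℕ) : ℝ) := by
  rcases le_total x y with h | h
  · rw [min_eq_left h]
    exact ineq_le x y h
  · rw [min_eq_right h, Nat.add_comm x y]
    have := ineq_le y x h
    linarith

theorem mem_sd {α : Type} (n : Finset α) (x y : α) :
    y ∈ n ∆ {x} ↔ (y ∈ n ∧ y ≠ x) ∨ (y = x ∧ y ∉ n) := by
  rw [Finset.mem_symmDiff, Finset.mem_singleton]

theorem sd_sd {α : Type} (n : Finset α) (x : α) : (n ∆ {x}) ∆ {x} = n := by
  rw [symmDiff_assoc, symmDiff_self]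
  exact symmDiff_bot n

theorem side {α : Type} (n : Finset α) {x x₀ : α} (h : x₀ ≠ x) : x₀ ∈ n ∆ {x} ↔ x₀ ∈ n := by
  rw [mem_sd]
  tauto

theorem side_self {α : Type} (n : Finset α) (x : α) : x ∈ n ∆ {x} ↔ x ∉ n := by
  rw [mem_sd]
  tauto

theorem ee_insert {α : Type} (Ω : Finset α) {x₀ : α} (hx : x₀ ∉ Ω) (F : Finset (Finset α)) :
    ee (insert x₀ Ω) F = (F.filter (fun n => n ∆ {x₀} ∈ F)).card + ee Ω F := by
  unfold ee
  rw [Finset.card_filter, ← Finset.sum_add_distrib]
  refine Finset.sum_congr rfl fun n _ => ?_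
  rw [Finset.filter_insert]
  split_ifs with h
  · rw [Finset.card_insert_of_notMem (by simp [hx]), Nat.add_comm]
  · simp

theorem ee_split {α : Type} (Ω : Finset α) {x₀ : α} (hx : x₀ ∉ Ω) (F : Finset (Finset α)) :
    ee Ω F = ee Ω (F.filter (fun n => x₀ ∈ n)) + ee Ω (F.filter (fun n => ¬ x₀ ∈ n)) := by
  unfold ee
  rw [← Finset.sum_filter_add_sum_filter_not F (fun n => x₀ ∈ n)]
  congr 1
  · refine Finset.sum_congr rfl fun n hn => ?_
    congr 1
    refine Finset.filter_congr fun x hxΩ => ?_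
    have hne : x₀ ≠ x := fun h => hx (h ▸ hxΩ)
    rw [Finset.mem_filter, side n hne]
    have := (Finset.mem_filter.1 hn).2
    tauto
  · refine Finset.sum_congr rfl fun n hn => ?_
    congr 1
    refine Finset.filter_congr fun x hxΩ => ?_
    have hne : x₀ ≠ x := fun h => hx (h ▸ hxΩ)
    rw [Finset.mem_filter, side n hne]
    have := (Finset.mem_filter.1 hn).2
    tauto

theorem cross {α : Type} (x₀ : α) (F : Finset (Finset α)) :
    (F.filter (fun n => n ∆ {x₀} ∈ F)).card ≤
      2 * min (F.filter (fun n => x₀ ∈ n)).card (F.filter (fun n => ¬ x₀ ∈ n)).card := by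
  set G := F.filter (fun n => n ∆ {x₀} ∈ F) with hG
  have h1 : (G.filter (fun n => x₀ ∈ n)).card + (G.filter (fun n => ¬ x₀ ∈ n)).card = G.card :=
    Finset.card_filter_add_card_filter_not _
  have hinj : ∀ s : Set (Finset α), Set.InjOn (fun n : Finset α => n ∆ {x₀}) s := by
    intro s n _ m _ h
    have : (n ∆ {x₀}) ∆ {x₀} = (m ∆ {x₀}) ∆ {x₀} := by
      have h' : n ∆ {x₀} = m ∆ {x₀} := h
      rw [h']
    rwa [sd_sd, sd_sd] at this
  have a1 : (G.filter (fun n => x₀ ∈ n)).card ≤ (F.filter (fun n => x₀ ∈ n)).card :=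
    Finset.card_le_card (Finset.filter_subset_filter _ (Finset.filter_subset _ _))
  have a2 : (G.filter (fun n => ¬ x₀ ∈ n)).card ≤ (F.filter (fun n => ¬ x₀ ∈ n)).card :=
    Finset.card_le_card (Finset.filter_subset_filter _ (Finset.filter_subset _ _))
  have a3 : (G.filter (fun n => x₀ ∈ n)).card ≤ (F.filter (fun n => ¬ x₀ ∈ n)).card := by
    refine Finset.card_le_card_of_injOn (fun n => n ∆ {x₀}) ?_ (hinj _)
    intro n hn
    have hn' := Finset.mem_filter.1 (Finset.mem_coe.1 hn)
    have hn2 := Finset.mem_filter.1 hn'.1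
    refine Finset.mem_coe.2 (Finset.mem_filter.2 ⟨hn2.2, ?_⟩)
    rw [side_self]
    exact fun h => h hn'.2
  have a4 : (G.filter (fun n => ¬ x₀ ∈ n)).card ≤ (F.filter (fun n => x₀ ∈ n)).card := by
    refine Finset.card_le_card_of_injOn (fun n => n ∆ {x₀}) ?_ (hinj _)
    intro n hn
    have hn' := Finset.mem_filter.1 (Finset.mem_coe.1 hn)
    have hn2 := Finset.mem_filter.1 hn'.1
    refine Finset.mem_coe.2 (Finset.mem_filter.2 ⟨hn2.2, ?_⟩)
    rw [side_self]
    exact hn'.2
  omega

theorem main {α : Type} (Ω : Finset α) : ∀ F : Finset (Finset α),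
    ((ee Ω F : ℕ) : ℝ) ≤ F.card * Real.logb 2 F.card := by
  induction Ω using Finset.induction_on with
  | empty =>
    intro F
    have h0 : ee (∅ : Finset α) F = 0 := by
      unfold ee
      simp
    rw [h0]
    rcases Nat.eq_zero_or_pos F.card with h | h
    · rw [h]; simp
    · have h1 : (1 : ℝ) ≤ F.card := by exact_mod_cast h
      have := Real.logb_nonneg (b := 2) (by norm_num) h1
      simp only [Nat.cast_zero]
      positivity
  | insert x₀ Ω hx ih =>
    intro F
    rw [ee_insert Ω hx F, ee_split Ω hx F]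
    have h1 := ih (F.filter (fun n => x₀ ∈ n))
    have h2 := ih (F.filter (fun n => ¬ x₀ ∈ n))
    have h3 := cross x₀ F
    have h4 : (F.filter (fun n => x₀ ∈ n)).card + (F.filter (fun n => ¬ x₀ ∈ n)).card = F.card :=
      Finset.card_filter_add_card_filter_not _
    have h5 := ineq_min (F.filter (fun n => x₀ ∈ n)).card (F.filter (fun n => ¬ x₀ ∈ n)).card
    rw [h4] at h5
    have h3' : ((F.filter (fun n => n ∆ {x₀} ∈ F)).card : ℝ) ≤
      2 * (min (F.filter (fun n => x₀ ∈ n)).card (F.filter (fun n => ¬ x₀ ∈ n)).card : ℕ) := by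
      exact_mod_cast h3
    push_cast at h3' h5 ⊢
    linarith

end EdgeIsoAux

theorem edge_iso {α : Type} (Ω : Finset α) (F : Finset (Finset α)) :
    ((∑ n ∈ F, (Ω.filter (fun x => n ∆ {x} ∈ F)).card : ℕ) : ℝ) ≤ F.card * Real.logb 2 F.card := by
  exact EdgeIsoAux.main Ω F

end LQ

end
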