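import Pool.Agent.Lib.LQ.CSC
import Pool.Agent.Lib.LQ.EdgeIso
import Pool.Agent.Lib.LQ.WrFacts

/-
Module WIso (library LQ, MP_9bf8b0_al).
Isoperimetry in the lamplighter group.  For u : Finset B put sec u := {q : ⟨u,q⟩ in F} (finite), C := image of F under u.  F.card = ∑_{u in C} (sec u).card.
poor: 2 (sec u).card <= b.V r; rich otherwise; C = Cp ∪ Cr.  bd := bdW b F.
(1) Poor part: csc for sec u: (sec u).card <= 2 r #{q in sec u: exists t, q t not in sec u}, and such ⟨u,q⟩ is in bd (⟨u,q⟩ * mv t = ⟨u, q t⟩, wr_mv_le).  Sum: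
Pp := number of points of F with poor section <= 2 r bd.card.  So 16 Pp <= F.card (h).
(2) Gd := {⟨u,q⟩ in F : u rich, ⟨u ∆ {q}, q⟩ in F, u ∆ {q} rich}.  ⟨u,q⟩ * lamp {1} = ⟨u ∆ {q}, q⟩, so if ⟨u ∆ {q}, q⟩ is not in F then ⟨u,q⟩ is in bd (wr_lamp_one).
F.card <= Gd.card + Pp + bd.card + Pp (the last Pp: ⟨u,q⟩ -> ⟨u ∆ {q}, q⟩ is injective), and 32 bd.card <= 32 r bd.card <= F.card.
So 32 Gd.card >= 32 F.card - 64 Pp - 32 bd.card >= (32 - 4 - 1) F.card = 27 F.card.
(3) Gd.card <= ∑_{u in Cr} #{q in Ω : u ∆ {q} in Cr}, Ω := all cursors of points of F.  edge_iso: Gd.card <= Cr.card * logb 2 Cr.card.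
(4) F.card >= ∑_{u in Cr} (sec u).card >= Cr.card * b.V r / 2, so 27 Cr.card b.V r / 64 <= 27 F.card / 32 <= Gd.card <= Cr.card logb 2 Cr.card.
Cr is nonempty (F nonempty and 16 Pp <= F.card), Cr.card <= F.card, logb monotone.  So 27 b.V r <= 64 logb 2 F.card.
-/

set_option autoImplicit false

open Classical
open scoped Pointwise symmDiff

noncomputable section

namespace LQ

open LL

variable {B : Type} [Group B]

namespace WIsoAux

/-- the points of `F` with configuration `u` -/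
def fib (F : Finset (LL B)) (u : Finset B) : Finset (LL B) := F.filter (fun Y => Y.u = u)

/-- poor configurations -/
def poor (b : NG B) (r : ℕ) (F : Finset (LL B)) (u : Finset B) : Prop := 2 * (fib F u).card ≤ b.V r

/-- one poor fibre -/
theorem poor_fib (b : NG B) (F : Finset (LL B)) (r : ℕ) (u : Finset B) (hp : poor b r F u) :
    (fib F u).card ≤ 2 * r * ((bdW b F).filter (fun Y => Y.u = u)).card := by
  set U : Finset B := (fib F u).image (fun Y => Y.q) with hU
  have hinj : Set.InjOn (fun Y : LL B => Y.q) (fib F u) := by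
    intro X hX Y hY h
    have h1 := (Finset.mem_filter.1 hX).2
    have h2 := (Finset.mem_filter.1 hY).2
    exact LL.ext (h1.trans h2.symm) h
  have hcard : U.card = (fib F u).card := Finset.card_image_of_injOn hinj
  have hmem : ∀ q, q ∈ U ↔ (⟨u, q⟩ : LL B) ∈ F := by
    intro q
    rw [hU, Finset.mem_image]
    constructor
    · rintro ⟨Y, hY, rfl⟩
      obtain ⟨h1, h2⟩ := Finset.mem_filter.1 hY
      rw [← h2]
      exact h1
    · intro h
      exact ⟨⟨u, q⟩, Finset.mem_filter.2 ⟨h, rfl⟩, rfl⟩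
  have h1 := csc b U r (by rw [hcard]; exact hp)
  rw [hcard] at h1
  refine h1.trans (Nat.mul_le_mul le_rfl ?_)
  refine Finset.card_le_card_of_injOn (fun q => (⟨u, q⟩ : LL B)) ?_ ?_
  · intro q hq
    have hq' : q ∈ U.filter (fun q => ∃ t, b.len t ≤ 1 ∧ q * t ∉ U) := hq
    obtain ⟨hq1, t, ht, hqt⟩ := Finset.mem_filter.1 hq'
    have : (⟨u, q⟩ : LL B) ∈ (bdW b F).filter (fun Y => Y.u = u) := by
      rw [Finset.mem_filter, bdW, Finset.mem_filter]
      refine ⟨⟨(hmem q).1 hq1, LL.mv t, (b.wr_mv_le t).trans ht, ?_⟩, rfl⟩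
      have e : (⟨u, q⟩ : LL B) * LL.mv t = ⟨u, q * t⟩ := by
        refine LL.ext ?_ ?_
        · rw [LL.mul_mv_u]
        · rw [LL.mul_mv_q]
      rw [e]
      intro h
      exact hqt ((hmem _).2 h)
    exact this
  · intro q _ q' _ h
    exact (LL.mk.inj h).2

/-- the poor part -/
theorem poor_le (b : NG B) (F : Finset (LL B)) (r : ℕ) :
    (F.filter (fun Y => poor b r F Y.u)).card ≤ 2 * r * (bdW b F).card := by
  set PF := F.filter (fun Y => poor b r F Y.u) with hPF
  have h1 : PF.card = ∑ u ∈ F.image (fun Y => Y.u), (PF.filter (fun Y => Y.u = u)).card :=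
    Finset.card_eq_sum_card_fiberwise (fun Y hY => Finset.mem_coe.2 (Finset.mem_image.2
      ⟨Y, (Finset.mem_filter.1 (Finset.mem_coe.1 hY)).1, rfl⟩))
  have h2 : (bdW b F).card = ∑ u ∈ F.image (fun Y => Y.u),
      ((bdW b F).filter (fun Y => Y.u = u)).card :=
    Finset.card_eq_sum_card_fiberwise (fun Y hY => Finset.mem_coe.2 (Finset.mem_image.2
      ⟨Y, (Finset.mem_filter.1 (Finset.mem_coe.1 hY)).1, rfl⟩))
  rw [h1, h2, Finset.mul_sum]
  refine Finset.sum_le_sum fun u _ => ?_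
  by_cases hp : poor b r F u
  · refine le_trans (Finset.card_le_card ?_) (poor_fib b F r u hp)
    intro Y hY
    obtain ⟨h3, h4⟩ := Finset.mem_filter.1 hY
    exact Finset.mem_filter.2 ⟨(Finset.mem_filter.1 h3).1, h4⟩
  · have h3 : PF.filter (fun Y => Y.u = u) = ∅ := by
      rw [Finset.filter_eq_empty_iff]
      intro Y hY h4
      exact hp (h4 ▸ (Finset.mem_filter.1 hY).2)
    rw [h3, Finset.card_empty]
    exact Nat.zero_le _

end WIsoAux

open WIsoAux in
theorem w_iso (b : NG B) (F : Finset (LL B)) (hF : F.Nonempty) (r : ℕ) (hr : 1 ≤ r)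
    (h : 32 * r * (bdW b F).card ≤ F.card) : 27 * (b.V r : ℝ) ≤ 64 * Real.logb 2 F.card := by
  set PF := F.filter (fun Y => poor b r F Y.u) with hPF
  set Gd := F.filter (fun Y => ¬ poor b r F Y.u ∧ Y * LL.lamp {1} ∈ F ∧
    ¬ poor b r F (Y * LL.lamp {1}).u) with hGd
  set C := F.image (fun Y => Y.u) with hC
  set Cr := C.filter (fun u => ¬ poor b r F u) with hCr
  set Ω := F.image (fun Y => Y.q) with hΩ
  have hP : PF.card ≤ 2 * r * (bdW b F).card := poor_le b F r
  -- (2)
  have hcov : F.card ≤ Gd.card + PF.card + (bdW b F).card + PF.card := by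
    set Q := F.filter (fun Y => Y * LL.lamp {1} ∈ PF) with hQ
    have hQc : Q.card ≤ PF.card := by
      refine Finset.card_le_card_of_injOn (fun Y => Y * LL.lamp {1}) ?_ ?_
      · intro Y hY
        exact (Finset.mem_filter.1 (Finset.mem_coe.1 hY)).2
      · intro X _ Y _ hXY
        exact mul_right_cancel hXY
    have hsub : F ⊆ ((Gd ∪ PF) ∪ bdW b F) ∪ Q := by
      intro Y hY
      by_cases h1 : poor b r F Y.u
      · exact Finset.mem_union_left _ (Finset.mem_union_left _ (Finset.mem_union_right _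
          (Finset.mem_filter.2 ⟨hY, h1⟩)))
      by_cases h2 : Y * LL.lamp {1} ∈ F
      · by_cases h3 : poor b r F (Y * LL.lamp {1}).u
        · exact Finset.mem_union_right _ (Finset.mem_filter.2 ⟨hY, Finset.mem_filter.2 ⟨h2, h3⟩⟩)
        · exact Finset.mem_union_left _ (Finset.mem_union_left _ (Finset.mem_union_left _
            (Finset.mem_filter.2 ⟨hY, h1, h2, h3⟩)))
      · refine Finset.mem_union_left _ (Finset.mem_union_right _ ?_)
        exact Finset.mem_filter.2 ⟨hY, LL.lamp {1}, b.wr_lamp_one, h2⟩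
    have h1 := Finset.card_le_card hsub
    have h2 := Finset.card_union_le ((Gd ∪ PF) ∪ bdW b F) Q
    have h3 := Finset.card_union_le (Gd ∪ PF) (bdW b F)
    have h4 := Finset.card_union_le Gd PF
    omega
  have hP16 : 16 * PF.card ≤ F.card := by
    calc 16 * PF.card ≤ 16 * (2 * r * (bdW b F).card) := Nat.mul_le_mul le_rfl hP
      _ = 32 * r * (bdW b F).card := by ring
      _ ≤ F.card := h
  have hb32 : 32 * (bdW b F).card ≤ F.card := by
    calc 32 * (bdW b F).card = 32 * 1 * (bdW b F).card := by ring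
      _ ≤ 32 * r * (bdW b F).card := Nat.mul_le_mul (Nat.mul_le_mul le_rfl hr) le_rfl
      _ ≤ F.card := h
  have h27 : 27 * F.card ≤ 32 * Gd.card := by omega
  -- (3)
  have h3 : Gd.card ≤ ∑ u ∈ Cr, (Ω.filter (fun x => u ∆ {x} ∈ Cr)).card := by
    have h1 : Gd.card = ∑ u ∈ Cr, (Gd.filter (fun Y => Y.u = u)).card := by
      refine Finset.card_eq_sum_card_fiberwise (fun Y hY => ?_)
      obtain ⟨hY1, hY2, hY3, hY4⟩ := Finset.mem_filter.1 (Finset.mem_coe.1 hY)
      exact Finset.mem_coe.2 (Finset.mem_filter.2 ⟨Finset.mem_image.2 ⟨Y, hY1, rfl⟩, hY2⟩)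
    rw [h1]
    refine Finset.sum_le_sum fun u _ => ?_
    refine Finset.card_le_card_of_injOn (fun Y => Y.q) ?_ ?_
    · intro Y hY
      obtain ⟨hY0, hYu⟩ := Finset.mem_filter.1 (Finset.mem_coe.1 hY)
      obtain ⟨hY1, hY2, hY3, hY4⟩ := Finset.mem_filter.1 hY0
      have e : (Y * LL.lamp {1}).u = u ∆ {Y.q} := by
        rw [LL.mul_lamp_u, hYu, Finset.smul_finset_singleton, smul_eq_mul, mul_one]
      refine Finset.mem_coe.2 (Finset.mem_filter.2 ⟨Finset.mem_image.2 ⟨Y, hY1, rfl⟩, ?_⟩)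
      show u ∆ {Y.q} ∈ Cr
      rw [← e]
      exact Finset.mem_filter.2 ⟨Finset.mem_image.2 ⟨_, hY3, rfl⟩, hY4⟩
    · intro X hX Y hY hXY
      have h1 := (Finset.mem_filter.1 (Finset.mem_coe.1 hX)).2
      have h2 := (Finset.mem_filter.1 (Finset.mem_coe.1 hY)).2
      exact LL.ext (h1.trans h2.symm) hXY
  have h4 : (Gd.card : ℝ) ≤ Cr.card * Real.logb 2 Cr.card :=
    le_trans (by exact_mod_cast h3) (edge_iso Ω Cr)
  -- (4)
  have h5 : Cr.card * b.V r ≤ 2 * F.card := by
    have h6 : F.card = ∑ u ∈ C, (fib F u).card :=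
      Finset.card_eq_sum_card_fiberwise (fun Y hY => Finset.mem_coe.2 (Finset.mem_image.2
        ⟨Y, Finset.mem_coe.1 hY, rfl⟩))
    have h7 : ∑ u ∈ Cr, (fib F u).card ≤ ∑ u ∈ C, (fib F u).card :=
      Finset.sum_le_sum_of_subset (Finset.filter_subset _ _)
    have h8 : Cr.card * b.V r ≤ ∑ u ∈ Cr, 2 * (fib F u).card := by
      rw [← smul_eq_mul, ← Finset.sum_const]
      refine Finset.sum_le_sum fun u hu => ?_
      have h9 : ¬ poor b r F u := (Finset.mem_filter.1 hu).2
      unfold poor at h9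
      omega
    rw [← Finset.mul_sum] at h8
    omega
  have hCr0 : 0 < Cr.card := by
    rw [Finset.card_pos]
    by_contra hne
    rw [Finset.not_nonempty_iff_eq_empty] at hne
    have h6 : F ⊆ PF := by
      intro Y hY
      by_contra hY2
      have h7 : ¬ poor b r F Y.u := fun h8 => hY2 (Finset.mem_filter.2 ⟨hY, h8⟩)
      have h8 : Y.u ∈ Cr := Finset.mem_filter.2 ⟨Finset.mem_image.2 ⟨Y, hY, rfl⟩, h7⟩
      rw [hne] at h8
      exact absurd h8 (Finset.notMem_empty _)
    have h9 := Finset.card_le_card h6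
    have h10 := hF.card_pos
    omega
  have hCrF : Cr.card ≤ F.card :=
    (Finset.card_le_card (Finset.filter_subset _ _)).trans Finset.card_image_le
  have hCr0' : (0 : ℝ) < Cr.card := by exact_mod_cast hCr0
  have h6 : 27 * (b.V r : ℝ) ≤ 64 * Real.logb 2 Cr.card := by
    have e1 : (27 : ℝ) * F.card ≤ 32 * Gd.card := by exact_mod_cast h27
    have e2 : (Cr.card : ℝ) * b.V r ≤ 2 * F.card := by exact_mod_cast h5
    have e3 : (Cr.card : ℝ) * (27 * (b.V r : ℝ)) ≤ Cr.card * (64 * Real.logb 2 Cr.card) := by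
      nlinarith
    exact le_of_mul_le_mul_left e3 hCr0'
  refine h6.trans (mul_le_mul_of_nonneg_left ?_ (by norm_num))
  exact Real.logb_le_logb_of_le (by norm_num) hCr0' (by exact_mod_cast hCrF)

end LQ

end
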