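import Pool.Agent.Lib.LQ.Folner
import Pool.Agent.Lib.LQ.WIso
import Pool.Agent.Lib.LQ.QDFacts

/-!
Comparison of growth functions from the isoperimetry of the lamplighter group (MP_9bf8b0_al).
-/

set_option autoImplicit false

open Classical
open scoped Pointwise symmDiff

noncomputable section

namespace LQ

open LL

variable {A B : Type} [Group A] [Group B] {a : NG A} {b : NG B} {K : ℕ} {ψ : LL A → LL B}

namespace CompareAux

theorem path_lemma (a : NG A) (F : Finset (LL A)) (n : ℕ) (X X' : LL A) (hX : X ∈ F)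
    (hX' : X' ∉ F) (h : a.wr.len (X⁻¹ * X') ≤ n) :
    ∃ X1 ∈ bdW a F, a.wr.len (X⁻¹ * X1) ≤ n := by
  induction n generalizing X' with
  | zero =>
    have h1 := a.wr.eq_one _ (Nat.le_zero.1 h)
    rw [inv_mul_eq_one] at h1
    exact absurd (h1 ▸ hX) hX'
  | succ n ih =>
    by_cases hn : a.wr.len (X⁻¹ * X') ≤ n
    · obtain ⟨X1, h1, h2⟩ := ih X' hX' hn
      exact ⟨X1, h1, by omega⟩
    · obtain ⟨y, t, e, hy, ht⟩ := a.wr.split (X⁻¹ * X') n (by omega)
      by_cases hXy : X * y ∈ F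
      · refine ⟨X * y, ?_, by rw [inv_mul_cancel_left]; omega⟩
        rw [bdW, Finset.mem_filter]
        refine ⟨hXy, t, ht, ?_⟩
        rw [mul_assoc, ← e, mul_inv_cancel_left]
        exact hX'
      · obtain ⟨X1, h1, h2⟩ := ih (X * y) hXy (by rw [inv_mul_cancel_left]; omega)
        exact ⟨X1, h1, by omega⟩

/-- the ball about `x` -/
def bl {G : Type} [Group G] (c : NG G) (x : G) (n : ℕ) : Finset G :=
  (c.ball n).image (fun g => x * g)

theorem mem_bl {G : Type} [Group G] (c : NG G) (x y : G) (n : ℕ) :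
    y ∈ bl c x n ↔ c.len (x⁻¹ * y) ≤ n := by
  rw [bl, Finset.mem_image]
  constructor
  · rintro ⟨g, hg, rfl⟩
    rw [inv_mul_cancel_left]
    exact (c.mem_ball n g).1 hg
  · intro h
    exact ⟨x⁻¹ * y, (c.mem_ball n _).2 h, by rw [mul_inv_cancel_left]⟩

theorem card_bl_le {G : Type} [Group G] (c : NG G) (x : G) (n : ℕ) : (bl c x n).card ≤ c.V n :=
  Finset.card_image_le

end CompareAux

open CompareAux

theorem compare (h : QD a b K ψ) (M r s : ℕ) (hM : a.wr.V 1 ≤ M) (hM' : b.wr.V 1 ≤ M) (hr : 1 ≤ r)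
    (hs : 32 * r * M ^ (K * (2 * K + 1) + 3 * K) * a.sph s ≤ a.V s) :
    27 * (b.V r : ℝ) ≤ 64 * (a.V s + Real.logb 2 (a.V s) + K * Real.logb 2 M) := by
  set F := folF a s with hF
  set K2 := K * (2 * K + 1) + K with hK2
  have hM1 : 1 ≤ M := (a.wr.V_pos 1).trans hM
  have hVa : ∀ n, a.wr.V n ≤ M ^ n := fun n =>
    (a.wr.V_le_pow n).trans (Nat.pow_le_pow_left hM n)
  have hVb : ∀ n, b.wr.V n ≤ M ^ n := fun n =>
    (b.wr.V_le_pow n).trans (Nat.pow_le_pow_left hM' n)
  set A' := F.biUnion (fun X => bl b.wr (ψ X) K) with hA'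
  have memA' : ∀ Y, Y ∈ A' ↔ ∃ X ∈ F, b.wr.len ((ψ X)⁻¹ * Y) ≤ K := by
    intro Y
    rw [hA', Finset.mem_biUnion]
    simp only [mem_bl]
  have h1 : A'.card ≤ F.card * M ^ K :=
    (Finset.card_biUnion_le_card_mul _ _ _ fun X _ => (card_bl_le b.wr (ψ X) K).trans (hVb K))
  have hsub : F.image ψ ⊆ A' := by
    intro Y hY
    obtain ⟨X, hX, rfl⟩ := Finset.mem_image.1 hY
    rw [memA']
    exact ⟨X, hX, by rw [inv_mul_cancel, b.wr.len_one]; exact Nat.zero_le _⟩
  have h2 : F.card ≤ M ^ K * A'.card := by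
    have h3 := Finset.card_le_mul_card_image (f := ψ) F (M ^ K) (fun Y _ => by
      refine (h.fib Y _ fun X hX => ?_).trans (hVa K)
      exact (Finset.mem_filter.1 hX).2)
    exact h3.trans (Nat.mul_le_mul_left _ (Finset.card_le_card hsub))
  have h3 : bdW b A' ⊆ (bdW a F).biUnion (fun X1 => (bl a.wr X1 K2).biUnion
      (fun X => bl b.wr (ψ X) K)) := by
    intro Y hY
    rw [bdW, Finset.mem_filter] at hY
    obtain ⟨hY, g, hg, hYg⟩ := hY
    obtain ⟨X, hX, hXY⟩ := (memA' Y).1 hY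
    obtain ⟨X', hX'⟩ := h.q3 (Y * g)
    have hX'F : X' ∉ F := fun hc => hYg ((memA' _).2 ⟨X', hc, hX'⟩)
    have h4 : b.wr.len ((ψ X)⁻¹ * ψ X') ≤ 2 * K + 1 := by
      have e1 := b.wr.tri (ψ X) Y (ψ X')
      have e2 := b.wr.tri Y (Y * g) (ψ X')
      rw [inv_mul_cancel_left, b.wr.len_symm (Y * g)] at e2
      omega
    have h5 : a.wr.len (X⁻¹ * X') ≤ K2 := by
      refine (h.q2 X X').trans ?_
      rw [hK2]
      exact Nat.add_le_add_right (Nat.mul_le_mul_left K h4) K
    obtain ⟨X1, hX1, hX1'⟩ := path_lemma a F K2 X X' hX hX'F h5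
    rw [Finset.mem_biUnion]
    refine ⟨X1, hX1, ?_⟩
    rw [Finset.mem_biUnion]
    refine ⟨X, ?_, (mem_bl _ _ _ _).2 hXY⟩
    rw [mem_bl, a.wr.len_symm]
    exact hX1'
  have h4 : (bdW b A').card ≤ (bdW a F).card * (M ^ K2 * M ^ K) := by
    refine (Finset.card_le_card h3).trans (Finset.card_biUnion_le_card_mul _ _ _ fun X1 _ => ?_)
    refine (Finset.card_biUnion_le_card_mul _ _ (M ^ K) fun X _ =>
      (card_bl_le b.wr (ψ X) K).trans (hVb K)).trans ?_
    exact Nat.mul_le_mul_right _ ((card_bl_le a.wr X1 K2).trans (hVa K2))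
  have hFc : F.card = 2 ^ a.V s * a.V s := folF_card a s
  have hFb : (bdW a F).card ≤ 2 ^ a.V s * a.sph s := folF_bd a s
  have hMK : 0 < M ^ K := pow_pos hM1 K
  have h5 : 32 * r * (bdW b A').card ≤ A'.card := by
    refine Nat.le_of_mul_le_mul_left ?_ hMK
    calc M ^ K * (32 * r * (bdW b A').card)
        ≤ M ^ K * (32 * r * ((2 ^ a.V s * a.sph s) * (M ^ K2 * M ^ K))) := by
          gcongr
          exact h4.trans (Nat.mul_le_mul_right _ hFb)
      _ = 2 ^ a.V s * (32 * r * M ^ (K * (2 * K + 1) + 3 * K) * a.sph s) := by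
          have e : K * (2 * K + 1) + 3 * K = K + (K2 + K) := by rw [hK2]; ring
          rw [e, pow_add, pow_add]
          ring
      _ ≤ 2 ^ a.V s * a.V s := Nat.mul_le_mul_left _ hs
      _ = F.card := hFc.symm
      _ ≤ M ^ K * A'.card := h2
  have hne : A'.Nonempty := by
    rw [← Finset.card_pos]
    have hFpos : 0 < F.card := by
      rw [hFc]
      exact Nat.mul_pos (pow_pos (by norm_num) _) (a.V_pos s)
    rcases Nat.eq_zero_or_pos A'.card with h0 | h0
    · rw [h0, mul_zero] at h2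
      omega
    · exact h0
  have h6 := w_iso b A' hne r hr h5
  refine h6.trans ?_
  have hVs : (1 : ℝ) ≤ a.V s := by exact_mod_cast a.V_pos s
  have hM1' : (1 : ℝ) ≤ M := by exact_mod_cast hM1
  have h7 : (A'.card : ℝ) ≤ 2 ^ a.V s * a.V s * M ^ K := by
    have : A'.card ≤ 2 ^ a.V s * a.V s * M ^ K := by rw [← hFc]; exact h1
    exact_mod_cast this
  have h8 : Real.logb 2 A'.card ≤ Real.logb 2 (2 ^ a.V s * a.V s * M ^ K) := by
    apply Real.logb_le_logb_of_le (by norm_num) _ h7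
    exact_mod_cast Finset.card_pos.2 hne
  have h9 : Real.logb 2 (2 ^ a.V s * a.V s * M ^ K : ℝ) =
      a.V s + Real.logb 2 (a.V s) + K * Real.logb 2 M := by
    rw [Real.logb_mul (by positivity) (by positivity), Real.logb_mul (by positivity) (by positivity),
      Real.logb_pow, Real.logb_pow, Real.logb_self_eq_one (by norm_num), mul_one]
  rw [← h9]
  linarith

end LQ

end
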