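import Pool.Agent.Lib.LQ.Defs2

/-
Module Conc (library LQ, MP_9bf8b0_al).
Concentration of measure on the cube (Talagrand form).
Proof. If F = ∅ the left side is 0.  Let F be nonempty and dist n := inf over m in F of (n ∆ m).card (a natural number;
e.g. sInf {k | exists m in F, (n ∆ m).card = k}, or Finset.inf').
MAIN CLAIM: for every real t >= 0, for all Ω and all nonempty F with members in Ω.powerset:
   (∑ n in Ω.powerset, exp(t * dist_F n)) * F.card <= (2 + exp t + exp(-t))^Ω.card.
Induction on Ω: Ω = ∅: F = {∅}, dist = 0, 1 <= 1.  Step Ω = insert x Ω': F0 := {m in F : x not in m} and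
F1 := {m.erase x : m in F, x in m}, both families of subsets of Ω', F.card = F0.card + F1.card.
Sum over n' in Ω'.powerset of exp(t dist(n')) + exp(t dist(insert x n')) (Finset.powerset_insert, disjoint).
dist_F(n') <= dist_{F0}(n') if F0 nonempty, dist_F(n') <= 1 + dist_{F1}(n') if F1 nonempty; dist_F(insert x n') <= dist_{F1}(n'),
<= 1 + dist_{F0}(n').  Let C = (2+e^t+e^-t)^Ω'.card, u = F0.card, v = F1.card, say u >= v (other case symmetric), u > 0.
If v > 0 the sum is <= C/u + min(C/v, e^t C/u) by induction; if v = 0 it is <= C/u + e^t C/u.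
With r = v/u in [0,1]: (sum) (u+v) <= C (1+r)(1+min(1/r, e^t)) <= C (2+e^t+e^-t): if r >= e^-t use (1+r)(1+1/r) = 2+r+1/r
and r + 1/r <= e^-t + e^t on [e^-t,1]; if r <= e^-t use (1+r)(1+e^t) <= (1+e^-t)(1+e^t).
FROM THE CLAIM: 2+e^t+e^-t = 4 cosh(t/2)^2 <= 4 exp(t^2/4) (Real.cosh_le_exp_half_sq).  The sets n with all (n ∆ m).card >= h have
dist >= h, so #bad * exp(t h) * F.card <= 4^N exp(N t^2/4).  Take t = 2h/N (N > 0): exponent N t^2/4 - t h = -h^2/N.
If N = 0: then F = {∅}, the left side is <= 1 and the right side is exp(-(h^2/0)) = exp 0 = 1.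
-/

set_option autoImplicit false

open Classical
open scoped Pointwise symmDiff

noncomputable section

namespace LQ

open LL

namespace ConcAux

theorem card_a {α : Type} (x : α) (n m : Finset α) :
    ((((insert x n) ∆ m).card : ℕ) : ℝ) ≤ (n ∆ m).card + 1 := by
  have h : (insert x n) ∆ m ⊆ insert x (n ∆ m) := by
    intro y hy
    simp only [Finset.mem_symmDiff, Finset.mem_insert] at hy ⊢
    tauto
  exact_mod_cast (Finset.card_le_card h).trans (Finset.card_insert_le _ _)

theorem card_b {α : Type} (x : α) (n m : Finset α) :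
    (((n ∆ m).card : ℕ) : ℝ) ≤ (n ∆ (m.erase x)).card + 1 := by
  have h : n ∆ m ⊆ insert x (n ∆ (m.erase x)) := by
    intro y hy
    simp only [Finset.mem_symmDiff, Finset.mem_insert, Finset.mem_erase] at hy ⊢
    tauto
  exact_mod_cast (Finset.card_le_card h).trans (Finset.card_insert_le _ _)

theorem card_c {α : Type} {x : α} (n : Finset α) {m : Finset α} (hx : x ∈ m) :
    ((((insert x n) ∆ m).card : ℕ) : ℝ) ≤ (n ∆ (m.erase x)).card := by
  have h : (insert x n) ∆ m ⊆ n ∆ (m.erase x) := by
    intro y hy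
    simp only [Finset.mem_symmDiff, Finset.mem_insert, Finset.mem_erase] at hy ⊢
    by_cases hyx : y = x
    · subst hyx
      tauto
    · tauto
  exact_mod_cast Finset.card_le_card h

theorem alg {a b u v C s : ℝ} (hb : 0 ≤ b) (hv : 0 ≤ v) (hC : 0 < C)
    (hs : 0 < s) (h1 : a * u ≤ C) (h2 : a * v ≤ s * C) (h3 : b * v ≤ C) (h4 : b * u ≤ s * C) :
    (a + b) * (u + v) ≤ (2 + s + s⁻¹) * C := by
  have h5 : (a * v) * (b * u) ≤ C * C := by
    calc (a * v) * (b * u) = (a * u) * (b * v) := by ring
      _ ≤ C * C := mul_le_mul h1 h3 (by positivity) hC.le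
  have h6 : 0 ≤ (s * C - a * v) * (s * C - b * u) := mul_nonneg (by linarith) (by linarith)
  have h7 : (s * C) * (a * v + b * u) ≤ (s * C) * ((s + s⁻¹) * C) := by
    have e1 : (s * C) * ((s + s⁻¹) * C) = s * C * (s * C) + C * C := by
      field_simp
    rw [e1]
    nlinarith
  have h8 : a * v + b * u ≤ (s + s⁻¹) * C := le_of_mul_le_mul_left h7 (by positivity)
  nlinarith

theorem claim {α : Type} (t : ℝ) (ht : 0 ≤ t) (Ω : Finset α) :
    ∀ (F : Finset (Finset α)) (D : Finset α → ℝ), (∀ m ∈ F, m ⊆ Ω) →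
      (∀ n ⊆ Ω, ∀ m ∈ F, D n ≤ (n ∆ m).card) →
      (∑ n ∈ Ω.powerset, Real.exp (t * D n)) * F.card ≤
        (2 + Real.exp t + Real.exp (-t)) ^ Ω.card := by
  induction Ω using Finset.induction_on with
  | empty =>
    intro F D hF hD
    rw [Finset.powerset_empty, Finset.sum_singleton, Finset.card_empty, pow_zero]
    rcases F.eq_empty_or_nonempty with h0 | ⟨m, hm⟩
    · rw [h0]
      simp
    · have h1 : F ⊆ {∅} := by
        intro m' hm'
        rw [Finset.mem_singleton]
        exact Finset.subset_empty.mp (hF m' hm')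
      have h2 : F.card ≤ 1 := by
        have := Finset.card_le_card h1
        simpa using this
      have h3 := hD ∅ (Finset.Subset.refl _) m hm
      have h4 : m = ∅ := Finset.subset_empty.mp (hF m hm)
      rw [h4] at h3
      simp only [symmDiff_self, Finset.bot_eq_empty, Finset.card_empty, Nat.cast_zero] at h3
      have h5 : Real.exp (t * D ∅) ≤ 1 := by
        rw [Real.exp_le_one_iff]
        exact mul_nonpos_of_nonneg_of_nonpos ht h3
      have h6 : ((F.card : ℕ) : ℝ) ≤ 1 := by exact_mod_cast h2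
      calc Real.exp (t * D ∅) * F.card ≤ 1 * 1 :=
            mul_le_mul h5 h6 (Nat.cast_nonneg _) (by norm_num)
        _ = 1 := by norm_num
  | insert x Ω' hx ih =>
    intro F D hF hD
    rw [Finset.sum_powerset_insert hx, Finset.card_insert_of_notMem hx, pow_succ']
    set F0 : Finset (Finset α) := F.filter (fun m => x ∉ m) with hF0
    set G : Finset (Finset α) := F.filter (fun m => x ∈ m) with hG
    set F1 : Finset (Finset α) := G.image (fun m => m.erase x) with hF1
    have hcG : F1.card = G.card := by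
      rw [hF1]
      refine Finset.card_image_of_injOn fun m hm m' hm' hmm => ?_
      have a1 : x ∈ m := (Finset.mem_filter.mp (Finset.mem_coe.mp hm)).2
      have a2 : x ∈ m' := (Finset.mem_filter.mp (Finset.mem_coe.mp hm')).2
      have hmm' : m.erase x = m'.erase x := hmm
      rw [← Finset.insert_erase a1, hmm', Finset.insert_erase a2]
    have hcard : (F.card : ℝ) = F0.card + F1.card := by
      have h1 := Finset.card_filter_add_card_filter_not (s := F) (fun m => x ∈ m)
      rw [hcG]
      have h2 : F.card = F0.card + G.card := by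
        rw [hF0, hG]
        omega
      exact_mod_cast h2
    have s0 : ∀ m ∈ F0, m ⊆ Ω' := by
      intro m hm
      rw [hF0, Finset.mem_filter] at hm
      exact (Finset.subset_insert_iff_of_notMem hm.2).mp (hF m hm.1)
    have s1 : ∀ m ∈ F1, m ⊆ Ω' := by
      intro m hm
      rw [hF1, Finset.mem_image] at hm
      obtain ⟨m', hm', rfl⟩ := hm
      rw [hG, Finset.mem_filter] at hm'
      exact Finset.subset_insert_iff.mp (hF m' hm'.1)
    set C : ℝ := (2 + Real.exp t + Real.exp (-t)) ^ Ω'.card with hC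
    have hC0 : 0 < C := by
      have := Real.exp_pos t
      have := Real.exp_pos (-t)
      positivity
    set a : ℝ := ∑ n ∈ Ω'.powerset, Real.exp (t * D n) with ha
    set b : ℝ := ∑ n ∈ Ω'.powerset, Real.exp (t * D (insert x n)) with hb
    have ha0 : 0 ≤ a := Finset.sum_nonneg fun n _ => (Real.exp_pos _).le
    have hb0 : 0 ≤ b := Finset.sum_nonneg fun n _ => (Real.exp_pos _).le
    have shift : ∀ (D' : Finset α → ℝ), (∑ n ∈ Ω'.powerset, Real.exp (t * (D' n - 1))) =
        Real.exp (-t) * ∑ n ∈ Ω'.powerset, Real.exp (t * D' n) := by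
      intro D'
      rw [Finset.mul_sum]
      refine Finset.sum_congr rfl fun n _ => ?_
      rw [← Real.exp_add]
      congr 1
      ring
    have hee : Real.exp (-t) * Real.exp t = 1 := by
      rw [← Real.exp_add, neg_add_cancel, Real.exp_zero]
    have unshift : ∀ y w : ℝ, Real.exp (-t) * y * w ≤ C → y * w ≤ Real.exp t * C := by
      intro y w h
      have h1 := mul_le_mul_of_nonneg_left h (Real.exp_pos t).le
      calc y * w = (Real.exp (-t) * Real.exp t) * (y * w) := by rw [hee, one_mul]
        _ = Real.exp t * (Real.exp (-t) * y * w) := by ring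
        _ ≤ _ := h1
    have sub1 : ∀ n ⊆ Ω', n ⊆ insert x Ω' := fun n hn => hn.trans (Finset.subset_insert _ _)
    have sub2 : ∀ n ⊆ Ω', insert x n ⊆ insert x Ω' := fun n hn => Finset.insert_subset_insert _ hn
    have h1 : a * F0.card ≤ C := ih F0 D s0 fun n hn m hm => by
      rw [hF0, Finset.mem_filter] at hm
      exact hD n (sub1 n hn) m hm.1
    have h2 : a * F1.card ≤ Real.exp t * C := by
      apply unshift
      rw [ha, ← shift]
      refine ih F1 (fun n => D n - 1) s1 fun n hn m hm => ?_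
      rw [hF1, Finset.mem_image] at hm
      obtain ⟨m', hm', rfl⟩ := hm
      rw [hG, Finset.mem_filter] at hm'
      have e1 := hD n (sub1 n hn) m' hm'.1
      have e2 := card_b x n m'
      linarith
    have h3 : b * F1.card ≤ C := ih F1 (fun n => D (insert x n)) s1 fun n hn m hm => by
      rw [hF1, Finset.mem_image] at hm
      obtain ⟨m', hm', rfl⟩ := hm
      rw [hG, Finset.mem_filter] at hm'
      have e1 := hD (insert x n) (sub2 n hn) m' hm'.1
      have e2 := card_c n hm'.2
      linarith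
    have h4 : b * F0.card ≤ Real.exp t * C := by
      apply unshift
      rw [hb, ← shift]
      refine ih F0 (fun n => D (insert x n) - 1) s0 fun n hn m hm => ?_
      rw [hF0, Finset.mem_filter] at hm
      have e1 := hD (insert x n) (sub2 n hn) m hm.1
      have e2 := card_a x n m
      linarith
    rw [hcard, Real.exp_neg]
    exact alg hb0 (Nat.cast_nonneg _) hC0 (Real.exp_pos t) h1 h2 h3 h4

theorem cosh_bd (t : ℝ) : 2 + Real.exp t + Real.exp (-t) ≤ 4 * Real.exp (t ^ 2 / 4) := by
  have h1 := Real.cosh_le_exp_half_sq (t / 2)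
  have h0 : 0 < Real.cosh (t / 2) := Real.cosh_pos _
  have h2 : Real.cosh (t / 2) ^ 2 ≤ Real.exp ((t / 2) ^ 2 / 2) ^ 2 := pow_le_pow_left₀ h0.le h1 2
  have h3 : Real.exp ((t / 2) ^ 2 / 2) ^ 2 = Real.exp (t ^ 2 / 4) := by
    rw [← Real.exp_nat_mul]
    congr 1
    push_cast
    ring
  have h4 : 2 + Real.exp t + Real.exp (-t) = 4 * Real.cosh (t / 2) ^ 2 := by
    rw [Real.cosh_eq]
    have e1 : Real.exp t = Real.exp (t / 2) * Real.exp (t / 2) := by
      rw [← Real.exp_add]; congr 1; ring
    have e2 : Real.exp (-t) = Real.exp (-(t / 2)) * Real.exp (-(t / 2)) := by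
      rw [← Real.exp_add]; congr 1; ring
    have e3 : Real.exp (t / 2) * Real.exp (-(t / 2)) = 1 := by
      rw [← Real.exp_add, add_neg_cancel, Real.exp_zero]
    rw [e1, e2]
    nlinarith
  rw [h4, ← h3]
  linarith

end ConcAux

open ConcAux

theorem conc {α : Type} (Ω : Finset α) (F : Finset (Finset α)) (hF : ∀ n, n ∈ F → n ⊆ Ω) (h : ℕ) :
    ((Ω.powerset.filter (fun n => ∀ m, m ∈ F → h ≤ (n ∆ m).card)).card : ℝ) * F.card
      ≤ 4 ^ Ω.card * Real.exp (-((h : ℝ) ^ 2 / (Ω.card : ℝ))) := by
  set N : ℕ := Ω.card with hN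
  set t : ℝ := 2 * h / N with ht
  have ht0 : 0 ≤ t := by positivity
  set bad := Ω.powerset.filter (fun n => ∀ m, m ∈ F → h ≤ (n ∆ m).card) with hbad
  have h1 := claim t ht0 Ω F (fun n => if (∀ m, m ∈ F → h ≤ (n ∆ m).card) then (h : ℝ) else 0) hF
    (fun n _ m hm => by
      split_ifs with h2
      · exact_mod_cast h2 m hm
      · exact Nat.cast_nonneg _)
  have h2 : (bad.card : ℝ) * Real.exp (t * h) ≤ ∑ n ∈ Ω.powerset,
      Real.exp (t * (if (∀ m, m ∈ F → h ≤ (n ∆ m).card) then (h : ℝ) else 0)) := by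
    calc (bad.card : ℝ) * Real.exp (t * h) = ∑ n ∈ bad, Real.exp (t * h) := by
          rw [Finset.sum_const, nsmul_eq_mul]
      _ = ∑ n ∈ bad, Real.exp (t * (if (∀ m, m ∈ F → h ≤ (n ∆ m).card) then (h : ℝ) else 0)) := by
          refine Finset.sum_congr rfl fun n hn => ?_
          rw [hbad, Finset.mem_filter] at hn
          rw [if_pos hn.2]
      _ ≤ _ := by
          refine Finset.sum_le_sum_of_subset_of_nonneg (Finset.filter_subset _ _) fun n _ _ => ?_
          exact (Real.exp_pos _).le
  have h3 : (bad.card : ℝ) * Real.exp (t * h) * F.card ≤ (4 * Real.exp (t ^ 2 / 4)) ^ N := by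
    refine (mul_le_mul_of_nonneg_right h2 (Nat.cast_nonneg _)).trans (h1.trans ?_)
    refine pow_le_pow_left₀ ?_ (cosh_bd t) _
    have := Real.exp_pos t
    have := Real.exp_pos (-t)
    linarith
  rw [mul_pow, ← Real.exp_nat_mul] at h3
  have h4 : Real.exp ((N : ℝ) * (t ^ 2 / 4)) * Real.exp (-(t * h)) =
      Real.exp (-((h : ℝ) ^ 2 / (N : ℝ))) := by
    rw [← Real.exp_add]
    congr 1
    rcases Nat.eq_zero_or_pos N with h0 | h0
    · rw [ht, h0]
      simp
    · have h5 : (N : ℝ) ≠ 0 := by exact_mod_cast h0.ne'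
      rw [ht]
      field_simp
      ring
  have h5 : Real.exp (t * h) * Real.exp (-(t * h)) = 1 := by
    rw [← Real.exp_add, add_neg_cancel, Real.exp_zero]
  calc (bad.card : ℝ) * F.card = ((bad.card : ℝ) * Real.exp (t * h) * F.card) * Real.exp (-(t * h)) := by
        calc (bad.card : ℝ) * F.card = (bad.card : ℝ) * F.card * (Real.exp (t * h) * Real.exp (-(t * h))) := by
              rw [h5, mul_one]
          _ = _ := by ring
    _ ≤ (4 ^ N * Real.exp ((N : ℝ) * (t ^ 2 / 4))) * Real.exp (-(t * h)) :=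
        mul_le_mul_of_nonneg_right h3 (Real.exp_pos _).le
    _ = 4 ^ N * Real.exp (-((h : ℝ) ^ 2 / (N : ℝ))) := by rw [mul_assoc, h4]

end LQ

end
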