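import Pool.Agent.Lib.LQ.Basic

/-!
Counting good configurations (MP_9bf8b0_al).
-/

set_option autoImplicit false

open Classical
open scoped Pointwise symmDiff

noncomputable section

namespace LQ

open LL

theorem CountGoodAux.card_small {α : Type} (S : Finset α) (m : ℕ) :
    (S.powerset.filter (fun E => E.card ≤ m)).card ≤ (S.card + 1) ^ m := by
  induction m with
  | zero =>
    have : S.powerset.filter (fun E => E.card ≤ 0) ⊆ {∅} := by
      intro E hE
      rw [Finset.mem_filter] at hE
      rw [Finset.mem_singleton, ← Finset.card_eq_zero]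
      omega
    simpa using Finset.card_le_card this
  | succ m ih =>
    have hsub : S.powerset.filter (fun E => E.card ≤ m + 1) ⊆
        (Finset.insertNone S ×ˢ S.powerset.filter (fun E => E.card ≤ m)).image
          (fun p => p.1.elim p.2 (fun x => insert x p.2)) := by
      intro E hE
      rw [Finset.mem_filter, Finset.mem_powerset] at hE
      rw [Finset.mem_image]
      rcases E.eq_empty_or_nonempty with rfl | ⟨x, hx⟩
      · exact ⟨(none, ∅), by simp, rfl⟩
      · refine ⟨(some x, E.erase x), ?_, ?_⟩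
        · rw [Finset.mem_product]
          refine ⟨by simpa using hE.1 hx, ?_⟩
          rw [Finset.mem_filter, Finset.mem_powerset]
          refine ⟨(Finset.erase_subset _ _).trans hE.1, ?_⟩
          show (E.erase x).card ≤ m
          rw [Finset.card_erase_of_mem hx]
          omega
        · exact Finset.insert_erase hx
    calc _ ≤ _ := Finset.card_le_card hsub
      _ ≤ _ := Finset.card_image_le
      _ = (S.card + 1) * (S.powerset.filter (fun E => E.card ≤ m)).card := by
        rw [Finset.card_product, Finset.card_insertNone]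
      _ ≤ (S.card + 1) * (S.card + 1) ^ m := Nat.mul_le_mul_left _ ih
      _ = _ := by rw [pow_succ, mul_comm]

theorem count_good {ι B : Type} [Group B] (b : NG B) (bb : Set B) (m r R C0 : ℕ) (β : B) (G : Finset ι)
    (c : ι → Finset B) (p : ι → B)
    (hfib : ∀ (u : Finset B) (q : B), (G.filter (fun i => c i = u ∧ p i = q)).card ≤ C0)
    (hgood : ∀ i, i ∈ G → Good b bb m r (c i) (p i))
    (hpos : ∀ i, i ∈ G → b.len (β⁻¹ * p i) ≤ R) :
    G.card ≤ C0 * (b.V R * (b.V r + 1) ^ m) := by
  have hex : ∀ i, ∃ Δ : Finset B, i ∈ G → (∀ z, z ∈ Δ ↔ ¬ (z ∈ c i ↔ z ∈ bb)) ∧ Δ.card ≤ m ∧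
      ∀ z, z ∈ Δ → b.len ((p i)⁻¹ * z) ≤ r := by
    intro i
    by_cases hi : i ∈ G
    · obtain ⟨Δ, h1, h2, h3⟩ := hgood i hi
      exact ⟨Δ, fun _ => ⟨h1, h2, h3⟩⟩
    · exact ⟨∅, fun h => absurd h hi⟩
  choose Δ hΔ using hex
  set f : ι → B × Finset B := fun i => (β⁻¹ * p i, (p i)⁻¹ • Δ i) with hf
  set T : Finset (B × Finset B) := b.ball R ×ˢ (b.ball r).powerset.filter (fun E => E.card ≤ m) with hT
  have hmap : G.image f ⊆ T := by
    intro x hx
    rw [Finset.mem_image] at hx
    obtain ⟨i, hi, rfl⟩ := hx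
    obtain ⟨h1, h2, h3⟩ := hΔ i hi
    rw [hT, Finset.mem_product, Finset.mem_filter, Finset.mem_powerset]
    refine ⟨(b.mem_ball R _).2 (hpos i hi), ?_, ?_⟩
    · intro z hz
      obtain ⟨y, hy, rfl⟩ := Finset.mem_smul_finset.1 hz
      exact (b.mem_ball r _).2 (h3 y hy)
    · show ((p i)⁻¹ • Δ i).card ≤ m
      rw [Finset.card_smul_finset]
      exact h2
  have hfibre : ∀ x, x ∈ G.image f → (G.filter (fun i => f i = x)).card ≤ C0 := by
    intro x hx
    rw [Finset.mem_image] at hx
    obtain ⟨j, hj, rfl⟩ := hx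
    refine (Finset.card_le_card ?_).trans (hfib (c j) (p j))
    intro i hi
    rw [Finset.mem_filter] at hi ⊢
    obtain ⟨hiG, hfij⟩ := hi
    have e1 : β⁻¹ * p i = β⁻¹ * p j := congrArg Prod.fst hfij
    have hp : p i = p j := mul_left_cancel e1
    have e2 : (p i)⁻¹ • Δ i = (p j)⁻¹ • Δ j := congrArg Prod.snd hfij
    rw [hp] at e2
    have hD : Δ i = Δ j := by
      have := congrArg (fun E : Finset B => p j • E) e2
      simpa only [smul_inv_smul] using this
    refine ⟨hiG, ?_, hp⟩
    ext z
    have hi1 := (hΔ i hiG).1 z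
    have hj1 := (hΔ j hj).1 z
    rw [hD] at hi1
    tauto
  calc G.card ≤ C0 * (G.image f).card := Finset.card_le_mul_card_image G C0 hfibre
    _ ≤ C0 * T.card := Nat.mul_le_mul_left _ (Finset.card_le_card hmap)
    _ ≤ C0 * (b.V R * (b.V r + 1) ^ m) := by
      apply Nat.mul_le_mul_left
      rw [hT, Finset.card_product]
      exact Nat.mul_le_mul_left _ (CountGoodAux.card_small _ _)

end LQ

end
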