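import Pool.Agent.Lib.LQ.Defs2

/-
Module Cross (library LQ, MP_9bf8b0_al).
Proof: induction on k = (n ∆ m).card (generalising m).  n ≠ m because Q n and not Q m, so pick x in n ∆ m (x in Ω) and put
m' := m ∆ {x} (subset of Ω); (n ∆ m').card + 1 = (n ∆ m).card since n ∆ m' = (n ∆ m) ∆ {x} = (n ∆ m).erase x.
If Q m': take n' = m', x: m' ∆ {x} = m.  If not Q m': apply the induction hypothesis to m'.
-/

set_option autoImplicit false

open Classical
open scoped Pointwise symmDiff

noncomputable section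

namespace LQ

open LL

theorem cross {α : Type} (Ω : Finset α) (Q : Finset α → Prop) (n m : Finset α) (hn : n ⊆ Ω) (hm : m ⊆ Ω)
    (h1 : Q n) (h2 : ¬ Q m) :
    ∃ n' x, n' ⊆ Ω ∧ x ∈ Ω ∧ (n ∆ n').card < (n ∆ m).card ∧ Q n' ∧ ¬ Q (n' ∆ {x}) := by
  obtain ⟨k, hk⟩ : ∃ k, (n ∆ m).card = k := ⟨_, rfl⟩
  induction k generalizing m with
  | zero =>
    exfalso
    have h0 : n ∆ m = ⊥ := by
      rw [Finset.bot_eq_empty]; exact Finset.card_eq_zero.1 hk
    rw [symmDiff_eq_bot] at h0
    exact h2 (h0 ▸ h1)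
  | succ k ih =>
    have hne : (n ∆ m).Nonempty := Finset.card_pos.1 (by omega)
    obtain ⟨x, hx⟩ := hne
    have hxΩ : x ∈ Ω := by
      rcases Finset.mem_symmDiff.1 hx with h | h
      · exact hn h.1
      · exact hm h.1
    have hm' : m ∆ {x} ⊆ Ω := by
      intro y hy
      rcases Finset.mem_symmDiff.1 hy with h | h
      · exact hm h.1
      · rw [Finset.mem_singleton.1 h.1]; exact hxΩ
    have hcard : (n ∆ (m ∆ {x})).card = k := by
      have e : n ∆ (m ∆ {x}) = (n ∆ m).erase x := by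
        rw [← symmDiff_assoc]
        ext y
        rw [Finset.mem_symmDiff, Finset.mem_erase, Finset.mem_singleton]
        constructor
        · rintro (h | h)
          · exact ⟨h.2, h.1⟩
          · exact absurd (h.1 ▸ hx) h.2
        · rintro ⟨h, h'⟩
          exact Or.inl ⟨h', h⟩
      rw [e, Finset.card_erase_of_mem hx, hk]
      rfl
    by_cases hQ : Q (m ∆ {x})
    · refine ⟨m ∆ {x}, x, hm', hxΩ, by omega, hQ, ?_⟩
      rw [symmDiff_symmDiff_cancel_right]
      exact h2
    · obtain ⟨n', x', e1, e2, e3, e4, e5⟩ := ih (m ∆ {x}) hm' hQ hcard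
      exact ⟨n', x', e1, e2, by omega, e4, e5⟩

end LQ

end
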