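import Pool.Agent.Lib.LQ.QDFacts

/-
Module DecCard (library LQ, MP_9bf8b0_al).
dec_empty: induction on J (m1 = m2 = ∅, kap_empty, ∅ ∆ ∅ = ∅).
dec_of_card: induction on J.  J = 0: m = ∅.  J + 1: if m.card <= g take m1 = m, m2 = ∅ (dec_empty).  Otherwise choose v ⊆ m with v.card = g
(Finset.exists_subset_card_eq), m1 = v, m2 = m \ v (card <= J g), m = v ∆ (m \ v).
high_dec: g := (a.V s / nu) / (2 s + 3); v ⊆ ball (s+1), v.card <= g: kap v <= (2 (s+1) + 1) g <= a.V s / nu (kap_le_card).
m.card <= V (s+1) <= V s * V 1 (V_add_le).  With y := nu (2 s + 3) <= x := V s: g = x / y (Nat.div_div_eq_div_mul) and x <= 2 y g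
(x / y >= 1, x < y (x/y + 1) <= 2 y (x/y)).  So V s * V 1 <= (2 y V 1) g.
-/

set_option autoImplicit false

open Classical
open scoped Pointwise symmDiff

noncomputable section

namespace LQ

open LL

variable {A : Type} [Group A] (a : NG A)

theorem dec_empty (R J : ℕ) : Dec a R J ∅ := by
  induction J with
  | zero => rfl
  | succ J ih =>
    refine ⟨∅, ∅, ?_, ih, ?_⟩
    · rw [a.kap_empty]
      exact Nat.zero_le _
    · simp

theorem dec_of_card (R g J : ℕ) (m : Finset A) (hg : ∀ v, v ⊆ m → v.card ≤ g → a.kap v ≤ R)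
    (hm : m.card ≤ J * g) : Dec a R J m := by
  induction J generalizing m with
  | zero =>
    rw [zero_mul, Nat.le_zero, Finset.card_eq_zero] at hm
    exact hm
  | succ J ih =>
    by_cases h : m.card ≤ g
    · refine ⟨m, ∅, hg m (Finset.Subset.refl m) h, dec_empty a R J, ?_⟩
      exact (symmDiff_bot m).symm
    · push Not at h
      obtain ⟨v, hv, hvc⟩ := Finset.exists_subset_card_eq h.le
      refine ⟨v, m \ v, hg v hv hvc.le, ih (m \ v) (fun w hw hwc =>
        hg w (hw.trans Finset.sdiff_subset) hwc) ?_, ?_⟩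
      · rw [Finset.card_sdiff_of_subset hv, hvc]
        rw [Nat.succ_mul] at hm
        omega
      · ext x
        rw [Finset.mem_symmDiff, Finset.mem_sdiff]
        have := @hv x
        tauto

theorem high_dec (s nu : ℕ) (hnu : 1 ≤ nu) (hbig : nu * (2 * s + 3) ≤ a.V s) (m : Finset A)
    (hm : m ⊆ a.ball (s + 1)) : Dec a (a.V s / nu) (2 * (nu * (2 * s + 3)) * a.V 1) m := by
  have hy : 0 < nu * (2 * s + 3) := by positivity
  refine dec_of_card a _ ((a.V s / nu) / (2 * s + 3)) _ m (fun v hv hvc => ?_) ?_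
  · refine (a.kap_le_card v (s + 1) (fun x hx => (a.mem_ball _ _).1 (hm (hv hx)))).trans ?_
    calc (2 * (s + 1) + 1) * v.card ≤ (2 * (s + 1) + 1) * ((a.V s / nu) / (2 * s + 3)) :=
          Nat.mul_le_mul_left _ hvc
      _ = (2 * s + 3) * ((a.V s / nu) / (2 * s + 3)) := by ring
      _ ≤ a.V s / nu := Nat.mul_div_le _ _
  · have h1 : m.card ≤ a.V s * a.V 1 := (Finset.card_le_card hm).trans (a.V_add_le s 1)
    rw [Nat.div_div_eq_div_mul]
    set y := nu * (2 * s + 3) with hyd
    set x := a.V s with hx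
    have h2 : x < y * (x / y + 1) := by
      have := Nat.lt_mul_div_succ x hy
      exact this
    have h3 : 1 ≤ x / y := (Nat.one_le_div_iff hy).mpr hbig
    have h4 : x ≤ 2 * y * (x / y) := by nlinarith
    calc m.card ≤ x * a.V 1 := h1
      _ ≤ 2 * y * (x / y) * a.V 1 := Nat.mul_le_mul_right _ h4
      _ = 2 * y * a.V 1 * (x / y) := by ring

end LQ

end
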