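import Pool.Agent.Lib.LQ.QDFacts

/-!
Sublinear drift in both directions makes the cursor map a quasi-isometry (MP_9bf8b0_al).
-/

set_option autoImplicit false

open Classical
open scoped Pointwise symmDiff

noncomputable section

namespace LQ

open LL

variable {A B : Type} [Group A] [Group B] {a : NG A} {b : NG B} {K : ℕ} {ψ : LL A → LL B} {φ : LL B → LL A}

namespace DeductAux

theorem lampEq (X X' : LL A) (h : X.q = X'.q) : LL.lamp (X⁻¹ * X').u = X⁻¹ * X' := by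
  ext1
  · rfl
  · show (1 : A) = X.q⁻¹ * X'.q
    rw [h, inv_mul_cancel]

theorem drift' {C : ℝ} {K N : ℕ}
    (hC : ∀ X m, (b.len ((ψ X).q⁻¹ * (ψ (X * LL.lamp m)).q) : ℝ) ≤ 1 / (4 * (K : ℝ)) * a.kap m + C)
    (hN : C ≤ N) (X X' : LL A) (h : X.q = X'.q) :
    (b.len ((ψ X).q⁻¹ * (ψ X').q) : ℝ) ≤ 1 / (4 * (K : ℝ)) * a.wr.len (X⁻¹ * X') + N := by
  have e := lampEq X X' h
  have h1 := hC X (X⁻¹ * X').u
  rw [NG.kap, e, mul_inv_cancel_left] at h1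
  linarith

theorem path' (h : QD a b K ψ) (X X' : LL A) :
    b.wr.len ((ψ X)⁻¹ * ψ X') ≤ K * a.wr.len (X⁻¹ * X') := by
  have := h.path X (X⁻¹ * X')
  rwa [mul_inv_cancel_left] at this

theorem pos' (h : QD a b K ψ) (X X' : LL A) :
    b.len ((ψ X).q⁻¹ * (ψ X').q) ≤ K * a.wr.len (X⁻¹ * X') := by
  have := h.pos X (X⁻¹ * X')
  rwa [mul_inv_cancel_left] at this

theorem mvlen (x y : A) : a.wr.len ((LL.mv x)⁻¹ * LL.mv y) ≤ a.len (x⁻¹ * y) := by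
  rw [LL.mv_inv, ← LL.mv_mul]
  exact a.wr_mv_le _

/-- Lower bound for the displacement of the cursor map. -/
theorem lower {N : ℕ} (hψ : QD a b K ψ) (hφ : QD b a K φ)
    (h1 : ∀ X, a.wr.len (X⁻¹ * φ (ψ X)) ≤ K)
    (hd : ∀ X X' : LL B, X.q = X'.q →
      (a.len ((φ X).q⁻¹ * (φ X').q) : ℝ) ≤ 1 / (4 * (K : ℝ)) * b.wr.len (X⁻¹ * X') + N) (q q' : A) :
    (a.len (q⁻¹ * q') : ℝ) ≤ (2 * K + 2) * b.len ((ψ (LL.mv q)).q⁻¹ * (ψ (LL.mv q')).q) +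
      (4 * K + 2 * N) := by
  have hK1 : 1 ≤ K := hψ.kpos
  have hKr : (1 : ℝ) ≤ K := by exact_mod_cast hK1
  set Y := ψ (LL.mv q) with hY
  set Y' := ψ (LL.mv q') with hY'
  set Z : LL B := Y * LL.mv (Y.q⁻¹ * Y'.q) with hZ
  have hZq : Z.q = Y'.q := by
    rw [hZ, LL.mul_mv_q, mul_inv_cancel_left]
  have hYZ : b.wr.len (Y⁻¹ * Z) ≤ b.len (Y.q⁻¹ * Y'.q) := by
    rw [hZ, inv_mul_cancel_left]
    exact b.wr_mv_le _
  have hYY : b.wr.len (Y⁻¹ * Y') ≤ K * a.len (q⁻¹ * q') :=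
    (path' hψ _ _).trans (Nat.mul_le_mul_left K (mvlen q q'))
  have hZY : b.wr.len (Z⁻¹ * Y') ≤ b.len (Y.q⁻¹ * Y'.q) + K * a.len (q⁻¹ * q') := by
    have t1 := b.wr.tri Z Y Y'
    have t2 := b.wr.len_symm Z Y
    omega
  have ha : a.len (q⁻¹ * (φ Y).q) ≤ K := (a.len_q_le _).trans (h1 (LL.mv q))
  have hd' : a.len (q'⁻¹ * (φ Y').q) ≤ K := (a.len_q_le _).trans (h1 (LL.mv q'))
  have hb : a.len ((φ Y).q⁻¹ * (φ Z).q) ≤ K * b.len (Y.q⁻¹ * Y'.q) :=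
    (pos' hφ Y Z).trans (Nat.mul_le_mul_left K hYZ)
  have hc := hd Z Y' hZq
  have t1 := a.tri q (φ Y).q q'
  have t2 := a.tri (φ Y).q (φ Z).q q'
  have t3 := a.tri (φ Z).q (φ Y').q q'
  have t4 := a.len_symm (φ Y').q q'
  have key : a.len (q⁻¹ * q') ≤ 2 * K + K * b.len (Y.q⁻¹ * Y'.q) +
      a.len ((φ Z).q⁻¹ * (φ Y').q) := by omega
  have keyr : (a.len (q⁻¹ * q') : ℝ) ≤ 2 * K + K * b.len (Y.q⁻¹ * Y'.q) +
      a.len ((φ Z).q⁻¹ * (φ Y').q) := by exact_mod_cast key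
  have hZYr : (b.wr.len (Z⁻¹ * Y') : ℝ) ≤ b.len (Y.q⁻¹ * Y'.q) + K * a.len (q⁻¹ * q') := by
    exact_mod_cast hZY
  set D : ℝ := (a.len (q⁻¹ * q') : ℝ) with hD
  set P : ℝ := (b.len (Y.q⁻¹ * Y'.q) : ℝ) with hP
  have hP0 : 0 ≤ P := by rw [hP]; positivity
  have hD0 : 0 ≤ D := by rw [hD]; positivity
  have hN0 : (0 : ℝ) ≤ N := by positivity
  have ht0 : (0 : ℝ) ≤ 1 / (4 * (K : ℝ)) := by positivity
  have e1 : 1 / (4 * (K : ℝ)) * b.wr.len (Z⁻¹ * Y') ≤ 1 / (4 * (K : ℝ)) * (P + K * D) :=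
    mul_le_mul_of_nonneg_left hZYr ht0
  have e2 : 1 / (4 * (K : ℝ)) * (P + K * D) = 1 / (4 * (K : ℝ)) * P + D / 4 := by
    field_simp
  have e3 : 1 / (4 * (K : ℝ)) * P ≤ 1 / 4 * P := by
    apply mul_le_mul_of_nonneg_right _ hP0
    apply one_div_le_one_div_of_le <;> linarith
  have hfin : 3 / 4 * D ≤ (K + 1 / 4) * P + 2 * K + N := by
    have : (K + 1 / 4) * P = K * P + 1 / 4 * P := by ring
    linarith
  have hKP : 0 ≤ (K : ℝ) * P := by positivity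
  nlinarith

/-- The cursor map is coarsely surjective. -/
theorem surj {N : ℕ} (hψ : QD a b K ψ) (hφ : QD b a K φ)
    (h1 : ∀ X, a.wr.len (X⁻¹ * φ (ψ X)) ≤ K) (h2 : ∀ Y, b.wr.len (Y⁻¹ * ψ (φ Y)) ≤ K)
    (hd : ∀ X X' : LL A, X.q = X'.q →
      (b.len ((ψ X).q⁻¹ * (ψ X').q) : ℝ) ≤ 1 / (4 * (K : ℝ)) * a.wr.len (X⁻¹ * X') + N) (y : B) :
    ∃ q : A, (b.len ((ψ (LL.mv q)).q⁻¹ * y) : ℝ) ≤ 1 + 2 * N + 2 * K := by
  have hK1 : 1 ≤ K := hψ.kpos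
  have hKr : (1 : ℝ) ≤ K := by exact_mod_cast hK1
  obtain ⟨q, hq⟩ : ∃ q : A, ∀ q' : A, b.len ((ψ (LL.mv q)).q⁻¹ * y) ≤
      b.len ((ψ (LL.mv q')).q⁻¹ * y) := by
    obtain ⟨q, -, hq⟩ := WellFounded.has_min (InvImage.wf (fun q : A => b.len ((ψ (LL.mv q)).q⁻¹ * y))
      Nat.lt_wfRel.wf) Set.univ ⟨1, Set.mem_univ _⟩
    exact ⟨q, fun q' => not_lt.1 (hq q' (Set.mem_univ _))⟩
  refine ⟨q, ?_⟩
  set Y := ψ (LL.mv q) with hY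
  set Y1 : LL B := Y * LL.mv (Y.q⁻¹ * y) with hY1
  have hY1q : Y1.q = y := by
    rw [hY1, LL.mul_mv_q, mul_inv_cancel_left]
  have hYY1 : b.wr.len (Y⁻¹ * Y1) ≤ b.len (Y.q⁻¹ * y) := by
    rw [hY1, inv_mul_cancel_left]
    exact b.wr_mv_le _
  set X1 := φ Y1 with hX1
  have hA : a.wr.len ((LL.mv q)⁻¹ * X1) ≤ K + K * b.len (Y.q⁻¹ * y) := by
    have t1 := a.wr.tri (LL.mv q) (φ Y) X1
    have t2 : a.wr.len ((LL.mv q)⁻¹ * φ Y) ≤ K := h1 (LL.mv q)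
    have t3 : a.wr.len ((φ Y)⁻¹ * X1) ≤ K * b.len (Y.q⁻¹ * y) :=
      (path' hφ Y Y1).trans (Nat.mul_le_mul_left K hYY1)
    omega
  have hq1 : a.len (q⁻¹ * X1.q) ≤ K + K * b.len (Y.q⁻¹ * y) := (a.len_q_le _).trans hA
  have hB : a.wr.len ((LL.mv X1.q)⁻¹ * X1) ≤ 2 * (K + K * b.len (Y.q⁻¹ * y)) := by
    have t1 := a.wr.tri (LL.mv X1.q) (LL.mv q) X1
    have t2 := a.wr.len_symm (LL.mv X1.q) (LL.mv q)
    have t3 := mvlen (a := a) q X1.q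
    omega
  have hC := hd (LL.mv X1.q) X1 rfl
  have hD : b.len (y⁻¹ * (ψ X1).q) ≤ K := by
    have t := (b.len_q_le _).trans (h2 Y1)
    rw [LL.mul_q, LL.inv_q, hY1q] at t
    exact t
  have hE := hq X1.q
  have hF := b.tri (ψ (LL.mv X1.q)).q (ψ X1).q y
  have hG := b.len_symm (ψ X1).q y
  have hH : b.len (Y.q⁻¹ * y) ≤ b.len ((ψ (LL.mv X1.q)).q⁻¹ * (ψ X1).q) + K := by omega
  have hHr : (b.len (Y.q⁻¹ * y) : ℝ) ≤ b.len ((ψ (LL.mv X1.q)).q⁻¹ * (ψ X1).q) + K := by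
    exact_mod_cast hH
  have hBr : (a.wr.len ((LL.mv X1.q)⁻¹ * X1) : ℝ) ≤ 2 * (K + K * b.len (Y.q⁻¹ * y)) := by
    exact_mod_cast hB
  set R : ℝ := (b.len (Y.q⁻¹ * y) : ℝ) with hR
  have ht0 : (0 : ℝ) ≤ 1 / (4 * (K : ℝ)) := by positivity
  have e1 : 1 / (4 * (K : ℝ)) * a.wr.len ((LL.mv X1.q)⁻¹ * X1) ≤
      1 / (4 * (K : ℝ)) * (2 * (K + K * R)) := mul_le_mul_of_nonneg_left hBr ht0
  have e2 : 1 / (4 * (K : ℝ)) * (2 * (K + K * R)) = (1 + R) / 2 := by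
    field_simp
    ring
  linarith

end DeductAux

open DeductAux in
theorem qi_of_drift (hψ : QD a b K ψ) (hφ : QD b a K φ) (h1 : ∀ X, a.wr.len (X⁻¹ * φ (ψ X)) ≤ K)
    (h2 : ∀ Y, b.wr.len (Y⁻¹ * ψ (φ Y)) ≤ K) (dψ : Drift a b ψ) (dφ : Drift b a φ) : QI a b := by
  have hK1 : 1 ≤ K := hψ.kpos
  have hKr : (1 : ℝ) ≤ K := by exact_mod_cast hK1
  obtain ⟨C1, hC1⟩ := dψ (1 / (4 * (K : ℝ))) (by positivity)
  obtain ⟨C2, hC2⟩ := dφ (1 / (4 * (K : ℝ))) (by positivity)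
  obtain ⟨N, hN⟩ := exists_nat_ge (max C1 C2)
  have hN1 : C1 ≤ N := (le_max_left _ _).trans hN
  have hN2 : C2 ≤ N := (le_max_right _ _).trans hN
  refine ⟨fun q => (ψ (LL.mv q)).q, 4 * K + 2 * N + 4, ?_, ?_, ?_⟩
  · intro q q'
    have t1 := (pos' hψ (LL.mv q) (LL.mv q')).trans (Nat.mul_le_mul_left K (mvlen q q'))
    have t2 : K * a.len (q⁻¹ * q') ≤ (4 * K + 2 * N + 4) * a.len (q⁻¹ * q') :=
      Nat.mul_le_mul_right _ (by omega)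
    show b.len ((ψ (LL.mv q)).q⁻¹ * (ψ (LL.mv q')).q) ≤ _
    omega
  · intro q q'
    have t1 := lower hψ hφ h1 (fun X X' h => drift' hC2 hN2 X X' h) q q'
    have t2 : a.len (q⁻¹ * q') ≤ (2 * K + 2) * b.len ((ψ (LL.mv q)).q⁻¹ * (ψ (LL.mv q')).q) +
      (4 * K + 2 * N) := by exact_mod_cast t1
    have t3 : (2 * K + 2) * b.len ((ψ (LL.mv q)).q⁻¹ * (ψ (LL.mv q')).q) ≤
        (4 * K + 2 * N + 4) * b.len ((ψ (LL.mv q)).q⁻¹ * (ψ (LL.mv q')).q) :=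
      Nat.mul_le_mul_right _ (by omega)
    show a.len (q⁻¹ * q') ≤ (4 * K + 2 * N + 4) * b.len ((ψ (LL.mv q)).q⁻¹ * (ψ (LL.mv q')).q) + _
    omega
  · intro y
    obtain ⟨q, hq⟩ := surj hψ hφ h1 h2 (fun X X' h => drift' hC1 hN1 X X' h) y
    refine ⟨q, ?_⟩
    have t : b.len ((ψ (LL.mv q)).q⁻¹ * y) ≤ 1 + 2 * N + 2 * K := by exact_mod_cast hq
    show b.len ((ψ (LL.mv q)).q⁻¹ * y) ≤ _
    omega

end LQ

end
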