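import Mathlib

/-!
Lamplighters and quasi-isometries: definitions (MP_9bf8b0_al).
-/

set_option autoImplicit false

open Classical
open scoped Pointwise symmDiff

noncomputable section

namespace LQ

/-- The lamplighter group over `H`: finite sets of lamps together with a cursor. -/
@[ext] structure LL (H : Type) where
  u : Finset H
  q : H

namespace LL

variable {H : Type} [Group H]

instance : Mul (LL H) := ⟨fun X Y => ⟨X.u ∆ (X.q • Y.u), X.q * Y.q⟩⟩
instance : One (LL H) := ⟨⟨∅, 1⟩⟩
instance : Inv (LL H) := ⟨fun X => ⟨X.q⁻¹ • X.u, X.q⁻¹⟩⟩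

@[simp] theorem mul_u (X Y : LL H) : (X * Y).u = X.u ∆ (X.q • Y.u) := rfl
@[simp] theorem mul_q (X Y : LL H) : (X * Y).q = X.q * Y.q := rfl
@[simp] theorem one_u : (1 : LL H).u = ∅ := rfl
@[simp] theorem one_q : (1 : LL H).q = 1 := rfl
@[simp] theorem inv_u (X : LL H) : (X⁻¹).u = X.q⁻¹ • X.u := rfl
@[simp] theorem inv_q (X : LL H) : (X⁻¹).q = X.q⁻¹ := rfl

instance : Group (LL H) where
  mul_assoc X Y Z := by
    ext1
    · simp only [mul_u, mul_q]
      rw [Finset.smul_finset_symmDiff, smul_smul, symmDiff_assoc]
    · simp [mul_assoc]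
  one_mul X := by
    ext1
    · simp only [mul_u, one_u, one_q, one_smul]
      exact bot_symmDiff X.u
    · simp
  mul_one X := by
    ext1
    · simp only [mul_u, one_u, Finset.smul_finset_empty]
      exact symmDiff_bot X.u
    · simp
  inv_mul_cancel X := by
    ext1
    · simp
    · simp

/-- Toggle the lamps `v`, placed in the frame of the cursor. -/
def lamp (v : Finset H) : LL H := ⟨v, 1⟩

/-- Move the cursor by `h`. -/
def mv (h : H) : LL H := ⟨∅, h⟩

end LL

open LL

/-- A word length on a group, with the properties of the word length of a finite symmetric generating set. -/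
structure NG (G : Type) [Group G] where
  len : G → ℕ
  len_one : len 1 = 0
  eq_one : ∀ x, len x = 0 → x = 1
  len_inv : ∀ x, len x⁻¹ = len x
  len_mul : ∀ x y, len (x * y) ≤ len x + len y
  split : ∀ x n, len x = n + 1 → ∃ y t, x = y * t ∧ len y = n ∧ len t ≤ 1
  fin : ∀ n, {x | len x ≤ n}.Finite

namespace NG

variable {G : Type} [Group G]

/-- The ball of radius `n` about `1`. -/
def ball (a : NG G) (n : ℕ) : Finset G := (a.fin n).toFinset

/-- The growth function. -/
def V (a : NG G) (n : ℕ) : ℕ := (a.ball n).card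

theorem mem_ball (a : NG G) (n : ℕ) (x : G) : x ∈ a.ball n ↔ a.len x ≤ n := by
  simp [ball]

end NG

end LQ

end
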