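import Pool.Agent.Lib.LQ.OfGen

/-!
Definitions for the proof that lamplighters determine their base up to quasi-isometry (MP_9bf8b0_al).
-/

set_option autoImplicit false

open Classical
open scoped Pointwise symmDiff

noncomputable section

namespace LQ

/-- Quasi-isometry between two word lengths. -/
def QI {A B : Type} [Group A] [Group B] (a : NG A) (b : NG B) : Prop :=
  ∃ f : A → B, ∃ K : ℕ,
    (∀ x y, b.len ((f x)⁻¹ * f y) ≤ K * a.len (x⁻¹ * y) + K) ∧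
    (∀ x y, a.len (x⁻¹ * y) ≤ K * b.len ((f x)⁻¹ * f y) + K) ∧
    (∀ z, ∃ x, b.len ((f x)⁻¹ * z) ≤ K)

/-- Linear growth. -/
def Linear {G : Type} [Group G] (a : NG G) : Prop := ∃ C : ℕ, ∀ r : ℕ, a.V r ≤ C * (r + 1)

/-- Subexponential growth. -/
def Subexp {G : Type} [Group G] (a : NG G) : Prop :=
  ∀ ε : ℝ, 0 < ε → ∃ r0 : ℕ, ∀ r : ℕ, r0 ≤ r → (a.V r : ℝ) ≤ Real.exp (ε * r)

/-- Growth at least of degree one hundred. -/
def High {G : Type} [Group G] (a : NG G) : Prop := ∃ s0 : ℕ, ∀ s : ℕ, s0 ≤ s → s ^ 100 ≤ a.V s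

section W

variable {A B : Type} [Group A] [Group B]

/-- Quasi-isometry data for a map between lamplighter groups. -/
structure QD (a : NG A) (b : NG B) (K : ℕ) (ψ : LL A → LL B) : Prop where
  kpos : 1 ≤ K
  q1 : ∀ X g, a.wr.len g ≤ 1 → b.wr.len ((ψ X)⁻¹ * ψ (X * g)) ≤ K
  q2 : ∀ X X', a.wr.len (X⁻¹ * X') ≤ K * b.wr.len ((ψ X)⁻¹ * ψ X') + K
  q3 : ∀ Y, ∃ X, b.wr.len ((ψ X)⁻¹ * Y) ≤ K

/-- Sublinear drift of the cursor of the image under switching lamps. -/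
def Drift (a : NG A) (b : NG B) (ψ : LL A → LL B) : Prop :=
  ∀ η : ℝ, 0 < η → ∃ C : ℝ, ∀ X m,
    (b.len ((ψ X).q⁻¹ * (ψ (X * LL.lamp m)).q) : ℝ) ≤ η * a.kap m + C

/-- Configuration of the image after switching the lamps `n`. -/
def cc (ψ : LL A → LL B) (X : LL A) (n : Finset A) : Finset B := (ψ (X * LL.lamp n)).u

/-- Cursor of the image after switching the lamps `n`. -/
def pp (ψ : LL A → LL B) (X : LL A) (n : Finset A) : B := (ψ (X * LL.lamp n)).q

/-- All but `D` of the sets `n ⊆ Ω` of lamps give an image cursor within `r` of `z`. -/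
def Loc (b : NG B) (ψ : LL A → LL B) (Ω : Finset A) (r D : ℕ) (X : LL A) (z : B) : Prop :=
  (Ω.powerset.filter (fun n => r < b.len (z⁻¹ * pp ψ X n))).card ≤ D

/-- `m` is a symmetric difference of `J` sets of cost at most `R`. -/
def Dec (a : NG A) (R : ℕ) : ℕ → Finset A → Prop
  | 0, m => m = ∅
  | J + 1, m => ∃ m1 m2, a.kap m1 ≤ R ∧ Dec a R J m2 ∧ m = m1 ∆ m2

/-- A sequence of scales at which the cursor of the image is located. -/
structure Scales (a : NG A) (b : NG B) (K : ℕ) (ψ : LL A → LL B) (nu Lam : ℕ) (η C : ℝ)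
    (Ω : ℕ → Finset A) (s r D J : ℕ → ℕ) : Prop where
  nupos : 1 ≤ nu
  eta0 : 0 ≤ η
  mono : ∀ j, Ω j ⊆ Ω (j + 1)
  grow : ∀ j, (Ω (j + 1)).card ≤ Lam * (Ω j).card
  unb : ∀ n, ∃ j, n ≤ (Ω j).card
  rad : ∀ j, ∀ x, x ∈ Ω j → a.len x ≤ s j
  loc : ∀ j X, ∃ z, Loc b ψ (Ω j) (r j) (D j) X z
  dec : ∀ j m, m ⊆ Ω (j + 1) \ Ω j → Dec a ((Ω j).card / nu) (J j) m
  n1 : ∀ j, 4 * ((2 * (K * (2 * s j + 1)) * (Ω j).card + 1) * D j) ≤ 2 ^ (Ω j).card
  n2 : ∀ j, 2 * (a.wr.V K * (b.V (r j) * b.wr.V (K * ((Ω j).card / nu)))) < 2 ^ (Ω j).card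
  n3 : ∀ j, (∑ i ∈ Finset.range j,
      ((2 * J i * (r i + K * (2 * s i + 1)) + r i + r (i + 1) : ℕ) : ℝ)) ≤ η * (Ω j).card + C
  n4 : ∀ j, ((2 * (r j + K * (2 * s j + 1)) : ℕ) : ℝ) ≤ η * (Ω j).card + C

end W

section cube

variable {α B : Type}

/-- The sets `n ⊆ Ω` with `z ∈ c n`. -/
def S1 (Ω : Finset α) (c : Finset α → Finset B) (z : B) : Finset (Finset α) :=
  Ω.powerset.filter (fun n => z ∈ c n)

/-- The sets `n ⊆ Ω` with `z ∉ c n`. -/
def S0 (Ω : Finset α) (c : Finset α → Finset B) (z : B) : Finset (Finset α) :=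
  Ω.powerset.filter (fun n => z ∉ c n)

/-- The majority configuration. -/
def maj (Ω : Finset α) (c : Finset α → Finset B) : Set B := {z | (S0 Ω c z).card < (S1 Ω c z).card}

/-- The sets `n ⊆ Ω` for which `z` does not have its majority value. -/
def Mi (Ω : Finset α) (c : Finset α → Finset B) (z : B) : Finset (Finset α) :=
  Ω.powerset.filter (fun n => ¬ (z ∈ c n ↔ z ∈ maj Ω c))

/-- All minorities are small. -/
def NLc (Ω : Finset α) (c : Finset α → Finset B) (lam : ℕ) : Prop :=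
  ∀ z, (Mi Ω c z).card * 2 ^ lam ≤ 2 ^ Ω.card

variable [Group B]

/-- A hypercube of states: edges move the cursor by at most `l`, and change at most `l` lamps, all within `l`
of the cursor. -/
structure Cube (b : NG B) (Ω : Finset α) (l : ℕ) (c : Finset α → Finset B) (p : Finset α → B) : Prop where
  pos : ∀ n, n ⊆ Ω → ∀ x, x ∈ Ω → b.len ((p n)⁻¹ * p (n ∆ {x})) ≤ l
  crd : ∀ n, n ⊆ Ω → ∀ x, x ∈ Ω → (c n ∆ c (n ∆ {x})).card ≤ l
  loc : ∀ n, n ⊆ Ω → ∀ x, x ∈ Ω → ∀ z, z ∈ c n ∆ c (n ∆ {x}) → b.len ((p n)⁻¹ * z) ≤ l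

/-- `c` differs from the background `bb` in at most `m` points, all within `r` of `p`. -/
def Good (b : NG B) (bb : Set B) (m r : ℕ) (c : Finset B) (p : B) : Prop :=
  ∃ Δ : Finset B, (∀ z, z ∈ Δ ↔ ¬ (z ∈ c ↔ z ∈ bb)) ∧ Δ.card ≤ m ∧ ∀ z, z ∈ Δ → b.len (p⁻¹ * z) ≤ r

end cube

section high

variable {A B : Type} [Group A] [Group B]

/-- Type NL: over the ball of radius `s`, all minorities are small. -/
def NL (a : NG A) (ψ : LL A → LL B) (s lam : ℕ) (X : LL A) : Prop := NLc (a.ball s) (cc ψ X) lam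

/-- The background of `X` at scale `s`. -/
def bg (a : NG A) (ψ : LL A → LL B) (s : ℕ) (X : LL A) : Set B := maj (a.ball s) (cc ψ X)

/-- Numerical conditions for the high case. -/
structure HP (a : NG A) (b : NG B) (K s lam k m h R D : ℕ) : Prop where
  p1 : 2 ≤ lam
  p2 : 4 * (a.V s * (K * (2 * s + 3))) ≤ lam * (m + 1)
  p3 : 4 * ((K * (2 * s + 3)) * a.V s * a.V s ^ k) ≤ lam * (a.V s + lam) ^ k
  p4 : 4 * (a.wr.V K * (b.V R * (b.V (k * (K * (2 * s + 3))) + 1) ^ m)) < 2 ^ a.V s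
  p5 : (h + 3) * (K * (2 * s + 3)) ≤ R
  p6 : 2 * 2 ^ lam * 2 ^ a.V s * Real.exp (-((h : ℝ) ^ 2 / (a.V s : ℝ))) ≤ (D : ℝ)
  p7 : 4 * D ≤ 2 ^ a.V s

end high

section growth

variable {G : Type} [Group G]

/-- Number of elements of length exactly `s`. -/
def NG.sph (a : NG G) (s : ℕ) : ℕ := ((a.ball s).filter (fun x => a.len x = s)).card

/-- Points of a finite set of states which can leave it by one generator. -/
def bdW (a : NG G) (F : Finset (LL G)) : Finset (LL G) :=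
  F.filter (fun Y => ∃ g, a.wr.len g ≤ 1 ∧ Y * g ∉ F)

/-- States with lamps and cursor in the ball of radius `s`. -/
def folF (a : NG G) (s : ℕ) : Finset (LL G) :=
  ((a.ball s).powerset ×ˢ a.ball s).image (fun p => (⟨p.1, p.2⟩ : LL G))

end growth

section net

variable {A : Type} [Group A]

/-- A geodesic ray from `1`. -/
def Ray (a : NG A) (γ : ℕ → A) : Prop :=
  γ 0 = 1 ∧ ∀ i j, i ≤ j → a.len ((γ i)⁻¹ * γ j) = j - i

/-- Union of `k` disjoint balls of radius `ρ` centred on a ray. -/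
def tube (a : NG A) (γ : ℕ → A) (ρ k : ℕ) : Finset A :=
  (Finset.range k).biUnion (fun i => γ (i * (2 * ρ + 1)) • a.ball ρ)

end net

end LQ

end
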