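import Pool.Agent.Lib.LQ.EdgeIso

/-
Module EdgeBd (library LQ, MP_9bf8b0_al).
Proof: F = ∅ trivial.  Otherwise 1 <= F.card, so 2^lam <= 2^Ω.card, lam <= N := Ω.card, and logb 2 F.card <= N - lam.
For every n: card(filter in F) + card(filter not in F) = N.  Sum over n in F: the sum wanted = N F.card - (sum of edge_iso)
>= N F.card - F.card (N - lam) = lam F.card.
-/

set_option autoImplicit false

open Classical
open scoped Pointwise symmDiff

noncomputable section

namespace LQ

open LL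

theorem edge_bd {α : Type} (Ω : Finset α) (F : Finset (Finset α)) (lam : ℕ)
    (hF : F.card * 2 ^ lam ≤ 2 ^ Ω.card) :
    lam * F.card ≤ ∑ n ∈ F, (Ω.filter (fun x => n ∆ {x} ∉ F)).card := by
  rcases Nat.eq_zero_or_pos F.card with h0 | h0
  · rw [h0, Nat.mul_zero]
    exact Nat.zero_le _
  · have h1 := edge_iso Ω F
    have h2 : (∑ n ∈ F, (Ω.filter (fun x => n ∆ {x} ∈ F)).card) +
        ∑ n ∈ F, (Ω.filter (fun x => n ∆ {x} ∉ F)).card = Ω.card * F.card := by
      rw [← Finset.sum_add_distrib]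
      rw [Finset.sum_congr rfl (fun n _ => Finset.card_filter_add_card_filter_not
        (s := Ω) (fun x => n ∆ {x} ∈ F))]
      rw [Finset.sum_const, smul_eq_mul, Nat.mul_comm]
    have h3 : Real.logb 2 F.card ≤ (Ω.card : ℝ) - lam := by
      have hFpos : (0 : ℝ) < F.card := by exact_mod_cast h0
      rw [Real.logb_le_iff_le_rpow (by norm_num) hFpos, Real.rpow_sub (by norm_num),
        Real.rpow_natCast, Real.rpow_natCast, le_div_iff₀ (by positivity)]
      exact_mod_cast hF
    have h4 : (F.card : ℝ) * Real.logb 2 F.card ≤ F.card * ((Ω.card : ℝ) - lam) :=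
      mul_le_mul_of_nonneg_left h3 (Nat.cast_nonneg _)
    have h5 : ((∑ n ∈ F, (Ω.filter (fun x => n ∆ {x} ∈ F)).card : ℕ) : ℝ) +
        ((∑ n ∈ F, (Ω.filter (fun x => n ∆ {x} ∉ F)).card : ℕ) : ℝ) =
        (Ω.card : ℝ) * F.card := by exact_mod_cast h2
    have h6 : ((lam * F.card : ℕ) : ℝ) ≤
        ((∑ n ∈ F, (Ω.filter (fun x => n ∆ {x} ∉ F)).card : ℕ) : ℝ) := by
      rw [Nat.cast_mul]
      nlinarith
    exact_mod_cast h6

end LQ

end
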