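import Pool.Agent.Lib.LQ.Defs2

/-
Module Fibre (library LQ, MP_9bf8b0_al).
Proof: the map (m, n) -> m ∆ n = m ∪ n is a bijection from (Ω' \ Ω).powerset × Ω.powerset onto Ω'.powerset, with inverse
n'' -> (n'' \ Ω, n'' ∩ Ω).  (Finset.card_sigma / card_bij or sum_product of indicators.)
pigeon: if the sum over m of f m is <= 2^(N''-N) * c... see the statement: some fibre is at most average.
-/

set_option autoImplicit false

open Classical
open scoped Pointwise symmDiff

noncomputable section

namespace LQ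

open LL

theorem fib_symm {α : Type} {Ω Ω' m n : Finset α} (hm : m ⊆ Ω' \ Ω) (hn : n ⊆ Ω) :
    m ∆ n = m ∪ n := by
  have : Disjoint m n := by
    rw [Finset.disjoint_left]
    intro a ha hb
    exact (Finset.mem_sdiff.mp (hm ha)).2 (hn hb)
  ext a
  simp only [Finset.mem_symmDiff, Finset.mem_union]
  rw [Finset.disjoint_left] at this
  constructor
  · rintro (h | h)
    · exact Or.inl h.1
    · exact Or.inr h.1
  · rintro (h | h)
    · exact Or.inl ⟨h, this h⟩
    · exact Or.inr ⟨h, fun h' => this h' h⟩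

theorem card_fibre {α : Type} (Ω Ω' : Finset α) (h : Ω ⊆ Ω') (Q : Finset α → Prop) :
    (Ω'.powerset.filter Q).card
      = ∑ m ∈ (Ω' \ Ω).powerset, (Ω.powerset.filter (fun n => Q (m ∆ n))).card := by
  rw [← Finset.card_sigma]
  symm
  refine Finset.card_bij (fun x _ => x.1 ∆ x.2) ?_ ?_ ?_
  · rintro ⟨m, n⟩ hx
    simp only [Finset.mem_sigma, Finset.mem_powerset, Finset.mem_filter] at hx
    obtain ⟨hm, hn, hQ⟩ := hx
    simp only [Finset.mem_filter, Finset.mem_powerset]
    refine ⟨?_, hQ⟩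
    rw [fib_symm hm hn]
    exact Finset.union_subset (hm.trans Finset.sdiff_subset) (hn.trans h)
  · rintro ⟨m, n⟩ hx ⟨m', n'⟩ hx' heq
    simp only [Finset.mem_sigma, Finset.mem_powerset, Finset.mem_filter] at hx hx'
    obtain ⟨hm, hn, -⟩ := hx
    obtain ⟨hm', hn', -⟩ := hx'
    simp only at heq
    rw [fib_symm hm hn, fib_symm hm' hn'] at heq
    have hdm : ∀ a ∈ m, a ∉ Ω := fun a ha => (Finset.mem_sdiff.mp (hm ha)).2
    have hdm' : ∀ a ∈ m', a ∉ Ω := fun a ha => (Finset.mem_sdiff.mp (hm' ha)).2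
    have h1 : m = m' := by
      ext a
      constructor
      · intro ha
        have : a ∈ m' ∪ n' := heq ▸ Finset.mem_union_left _ ha
        rcases Finset.mem_union.mp this with h | h
        · exact h
        · exact absurd (hn' h) (hdm a ha)
      · intro ha
        have : a ∈ m ∪ n := heq ▸ Finset.mem_union_left _ ha
        rcases Finset.mem_union.mp this with h | h
        · exact h
        · exact absurd (hn h) (hdm' a ha)
    have h2 : n = n' := by
      ext a
      constructor
      · intro ha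
        have : a ∈ m' ∪ n' := heq ▸ Finset.mem_union_right _ ha
        rcases Finset.mem_union.mp this with h | h
        · exact absurd (hn ha) (hdm' a h)
        · exact h
      · intro ha
        have : a ∈ m ∪ n := heq ▸ Finset.mem_union_right _ ha
        rcases Finset.mem_union.mp this with h | h
        · exact absurd (hn' ha) (hdm a h)
        · exact h
    subst h1; subst h2; rfl
  · intro b hb
    simp only [Finset.mem_filter, Finset.mem_powerset] at hb
    have hm : b \ Ω ⊆ Ω' \ Ω := Finset.sdiff_subset_sdiff hb.1 (le_refl _)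
    have hn : b ∩ Ω ⊆ Ω := Finset.inter_subset_right
    have hb' : (b \ Ω) ∆ (b ∩ Ω) = b := by
      rw [fib_symm hm hn]; exact Finset.sdiff_union_inter b Ω
    refine ⟨⟨b \ Ω, b ∩ Ω⟩, ?_, hb'⟩
    simp only [Finset.mem_sigma, Finset.mem_powerset, Finset.mem_filter]
    exact ⟨hm, hn, by rw [hb']; exact hb.2⟩

/-- Some fibre carries at most its share of the bad sets. -/
theorem exists_fibre_le {α : Type} (Ω Ω' : Finset α) (h : Ω ⊆ Ω') (Q : Finset α → Prop) (k : ℕ)
    (hk : k * (Ω'.powerset.filter Q).card ≤ 2 ^ Ω'.card) :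
    ∃ m, m ⊆ Ω' \ Ω ∧ k * (Ω.powerset.filter (fun n => Q (m ∆ n))).card ≤ 2 ^ Ω.card := by
  by_contra hcon
  push Not at hcon
  have hlt : ∑ m ∈ (Ω' \ Ω).powerset, 2 ^ Ω.card
      < ∑ m ∈ (Ω' \ Ω).powerset, k * (Ω.powerset.filter (fun n => Q (m ∆ n))).card := by
    apply Finset.sum_lt_sum_of_nonempty
    · exact ⟨∅, Finset.empty_mem_powerset _⟩
    · intro m hm
      exact hcon m (Finset.mem_powerset.mp hm)
  rw [← Finset.mul_sum, ← card_fibre Ω Ω' h Q] at hlt
  have hc : ∑ m ∈ (Ω' \ Ω).powerset, 2 ^ Ω.card = 2 ^ Ω'.card := by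
    rw [Finset.sum_const, Finset.card_powerset, smul_eq_mul, ← pow_add, Finset.card_sdiff_of_subset h,
      Nat.sub_add_cancel (Finset.card_le_card h)]
  rw [hc] at hlt
  omega

/-- If every fibre carries at most `d` out of `2 ^ Ω.card`, so does the whole (in proportion). -/
theorem card_le_of_fibres {α : Type} (Ω Ω' : Finset α) (h : Ω ⊆ Ω') (Q : Finset α → Prop) (k : ℕ)
    (hk : ∀ m, m ⊆ Ω' \ Ω → k * (Ω.powerset.filter (fun n => Q (m ∆ n))).card ≤ 2 ^ Ω.card) :
    k * (Ω'.powerset.filter Q).card ≤ 2 ^ Ω'.card := by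
  rw [card_fibre Ω Ω' h Q, Finset.mul_sum]
  calc ∑ m ∈ (Ω' \ Ω).powerset, k * (Ω.powerset.filter (fun n => Q (m ∆ n))).card
      ≤ ∑ m ∈ (Ω' \ Ω).powerset, 2 ^ Ω.card :=
        Finset.sum_le_sum (fun m hm => hk m (Finset.mem_powerset.mp hm))
    _ = 2 ^ Ω'.card := by
      rw [Finset.sum_const, Finset.card_powerset, smul_eq_mul, ← pow_add,
        Finset.card_sdiff_of_subset h, Nat.sub_add_cancel (Finset.card_le_card h)]

end LQ

end
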