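import Pool.Agent.Lib.LQ.QDFacts
import Pool.Agent.Lib.LQ.Fibre

/-
ScaleStep (library LQ, MP_9bf8b0_al).
Proof.  Bad'(n'') := (r' < len(z'⁻¹ pp ψ X n'')) for n'' ⊆ Ω'; #Bad' <= D', 4 D' <= 2^Ω'.card.  By exists_fibre_le (k = 4) there is m ⊆ Ω' \ Ω with
4 * #{n ⊆ Ω : Bad' (m ∆ n)} <= 2^Ω.card.  Also #{n ⊆ Ω : r < len((β (X * lamp m))⁻¹ pp ψ (X * lamp m) n)} <= D, 4 D <= 2^Ω.card, and
pp ψ (X * lamp m) n = pp ψ X (m ∆ n) (pp_lamp).  So some n ⊆ Ω is in neither set: the point p := pp ψ X (m ∆ n) has len(z'⁻¹ p) <= r' and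
len((β (X * lamp m))⁻¹ p) <= r.  Triangle inequality with he m.
-/

set_option autoImplicit false

open Classical
open scoped Pointwise symmDiff

noncomputable section

namespace LQ

open LL

variable {A B : Type} [Group A] [Group B] {a : NG A} {b : NG B} {K : ℕ} {ψ : LL A → LL B}

theorem scale_step (Ω Ω' : Finset A) (hΩ : Ω ⊆ Ω') (r D r' D' e : ℕ) (h1 : 4 * D ≤ 2 ^ Ω.card)
    (h2 : 4 * D' ≤ 2 ^ Ω'.card) (β : LL A → B) (hβ : ∀ X, Loc b ψ Ω r D X (β X)) (X : LL A) (z' : B)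
    (hz' : Loc b ψ Ω' r' D' X z')
    (he : ∀ m, m ⊆ Ω' \ Ω → b.len ((β X)⁻¹ * β (X * lamp m)) ≤ e) :
    b.len ((β X)⁻¹ * z') ≤ e + r + r' := by
  have inst : ∀ (s : Finset (Finset A)) (P : Finset A → Prop) (i1 i2 : DecidablePred P),
      (@Finset.filter _ P i1 s).card = (@Finset.filter _ P i2 s).card := by
    intro s P i1 i2
    rw [Subsingleton.elim i1 i2]
  have hz2 : 4 * (Ω'.powerset.filter (fun n => r' < b.len (z'⁻¹ * pp ψ X n))).card ≤ 2 ^ Ω'.card :=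
    (Nat.mul_le_mul_left 4 hz').trans h2
  rw [inst _ _ _ (fun n => Classical.propDecidable _)] at hz2
  obtain ⟨m, hm, hm4⟩ := exists_fibre_le Ω Ω' hΩ (fun n => r' < b.len (z'⁻¹ * pp ψ X n)) 4 hz2
  rw [inst _ _ _ (fun n => Nat.decLt _ _)] at hm4
  have hβm : 4 * (Ω.powerset.filter
      (fun n => r < b.len ((β (X * lamp m))⁻¹ * pp ψ (X * lamp m) n))).card ≤ 2 ^ Ω.card :=
    (Nat.mul_le_mul_left 4 (hβ (X * lamp m))).trans h1
  obtain ⟨n, -, hn1, hn2⟩ : ∃ n, n ⊆ Ω ∧ ¬ (r' < b.len (z'⁻¹ * pp ψ X (m ∆ n))) ∧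
      ¬ (r < b.len ((β (X * lamp m))⁻¹ * pp ψ (X * lamp m) n)) := by
    by_contra hc
    push Not at hc
    have hsub : Ω.powerset ⊆ (Ω.powerset.filter (fun n => r' < b.len (z'⁻¹ * pp ψ X (m ∆ n)))) ∪
        (Ω.powerset.filter (fun n => r < b.len ((β (X * lamp m))⁻¹ * pp ψ (X * lamp m) n))) := by
      intro n hn
      rw [Finset.mem_union, Finset.mem_filter, Finset.mem_filter]
      by_cases h : r' < b.len (z'⁻¹ * pp ψ X (m ∆ n))
      · exact Or.inl ⟨hn, h⟩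
      · exact Or.inr ⟨hn, hc n (Finset.mem_powerset.1 hn) (not_lt.1 h)⟩
    have h5 := (Finset.card_le_card hsub).trans (Finset.card_union_le _ _)
    rw [Finset.card_powerset] at h5
    have h6 : 0 < 2 ^ Ω.card := by positivity
    omega
  rw [pp_lamp] at hn2
  have hem := he m hm
  have t1 := b.tri (β X) (β (X * lamp m)) (pp ψ X (m ∆ n))
  have t2 := b.tri (β X) (pp ψ X (m ∆ n)) z'
  rw [b.len_symm (pp ψ X (m ∆ n)) z'] at t2
  omega

end LQ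

end
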