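import Pool.Agent.Lib.LQ.LocDec
import Pool.Agent.Lib.LQ.ScaleStep

/-
Engine (library LQ, MP_9bf8b0_al).
Choose β j X with Loc ... (hS.loc).  l j := K (2 s j + 1), N j := (Ω j).card.
(III) len((β j X)⁻¹ β (j+1) X) <= 2 J j (r j + l j) + r j + r (j+1): scale_step with e := 2 J j (r j + l j), he from loc_dec with R := N j / nu and hS.dec;
4 D j <= 2^N j from n1.
(0) len((ψ X).q⁻¹ β 0 X) <= B0 := N 0 * l 0 + r 0: some n ⊆ Ω 0 is not bad (4 D < 4 * 2^N), and len((ψ X).q⁻¹ pp ψ X n) <= K kap n <= K (2 s 0 + 1) N 0.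
(IV) len((ψ X).q⁻¹ β j X) <= B0 + sum_{i<j} (2 J i (r i + l i) + r i + r (i+1)) <= B0 + η N j + C (induction on j, n3).
(V) Given m, let j be the least index with nu * kap m <= N j (hS.unb).  Then kap m <= N j / nu, and loc_stable gives
len((β j X)⁻¹ β j (X * lamp m)) <= 2 (r j + l j) <= η N j + C (n4).  So the left side is <= 2 (B0 + η N j + C) + η N j + C = 3 η N j + 2 B0 + 3 C.
If j = 0: <= 3 η N 0 + 2 B0 + 3 C.  If j = i + 1: N i < nu kap m and N j <= Lam N i <= Lam nu kap m, 3 η N j <= 3 η Lam nu kap m.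
C' := 3 η N 0 + 2 B0 + 3 |C|.
-/

set_option autoImplicit false

open Classical
open scoped Pointwise symmDiff

noncomputable section

namespace LQ

open LL

variable {A B : Type} [Group A] [Group B] {a : NG A} {b : NG B} {K : ℕ} {ψ : LL A → LL B}

theorem engine (h : QD a b K ψ) (nu Lam : ℕ) (η C : ℝ) (Ω : ℕ → Finset A) (s r D J : ℕ → ℕ)
    (hS : Scales a b K ψ nu Lam η C Ω s r D J) :
    ∃ C' : ℝ, ∀ X m, (b.len ((ψ X).q⁻¹ * (ψ (X * lamp m)).q) : ℝ) ≤ 3 * η * Lam * nu * a.kap m + C' := by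
  choose β hβ using hS.loc
  have h4 : ∀ j, 4 * D j ≤ 2 ^ (Ω j).card := by
    intro j
    refine le_trans ?_ (hS.n1 j)
    have : 1 * D j ≤ (2 * (K * (2 * s j + 1)) * (Ω j).card + 1) * D j :=
      Nat.mul_le_mul_right _ (Nat.le_add_left 1 _)
    omega
  have hstep : ∀ j X, b.len ((β j X)⁻¹ * β (j + 1) X)
      ≤ 2 * J j * (r j + K * (2 * s j + 1)) + r j + r (j + 1) := by
    intro j X
    exact scale_step (Ω j) (Ω (j + 1)) (hS.mono j) (r j) (D j) (r (j + 1)) (D (j + 1)) _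
      (h4 j) (h4 (j + 1)) (β j) (hβ j) X (β (j + 1) X) (hβ (j + 1) X)
      (fun m hm => loc_dec h (Ω j) (s j) (r j) (D j) ((Ω j).card / nu) (hS.rad j) (hS.n1 j)
        (hS.n2 j) (β j) (hβ j) (J j) m (hS.dec j m hm) X)
  have hzero : ∀ X, b.len ((ψ X).q⁻¹ * β 0 X)
      ≤ K * ((2 * s 0 + 1) * (Ω 0).card) + r 0 := by
    intro X
    have hlt : ((Ω 0).powerset.filter (fun n => r 0 < b.len ((β 0 X)⁻¹ * pp ψ X n))).card
        < (Ω 0).powerset.card := by
      rw [Finset.card_powerset]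
      have h1 : ((Ω 0).powerset.filter (fun n => r 0 < b.len ((β 0 X)⁻¹ * pp ψ X n))).card ≤ D 0 :=
        hβ 0 X
      have h2 := h4 0
      have h3 : 0 < 2 ^ (Ω 0).card := Nat.pow_pos (by norm_num)
      omega
    obtain ⟨n, hn, hn'⟩ : ∃ n, n ∈ (Ω 0).powerset ∧ ¬ (r 0 < b.len ((β 0 X)⁻¹ * pp ψ X n)) := by
      by_contra hc
      push Not at hc
      apply absurd hlt
      rw [Finset.filter_true_of_mem hc]
      exact lt_irrefl _
    rw [Finset.mem_powerset] at hn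
    have h1 := b.tri (ψ X).q (pp ψ X n) (β 0 X)
    have h2 : b.len ((ψ X).q⁻¹ * pp ψ X n) ≤ K * a.wr.len (lamp n) := h.pos X (lamp n)
    have h3 := a.kap_le_card n (s 0) (fun x hx => hS.rad 0 x (hn hx))
    have h3' : a.kap n ≤ (2 * s 0 + 1) * (Ω 0).card :=
      h3.trans (Nat.mul_le_mul_left _ (Finset.card_le_card hn))
    have h5 : K * a.wr.len (lamp n) ≤ K * ((2 * s 0 + 1) * (Ω 0).card) :=
      Nat.mul_le_mul_left _ h3'
    have h6 := b.len_symm (pp ψ X n) (β 0 X)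
    omega
  obtain ⟨B0, hB0⟩ : ∃ B0 : ℕ, K * ((2 * s 0 + 1) * (Ω 0).card) + r 0 = B0 := ⟨_, rfl⟩
  rw [hB0] at hzero
  have hind : ∀ j X, b.len ((ψ X).q⁻¹ * β j X) ≤ B0 + ∑ i ∈ Finset.range j,
      (2 * J i * (r i + K * (2 * s i + 1)) + r i + r (i + 1)) := by
    intro j X
    induction j with
    | zero => simpa using hzero X
    | succ j ih =>
      rw [Finset.sum_range_succ]
      have h1 := b.tri (ψ X).q (β j X) (β (j + 1) X)
      have h2 := hstep j X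
      omega
  have hindR : ∀ j X, (b.len ((ψ X).q⁻¹ * β j X) : ℝ) ≤ B0 + (η * (Ω j).card + C) := by
    intro j X
    have h1 : (b.len ((ψ X).q⁻¹ * β j X) : ℝ) ≤ ((B0 + ∑ i ∈ Finset.range j,
      (2 * J i * (r i + K * (2 * s i + 1)) + r i + r (i + 1)) : ℕ) : ℝ) := by
      exact_mod_cast hind j X
    rw [Nat.cast_add, Nat.cast_sum] at h1
    exact h1.trans (add_le_add_right (hS.n3 j) _)
  refine ⟨3 * η * (Ω 0).card + 2 * B0 + 3 * |C|, fun X m => ?_⟩
  have hη := hS.eta0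
  have hex := hS.unb (nu * a.kap m)
  obtain ⟨j, hj, hjmin⟩ : ∃ j, nu * a.kap m ≤ (Ω j).card ∧ ∀ i, i < j → (Ω i).card < nu * a.kap m :=
    ⟨Nat.find hex, Nat.find_spec hex, fun i hi => not_le.1 (Nat.find_min hex hi)⟩
  have hkap : a.kap m ≤ (Ω j).card / nu := by
    rw [Nat.le_div_iff_mul_le hS.nupos, mul_comm]
    exact hj
  have hst := loc_stable h (Ω j) (s j) (r j) (D j) ((Ω j).card / nu) (hS.rad j) (hS.n1 j)
    (hS.n2 j) X m hkap (β j X) (β j (X * lamp m)) (hβ j X) (hβ j (X * lamp m))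
  have hstR : (b.len ((β j X)⁻¹ * β j (X * lamp m)) : ℝ) ≤ η * (Ω j).card + C :=
    le_trans (by exact_mod_cast hst) (hS.n4 j)
  have hA := hindR j X
  have hB := hindR j (X * lamp m)
  have ht1 := b.tri (ψ X).q (β j X) (ψ (X * lamp m)).q
  have ht2 := b.tri (β j X) (β j (X * lamp m)) (ψ (X * lamp m)).q
  have ht3 := b.len_symm (β j (X * lamp m)) (ψ (X * lamp m)).q
  have htot : (b.len ((ψ X).q⁻¹ * (ψ (X * lamp m)).q) : ℝ)
      ≤ (b.len ((ψ X).q⁻¹ * β j X) : ℝ) + (b.len ((β j X)⁻¹ * β j (X * lamp m)) : ℝ)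
        + (b.len ((ψ (X * lamp m)).q⁻¹ * β j (X * lamp m)) : ℝ) := by
    have : b.len ((ψ X).q⁻¹ * (ψ (X * lamp m)).q)
      ≤ b.len ((ψ X).q⁻¹ * β j X) + b.len ((β j X)⁻¹ * β j (X * lamp m))
        + b.len ((ψ (X * lamp m)).q⁻¹ * β j (X * lamp m)) := by omega
    exact_mod_cast this
  have hCabs : C ≤ |C| := le_abs_self C
  have hbound : (b.len ((ψ X).q⁻¹ * (ψ (X * lamp m)).q) : ℝ)
      ≤ 3 * η * (Ω j).card + 2 * B0 + 3 * |C| := by linarith
  have hnn : 0 ≤ 3 * η * Lam * nu * a.kap m := by positivity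
  rcases j with _ | i
  · linarith
  · have h1 := hjmin i (Nat.lt_succ_self i)
    have h2 : (Ω (i + 1)).card ≤ Lam * (nu * a.kap m) :=
      (hS.grow i).trans (Nat.mul_le_mul_left _ h1.le)
    have h3 : ((Ω (i + 1)).card : ℝ) ≤ Lam * (nu * a.kap m) := by exact_mod_cast h2
    have h4 : 3 * η * ((Ω (i + 1)).card : ℝ) ≤ 3 * η * (Lam * (nu * a.kap m)) :=
      mul_le_mul_of_nonneg_left h3 (by positivity)
    have h5 : 0 ≤ 3 * η * ((Ω 0).card : ℝ) := by positivity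
    linarith

end LQ

end
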