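import Pool.Agent.Lib.LQ.Basic

/-
Module Sphere (library LQ, MP_9bf8b0_al).
sph_succ: ball (s+1) is the disjoint union of ball s and the sphere.  sum_sph: telescoping.
exists_small_sph: otherwise every s in (S, 2S] has sph s > c, so V (2S) >= V S + S (c+1) > ... contradiction with V(2S) <= c S.
exists_rel_small_sph: suppose θ V s' < sph s' for all s' in (S, 2S].  Then V (s'-1) = V s' - sph s' < (1-θ) V s', so V (s'-1) <= exp(-θ) V s', V(2S) >= exp(θ S) V S >= exp (θ S).
-/

set_option autoImplicit false

open Classical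
open scoped Pointwise symmDiff

noncomputable section

namespace LQ

open LL

variable {A : Type} [Group A]

theorem V_succ (a : NG A) (s : ℕ) : a.V (s + 1) = a.V s + a.sph (s + 1) := by
  have h := Finset.card_filter_add_card_filter_not (s := a.ball (s + 1))
    (fun x => a.len x = s + 1)
  have h2 : (a.ball (s + 1)).filter (fun x => ¬ a.len x = s + 1) = a.ball s := by
    ext x
    rw [Finset.mem_filter, NG.mem_ball, NG.mem_ball]
    omega
  rw [h2] at h
  rw [NG.sph, NG.V, NG.V]
  omega

theorem exists_small_sph (a : NG A) (S c : ℕ) (hS : 1 ≤ S) (hc : a.V (2 * S) ≤ c * S) :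
    ∃ s, S < s ∧ s ≤ 2 * S ∧ a.sph s ≤ c := by
  by_contra hcon
  push Not at hcon
  have key : ∀ i, i ≤ S → a.V S + i * (c + 1) ≤ a.V (S + i) := by
    intro i
    induction i with
    | zero => intro _; simp
    | succ i ih =>
      intro hi
      have h1 := ih (by omega)
      have h2 := hcon (S + (i + 1)) (by omega) (by omega)
      rw [← add_assoc] at h2 ⊢
      rw [V_succ]
      have h3 : (i + 1) * (c + 1) = i * (c + 1) + (c + 1) := by ring
      omega
  have h1 := key S le_rfl
  have h2 := a.V_pos S
  rw [← two_mul] at h1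
  have h3 : S * (c + 1) = c * S + S := by ring
  omega

theorem exists_rel_small_sph (a : NG A) (S : ℕ) (θ : ℝ) (hθ : 0 ≤ θ) (hθ1 : θ ≤ 1)
    (hc : (a.V (2 * S) : ℝ) < Real.exp (θ * S)) :
    ∃ s, S < s ∧ s ≤ 2 * S ∧ (a.sph s : ℝ) ≤ θ * a.V s := by
  by_contra hcon
  push Not at hcon
  have key : ∀ i : ℕ, i ≤ S → Real.exp (θ * i) ≤ (a.V (S + i) : ℝ) := by
    intro i
    induction i with
    | zero =>
      intro _
      have := a.V_pos S
      simp only [Nat.cast_zero, mul_zero, Real.exp_zero, add_zero]
      exact_mod_cast this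
    | succ i ih =>
      intro hi
      have h1 := ih (by omega)
      have h2 := hcon (S + (i + 1)) (by omega) (by omega)
      rw [← add_assoc] at h2 ⊢
      have h3 : (a.V (S + i + 1) : ℝ) = a.V (S + i) + a.sph (S + i + 1) := by
        exact_mod_cast V_succ a (S + i)
      have h4 : (a.V (S + i) : ℝ) ≤ (1 - θ) * a.V (S + i + 1) := by linarith
      have h5 : 1 - θ ≤ Real.exp (-θ) := Real.one_sub_le_exp_neg θ
      have h6 : (a.V (S + i) : ℝ) ≤ Real.exp (-θ) * a.V (S + i + 1) :=
        h4.trans (mul_le_mul_of_nonneg_right h5 (Nat.cast_nonneg _))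
      have h7 : Real.exp θ * (a.V (S + i) : ℝ) ≤ a.V (S + i + 1) := by
        have := mul_le_mul_of_nonneg_left h6 (Real.exp_pos θ).le
        rwa [← mul_assoc, ← Real.exp_add, add_neg_cancel, Real.exp_zero, one_mul] at this
      refine le_trans ?_ h7
      have h8 : θ * ((i + 1 : ℕ) : ℝ) = θ + θ * i := by push_cast; ring
      rw [h8, Real.exp_add]
      exact mul_le_mul_of_nonneg_left h1 (Real.exp_pos θ).le
  have h1 := key S le_rfl
  rw [← two_mul] at h1
  linarith

end LQ

end
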