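import Pool.Agent.Lib.LQ.Basic

/-!
A group of exponential growth: all balls are exponentially large (MP_9bf8b0_al).
-/

set_option autoImplicit false

open Classical
open scoped Pointwise symmDiff

noncomputable section

namespace LQ

open LL

variable {B : Type} [Group B]

namespace SubmultAux

theorem V_le (b : NG B) (m : ℕ) : ∀ k : ℕ, b.V (m * k) ≤ b.V m ^ k := by
  intro k
  induction k with
  | zero => rw [mul_zero, b.V_zero, pow_zero]
  | succ k ih =>
    rw [Nat.mul_succ, pow_succ]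
    exact (b.V_add_le _ _).trans (Nat.mul_le_mul_right _ ih)

end SubmultAux

theorem exp_of_not_subexp (b : NG B) (hb : ¬ Subexp b) :
    ∃ ε : ℝ, 0 < ε ∧ ∀ m : ℕ, Real.exp (ε * m) ≤ (b.V m : ℝ) := by
  rw [Subexp] at hb
  push Not at hb
  obtain ⟨ε, hε, h⟩ := hb
  refine ⟨ε, hε, fun m => ?_⟩
  rcases Nat.eq_zero_or_pos m with rfl | hm
  · rw [b.V_zero]
    simp
  by_contra hcon
  rw [not_le] at hcon
  have hV : (0 : ℝ) < b.V m := by exact_mod_cast b.V_pos m
  set x := Real.log (b.V m) with hx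
  have hx0 : 0 ≤ x := Real.log_nonneg (by exact_mod_cast b.V_pos m)
  have hxe : x < ε * m := (Real.log_lt_iff_lt_exp hV).2 hcon
  have hm' : (0 : ℝ) < m := by exact_mod_cast hm
  have hδ : 0 < ε - x / m := by
    rw [sub_pos, div_lt_iff₀ hm']
    exact hxe
  obtain ⟨r0, hr0⟩ := exists_nat_gt (x / (ε - x / m))
  obtain ⟨r, hr, hr2⟩ := h r0
  have h1 : b.V r ≤ b.V m ^ (r / m + 1) := by
    refine (b.V_mono ?_).trans (SubmultAux.V_le b m (r / m + 1))
    have := Nat.div_add_mod r m
    have := Nat.mod_lt r hm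
    rw [Nat.mul_succ]
    omega
  have h2 : Real.exp (ε * r) < (b.V m : ℝ) ^ (r / m + 1) :=
    hr2.trans_le (by exact_mod_cast h1)
  have h3 : ε * r < ((r / m : ℕ) + 1) * x := by
    have h4 := (Real.lt_log_iff_exp_lt (pow_pos hV _)).2 h2
    rw [Real.log_pow] at h4
    push_cast at h4
    exact h4
  have h5 : ((r / m : ℕ) : ℝ) ≤ r / m := Nat.cast_div_le
  have h6 : ε * r < (r / m + 1) * x := h3.trans_le (by gcongr)
  have h7 : (r : ℝ) * (ε - x / m) < x := by
    have e : (r : ℝ) * (ε - x / m) = ε * r - (r / m) * x := by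
      field_simp
    rw [e]
    linarith
  have h8 : x / (ε - x / m) < r := hr0.trans_le (by exact_mod_cast hr)
  rw [div_lt_iff₀ hδ] at h8
  linarith

end LQ

end
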