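import Pool.Agent.Lib.LQ.Compare
import Pool.Agent.Lib.LQ.Sphere
import Pool.Agent.Lib.LQ.Submult

/-
Module ExpHigh (library LQ, MP_9bf8b0_al).
Proof.  exp_of_not_subexp: ε.  M := max (a.wr.V 1) (b.wr.V 1), P := 32 M^(K(2K+1)+3K) (real).  Suppose not High a: for infinitely many n: V n < n^100.  For such n large put S := n / 2
(so 2 S <= n <= 2 S + 1, V (2S) <= V n < n^100 <= (2S+1)^100 <= (3 S)^100), θ := 101 log(3 S) / S... then θ S = 101 log (3S), exp(θ S) = (3S)^101 > V(2S), θ <= 1 for S large.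
exists_rel_small_sph: s in (S, 2S] with sph s <= θ V s.  r := floor(1 / (P θ)) = floor(S / (101 P log(3S))), r >= 1 for S large; then 32 r M^.. sph s <= P r θ V s <= V s, compare:
27 exp(ε r) <= 27 b.V r <= 64 (V s + logb 2 (V s) + K logb 2 M) <= 64 (2 (3S)^100 + K logb 2 M).
But r >= S / (202 P log (3S)) grows faster than any multiple of log S: for S large exp(ε r) > 64 (2 (3S)^100 + K logb 2 M).  Contradiction.
-/

set_option autoImplicit false

open Classical
open scoped Pointwise symmDiff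

noncomputable section

namespace LQ

open LL

variable {A B : Type} [Group A] [Group B] {a : NG A} {b : NG B} {K : ℕ} {ψ : LL A → LL B}

namespace ExpHighAux

theorem logb_le (v : ℕ) (hv : 1 ≤ v) : Real.logb 2 (v : ℝ) ≤ v := by
  have hv0 : (0 : ℝ) < v := by exact_mod_cast hv
  rw [Real.logb_le_iff_le_rpow (by norm_num) hv0, Real.rpow_natCast]
  exact_mod_cast (Nat.lt_two_pow_self (n := v)).le

theorem large (P ε κ : ℝ) (hP : 1 ≤ P) (hε : 0 < ε) : ∃ S0 : ℕ, ∀ S : ℕ, S0 ≤ S →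
    1 ≤ S ∧ 1 ≤ Real.log (3 * S) ∧ κ ≤ 3 * (S : ℝ) ∧
    101 * P * Real.log (3 * S) ≤ S ∧
    101 * P * Real.log (3 * S) + 10302 * P / ε * Real.log (3 * S) ^ 2 ≤ S := by
  set Q : ℝ := 101 * P + 10302 * P / ε with hQ
  have hQ0 : 0 < Q := by positivity
  have h1 := (Real.isLittleO_pow_log_id_atTop (n := 2)).def (c := 1 / (3 * Q)) (by positivity)
  have h2 : Filter.Tendsto (fun S : ℕ => 3 * (S : ℝ)) Filter.atTop Filter.atTop :=
    tendsto_natCast_atTop_atTop.const_mul_atTop (by norm_num)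
  have h3 := h2.eventually h1
  have h4 := h2.eventually (Filter.eventually_ge_atTop κ)
  have h5 := h2.eventually (Filter.eventually_ge_atTop (Real.exp 1))
  obtain ⟨S0, hS0⟩ := Filter.eventually_atTop.mp
    (((h3.and h4).and h5).and (Filter.eventually_ge_atTop 1))
  refine ⟨S0, fun S hS => ?_⟩
  obtain ⟨⟨⟨e1, e2⟩, e3⟩, e4⟩ := hS0 S hS
  have hS0' : (0 : ℝ) < S := by exact_mod_cast e4
  have hL : 1 ≤ Real.log (3 * S) := by
    rw [Real.le_log_iff_exp_le (by positivity)]
    exact e3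
  have hLL : Real.log (3 * S) ≤ Real.log (3 * S) ^ 2 := by nlinarith
  have e5 : Q * Real.log (3 * S) ^ 2 ≤ S := by
    rw [Real.norm_eq_abs, abs_of_nonneg (by positivity), id, Real.norm_eq_abs,
      abs_of_nonneg (by positivity)] at e1
    calc Q * Real.log (3 * S) ^ 2 ≤ Q * (1 / (3 * Q) * (3 * S)) := by gcongr
      _ = S := by field_simp
  have e6 : 101 * P * Real.log (3 * S) ≤ 101 * P * Real.log (3 * S) ^ 2 := by gcongr
  have e7 : 0 ≤ 10302 * P / ε * Real.log (3 * S) ^ 2 := by positivity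
  have e8 : 101 * P * Real.log (3 * S) + 10302 * P / ε * Real.log (3 * S) ^ 2 ≤ S := by
    rw [hQ, add_mul] at e5
    linarith
  exact ⟨e4, hL, e2, by linarith, e8⟩

end ExpHighAux

open ExpHighAux

theorem high_of_not_subexp (h : QD a b K ψ) (hb : ¬ Subexp b) : High a := by
  obtain ⟨ε, hε, hexp⟩ := exp_of_not_subexp b hb
  by_contra hH
  unfold High at hH
  push Not at hH
  set M : ℕ := max (a.wr.V 1) (b.wr.V 1) with hM
  have hM1 : 1 ≤ M := (NG.V_pos a.wr 1).trans (le_max_left _ _)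
  set E : ℕ := K * (2 * K + 1) + 3 * K with hE
  set P : ℝ := 32 * (M : ℝ) ^ E with hP
  have hM1' : (1 : ℝ) ≤ M := by exact_mod_cast hM1
  have hP1 : 1 ≤ P := by
    have := one_le_pow₀ hM1' (n := E)
    rw [hP]
    linarith
  obtain ⟨S0, hS0⟩ := large P ε (K * Real.logb 2 M) hP1 hε
  obtain ⟨n, hn, hVn⟩ := hH (2 * S0 + 2)
  set S : ℕ := n / 2 with hS
  obtain ⟨hS1, hL, hκ, c1, c2⟩ := hS0 S (by omega)
  have hSr : (1 : ℝ) ≤ S := by exact_mod_cast hS1
  set x : ℝ := 3 * (S : ℝ) with hx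
  set L : ℝ := Real.log x with hLdef
  have hx1 : 3 ≤ x := by rw [hx]; linarith
  have hx0 : 0 < x := by linarith
  have hL0 : 0 < L := by linarith
  have hxn : (n : ℝ) ≤ x := by
    rw [hx]
    have : n ≤ 3 * S := by omega
    exact_mod_cast this
  have hV2S : (a.V (2 * S) : ℝ) < x ^ 100 := by
    have h1 : a.V (2 * S) ≤ a.V n := NG.V_mono a (by omega)
    have h2 : (a.V (2 * S) : ℝ) ≤ a.V n := by exact_mod_cast h1
    have h3 : (a.V n : ℝ) < (n : ℝ) ^ 100 := by exact_mod_cast hVn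
    have h4 : (n : ℝ) ^ 100 ≤ x ^ 100 := by gcongr
    linarith
  set θ : ℝ := 101 * L / S with hθ
  have hθ0 : 0 < θ := by positivity
  have hPθ : P * θ ≤ 1 := by
    rw [hθ, ← mul_div_assoc, div_le_one (by linarith)]
    linarith
  have hθ1 : θ ≤ 1 := by
    have : θ ≤ P * θ := le_mul_of_one_le_left hθ0.le hP1
    linarith
  have hexpx : ∀ k : ℕ, Real.exp (k * L) = x ^ k := by
    intro k
    rw [Real.exp_nat_mul, hLdef, Real.exp_log hx0]
  have hθS : θ * S = (101 : ℕ) * L := by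
    rw [hθ]
    push_cast
    field_simp
  have hc : (a.V (2 * S) : ℝ) < Real.exp (θ * S) := by
    rw [hθS, hexpx]
    refine hV2S.trans_le ?_
    exact pow_le_pow_right₀ (by linarith) (by norm_num)
  obtain ⟨s, hs1, hs2, hsph⟩ := exists_rel_small_sph a S θ hθ0.le hθ1 hc
  set r : ℕ := ⌊1 / (P * θ)⌋₊ with hr
  have hPθ0 : 0 < P * θ := by positivity
  have hr1 : 1 ≤ r := by
    rw [hr, Nat.one_le_floor_iff, le_div_iff₀ hPθ0]
    linarith
  have hrle : (r : ℝ) * (P * θ) ≤ 1 := by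
    have := Nat.floor_le (show 0 ≤ 1 / (P * θ) by positivity)
    rwa [← hr, le_div_iff₀ hPθ0] at this
  have hVs1 : 1 ≤ a.V s := NG.V_pos a s
  have hcond : 32 * r * M ^ (K * (2 * K + 1) + 3 * K) * a.sph s ≤ a.V s := by
    have h1 : (32 : ℝ) * r * M ^ E * a.sph s ≤ a.V s := by
      calc (32 : ℝ) * r * M ^ E * a.sph s = (r * P) * a.sph s := by rw [hP]; ring
        _ ≤ (r * P) * (θ * a.V s) := by gcongr
        _ = (r * (P * θ)) * a.V s := by ring
        _ ≤ 1 * a.V s := by gcongr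
        _ = a.V s := one_mul _
    exact_mod_cast h1
  have hcmp := compare h M r s (le_max_left _ _) (le_max_right _ _) hr1 hcond
  have hVs : (a.V s : ℝ) ≤ x ^ 100 := by
    have h1 : a.V s ≤ a.V (2 * S) := NG.V_mono a hs2
    have h2 : (a.V s : ℝ) ≤ a.V (2 * S) := by exact_mod_cast h1
    linarith
  have hlogV := logb_le (a.V s) hVs1
  have hκ' : K * Real.logb 2 M ≤ x ^ 100 := by
    refine hκ.trans ?_
    calc x = x ^ 1 := (pow_one x).symm
      _ ≤ x ^ 100 := pow_le_pow_right₀ (by linarith) (by norm_num)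
  -- lower bound for `r`
  have hrlow : 102 * L / ε ≤ r := by
    have h1 : 1 / (P * θ) < r + 1 := by
      rw [hr]
      exact Nat.lt_floor_add_one _
    have h2 : 1 / (P * θ) = S / (101 * P * L) := by
      rw [hθ]
      field_simp
    have h3 : 1 + 102 * L / ε ≤ S / (101 * P * L) := by
      rw [le_div_iff₀ (by positivity)]
      calc (1 + 102 * L / ε) * (101 * P * L) = 101 * P * L + 10302 * P / ε * L ^ 2 := by ring
        _ ≤ S := c2
    rw [h2] at h1
    linarith
  have hVr : x ^ 102 ≤ b.V r := by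
    refine le_trans ?_ (hexp r)
    rw [← hexpx 102]
    apply Real.exp_le_exp.mpr
    rw [div_le_iff₀ hε] at hrlow
    push_cast
    linarith
  have hfin : 27 * x ^ 102 ≤ 192 * x ^ 100 := by linarith
  have hx100 : 0 < x ^ 100 := by positivity
  have e1 : x ^ 102 = x ^ 100 * (x * x) := by ring
  rw [e1] at hfin
  have h9 : 9 ≤ x * x := by nlinarith
  nlinarith

end LQ

end
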