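import Pool.Agent.Lib.LQ.QDFacts

/-!
The case of finite groups (MP_9bf8b0_al).
-/

set_option autoImplicit false

open Classical
open scoped Pointwise symmDiff

noncomputable section

namespace LQ

open LL

variable {A B : Type} [Group A] [Group B]

theorem qi_of_finite [Finite A] [Finite B] (a : NG A) (b : NG B) : QI a b := by
  obtain ⟨Ka, ha⟩ := (Set.finite_range a.len).bddAbove
  obtain ⟨Kb, hb⟩ := (Set.finite_range b.len).bddAbove
  have ha' : ∀ x, a.len x ≤ Ka := fun x => ha ⟨x, rfl⟩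
  have hb' : ∀ x, b.len x ≤ Kb := fun x => hb ⟨x, rfl⟩
  refine ⟨fun _ => 1, max Ka Kb, fun x y => ?_, fun x y => ?_, fun z => ⟨1, ?_⟩⟩
  · rw [inv_mul_cancel, b.len_one]
    exact Nat.zero_le _
  · exact ((ha' _).trans (le_max_left _ _)).trans (Nat.le_add_left _ _)
  · exact (hb' _).trans (le_max_right _ _)

theorem finite_of_finite [Finite A] {a : NG A} {b : NG B} {K : ℕ} {ψ : LL A → LL B} (h : QD a b K ψ) :
    Finite B := by
  haveI : Finite (LL A) := Finite.of_injective (fun X : LL A => (X.u, X.q)) (by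
    intro X Y hXY
    rw [Prod.mk.injEq] at hXY
    exact LL.ext hXY.1 hXY.2)
  have h1 : (⋃ X : LL A, (fun g => ψ X * g) '' {g | b.wr.len g ≤ K}).Finite :=
    Set.finite_iUnion fun X => (b.wr.fin K).image _
  have h2 : (Set.univ : Set (LL B)).Finite := by
    refine h1.subset fun Y _ => ?_
    obtain ⟨X, hX⟩ := h.q3 Y
    rw [Set.mem_iUnion]
    exact ⟨X, (ψ X)⁻¹ * Y, hX, by simp⟩
  haveI : Finite (LL B) := Set.finite_univ_iff.mp h2
  exact Finite.of_injective (LL.mv : B → LL B) fun x y hxy => congrArg LL.q hxy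

end LQ

end
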