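import Pool.Agent.Lib.LQ.WrFacts

/-
Module Folner (library LQ, MP_9bf8b0_al).
folF_card: the map (u,q) -> ⟨u,q⟩ is injective; card of powerset.
folF_bd: if ⟨u,q⟩ is in folF a s and g is a generator (wr_gen_cases) with ⟨u,q⟩ * g not in folF: g = lamp {1} gives ⟨u ∆ {q}, q⟩ in folF, impossible; g = mv t gives
⟨u, q t⟩, so s < len (q t) <= len q + 1, so len q = s.  So bdW ⊆ image of powerset × sphere.
-/

set_option autoImplicit false

open Classical
open scoped Pointwise symmDiff

noncomputable section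

namespace LQ

open LL

variable {A : Type} [Group A]

theorem mem_folF (a : NG A) (s : ℕ) (X : LL A) : X ∈ folF a s ↔ (∀ x, x ∈ X.u → a.len x ≤ s) ∧ a.len X.q ≤ s := by
  unfold folF
  rw [Finset.mem_image]
  constructor
  · rintro ⟨⟨u, q⟩, hp, rfl⟩
    obtain ⟨h1, h2⟩ := Finset.mem_product.1 hp
    exact ⟨fun x hx => (a.mem_ball s x).1 (Finset.mem_powerset.1 h1 hx), (a.mem_ball s q).1 h2⟩
  · rintro ⟨h1, h2⟩
    refine ⟨(X.u, X.q), Finset.mem_product.2 ⟨Finset.mem_powerset.2 fun x hx => ?_, ?_⟩, rfl⟩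
    · exact (a.mem_ball s x).2 (h1 x hx)
    · exact (a.mem_ball s X.q).2 h2

namespace FolnerAux

omit [Group A] in
theorem inj : Function.Injective (fun p : Finset A × A => (⟨p.1, p.2⟩ : LL A)) := by
  rintro ⟨u, q⟩ ⟨v, r⟩ h
  have h1 : u = v := congrArg LL.u h
  have h2 : q = r := congrArg LL.q h
  rw [h1, h2]

end FolnerAux

theorem folF_card (a : NG A) (s : ℕ) : (folF a s).card = 2 ^ a.V s * a.V s := by
  unfold folF
  rw [Finset.card_image_of_injective _ FolnerAux.inj, Finset.card_product, Finset.card_powerset]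
  rfl

theorem folF_bd (a : NG A) (s : ℕ) : (bdW a (folF a s)).card ≤ 2 ^ a.V s * a.sph s := by
  have hsub : bdW a (folF a s) ⊆ ((a.ball s).powerset ×ˢ
      ((a.ball s).filter (fun x => a.len x = s))).image (fun p => (⟨p.1, p.2⟩ : LL A)) := by
    intro X hX
    unfold bdW at hX
    obtain ⟨hX1, g, hg, hX2⟩ := Finset.mem_filter.1 hX
    obtain ⟨h1, h2⟩ := (mem_folF a s X).1 hX1
    have h3 : a.len X.q = s := by
      by_contra hne
      apply hX2
      rw [mem_folF]
      rcases a.wr_gen_cases g hg with rfl | ⟨t, ht, rfl⟩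
      · rw [LL.mul_lamp_u, LL.mul_lamp_q]
        refine ⟨fun x hx => ?_, h2⟩
        rw [Finset.mem_symmDiff] at hx
        rcases hx with hx | hx
        · exact h1 x hx.1
        · have h4 := hx.1
          rw [Finset.smul_finset_singleton, Finset.mem_singleton, smul_eq_mul, mul_one] at h4
          rw [h4]
          exact h2
      · rw [LL.mul_mv_u, LL.mul_mv_q]
        refine ⟨h1, ?_⟩
        have := a.len_mul X.q t
        omega
    refine Finset.mem_image.2 ⟨(X.u, X.q), Finset.mem_product.2 ⟨Finset.mem_powerset.2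
      fun x hx => (a.mem_ball s x).2 (h1 x hx), ?_⟩, rfl⟩
    exact Finset.mem_filter.2 ⟨(a.mem_ball s _).2 h2, h3⟩
  refine (Finset.card_le_card hsub).trans (Finset.card_image_le.trans ?_)
  rw [Finset.card_product, Finset.card_powerset]
  exact le_rfl

end LQ

end
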