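import Pool.Agent.Lib.LQ.WrFacts

/-!
The lamplighter group is the group of permutations in the statement (MP_9bf8b0_al).
-/

set_option autoImplicit false

open Classical
open scoped Pointwise symmDiff

noncomputable section

namespace LQ

open LL

namespace LLIsoAux

variable {H : Type} [Group H]

theorem two_add (e c : ZMod 2) : e + c + c = e := by
  rw [add_assoc, CharTwo.add_self_eq_zero, add_zero]

/-- The permutation of `H × ZMod 2` given by an element of the lamplighter group. -/
def phi (X : LL H) : Equiv.Perm (H × ZMod 2) where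
  toFun p := (X.q * p.1, p.2 + if X.q * p.1 ∈ X.u then 1 else 0)
  invFun p := (X.q⁻¹ * p.1, p.2 + if p.1 ∈ X.u then 1 else 0)
  left_inv p := by
    simp only [inv_mul_cancel_left]
    rw [two_add]
  right_inv p := by
    simp only [mul_inv_cancel_left]
    rw [two_add]

theorem phi_apply (X : LL H) (p : H × ZMod 2) :
    phi X p = (X.q * p.1, p.2 + if X.q * p.1 ∈ X.u then 1 else 0) := rfl

theorem phi_mul (X Y : LL H) : phi (X * Y) = phi X * phi Y := by
  ext p : 1
  rw [Equiv.Perm.mul_apply, phi_apply, phi_apply, phi_apply]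
  simp only [LL.mul_q, LL.mul_u]
  refine Prod.ext (by simp [mul_assoc]) ?_
  have h : X.q * Y.q * p.1 ∈ X.q • Y.u ↔ Y.q * p.1 ∈ Y.u := by
    rw [mul_assoc, ← smul_eq_mul X.q, Finset.smul_mem_smul_finset_iff]
  have h' : X.q * (Y.q * p.1) ∈ X.u ↔ X.q * Y.q * p.1 ∈ X.u := by rw [mul_assoc]
  by_cases h1 : X.q * Y.q * p.1 ∈ X.u <;> by_cases h2 : Y.q * p.1 ∈ Y.u
  · simp only [Finset.mem_symmDiff, h, h', h1, h2, not_true, and_false, or_false, if_false,
      if_true, add_zero]
    rw [two_add]
  · simp [Finset.mem_symmDiff, h, h', h1, h2]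
  · simp [Finset.mem_symmDiff, h, h', h1, h2]
  · simp [Finset.mem_symmDiff, h, h', h1, h2]

/-- The homomorphism. -/
def hom (H : Type) [Group H] : LL H →* Equiv.Perm (H × ZMod 2) where
  toFun := phi
  map_one' := by
    ext p : 1
    rw [phi_apply]
    simp
  map_mul' := phi_mul

theorem hom_apply (X : LL H) : hom H X = phi X := rfl

theorem hom_inj : Function.Injective (hom H) := by
  rw [injective_iff_map_eq_one]
  intro X hX
  rw [hom_apply] at hX
  have h1 : ∀ p, phi X p = p := fun p => by rw [hX]; rfl
  have hq : X.q = 1 := by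
    have := congrArg Prod.fst (h1 (1, 0))
    rw [phi_apply] at this
    simpa using this
  ext1
  · rw [LL.one_u]
    apply Finset.eq_empty_of_forall_notMem
    intro x hx
    have := congrArg Prod.snd (h1 (x, 0))
    rw [phi_apply, hq] at this
    simp [hx] at this
  · exact hq

theorem phi_lamp : phi (LL.lamp ({1} : Finset H)) =
    Equiv.swap ((1 : H), (0 : ZMod 2)) ((1 : H), (1 : ZMod 2)) := by
  ext p : 1
  obtain ⟨h, e⟩ := p
  rw [phi_apply]
  simp only [LL.lamp, one_mul, Finset.mem_singleton]
  by_cases h1 : h = 1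
  · subst h1
    rw [if_pos rfl]
    have he : e = 0 ∨ e = 1 := by
      fin_cases e
      · left; rfl
      · right; rfl
    rcases he with rfl | rfl
    · rw [Equiv.swap_apply_left, zero_add]
    · rw [Equiv.swap_apply_right]
      rfl
  · rw [if_neg h1, add_zero, Equiv.swap_apply_of_ne_of_ne]
    · intro h2
      exact h1 (congrArg Prod.fst h2)
    · intro h2
      exact h1 (congrArg Prod.fst h2)

theorem phi_mv (h : H) : phi (LL.mv h) =
    (Equiv.prodCongr (Equiv.mulLeft h) (Equiv.refl (ZMod 2)) : Equiv.Perm (H × ZMod 2)) := by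
  ext p : 1
  obtain ⟨x, e⟩ := p
  rw [phi_apply]
  simp [LL.mv]

theorem range_eq (H : Type) [Group H] : (hom H).range = Subgroup.closure
            (({Equiv.swap ((1 : H), (0 : ZMod 2)) ((1 : H), (1 : ZMod 2))} :
                Set (Equiv.Perm (H × ZMod 2))) ∪
              Set.range (fun h : H =>
                (Equiv.prodCongr (Equiv.mulLeft h) (Equiv.refl (ZMod 2)) :
                  Equiv.Perm (H × ZMod 2)))) := by
  set C := Subgroup.closure
            (({Equiv.swap ((1 : H), (0 : ZMod 2)) ((1 : H), (1 : ZMod 2))} :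
                Set (Equiv.Perm (H × ZMod 2))) ∪
              Set.range (fun h : H =>
                (Equiv.prodCongr (Equiv.mulLeft h) (Equiv.refl (ZMod 2)) :
                  Equiv.Perm (H × ZMod 2)))) with hC
  apply le_antisymm
  · rintro _ ⟨X, rfl⟩
    have hl1 : hom H (LL.lamp {1}) ∈ C := by
      rw [hom_apply, phi_lamp]
      exact Subgroup.subset_closure (Or.inl rfl)
    have hm : ∀ h : H, hom H (LL.mv h) ∈ C := by
      intro h
      rw [hom_apply, phi_mv]
      exact Subgroup.subset_closure (Or.inr ⟨h, rfl⟩)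
    have hlx : ∀ x : H, hom H (LL.lamp {x}) ∈ C := by
      intro x
      have e := LL.lamp_smul x ({1} : Finset H)
      rw [Finset.smul_finset_singleton, smul_eq_mul, mul_one] at e
      rw [e, map_mul, map_mul]
      exact C.mul_mem (C.mul_mem (hm x) hl1) (hm _)
    have hl : ∀ v : Finset H, hom H (LL.lamp v) ∈ C := by
      intro v
      induction v using Finset.induction_on with
      | empty =>
        rw [LL.lamp_empty, map_one]
        exact C.one_mem
      | insert x v hx ih =>
        have e : insert x v = {x} ∆ v := by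
          ext y
          simp only [Finset.mem_insert, Finset.mem_symmDiff, Finset.mem_singleton]
          constructor
          · rintro (rfl | h)
            · exact Or.inl ⟨rfl, hx⟩
            · exact Or.inr ⟨h, fun h' => hx (h' ▸ h)⟩
          · rintro (⟨h, _⟩ | ⟨h, _⟩)
            · exact Or.inl h
            · exact Or.inr h
        rw [e, LL.lamp_symmDiff, map_mul]
        exact C.mul_mem (hlx x) ih
    rw [LL.eq_lamp_mul_mv X, map_mul]
    exact C.mul_mem (hl _) (hm _)
  · rw [hC, Subgroup.closure_le]
    rintro σ (hσ | ⟨h, rfl⟩)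
    · rw [Set.mem_singleton_iff] at hσ
      rw [hσ]
      exact ⟨LL.lamp {1}, phi_lamp⟩
    · exact ⟨LL.mv h, phi_mv h⟩

end LLIsoAux

theorem ll_iso (H : Type) [Group H] :
    Nonempty (LL H ≃* (Subgroup.closure
            (({Equiv.swap ((1 : H), (0 : ZMod 2)) ((1 : H), (1 : ZMod 2))} :
                Set (Equiv.Perm (H × ZMod 2))) ∪
              Set.range (fun h : H =>
                (Equiv.prodCongr (Equiv.mulLeft h) (Equiv.refl (ZMod 2)) :
                  Equiv.Perm (H × ZMod 2)))))) := by
  refine ⟨(MonoidHom.ofInjective (f := LLIsoAux.hom H) LLIsoAux.hom_inj).trans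
    (MulEquiv.subgroupCongr (LLIsoAux.range_eq H))⟩

end LQ

end
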