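import Pool.Agent.Lib.LQ.MainNG
import Pool.Agent.Lib.LQ.LLIso
import Pool.Agent.Lib.LQ.ChangeGen

/-!
Passage from the generating sets of the frozen statement to word lengths (MP_9bf8b0_al).
-/

set_option autoImplicit false

open Classical
open scoped Pointwise symmDiff

noncomputable section

namespace LQ

open LL

/-- Quasi-isometry between lamplighters, measured with arbitrary generating sets of isomorphic groups. -/
theorem qi_wr_of_gen {H₁ H₂ G₁ G₂ : Type} [Group H₁] [Group H₂] [Group G₁] [Group G₂]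
    (e₁ : LL H₁ ≃* G₁) (e₂ : LL H₂ ≃* G₂) (a : NG H₁) (b : NG H₂) (w₁ : NG G₁) (w₂ : NG G₂)
    (f : G₁ → G₂) (K C : ℕ)
    (h1 : ∀ x y : G₁, w₂.len ((f x)⁻¹ * f y) ≤ K * w₁.len (x⁻¹ * y) + C)
    (h2 : ∀ x y : G₁, w₁.len (x⁻¹ * y) ≤ K * w₂.len ((f x)⁻¹ * f y) + C)
    (h3 : ∀ z : G₂, ∃ x, w₂.len ((f x)⁻¹ * z) ≤ C) : QI a.wr b.wr := by
  obtain ⟨C1, hC1⟩ := change_gen e₁ a.wr w₁
  obtain ⟨C2, hC2⟩ := change_gen e₂ b.wr w₂
  obtain ⟨C3, hC3⟩ := change_gen e₁.symm w₁ a.wr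
  obtain ⟨C4, hC4⟩ := change_gen e₂.symm w₂ b.wr
  -- the map in the other coordinates
  have key : ∀ X Y : LL H₁,
      e₂.symm ((f (e₁ X))⁻¹ * f (e₁ Y)) = (e₂.symm (f (e₁ X)))⁻¹ * e₂.symm (f (e₁ Y)) := by
    intro X Y
    rw [map_mul, map_inv]
  refine ⟨fun X => e₂.symm (f (e₁ X)), C4 * (K * C1) + C3 * (K * C2) + C4 * C + C3 * C, ?_, ?_, ?_⟩
  · intro X Y
    beta_reduce
    have a1 := hC4 ((f (e₁ X))⁻¹ * f (e₁ Y))
    rw [key] at a1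
    have a2 := h1 (e₁ X) (e₁ Y)
    have a3 := hC1 (X⁻¹ * Y)
    rw [map_mul, map_inv] at a3
    calc b.wr.len ((e₂.symm (f (e₁ X)))⁻¹ * e₂.symm (f (e₁ Y)))
        ≤ C4 * w₂.len ((f (e₁ X))⁻¹ * f (e₁ Y)) := a1
      _ ≤ C4 * (K * (C1 * a.wr.len (X⁻¹ * Y)) + C) :=
          Nat.mul_le_mul_left _ (a2.trans (Nat.add_le_add_right (Nat.mul_le_mul_left _ a3) _))
      _ ≤ _ := by
          have e : C4 * (K * (C1 * a.wr.len (X⁻¹ * Y)) + C)
              = C4 * (K * C1) * a.wr.len (X⁻¹ * Y) + C4 * C := by ring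
          rw [e, add_mul, add_mul, add_mul]
          omega
  · intro X Y
    beta_reduce
    have a1 := hC3 ((e₁ X)⁻¹ * e₁ Y)
    rw [map_mul, map_inv, e₁.symm_apply_apply, e₁.symm_apply_apply] at a1
    have a2 := h2 (e₁ X) (e₁ Y)
    have a3 := hC2 ((e₂.symm (f (e₁ X)))⁻¹ * e₂.symm (f (e₁ Y)))
    rw [map_mul, map_inv, e₂.apply_symm_apply, e₂.apply_symm_apply] at a3
    calc a.wr.len (X⁻¹ * Y)
        ≤ C3 * w₁.len ((e₁ X)⁻¹ * e₁ Y) := a1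
      _ ≤ C3 * (K * (C2 * b.wr.len ((e₂.symm (f (e₁ X)))⁻¹ * e₂.symm (f (e₁ Y)))) + C) :=
          Nat.mul_le_mul_left _ (a2.trans (Nat.add_le_add_right (Nat.mul_le_mul_left _ a3) _))
      _ ≤ _ := by
          have e : C3 * (K * (C2 * b.wr.len ((e₂.symm (f (e₁ X)))⁻¹ * e₂.symm (f (e₁ Y)))) + C)
              = C3 * (K * C2) * b.wr.len ((e₂.symm (f (e₁ X)))⁻¹ * e₂.symm (f (e₁ Y))) + C3 * C := by
            ring
          rw [e, add_mul, add_mul, add_mul]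
          omega
  · intro Z
    obtain ⟨x, hx⟩ := h3 (e₂ Z)
    refine ⟨e₁.symm x, ?_⟩
    beta_reduce
    have a1 := hC4 ((f x)⁻¹ * e₂ Z)
    rw [map_mul, map_inv, e₂.symm_apply_apply] at a1
    rw [e₁.apply_symm_apply]
    calc b.wr.len ((e₂.symm (f x))⁻¹ * Z) ≤ C4 * w₂.len ((f x)⁻¹ * e₂ Z) := a1
      _ ≤ C4 * C := Nat.mul_le_mul_left _ hx
      _ ≤ _ := by omega

end LQ

end
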