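import Pool.Agent.Lib.LQ.Defs2

/-
Module HNum3 (library LQ, MP_9bf8b0_al).
Proof: real or natural numbers.  Put x = T^55 / N >= 1/(2 T^45).  (1 + x)^(2 T^45) >= 1 + 2 T^45 x >= 2 (Bernoulli, one_add_mul_le_pow), so
(N + T^55)^(T^46) = N^(T^46) (1+x)^(T^46) >= N^(T^46) 2^(T/2 floor) because T^46 >= 2 T^45 * (T/2).  And 4 l N <= 4 * 5 K T * 2 T^100 = 40 K T^101
<= T^55 * 2^(T/2) for T large (2^(T/2) >= 40 K T^46 eventually).
-/

set_option autoImplicit false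

open Classical
open scoped Pointwise symmDiff

noncomputable section

namespace LQ

open LL

theorem hnum3 (K : ℕ) : ∃ T0 : ℕ, ∀ T N l : ℕ, T0 ≤ T → T ^ 100 ≤ N → N ≤ 2 * T ^ 100 → l ≤ 5 * K * T →
    4 * (l * N * N ^ (T ^ 46)) ≤ T ^ 55 * (N + T ^ 55) ^ (T ^ 46) := by
  have hlim := (tendsto_pow_const_div_const_pow_of_one_lt 46 (r := (2:ℝ)) (by norm_num))
  have hpos : (0:ℝ) < 1 / (40 * (K + 1) * 3 ^ 46) := by positivity
  obtain ⟨M0, hM0⟩ := Filter.eventually_atTop.mp (hlim.eventually (gt_mem_nhds hpos))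
  refine ⟨2 * M0 + 2, ?_⟩
  intro T N l hT hN1 hN2 hl
  have hT1 : 1 ≤ T := by omega
  set m := T / 2 with hm
  have hmM : M0 ≤ m := by omega
  have hm1 : 1 ≤ m := by omega
  have hTm : T ≤ 3 * m := by omega
  have h40 : (40 * K * T ^ 46 : ℝ) ≤ 2 ^ m := by
    have h := hM0 m hmM
    rw [div_lt_div_iff₀ (by positivity) (by positivity), one_mul] at h
    have hT3 : (T:ℝ) ^ 46 ≤ (3 * m : ℝ) ^ 46 := by
      apply pow_le_pow_left₀ (by positivity)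
      exact_mod_cast hTm
    have hmp : (0:ℝ) ≤ (m:ℝ) ^ 46 := by positivity
    calc (40 * K * T ^ 46 : ℝ) ≤ 40 * K * (3 * m) ^ 46 := by gcongr
      _ = (m:ℝ) ^ 46 * (40 * K * 3 ^ 46) := by ring
      _ ≤ (m:ℝ) ^ 46 * (40 * (K + 1) * 3 ^ 46) := by
          apply mul_le_mul_of_nonneg_left _ hmp
          nlinarith
      _ ≤ 2 ^ m := h.le
  have hNpos : (0:ℝ) < N := by
    have : 0 < T ^ 100 := by positivity
    exact_mod_cast lt_of_lt_of_le this hN1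
  have hN2' : (N:ℝ) ≤ 2 * (T:ℝ) ^ 100 := by exact_mod_cast hN2
  have hx : 2 * (T:ℝ) ^ 45 * ((T:ℝ) ^ 55 / N) ≥ 1 := by
    rw [ge_iff_le, ← mul_div_assoc, le_div_iff₀ hNpos]
    nlinarith [hN2']
  have hxpos : (0:ℝ) ≤ (T:ℝ) ^ 55 / N := by positivity
  have hb : (2:ℝ) ≤ (1 + (T:ℝ) ^ 55 / N) ^ (2 * T ^ 45) := by
    have := one_add_mul_le_pow (a := (T:ℝ) ^ 55 / N) (by linarith) (2 * T ^ 45)
    push_cast at this
    linarith
  have hb2 : (2:ℝ) ^ m ≤ (1 + (T:ℝ) ^ 55 / N) ^ (T ^ 46) := by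
    have h1 : ((1 + (T:ℝ) ^ 55 / N) ^ (2 * T ^ 45)) ^ m ≤ (1 + (T:ℝ) ^ 55 / N) ^ (T ^ 46) := by
      rw [← pow_mul]
      apply pow_le_pow_right₀ (by linarith)
      calc 2 * T ^ 45 * m = T ^ 45 * (2 * m) := by ring
        _ ≤ T ^ 45 * T := Nat.mul_le_mul_left _ (by omega)
        _ = T ^ 46 := by ring
    exact le_trans (pow_le_pow_left₀ (by norm_num) hb m) h1
  have hfin : (4 * (l * N * N ^ (T ^ 46)) : ℝ) ≤ T ^ 55 * (N + T ^ 55) ^ (T ^ 46) := by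
    have h1 : ((N:ℝ) + T ^ 55) ^ (T ^ 46) = N ^ (T ^ 46) * (1 + (T:ℝ) ^ 55 / N) ^ (T ^ 46) := by
      rw [← mul_pow]
      congr 1
      field_simp
    rw [h1]
    have hl' : (l:ℝ) ≤ 5 * K * T := by exact_mod_cast hl
    have h2 : (4 * (l * N) : ℝ) ≤ T ^ 55 * (40 * K * T ^ 46) := by
      calc (4 * (l * N) : ℝ) ≤ 4 * ((5 * K * T) * (2 * (T:ℝ) ^ 100)) := by
            gcongr
        _ = T ^ 55 * (40 * K * T ^ 46) := by ring
    calc (4 * (l * N * N ^ (T ^ 46)) : ℝ) = (4 * (l * N)) * N ^ (T ^ 46) := by ring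
      _ ≤ (T ^ 55 * (40 * K * T ^ 46)) * N ^ (T ^ 46) := by gcongr
      _ ≤ (T ^ 55 * 2 ^ m) * N ^ (T ^ 46) := by gcongr
      _ ≤ (T ^ 55 * (1 + (T:ℝ) ^ 55 / N) ^ (T ^ 46)) * N ^ (T ^ 46) := by gcongr
      _ = T ^ 55 * (N ^ (T ^ 46) * (1 + (T:ℝ) ^ 55 / N) ^ (T ^ 46)) := by ring
  exact_mod_cast hfin

end LQ

end
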