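import Pool.Agent.Lib.LQ.Defs2

/-
Module HNum4 (library LQ, MP_9bf8b0_al).
Everything in exponents of 2.  vk + 1 <= 2^(mu T^46 l + 1); (mu T^46 l + 1) * 40 K T^46 <= (5 mu K T^47 + 1) * 40 K T^46 <= T^94 for T large.
8 mu R <= N gives mu R <= N/8.  Total exponent of the left side: 2 + mu K + N/8 + T^94 < N since T^100 <= N and T is large.
-/

set_option autoImplicit false

open Classical
open scoped Pointwise symmDiff

noncomputable section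

namespace LQ

open LL

theorem hnum4 (K mu : ℕ) (hK : 1 ≤ K) (hmu : 1 ≤ mu) : ∃ T0 : ℕ, ∀ T N l R c0 vR vk : ℕ, T0 ≤ T →
    T ^ 100 ≤ N → l ≤ 5 * K * T → 8 * mu * R ≤ N → c0 ≤ 2 ^ (mu * K) → vR ≤ 2 ^ (mu * R) →
    vk ≤ 2 ^ (mu * (T ^ 46 * l)) →
    4 * (c0 * (vR * (vk + 1) ^ (40 * K * T ^ 46))) < 2 ^ N := by
  refine ⟨240 * mu * K ^ 2 + 200 * (mu * K) + 200, ?_⟩
  intro T N l R c0 vR vk hT hN hl hR hc0 hvR hvk
  have hmK : 1 ≤ mu * K := Nat.one_le_iff_ne_zero.mpr (by positivity)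
  have hT200 : 200 ≤ T := by omega
  have hT1 : 1 ≤ T := by omega
  have hTKm : 200 * (mu * K) ≤ T := by
    have : 0 ≤ 240 * mu * K ^ 2 := Nat.zero_le _
    omega
  have hTKK : 240 * mu * K ^ 2 ≤ T := by omega
  have hvk1 : vk + 1 ≤ 2 ^ (mu * (T ^ 46 * l) + 1) := by
    have : 1 ≤ 2 ^ (mu * (T ^ 46 * l)) := Nat.one_le_pow _ _ (by norm_num)
    rw [pow_succ]
    omega
  have hpow : (vk + 1) ^ (40 * K * T ^ 46) ≤ 2 ^ ((mu * (T ^ 46 * l) + 1) * (40 * K * T ^ 46)) := by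
    rw [pow_mul 2 (mu * (T ^ 46 * l) + 1) (40 * K * T ^ 46)]
    exact Nat.pow_le_pow_left hvk1 _
  have hexp : (mu * (T ^ 46 * l) + 1) * (40 * K * T ^ 46) ≤ T ^ 94 := by
    have e1 : mu * (T ^ 46 * l) ≤ mu * (T ^ 46 * (5 * K * T)) :=
      Nat.mul_le_mul_left _ (Nat.mul_le_mul_left _ hl)
    have e2 : mu * (T ^ 46 * (5 * K * T)) = 5 * (mu * K * T ^ 47) := by ring
    have e3 : 1 ≤ mu * K * T ^ 47 := Nat.one_le_iff_ne_zero.mpr (by positivity)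
    have e4 : mu * (T ^ 46 * l) + 1 ≤ 6 * (mu * K * T ^ 47) := by omega
    calc (mu * (T ^ 46 * l) + 1) * (40 * K * T ^ 46) ≤ 6 * (mu * K * T ^ 47) * (40 * K * T ^ 46) :=
          Nat.mul_le_mul_right _ e4
      _ = (240 * mu * K ^ 2) * T ^ 93 := by ring
      _ ≤ T * T ^ 93 := Nat.mul_le_mul_right _ hTKK
      _ = T ^ 94 := by ring
  have hpow2 : (vk + 1) ^ (40 * K * T ^ 46) ≤ 2 ^ (T ^ 94) :=
    le_trans hpow (Nat.pow_le_pow_right (by norm_num) hexp)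
  have h1 : c0 * (vR * (vk + 1) ^ (40 * K * T ^ 46)) ≤ 2 ^ (mu * K) * (2 ^ (mu * R) * 2 ^ (T ^ 94)) :=
    Nat.mul_le_mul hc0 (Nat.mul_le_mul hvR hpow2)
  have h2 : 4 * (2 ^ (mu * K) * (2 ^ (mu * R) * 2 ^ (T ^ 94))) = 2 ^ (2 + (mu * K + (mu * R + T ^ 94))) := by
    rw [pow_add, pow_add, pow_add]; norm_num
  have h3 : 8 * (mu * R) ≤ N := by
    have : 8 * (mu * R) = 8 * mu * R := by ring
    omega
  have h7 : 200 * T ^ 94 ≤ T * T ^ 94 := Nat.mul_le_mul_right _ hT200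
  have h8 : T * T ^ 94 = T ^ 95 := by ring
  have h9 : T ^ 95 ≤ T ^ 100 := Nat.pow_le_pow_right hT1 (by norm_num)
  have h10 : T ^ 1 ≤ T ^ 94 := Nat.pow_le_pow_right hT1 (by norm_num)
  have hlt : 2 + (mu * K + (mu * R + T ^ 94)) < N := by
    rw [pow_one] at h10
    omega
  calc 4 * (c0 * (vR * (vk + 1) ^ (40 * K * T ^ 46)))
      ≤ 4 * (2 ^ (mu * K) * (2 ^ (mu * R) * 2 ^ (T ^ 94))) := Nat.mul_le_mul_left _ h1
    _ = 2 ^ (2 + (mu * K + (mu * R + T ^ 94))) := h2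
    _ < 2 ^ N := Nat.pow_lt_pow_right (by norm_num) hlt

end LQ

end
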