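import Pool.Agent.Lib.LQ.Defs2

/-
Module HNum6 (library LQ, MP_9bf8b0_al).
Proof.  (2 T^78)^2 / N >= 4 T^156 / (2 T^100) = 2 T^56.  exp(-2 T^56) <= 2^(-2 T^56) (exp 1 >= 2).  So the left side is <=
2^(1 + T^55 + N - 2 T^56) <= 2^(N - T^56) because 1 + T^55 <= T^56 for T >= 2.  (T^56 <= N so the natural subtraction is fine.)
-/

set_option autoImplicit false

open Classical
open scoped Pointwise symmDiff

noncomputable section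

namespace LQ

open LL

theorem hnum6 (T N : ℕ) (hT : 2 ≤ T) (h1 : T ^ 100 ≤ N) (h2 : N ≤ 2 * T ^ 100) :
    2 * 2 ^ (T ^ 55) * 2 ^ N * Real.exp (-(((2 * T ^ 78 : ℕ) : ℝ) ^ 2 / (N : ℝ)))
      ≤ ((2 ^ (N - T ^ 56) : ℕ) : ℝ) := by
  have hT1 : 1 ≤ T := by omega
  have hT56N : T ^ 56 ≤ N := le_trans (Nat.pow_le_pow_right hT1 (by norm_num)) h1
  have hNpos : (0:ℝ) < N := by
    have : 0 < T ^ 100 := by positivity
    exact_mod_cast lt_of_lt_of_le this h1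
  have h2' : (N:ℝ) ≤ 2 * (T:ℝ) ^ 100 := by exact_mod_cast h2
  have hq : 2 * (T:ℝ) ^ 56 ≤ ((2 * T ^ 78 : ℕ) : ℝ) ^ 2 / (N : ℝ) := by
    rw [le_div_iff₀ hNpos]
    push_cast
    calc 2 * (T:ℝ) ^ 56 * N ≤ 2 * (T:ℝ) ^ 56 * (2 * (T:ℝ) ^ 100) := by gcongr
      _ = (2 * (T:ℝ) ^ 78) ^ 2 := by ring
  have hexp : Real.exp (-(((2 * T ^ 78 : ℕ) : ℝ) ^ 2 / (N : ℝ))) ≤ (1 / 2 : ℝ) ^ (2 * T ^ 56) := by
    have e1 : Real.exp (-(((2 * T ^ 78 : ℕ) : ℝ) ^ 2 / (N : ℝ))) ≤ Real.exp (-(2 * (T:ℝ) ^ 56)) :=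
      Real.exp_le_exp.mpr (by linarith)
    have e2 : Real.exp (-(2 * (T:ℝ) ^ 56)) = (Real.exp (-1)) ^ (2 * T ^ 56) := by
      rw [← Real.exp_nat_mul]
      congr 1
      push_cast
      ring
    have e3 : Real.exp (-1) ≤ 1 / 2 := by
      rw [Real.exp_neg]
      have : (2:ℝ) ≤ Real.exp 1 := by
        have := Real.add_one_le_exp (1:ℝ)
        linarith
      rw [inv_eq_one_div]
      exact one_div_le_one_div_of_le (by norm_num) this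
    rw [e2] at e1
    exact le_trans e1 (pow_le_pow_left₀ (Real.exp_pos _).le e3 _)
  have hle : 2 ^ 1 * 2 ^ (T ^ 55) * 2 ^ N ≤ 2 ^ (N - T ^ 56) * 2 ^ (2 * T ^ 56) := by
    rw [← pow_add, ← pow_add, ← pow_add]
    apply Nat.pow_le_pow_right (by norm_num)
    have h5 : 1 ≤ T ^ 55 := Nat.one_le_pow _ _ hT1
    have h6 : 2 * T ^ 55 ≤ T * T ^ 55 := Nat.mul_le_mul_right _ hT
    have h7 : T * T ^ 55 = T ^ 56 := by ring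
    omega
  have hle' : (2 * 2 ^ (T ^ 55) * 2 ^ N : ℝ) ≤ 2 ^ (N - T ^ 56) * 2 ^ (2 * T ^ 56) := by
    have : (2 ^ 1 * 2 ^ (T ^ 55) * 2 ^ N : ℝ) ≤ 2 ^ (N - T ^ 56) * 2 ^ (2 * T ^ 56) := by
      exact_mod_cast hle
    simpa using this
  calc 2 * 2 ^ (T ^ 55) * 2 ^ N * Real.exp (-(((2 * T ^ 78 : ℕ) : ℝ) ^ 2 / (N : ℝ)))
      ≤ 2 * 2 ^ (T ^ 55) * 2 ^ N * (1 / 2 : ℝ) ^ (2 * T ^ 56) := by gcongr
    _ ≤ 2 ^ (N - T ^ 56) * 2 ^ (2 * T ^ 56) * (1 / 2 : ℝ) ^ (2 * T ^ 56) := by gcongr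
    _ = ((2 ^ (N - T ^ 56) : ℕ) : ℝ) := by
        rw [mul_assoc, ← mul_pow]
        norm_num

end LQ

end
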