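import Pool.Agent.Lib.LQ.Defs2

/-
Module HNumR (library LQ, MP_9bf8b0_al).
Simple inequalities between polynomials / powers of 2, for T large; R := N / (8 mu) (natural division).
(1) 4 N l <= 40 K T^101 <= T^55 (40 K T^46 + 1).
(2) (2 T^78 + 3) (5 K T) <= N / (8 mu): since T^100 / (8 mu) - 1 >= 15 K T^79.
(3) (2 T^78 + 1) (5 K T) <= T^80.
(4) 4 * 2^(N - T^56) <= 2^N (T^56 >= 2, T^56 <= N).
(5) 4 * ((2 l' N + 1) 2^(N - T^56)) <= 2^N for l' <= 5 K T: 4 (20 K T^101 + 1) <= 2^(T^56).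
(6) exponents: 1 + mu K + mu r + mu K (N/nu) < N for r <= T^80, 4 mu K <= nu (mu K (N / nu) <= N/4).
-/

set_option autoImplicit false

open Classical
open scoped Pointwise symmDiff

noncomputable section

namespace LQ

open LL

theorem hnumR (K mu : ℕ) (hK : 1 ≤ K) (hmu : 1 ≤ mu) : ∃ T0 : ℕ, ∀ T N l : ℕ, T0 ≤ T →
    T ^ 100 ≤ N → N ≤ 2 * T ^ 100 → l ≤ 5 * K * T →
    4 * (N * l) ≤ T ^ 55 * (40 * K * T ^ 46 + 1) ∧
    (2 * T ^ 78 + 3) * l ≤ N / (8 * mu) ∧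
    (2 * T ^ 78 + 1) * l ≤ T ^ 80 ∧
    4 * 2 ^ (N - T ^ 56) ≤ 2 ^ N ∧
    (∀ l', l' ≤ 5 * K * T → 4 * ((2 * l' * N + 1) * 2 ^ (N - T ^ 56)) ≤ 2 ^ N) ∧
    (∀ r nu c0 vr vw : ℕ, r ≤ T ^ 80 → 4 * mu * K ≤ nu → c0 ≤ 2 ^ (mu * K) → vr ≤ 2 ^ (mu * r) →
      vw ≤ 2 ^ (mu * (K * (N / nu))) → 2 * (c0 * (vr * vw)) < 2 ^ N) := by
  refine ⟨200 * K * mu + 200, ?_⟩
  intro T N l hT hN1 hN2 hl
  have hKmu : 1 ≤ K * mu := Nat.one_le_iff_ne_zero.mpr (by positivity)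
  have hTK : 200 * K ≤ T := by nlinarith
  have hTmu : 200 * mu ≤ T := by nlinarith
  have hTKm : 200 * (K * mu) ≤ T := by nlinarith
  have hT200 : 200 ≤ T := by omega
  have hT1 : 1 ≤ T := by omega
  have hp : ∀ n : ℕ, 1 ≤ T ^ n := fun n => Nat.one_le_pow _ _ hT1
  have hT56N : T ^ 56 ≤ N := le_trans (Nat.pow_le_pow_right hT1 (by norm_num)) hN1
  have h56 : T ^ 2 ≤ T ^ 56 := Nat.pow_le_pow_right hT1 (by norm_num)
  have h2_56 : 103 * T ≤ T ^ 56 := by nlinarith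
  refine ⟨?_, ?_, ?_, ?_, ?_, ?_⟩
  · have h1 : N * l ≤ (2 * T ^ 100) * (5 * K * T) := Nat.mul_le_mul hN2 hl
    have h2 : T ^ 55 * (40 * K * T ^ 46 + 1) = 4 * ((2 * T ^ 100) * (5 * K * T)) + T ^ 55 := by ring
    omega
  · rw [Nat.le_div_iff_mul_le (by omega)]
    have h3 : 3 * T ≤ T ^ 79 := by
      have : T ^ 2 ≤ T ^ 79 := Nat.pow_le_pow_right hT1 (by norm_num)
      nlinarith
    have h1 : (2 * T ^ 78 + 3) * l ≤ (2 * T ^ 78 + 3) * (5 * K * T) := Nat.mul_le_mul_left _ hl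
    have h2 : (2 * T ^ 78 + 3) * (5 * K * T) = 5 * K * (2 * T ^ 79 + 3 * T) := by ring
    have h4 : 5 * K * (2 * T ^ 79 + 3 * T) ≤ 5 * K * (3 * T ^ 79) := Nat.mul_le_mul_left _ (by omega)
    have h5 : (2 * T ^ 78 + 3) * l * (8 * mu) ≤ 5 * K * (3 * T ^ 79) * (8 * mu) :=
      Nat.mul_le_mul_right _ (by omega)
    have h6 : 5 * K * (3 * T ^ 79) * (8 * mu) = 120 * (K * mu) * T ^ 79 := by ring
    have h7 : 120 * (K * mu) * T ^ 79 ≤ T * T ^ 79 := Nat.mul_le_mul_right _ (by omega)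
    have h8 : T * T ^ 79 = T ^ 80 := by ring
    have h9 : T ^ 80 ≤ T ^ 100 := Nat.pow_le_pow_right hT1 (by norm_num)
    omega
  · have h3 : 1 * T ≤ T ^ 79 := by
      have : T ^ 1 ≤ T ^ 79 := Nat.pow_le_pow_right hT1 (by norm_num)
      simpa using this
    have h1 : (2 * T ^ 78 + 1) * l ≤ (2 * T ^ 78 + 1) * (5 * K * T) := Nat.mul_le_mul_left _ hl
    have h2 : (2 * T ^ 78 + 1) * (5 * K * T) = 5 * K * (2 * T ^ 79 + 1 * T) := by ring
    have h4 : 5 * K * (2 * T ^ 79 + 1 * T) ≤ 5 * K * (3 * T ^ 79) := Nat.mul_le_mul_left _ (by omega)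
    have h6 : 5 * K * (3 * T ^ 79) = (15 * K) * T ^ 79 := by ring
    have h7 : (15 * K) * T ^ 79 ≤ T * T ^ 79 := Nat.mul_le_mul_right _ (by omega)
    have h8 : T * T ^ 79 = T ^ 80 := by ring
    omega
  · have h1 : 4 * 2 ^ (N - T ^ 56) = 2 ^ (2 + (N - T ^ 56)) := by rw [pow_add]; norm_num
    rw [h1]
    exact Nat.pow_le_pow_right (by norm_num) (by omega)
  · intro l' hl'
    have h1 : 2 ^ N = 2 ^ (T ^ 56) * 2 ^ (N - T ^ 56) := by
      rw [← pow_add]; congr 1; omega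
    rw [h1, ← mul_assoc]
    apply Nat.mul_le_mul_right
    have h2 : l' * N ≤ (5 * K * T) * (2 * T ^ 100) := Nat.mul_le_mul hl' hN2
    have h3 : 4 * (2 * l' * N + 1) = 8 * (l' * N) + 4 := by ring
    have h4 : 8 * ((5 * K * T) * (2 * T ^ 100)) = (80 * K) * T ^ 101 := by ring
    have h5 : (80 * K) * T ^ 101 + 4 ≤ (81 * K) * T ^ 101 + 3 * 1 := by
      have : 1 ≤ K * T ^ 101 := Nat.one_le_iff_ne_zero.mpr (by positivity)
      nlinarith
    have h6 : (81 * K) * T ^ 101 + 3 * 1 ≤ (84 * K) * T ^ 101 := by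
      have : 1 ≤ K * T ^ 101 := Nat.one_le_iff_ne_zero.mpr (by positivity)
      nlinarith
    have h7 : (84 * K) * T ^ 101 ≤ T * T ^ 101 := Nat.mul_le_mul_right _ (by omega)
    have h8 : T * T ^ 101 ≤ T ^ 103 := by
      rw [← pow_succ']
      exact Nat.pow_le_pow_right hT1 (by norm_num)
    have h9 : T ^ 103 ≤ (2 ^ T) ^ 103 := Nat.pow_le_pow_left (Nat.lt_two_pow_self).le _
    have h10 : (2 ^ T) ^ 103 = 2 ^ (103 * T) := by rw [← pow_mul]; congr 1; ring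
    have h11 : 2 ^ (103 * T) ≤ 2 ^ (T ^ 56) := Nat.pow_le_pow_right (by norm_num) h2_56
    omega
  · intro r nu c0 vr vw hr hnu hc0 hvr hvw
    have h1 : c0 * (vr * vw) ≤ 2 ^ (mu * K) * (2 ^ (mu * r) * 2 ^ (mu * (K * (N / nu)))) :=
      Nat.mul_le_mul hc0 (Nat.mul_le_mul hvr hvw)
    have h2 : 2 * (2 ^ (mu * K) * (2 ^ (mu * r) * 2 ^ (mu * (K * (N / nu))))) =
        2 ^ (1 + (mu * K + (mu * r + mu * (K * (N / nu))))) := by
      rw [pow_add, pow_add, pow_add, pow_one]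
    have h3 : 4 * (mu * (K * (N / nu))) ≤ N := by
      have h31 : 4 * (mu * (K * (N / nu))) = (4 * mu * K) * (N / nu) := by ring
      rw [h31]
      exact le_trans (Nat.mul_le_mul_right _ hnu) (Nat.mul_div_le N nu)
    have h4 : mu * r ≤ mu * T ^ 80 := Nat.mul_le_mul_left _ hr
    have h5 : mu * T ^ 80 ≤ T * T ^ 80 := Nat.mul_le_mul_right _ (by omega)
    have h6 : T * T ^ 80 = T ^ 81 := by ring
    have h7 : 200 * T ^ 81 ≤ T * T ^ 81 := Nat.mul_le_mul_right _ hT200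
    have h8 : T * T ^ 81 = T ^ 82 := by ring
    have h9 : T ^ 82 ≤ T ^ 100 := Nat.pow_le_pow_right hT1 (by norm_num)
    have h10 : T ^ 1 ≤ T ^ 81 := Nat.pow_le_pow_right hT1 (by norm_num)
    have h11 : mu * K = K * mu := Nat.mul_comm _ _
    have hlt : 1 + (mu * K + (mu * r + mu * (K * (N / nu)))) < N := by
      rw [pow_one] at h10
      omega
    calc 2 * (c0 * (vr * vw)) ≤ 2 * (2 ^ (mu * K) * (2 ^ (mu * r) * 2 ^ (mu * (K * (N / nu))))) :=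
          Nat.mul_le_mul_left _ h1
      _ = 2 ^ (1 + (mu * K + (mu * r + mu * (K * (N / nu))))) := h2
      _ < 2 ^ N := Nat.pow_lt_pow_right (by norm_num) hlt

end LQ

end
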