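import Pool.Agent.Lib.LQ.HNum3
import Pool.Agent.Lib.LQ.HNum4
import Pool.Agent.Lib.LQ.HNum6
import Pool.Agent.Lib.LQ.HNumR
import Pool.Agent.Lib.LQ.Basic

/-
Module HighNum (library LQ, MP_9bf8b0_al). 
Proof.  mu0 := max of mu with a.wr.V 1 <= 2^mu0, b.V 1 <= 2^mu0, b.wr.V 1 <= 2^mu0.  NOTE: nu is given only with 4 mu K <= nu where
b.wr.V 1 <= 2^mu, a.wr.V 1 <= 2^mu, b.V 1 <= 2^mu: use this same mu.  V_le_pow gives V n <= 2^(mu n) for the three groups.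
hA gives s0 with s^100 <= a.V s for s >= s0.  For s large let N = a.V s and T := the largest T with T^100 <= N (Nat.findGreatest or
Nat.nthRoot); then s <= T and N < (T+1)^100 <= 2 T^100 for T >= 150 ((1+1/T)^100 <= exp(100/T) <= 2, or Bernoulli-type estimate).
l := K (2 s + 3) <= 5 K T (T >= 1).  Take lam = T^55, k = T^46, m = 40 K T^46, hh = 2 T^78, R = N / (8 mu), D = 2^(N - T^56).
The fields of HP: p1 (T^55 >= 2), p2, p5, p7 from hnumR, p3 from hnum3, p4 from hnum4, p6 from hnum6.  The remaining claims from hnumR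
(with l' = K (2 s + 1)).  s1 := max (s0, the T0s, 150, 2): s >= s1 implies T >= s >= s1.
-/

set_option autoImplicit false

open Classical
open scoped Pointwise symmDiff

noncomputable section

namespace LQ

open LL

variable {A B : Type} [Group A] [Group B]

private theorem succ_pow_le (T : ℕ) (hT : 150 ≤ T) : (T + 1) ^ 100 ≤ 2 * T ^ 100 := by
  have hT0 : (0 : ℝ) < T := by positivity
  have hT1 : (150 : ℝ) ≤ T := by exact_mod_cast hT
  have h1 : (1 + 1 / (T : ℝ)) ^ 100 ≤ 2 := by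
    have h2 : 1 + 1 / (T : ℝ) ≤ Real.exp (1 / T) := by
      have := Real.add_one_le_exp (1 / (T : ℝ))
      linarith
    have h3 : (1 + 1 / (T : ℝ)) ^ 100 ≤ Real.exp (1 / T) ^ 100 :=
      pow_le_pow_left₀ (by positivity) h2 100
    refine h3.trans ?_
    rw [← Real.exp_nat_mul]
    have h4 : ((100 : ℕ) : ℝ) * (1 / (T : ℝ)) ≤ 2 / 3 := by
      rw [mul_one_div, div_le_div_iff₀ hT0 (by norm_num)]
      push_cast
      linarith
    have h5 : (2 : ℝ) / 3 ≤ Real.log 2 := by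
      have := Real.log_two_gt_d9
      linarith
    calc Real.exp (((100 : ℕ) : ℝ) * (1 / (T : ℝ))) ≤ Real.exp (Real.log 2) :=
          Real.exp_le_exp.2 (h4.trans h5)
      _ = 2 := Real.exp_log (by norm_num)
  have h6 : ((T : ℝ) + 1) ^ 100 ≤ 2 * (T : ℝ) ^ 100 := by
    have h7 : (T : ℝ) + 1 = T * (1 + 1 / (T : ℝ)) := by
      field_simp
    rw [h7, mul_pow]
    have := mul_le_mul_of_nonneg_left h1 (by positivity : (0 : ℝ) ≤ (T : ℝ) ^ 100)
    linarith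
  exact_mod_cast h6

theorem exists_HP (a : NG A) (b : NG B) (K mu nu : ℕ) (hK : 1 ≤ K) (hmu : 1 ≤ mu)
    (h1 : a.wr.V 1 ≤ 2 ^ mu) (h2 : b.V 1 ≤ 2 ^ mu) (h3 : b.wr.V 1 ≤ 2 ^ mu) (hnu : 4 * mu * K ≤ nu)
    (hA : High a) :
    ∃ s1 : ℕ, ∀ s : ℕ, s1 ≤ s → ∃ T lam k m hh R D : ℕ, HP a b K s lam k m hh R D ∧
      T ^ 100 ≤ a.V s ∧ s ≤ T ∧ (hh + 1) * (K * (2 * s + 3)) ≤ T ^ 80 ∧
      4 * ((2 * (K * (2 * s + 1)) * a.V s + 1) * D) ≤ 2 ^ a.V s ∧
      2 * (a.wr.V K * (b.V ((hh + 1) * (K * (2 * s + 3))) * b.wr.V (K * (a.V s / nu)))) < 2 ^ a.V s := by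
  obtain ⟨s0, hs0⟩ := hA
  obtain ⟨T3, h3T⟩ := hnum3 K
  obtain ⟨T4, h4T⟩ := hnum4 K mu hK hmu
  obtain ⟨TR, hRT⟩ := hnumR K mu hK hmu
  refine ⟨s0 + T3 + T4 + TR + 150, fun s hs => ?_⟩
  have hpow : ∀ {G : Type} [Group G] (c : NG G), c.V 1 ≤ 2 ^ mu → ∀ n, c.V n ≤ 2 ^ (mu * n) := by
    intro G _ c hc n
    refine (c.V_le_pow n).trans ?_
    rw [pow_mul]
    exact Nat.pow_le_pow_left hc n
  set N := a.V s with hN
  have hsN : s ^ 100 ≤ N := hs0 s (by omega)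
  have hN1 : 1 ≤ N := le_trans (Nat.one_le_pow _ _ (by omega)) hsN
  set T := Nat.findGreatest (fun t => t ^ 100 ≤ N) N with hT
  have hsb : s ≤ N := le_trans (Nat.le_self_pow (by norm_num) s) hsN
  have hTN : T ^ 100 ≤ N := Nat.findGreatest_spec (P := fun t => t ^ 100 ≤ N) hsb hsN
  have hsT : s ≤ T := Nat.le_findGreatest hsb hsN
  have hTN2 : N ≤ 2 * T ^ 100 := by
    by_contra hcon
    have h5 : (T + 1) ^ 100 ≤ N := (succ_pow_le T (by omega)).trans (by omega)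
    have h6 : T + 1 ≤ N := le_trans (Nat.le_self_pow (by norm_num) _) h5
    have h7 : T + 1 ≤ T := Nat.le_findGreatest h6 h5
    omega
  have hl : K * (2 * s + 3) ≤ 5 * K * T := by
    calc K * (2 * s + 3) ≤ K * (5 * T) := Nat.mul_le_mul_left _ (by omega)
      _ = 5 * K * T := by ring
  have hl' : K * (2 * s + 1) ≤ 5 * K * T := by
    calc K * (2 * s + 1) ≤ K * (5 * T) := Nat.mul_le_mul_left _ (by omega)
      _ = 5 * K * T := by ring
  obtain ⟨r1, r2, r3, r4, r5, r6⟩ := hRT T N (K * (2 * s + 3)) (by omega) hTN hTN2 hl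
  refine ⟨T, T ^ 55, T ^ 46, 40 * K * T ^ 46, 2 * T ^ 78, N / (8 * mu), 2 ^ (N - T ^ 56),
    ⟨?_, r1, h3T T N _ (by omega) hTN hTN2 hl, ?_, r2, ?_, r4⟩, hTN, hsT, r3, r5 _ hl', ?_⟩
  · calc 2 ≤ T := by omega
      _ ≤ T ^ 55 := Nat.le_self_pow (by norm_num) T
  · exact h4T T N (K * (2 * s + 3)) (N / (8 * mu)) _ _ _ (by omega) hTN hl
      (Nat.mul_div_le _ _) (hpow a.wr h1 K) (hpow b h2 _) (hpow b h2 _)
  · exact hnum6 T N (by omega) hTN hTN2
  · exact r6 _ nu _ _ _ r3 hnu (hpow a.wr h1 K) (hpow b h2 _) (hpow b.wr h3 _)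

end LQ

end
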