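import Pool.Agent.Lib.LQ.Defs2

/-!
High growth: the sum over the scales (library LQ, MP_9bf8b0_al).
-/

set_option autoImplicit false

open Classical
open scoped Pointwise symmDiff

noncomputable section

namespace LQ

open LL

namespace HighSumAux

/-- `c x ^ p ≤ η x ^ q + C` for natural numbers `x` and `p < q`. -/
theorem absorb (p q : ℕ) (hpq : p < q) (c η : ℝ) (hc : 0 ≤ c) (hη : 0 < η) :
    ∃ C : ℝ, ∀ x : ℕ, c * (x : ℝ) ^ p ≤ η * (x : ℝ) ^ q + C := by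
  obtain ⟨M, hM⟩ := exists_nat_gt (c / η)
  refine ⟨c * (M : ℝ) ^ p, fun x => ?_⟩
  have hx0 : (0 : ℝ) ≤ x := Nat.cast_nonneg x
  have hM0 : (0 : ℝ) ≤ M := Nat.cast_nonneg M
  by_cases h : x ≤ M
  · have h0 : (x : ℝ) ≤ M := by exact_mod_cast h
    have h1 : (x : ℝ) ^ p ≤ (M : ℝ) ^ p := pow_le_pow_left₀ hx0 h0 p
    have h2 : c * (x : ℝ) ^ p ≤ c * (M : ℝ) ^ p := mul_le_mul_of_nonneg_left h1 hc
    have h3 : 0 ≤ η * (x : ℝ) ^ q := mul_nonneg hη.le (pow_nonneg hx0 q)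
    linarith
  · have hx1 : (1 : ℝ) ≤ x := by
      have : 1 ≤ x := by omega
      exact_mod_cast this
    have h1 : c ≤ η * (x : ℝ) := by
      have h2 : c < η * M := by
        rw [div_lt_iff₀ hη] at hM
        linarith
      have h3 : (M : ℝ) ≤ x := by
        have : M ≤ x := by omega
        exact_mod_cast this
      have h4 : η * (M : ℝ) ≤ η * x := mul_le_mul_of_nonneg_left h3 hη.le
      linarith
    have h4 : (x : ℝ) ^ (p + 1) ≤ (x : ℝ) ^ q := pow_le_pow_right₀ hx1 hpq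
    have h5 : c * (x : ℝ) ^ p ≤ η * (x : ℝ) ^ q := by
      calc c * (x : ℝ) ^ p ≤ (η * (x : ℝ)) * (x : ℝ) ^ p :=
            mul_le_mul_of_nonneg_right h1 (pow_nonneg hx0 p)
        _ = η * (x : ℝ) ^ (p + 1) := by rw [pow_succ]; ring
        _ ≤ η * (x : ℝ) ^ q := mul_le_mul_of_nonneg_left h4 hη.le
    have h6 : 0 ≤ c * (M : ℝ) ^ p := mul_nonneg hc (pow_nonneg hM0 p)
    linarith

/-- one term -/
theorem term_le (K nu v : ℕ) {s U P ri ri' : ℕ} (hU : 1 ≤ U) (hUP : U ≤ P) (hs : s ≤ U) (hr : ri ≤ P)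
    (hr' : ri' ≤ P) :
    2 * (2 * (nu * (2 * s + 3)) * v) * (ri + K * (2 * s + 1)) + ri + ri' ≤
      (2 * (2 * (nu * 5) * v) * (1 + K * 3) + 2) * (P * U) := by
  have h1 : 2 * s + 3 ≤ 5 * U := by omega
  have h2 : 2 * s + 1 ≤ 3 * P := by omega
  have h3 : ri + K * (2 * s + 1) ≤ (1 + K * 3) * P := by
    calc ri + K * (2 * s + 1) ≤ P + K * (3 * P) :=
          Nat.add_le_add hr (Nat.mul_le_mul_left K h2)
      _ = (1 + K * 3) * P := by ring
  have h4 : 2 * (2 * (nu * (2 * s + 3)) * v) ≤ 2 * (2 * (nu * 5) * v) * U := by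
    calc 2 * (2 * (nu * (2 * s + 3)) * v) ≤ 2 * (2 * (nu * (5 * U)) * v) :=
          Nat.mul_le_mul_left 2 (Nat.mul_le_mul_right v (Nat.mul_le_mul_left 2
            (Nat.mul_le_mul_left nu h1)))
      _ = 2 * (2 * (nu * 5) * v) * U := by ring
  have h5 : P ≤ P * U := Nat.le_mul_of_pos_right P hU
  calc 2 * (2 * (nu * (2 * s + 3)) * v) * (ri + K * (2 * s + 1)) + ri + ri'
      ≤ (2 * (2 * (nu * 5) * v) * U) * ((1 + K * 3) * P) + P * U + P * U :=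
        Nat.add_le_add (Nat.add_le_add (Nat.mul_le_mul h4 h3) (hr.trans h5)) (hr'.trans h5)
    _ = (2 * (2 * (nu * 5) * v) * (1 + K * 3) + 2) * (P * U) := by ring

end HighSumAux

open HighSumAux in
theorem high_sum (K nu v s1 : ℕ) (η : ℝ) (hη : 0 < η) (Nf T r : ℕ → ℕ) (hmono : Monotone Nf)
    (hT : ∀ j, T j ^ 100 ≤ Nf j) (hs : ∀ j, s1 + j ≤ T j) (hr : ∀ j, r j ≤ T j ^ 80) :
    ∃ C : ℝ, ∀ j, (∑ i ∈ Finset.range j,
      ((2 * (2 * (nu * (2 * (s1 + i) + 3)) * v) * (r i + K * (2 * (s1 + i) + 1)) + r i + r (i + 1) : ℕ) : ℝ))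
        ≤ η * Nf j + C ∧
      ((2 * (r j + K * (2 * (s1 + j) + 1)) : ℕ) : ℝ) ≤ η * Nf j + C := by
  set c₁ : ℕ := 2 * (2 * (nu * 5) * v) * (1 + K * 3) + 2 with hc₁
  set c₂ : ℕ := 2 * (1 + K * 3) with hc₂
  obtain ⟨C₁, hC₁⟩ := absorb 82 100 (by norm_num) (c₁ : ℝ) η (Nat.cast_nonneg _) hη
  obtain ⟨C₂, hC₂⟩ := absorb 82 100 (by norm_num) (c₂ : ℝ) η (Nat.cast_nonneg _) hη
  -- the case of a vanishing T
  refine ⟨|C₁| + |C₂| + (2 * (r 0 + K * (2 * (s1 + 0) + 1)) : ℕ), fun j => ?_⟩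
  -- U : a natural number with all T i ≤ U for i ≤ j and U ^ 100 ≤ Nf j
  obtain ⟨U, hUT, hUN⟩ : ∃ U : ℕ, (∀ i ≤ j, T i ≤ U) ∧ U ^ 100 ≤ Nf j := by
    refine ⟨(Finset.range (j + 1)).sup T, fun i hi => Finset.le_sup (f := T) (by simpa using by omega), ?_⟩
    obtain ⟨i, hi, hie⟩ := Finset.exists_mem_eq_sup (Finset.range (j + 1)) ⟨0, by simp⟩ T
    rw [hie]
    have hij : i ≤ j := by simpa [Nat.lt_succ_iff] using hi
    exact (hT i).trans (hmono hij)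
  have hUNr : ((U : ℝ)) ^ 100 ≤ Nf j := by exact_mod_cast hUN
  have hηN : η * (U : ℝ) ^ 100 ≤ η * Nf j := mul_le_mul_of_nonneg_left hUNr hη.le
  have hjU : s1 + j ≤ U := (hs j).trans (hUT j le_rfl)
  have hN0 : (0 : ℝ) ≤ η * Nf j := by positivity
  have ha1 := le_abs_self C₁
  have ha2 := le_abs_self C₂
  have hb1 := abs_nonneg C₁
  have hb2 := abs_nonneg C₂
  have hlast : (0 : ℝ) ≤ ((2 * (r 0 + K * (2 * (s1 + 0) + 1)) : ℕ) : ℝ) := Nat.cast_nonneg _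
  rcases Nat.eq_zero_or_pos j with hj0 | hjpos
  · subst hj0
    refine ⟨?_, ?_⟩
    · simp only [Finset.range_zero, Finset.sum_empty]
      linarith
    · linarith
  · have hU1 : 1 ≤ U := by omega
    refine ⟨?_, ?_⟩
    · have hterm : ∀ i ∈ Finset.range j,
          ((2 * (2 * (nu * (2 * (s1 + i) + 3)) * v) * (r i + K * (2 * (s1 + i) + 1)) + r i +
            r (i + 1) : ℕ) : ℝ) ≤ (c₁ : ℝ) * ((U : ℝ) ^ 80 * U) := by
        intro i hi
        have hij : i < j := Finset.mem_range.1 hi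
        have h1 : r i ≤ U ^ 80 := (hr i).trans (Nat.pow_le_pow_left (hUT i hij.le) 80)
        have h2 : r (i + 1) ≤ U ^ 80 := (hr (i + 1)).trans (Nat.pow_le_pow_left (hUT (i + 1) hij) 80)
        have h3 : s1 + i ≤ U := by omega
        have h4 := term_le K nu v hU1 (Nat.le_self_pow (by norm_num) U : U ≤ U ^ 80) h3 h1 h2
        have h5 : ((2 * (2 * (nu * (2 * (s1 + i) + 3)) * v) * (r i + K * (2 * (s1 + i) + 1)) + r i +
            r (i + 1) : ℕ) : ℝ) ≤ ((c₁ * (U ^ 80 * U) : ℕ) : ℝ) := Nat.cast_le.2 h4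
        rw [Nat.cast_mul c₁ (U ^ 80 * U), Nat.cast_mul (U ^ 80) U, Nat.cast_pow] at h5
        exact h5
      have h6 := Finset.sum_le_sum hterm
      have hUr : (0 : ℝ) ≤ U := Nat.cast_nonneg U
      have e82 : (U : ℝ) * ((c₁ : ℝ) * ((U : ℝ) ^ 80 * U)) = (c₁ : ℝ) * (U : ℝ) ^ 82 := by
        rw [show (82 : ℕ) = 80 + 1 + 1 from rfl, pow_succ, pow_succ]
        ring
      have h7 : ∑ _i ∈ Finset.range j, (c₁ : ℝ) * ((U : ℝ) ^ 80 * U) ≤ (c₁ : ℝ) * (U : ℝ) ^ 82 := by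
        rw [Finset.sum_const, Finset.card_range, nsmul_eq_mul]
        have hjr : (j : ℝ) ≤ U := by
          have : j ≤ U := by omega
          exact_mod_cast this
        rw [← e82]
        exact mul_le_mul_of_nonneg_right hjr
          (mul_nonneg (Nat.cast_nonneg _) (mul_nonneg (pow_nonneg hUr 80) hUr))
      have h8 := hC₁ U
      linarith
    · have h1 : r j ≤ U ^ 80 := (hr j).trans (Nat.pow_le_pow_left (hUT j le_rfl) 80)
      have hU80 : U ≤ U ^ 80 := Nat.le_self_pow (by norm_num) U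
      have h2 : 2 * (r j + K * (2 * (s1 + j) + 1)) ≤ c₂ * U ^ 80 := by
        have h3 : K * (2 * (s1 + j) + 1) ≤ K * (3 * U ^ 80) := Nat.mul_le_mul_left K (by omega)
        calc 2 * (r j + K * (2 * (s1 + j) + 1)) ≤ 2 * (U ^ 80 + K * (3 * U ^ 80)) :=
              Nat.mul_le_mul_left 2 (Nat.add_le_add h1 h3)
          _ = c₂ * U ^ 80 := by rw [hc₂]; ring
      have h5 : c₂ * U ^ 80 ≤ c₂ * U ^ 82 :=
        Nat.mul_le_mul_left _ (Nat.pow_le_pow_right hU1 (by norm_num))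
      have h6 : ((2 * (r j + K * (2 * (s1 + j) + 1)) : ℕ) : ℝ) ≤ ((c₂ * U ^ 82 : ℕ) : ℝ) :=
        Nat.cast_le.2 (h2.trans h5)
      rw [Nat.cast_mul c₂ (U ^ 82), Nat.cast_pow] at h6
      have h8 := hC₂ U
      linarith

end LQ

end
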