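import Pool.Agent.Lib.LQ.Pres1W
import Pool.Agent.Lib.LQ.Fibre

/-
Module Pres2B (library LQ, MP_9bf8b0_al).
Notation l := K * (2 * s + 3), N := a.V s, Ω := a.ball s, tΩ := t • Ω, Ω'' := Ω ∪ tΩ, N'' := Ω''.card.  Suppose z is in exactly one of
bg a ψ s X, bg a ψ s (X * mv t).
E1 := {n'' ⊆ Ω'' : not (z in cc ψ X n'' iff z in bg X)}.  For m' ⊆ Ω'' \ Ω (elements of len <= s+1): X * lamp m' is NL with background bg X (pres1w), and
#{n ⊆ Ω : m' ∆ n in E1} = (Mi Ω (cc ψ (X * lamp m')) z).card, times 2^lam <= 2^N, 4 <= 2^lam.  card_le_of_fibres: 4 E1.card <= 2^N''.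
E2 := {n'' ⊆ Ω'' : not (z in (ψ (X * lamp n'' * mv t)).u iff z in bg (X * mv t))}.  For m' ⊆ Ω'' \ tΩ (so m' ⊆ Ω, t⁻¹ • m' in ball (s+1)) and n ⊆ Ω:
X * lamp (m' ∆ t • n) * mv t = X * mv t * lamp (t⁻¹ • m') * lamp n (LL.mul_mv_lamp), and X * mv t * lamp (t⁻¹ • m') is NL with
background bg (X * mv t) (pres1w).  So again (subsets of tΩ = t • subsets of Ω) 4 E2.card <= 2^N''.
For n'' ⊆ Ω'' outside E1 ∪ E2: z is in exactly one of (ψ (X * lamp n'')).u and (ψ (X * lamp n'' * mv t)).u, so len((pp ψ X n'')⁻¹ z) <= K <= R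
(QD.mem_u, wr_mv_le; 3 K <= l <= R by hp.p5).  So Q n'' := (len(z⁻¹ pp ψ X n'') <= R) holds for at least half of the n'' ⊆ Ω''.
By card_fibre some m' ⊆ Ω'' \ Ω has 2 * #{n ⊆ Ω : Q (m' ∆ n)} >= 2^N; but X * lamp m' is NL: spread (with pp_lamp) says 2 # < 2^N.  Contradiction.
-/

set_option autoImplicit false

open Classical
open scoped Pointwise symmDiff

noncomputable section

namespace LQ

open LL

variable {A B : Type} [Group A] [Group B] {a : NG A} {b : NG B} {K : ℕ} {ψ : LL A → LL B}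
variable {s lam k m hh R D : ℕ}

namespace Pres2BAux

theorem move_eq (X : LL A) (t : A) (m' n : Finset A) :
    X * mv t * lamp (t⁻¹ • m') * lamp n = X * lamp (m' ∆ (t • n)) * mv t := by
  rw [LL.mul_mv_lamp, Finset.smul_finset_symmDiff, inv_smul_smul, LL.lamp_symmDiff, ← mul_assoc]

/-- For a state of type NL few sets of lamps give `z` the wrong value. -/
theorem few (hp : HP a b K s lam k m hh R D) (Y : LL A) (hY : NL a ψ s lam Y) (z : B)
    (P : Finset A → Prop)
    (hP : ∀ n, n ⊆ a.ball s → P n → ¬ (z ∈ cc ψ Y n ↔ z ∈ bg a ψ s Y)) :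
    4 * ((a.ball s).powerset.filter P).card ≤ 2 ^ a.V s := by
  have hpow : 4 ≤ 2 ^ lam := by
    calc 4 = 2 ^ 2 := by norm_num
      _ ≤ 2 ^ lam := Nat.pow_le_pow_right (by norm_num) hp.p1
  have h1 : (Mi (a.ball s) (cc ψ Y) z).card * 2 ^ lam ≤ 2 ^ (a.ball s).card := hY z
  have h2 : ((a.ball s).powerset.filter P).card ≤ (Mi (a.ball s) (cc ψ Y) z).card := by
    apply Finset.card_le_card
    intro n hn
    rw [Finset.mem_filter] at hn
    exact Finset.mem_filter.2 ⟨hn.1, hP n (Finset.mem_powerset.1 hn.1) hn.2⟩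
  calc 4 * ((a.ball s).powerset.filter P).card
      = ((a.ball s).powerset.filter P).card * 4 := mul_comm _ _
    _ ≤ (Mi (a.ball s) (cc ψ Y) z).card * 2 ^ lam := Nat.mul_le_mul h2 hpow
    _ ≤ 2 ^ a.V s := h1

theorem xor_aux {p q r s : Prop} (h1 : p ↔ r) (h2 : q ↔ s) (h3 : ¬ (s ↔ r)) :
    (p ∧ ¬ q) ∨ (q ∧ ¬ p) := by
  rw [h1, h2]
  tauto

/-- Counting subsets of the translated ball. -/
theorem card_translate (a : NG A) (s : ℕ) (t : A) (P : Finset A → Prop) :
    ((t • a.ball s).powerset.filter P).card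
      ≤ ((a.ball s).powerset.filter (fun n => P (t • n))).card := by
  refine Finset.card_le_card_of_injOn (fun n => t⁻¹ • n) ?_ ?_
  · intro n hn
    have hn' := Finset.mem_filter.1 (Finset.mem_coe.1 hn)
    apply Finset.mem_coe.2
    refine Finset.mem_filter.2 ⟨?_, ?_⟩
    · rw [Finset.mem_powerset]
      have := Finset.smul_finset_subset_smul_finset (a := t⁻¹) (Finset.mem_powerset.1 hn'.1)
      rwa [inv_smul_smul] at this
    · show P (t • (t⁻¹ • n))
      rw [smul_inv_smul]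
      exact hn'.2
  · intro n _ n' _ hnn
    exact smul_left_cancel t⁻¹ hnn

end Pres2BAux

theorem pres2b (h : QD a b K ψ) (hp : HP a b K s lam k m hh R D) (X : LL A) (hX : NL a ψ s lam X)
    (t : A) (ht : a.len t ≤ 1) (hXt : NL a ψ s lam (X * mv t)) :
    bg a ψ s (X * mv t) = bg a ψ s X := by
  have hT : (t • a.ball s).card = a.V s := by
    rw [Finset.card_smul_finset, NG.V]
  have hΩ : (a.ball s).card = a.V s := rfl
  have hmem : ∀ m', m' ⊆ (a.ball s ∪ t • a.ball s) \ a.ball s → ∀ x, x ∈ m' → a.len x ≤ s + 1 := by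
    intro m' hm' x hx
    have hx' := (Finset.mem_sdiff.1 (hm' hx)).1
    rcases Finset.mem_union.1 hx' with h' | h'
    · have := (a.mem_ball s x).1 h'
      omega
    · obtain ⟨y, hy, rfl⟩ := Finset.mem_smul_finset.1 h'
      have h2 := (a.mem_ball s y).1 hy
      have h3 := a.len_mul t y
      rw [smul_eq_mul]
      omega
  ext z
  by_contra hne
  obtain ⟨P1, hP1⟩ : ∃ P1 : Finset A → Prop, ∀ n, P1 n ↔
      ¬ (z ∈ cc ψ X n ↔ z ∈ bg a ψ s X) := ⟨_, fun n => Iff.rfl⟩
  obtain ⟨P2, hP2⟩ : ∃ P2 : Finset A → Prop, ∀ n, P2 n ↔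
      ¬ (z ∈ (ψ (X * lamp n * mv t)).u ↔ z ∈ bg a ψ s (X * mv t)) := ⟨_, fun n => Iff.rfl⟩
  obtain ⟨P3, hP3⟩ : ∃ P3 : Finset A → Prop, ∀ n, P3 n ↔
      ¬ b.len (z⁻¹ * pp ψ X n) ≤ R := ⟨_, fun n => Iff.rfl⟩
  -- first exceptional set
  have h1 : 4 * ((a.ball s ∪ t • a.ball s).powerset.filter P1).card
      ≤ 2 ^ (a.ball s ∪ t • a.ball s).card := by
    refine card_le_of_fibres (a.ball s) (a.ball s ∪ t • a.ball s) Finset.subset_union_left
      P1 4 (fun m' hm' => ?_)
    obtain ⟨hN, hb⟩ := pres1w h hp X hX m' (hmem m' hm')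
    rw [hΩ]
    refine Pres2BAux.few hp (X * lamp m') hN z _ (fun n _ hn => ?_)
    rw [cc_lamp, hb]
    exact (hP1 _).1 hn
  -- second exceptional set
  have h2 : 4 * ((a.ball s ∪ t • a.ball s).powerset.filter P2).card
      ≤ 2 ^ (a.ball s ∪ t • a.ball s).card := by
    refine card_le_of_fibres (t • a.ball s) (a.ball s ∪ t • a.ball s) Finset.subset_union_right
      P2 4 (fun m' hm' => ?_)
    have hw : ∀ x, x ∈ t⁻¹ • m' → a.len x ≤ s + 1 := by
      intro x hx
      obtain ⟨y, hy, rfl⟩ := Finset.mem_smul_finset.1 hx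
      obtain ⟨h2, h3⟩ := Finset.mem_sdiff.1 (hm' hy)
      have hy' : y ∈ a.ball s := by
        rcases Finset.mem_union.1 h2 with h' | h'
        · exact h'
        · exact absurd h' h3
      have h4 := (a.mem_ball s y).1 hy'
      have h5 := a.len_mul t⁻¹ y
      rw [a.len_inv] at h5
      rw [smul_eq_mul]
      omega
    obtain ⟨hN, hb⟩ := pres1w h hp (X * mv t) hXt (t⁻¹ • m') hw
    have h3 := Pres2BAux.card_translate a s t (fun n => P2 (m' ∆ n))
    rw [hT]
    have h4 := Pres2BAux.few hp (X * mv t * lamp (t⁻¹ • m')) hN z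
      (fun n => P2 (m' ∆ (t • n)))
      (fun n _ hn => by
        rw [hb, cc, Pres2BAux.move_eq]
        exact (hP2 _).1 hn)
    exact (Nat.mul_le_mul_left 4 h3).trans h4
  -- the cursor is near for the other sets
  have h3 : 2 * ((a.ball s ∪ t • a.ball s).powerset.filter P3).card
      ≤ 2 ^ (a.ball s ∪ t • a.ball s).card := by
    have hsub : (a.ball s ∪ t • a.ball s).powerset.filter P3
        ⊆ (a.ball s ∪ t • a.ball s).powerset.filter P1 ∪
          (a.ball s ∪ t • a.ball s).powerset.filter P2 := by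
      intro n hn
      rw [Finset.mem_filter] at hn
      rw [Finset.mem_union, Finset.mem_filter, Finset.mem_filter]
      by_contra hc
      have hc1 : (z ∈ cc ψ X n ↔ z ∈ bg a ψ s X) := by
        by_contra hq
        exact hc (Or.inl ⟨hn.1, (hP1 n).2 hq⟩)
      have hc2 : (z ∈ (ψ (X * lamp n * mv t)).u ↔ z ∈ bg a ψ s (X * mv t)) := by
        by_contra hq
        exact hc (Or.inr ⟨hn.1, (hP2 n).2 hq⟩)
      apply (hP3 n).1 hn.2
      have hz : z ∈ (ψ (X * lamp n)).u ∆ (ψ (X * lamp n * mv t)).u := by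
        rw [cc] at hc1
        rw [Finset.mem_symmDiff]
        exact Pres2BAux.xor_aux hc1 hc2 hne
      have h4 := h.mem_u (X * lamp n) (mv t) z hz
      have h5 : K * a.wr.len (mv t) ≤ K * 1 := Nat.mul_le_mul_left K ((a.wr_mv_le t).trans ht)
      have h6 : b.len (z⁻¹ * pp ψ X n) ≤ K * a.wr.len (mv t) := by
        rw [b.len_symm, pp]
        exact h4
      have h7 := hp.p5
      have h8 : K ≤ K * (2 * s + 3) := Nat.le_mul_of_pos_right K (by omega)
      have h9 : K * (2 * s + 3) ≤ (hh + 3) * (K * (2 * s + 3)) := Nat.le_mul_of_pos_left _ (by omega)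
      omega
    have h4 := (Finset.card_le_card hsub).trans (Finset.card_union_le _ _)
    omega
  obtain ⟨m', hm', h4⟩ := exists_fibre_le (a.ball s) (a.ball s ∪ t • a.ball s)
    Finset.subset_union_left P3 2 h3
  obtain ⟨hN, -⟩ := pres1w h hp X hX m' (hmem m' hm')
  have h5 := spread h hp (X * lamp m') hN z
  have h6 : 2 ^ a.V s ≤ ((a.ball s).powerset.filter
      (fun n => b.len (z⁻¹ * pp ψ (X * lamp m') n) ≤ R)).card
      + ((a.ball s).powerset.filter (fun n => P3 (m' ∆ n))).card := by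
    have h7 : (a.ball s).powerset ⊆ (a.ball s).powerset.filter
        (fun n => b.len (z⁻¹ * pp ψ (X * lamp m') n) ≤ R) ∪
        (a.ball s).powerset.filter (fun n => P3 (m' ∆ n)) := by
      intro n hn
      rw [Finset.mem_union, Finset.mem_filter, Finset.mem_filter]
      by_cases hc : b.len (z⁻¹ * pp ψ (X * lamp m') n) ≤ R
      · exact Or.inl ⟨hn, hc⟩
      · rw [pp_lamp] at hc
        exact Or.inr ⟨hn, (hP3 _).2 hc⟩
    have h8 := (Finset.card_le_card h7).trans (Finset.card_union_le _ _)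
    rw [Finset.card_powerset, hΩ] at h8
    exact h8
  rw [hΩ] at h4
  omega

end LQ

end
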