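import Pool.Agent.Lib.LQ.Pres2A
import Pool.Agent.Lib.LQ.Pres2B

/-
Module NoNL (library LQ, MP_9bf8b0_al).
Suppose NL X0.  P := {Y | NL (X0 * Y) and bg (X0 * Y) = bg X0}: NG.wrGen_mem_of_closed (pres2a, pres2b, pres1 with x = 1) gives P = everything, so every
X = X0 * (X0⁻¹ * X) is NL with background bb := bg a ψ s X0.
For every X there is n ⊆ ball s with Good b bb m (k*l) (cc ψ X n) (pp ψ X n) (good_w: 4 #bad <= 2^N < 4 * 2^N), so the set of z with
not (z in cc ψ X n iff z in bb) has <= m elements; and card((ψ X).u ∆ cc ψ X n) <= K * kap n <= C1 := K * ((2 s + 1) * a.V s) (QD.card_u,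
kap_le_card).  So (*) for every X there is a finite set E of card <= m + C1 with: z not in E implies (z in (ψ X).u iff z in bb).
B infinite: take a finite Z ⊆ B with Z.card = m + C1 + K + 1 and v := Z.filter (z not in bb).  By h.q3 there is X with
b.wr.len((ψ X)⁻¹ * lamp v) <= K; then card((ψ X).u ∆ v) <= K (lamp v = ψ X * w, wr_bound for w, as in QD.card_u).  Every z in Z satisfies
not (z in v iff z in bb), so Z ⊆ E ∪ ((ψ X).u ∆ v), Z.card <= m + C1 + K.  Contradiction.
-/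

set_option autoImplicit false

open Classical
open scoped Pointwise symmDiff

noncomputable section

namespace LQ

open LL

variable {A B : Type} [Group A] [Group B] {a : NG A} {b : NG B} {K : ℕ} {ψ : LL A → LL B}
variable {s lam k m hh R D : ℕ}

namespace NoNLAux

theorem all_nl (h : QD a b K ψ) (hp : HP a b K s lam k m hh R D) (X0 : LL A)
    (h0 : NL a ψ s lam X0) (Y : LL A) :
    NL a ψ s lam (X0 * Y) ∧ bg a ψ s (X0 * Y) = bg a ψ s X0 := by
  refine NG.wrGen_mem_of_closed a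
    {Y | NL a ψ s lam (X0 * Y) ∧ bg a ψ s (X0 * Y) = bg a ψ s X0} ?_ ?_ ?_ Y
  · exact ⟨by rwa [mul_one], by rw [mul_one]⟩
  · rintro Y ⟨h1, h2⟩ t ht
    have h3 := pres2a h hp (X0 * Y) h1 t ht
    refine ⟨by rw [← mul_assoc]; exact h3, ?_⟩
    rw [← mul_assoc, pres2b h hp (X0 * Y) h1 t ht h3, h2]
  · rintro Y ⟨h1, h2⟩
    obtain ⟨h3, h4⟩ := pres1 h hp (X0 * Y) h1 1 (by rw [a.len_one]; omega)
    exact ⟨by rw [← mul_assoc]; exact h3, by rw [← mul_assoc, h4, h2]⟩

theorem exists_E (h : QD a b K ψ) (hp : HP a b K s lam k m hh R D) (X0 : LL A)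
    (h0 : NL a ψ s lam X0) (X : LL A) :
    ∃ E : Finset B, E.card ≤ m + K * ((2 * s + 1) * a.V s) ∧
      ∀ z, z ∉ E → (z ∈ (ψ X).u ↔ z ∈ bg a ψ s X0) := by
  have hX : NL a ψ s lam X ∧ bg a ψ s X = bg a ψ s X0 := by
    have := all_nl h hp X0 h0 (X0⁻¹ * X)
    rwa [mul_inv_cancel_left] at this
  obtain ⟨n, hn, hgood⟩ : ∃ n, n ⊆ a.ball s ∧
      Good b (bg a ψ s X) m (k * (K * (2 * s + 3))) (cc ψ X n) (pp ψ X n) := by
    by_contra hcon
    push Not at hcon
    have h1 := good_w h hp X hX.1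
    rw [Finset.filter_true_of_mem (fun n hn => hcon n (Finset.mem_powerset.1 hn)),
      Finset.card_powerset, show (a.ball s).card = a.V s from rfl] at h1
    have h2 : 0 < 2 ^ a.V s := by positivity
    omega
  obtain ⟨Δ, hΔ, hΔc, _⟩ := hgood
  refine ⟨Δ ∪ ((ψ X).u ∆ cc ψ X n), ?_, ?_⟩
  · refine (Finset.card_union_le _ _).trans ?_
    have h3 := h.card_u X (lamp n)
    have h4 := a.kap_le_card n s (fun x hx => (a.mem_ball s x).1 (hn hx))
    rw [NG.kap] at h4
    have h5 : n.card ≤ a.V s := Finset.card_le_card hn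
    have h6 : K * a.wr.len (lamp n) ≤ K * ((2 * s + 1) * a.V s) :=
      Nat.mul_le_mul_left K (h4.trans (Nat.mul_le_mul_left _ h5))
    have h7 : ((ψ X).u ∆ cc ψ X n).card ≤ K * ((2 * s + 1) * a.V s) := h3.trans h6
    omega
  · intro z hz
    rw [Finset.mem_union, not_or, hΔ, not_not, Finset.mem_symmDiff, hX.2] at hz
    tauto

end NoNLAux

open NoNLAux

theorem no_nl [Infinite B] (h : QD a b K ψ) (hp : HP a b K s lam k m hh R D) (X : LL A) :
    ¬ NL a ψ s lam X := by
  intro h0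
  obtain ⟨Z, hZ⟩ := Infinite.exists_subset_card_eq B (m + K * ((2 * s + 1) * a.V s) + K + 1)
  obtain ⟨X', hX'⟩ := h.q3 (lamp (Z.filter (fun z => z ∉ bg a ψ s X)))
  obtain ⟨E, hE, hEz⟩ := exists_E h hp X h0 X'
  set v := Z.filter (fun z => z ∉ bg a ψ s X) with hv
  have hw := (b.wr_bound K _ hX').2.1
  have hD : ((ψ X').u ∆ v).card ≤ K := by
    have h1 : v = (ψ X').u ∆ ((ψ X').q • ((ψ X')⁻¹ * lamp v).u) := by
      have h2 : ψ X' * ((ψ X')⁻¹ * lamp v) = lamp v := mul_inv_cancel_left _ _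
      have h3 := congrArg LL.u h2
      rw [LL.mul_u] at h3
      exact h3.symm
    have h2 : (ψ X').u ∆ v = (ψ X').q • ((ψ X')⁻¹ * lamp v).u := by
      conv_lhs => rw [h1]
      rw [← symmDiff_assoc, symmDiff_self]
      exact bot_symmDiff _
    rw [h2, Finset.card_smul_finset]
    exact hw
  have hsub : Z ⊆ E ∪ ((ψ X').u ∆ v) := by
    intro z hz
    by_contra hcon
    rw [Finset.mem_union, not_or] at hcon
    have h1 := hEz z hcon.1
    have h2 : z ∈ v ↔ z ∉ bg a ψ s X := by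
      rw [hv, Finset.mem_filter]
      exact ⟨fun h => h.2, fun h => ⟨hz, h⟩⟩
    have h3 := hcon.2
    rw [Finset.mem_symmDiff] at h3
    tauto
  have h1 := Finset.card_le_card hsub
  have h2 := Finset.card_union_le E ((ψ X').u ∆ v)
  omega

end LQ

end
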