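import Pool.Agent.Lib.LQ.Engine
import Pool.Agent.Lib.LQ.NoNL
import Pool.Agent.Lib.LQ.HighNum
import Pool.Agent.Lib.LQ.DecCard
import Pool.Agent.Lib.LQ.HighSum

/-
Module HighDrift (library LQ, MP_9bf8b0_al).
Proof.  Let η0 > 0.  mu >= 1 with a.wr.V 1, b.V 1, b.wr.V 1 <= 2^mu; nu := 4 * mu * K (>= 1), Lam := a.V 1, η := η0 / (3 Lam nu) > 0 (Lam >= 1).
exists_HP gives s1; enlarge s1 so that also nu (2 s + 3) <= a.V s for s >= s1 (hh: s^100 <= a.V s eventually).  For every j let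
T j, lam j, k j, m j, hh j, R j, D j be the parameters of s1 + j (choose).  Ω j := a.ball (s1 + j), s j := s1 + j,
r j := (hh j + 1) * (K * (2 * (s1+j) + 3)), J j := 2 * (nu * (2 * (s1+j) + 3)) * a.V 1.
Scales: mono clear; grow: V (s+1) <= V s * V 1; unb: s^100 <= V s (or T^100 <= V s); rad; loc: no_nl and loc_of_not_nl; dec: high_dec;
n1, n2 from exists_HP (Ω.card = a.V s by rfl); n3, n4: high_sum with Nf j := a.V (s1 + j), η, v := a.V 1.
engine then gives the claim: 3 * η * Lam * nu = η0.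
-/

set_option autoImplicit false

open Classical
open scoped Pointwise symmDiff

noncomputable section

namespace LQ

open LL

variable {A B : Type} [Group A] [Group B] {a : NG A} {b : NG B} {K : ℕ} {ψ : LL A → LL B}

theorem drift_high [Infinite B] (h : QD a b K ψ) (hA : High a) : Drift a b ψ := by
  intro η0 hη0
  have hlt : ∀ n : ℕ, n ≤ 2 ^ n := fun n => Nat.lt_two_pow_self.le
  obtain ⟨mu, hmu⟩ : ∃ mu : ℕ, mu = a.wr.V 1 + b.V 1 + b.wr.V 1 := ⟨_, rfl⟩
  have p1 := a.wr.V_pos 1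
  have p2 := b.V_pos 1
  have p3 := b.wr.V_pos 1
  have hmu1 : 1 ≤ mu := by omega
  have g1 : a.wr.V 1 ≤ 2 ^ mu := le_trans (by omega) (hlt mu)
  have g2 : b.V 1 ≤ 2 ^ mu := le_trans (by omega) (hlt mu)
  have g3 : b.wr.V 1 ≤ 2 ^ mu := le_trans (by omega) (hlt mu)
  obtain ⟨nu, hnu⟩ : ∃ nu : ℕ, nu = 4 * mu * K := ⟨_, rfl⟩
  have hnu1 : 1 ≤ nu := by
    rw [hnu]
    have := h.kpos
    nlinarith
  have hLam1 : 1 ≤ a.V 1 := a.V_pos 1
  have hden : (0 : ℝ) < 3 * (a.V 1 : ℝ) * nu := by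
    have h1 : (0 : ℝ) < (a.V 1 : ℝ) := by exact_mod_cast hLam1
    have h2 : (0 : ℝ) < (nu : ℝ) := by exact_mod_cast hnu1
    positivity
  obtain ⟨η, hη⟩ : ∃ η : ℝ, η = η0 / (3 * (a.V 1 : ℝ) * nu) := ⟨_, rfl⟩
  have hη1 : 0 < η := by
    rw [hη]
    exact div_pos hη0 hden
  obtain ⟨s0, hs0⟩ := exists_HP a b K mu nu h.kpos hmu1 g1 g2 g3 hnu.ge hA
  obtain ⟨s00, hs00⟩ := hA
  obtain ⟨s1, hs1⟩ : ∃ s1 : ℕ, s1 = s0 + s00 + 5 * nu + 1 := ⟨_, rfl⟩
  have hbig : ∀ s, s1 ≤ s → nu * (2 * s + 3) ≤ a.V s := by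
    intro s hs
    have h1 : s ^ 100 ≤ a.V s := hs00 s (by omega)
    have h2 : s ^ 2 ≤ s ^ 100 := Nat.pow_le_pow_right (by omega) (by norm_num)
    have h3 : nu * (2 * s + 3) ≤ s ^ 2 := by
      have h4 : 2 * s + 3 ≤ 5 * s := by omega
      calc nu * (2 * s + 3) ≤ nu * (5 * s) := Nat.mul_le_mul_left _ h4
        _ = (5 * nu) * s := by ring
        _ ≤ s * s := Nat.mul_le_mul_right _ (by omega)
        _ = s ^ 2 := by ring
    exact h3.trans (h2.trans h1)
  have hp := fun j : ℕ => hs0 (s1 + j) (by omega)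
  choose T lam k m hh R D hHP hT hsT hr hn1 hn2 using hp
  have hmono : Monotone (fun j : ℕ => a.V (s1 + j)) := fun i j hij => a.V_mono (by omega)
  obtain ⟨r, hrdef⟩ : ∃ r : ℕ → ℕ, ∀ j, r j = (hh j + 1) * (K * (2 * (s1 + j) + 3)) := ⟨_, fun _ => rfl⟩
  obtain ⟨C, hC⟩ := high_sum K nu (a.V 1) s1 η hη1 (fun j => a.V (s1 + j)) T r hmono hT hsT
    (fun j => by rw [hrdef]; exact hr j)
  have hcard : ∀ j, (a.ball (s1 + j)).card = a.V (s1 + j) := fun j => rfl
  have hS : Scales a b K ψ nu (a.V 1) η C (fun j => a.ball (s1 + j)) (fun j => s1 + j) r D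
      (fun j => 2 * (nu * (2 * (s1 + j) + 3)) * a.V 1) := by
    refine ⟨hnu1, hη1.le, ?_, ?_, ?_, ?_, ?_, ?_, ?_, ?_, ?_, ?_⟩
    · intro j x hx
      rw [NG.mem_ball] at hx ⊢
      omega
    · intro j
      rw [hcard, hcard, mul_comm, ← add_assoc]
      exact a.V_add_le _ _
    · intro n
      refine ⟨n, ?_⟩
      rw [hcard]
      have h1 : (s1 + n) ^ 100 ≤ a.V (s1 + n) := hs00 _ (by omega)
      have h2 : (s1 + n) ^ 1 ≤ (s1 + n) ^ 100 := Nat.pow_le_pow_right (by omega) (by norm_num)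
      rw [pow_one] at h2
      omega
    · intro j x hx
      exact (NG.mem_ball _ _ _).1 hx
    · intro j X
      obtain ⟨z, hz⟩ := loc_of_not_nl h (hHP j) X (no_nl h (hHP j) X)
      refine ⟨z, ?_⟩
      rw [hrdef]
      exact hz
    · intro j m' hm'
      rw [hcard]
      exact high_dec a (s1 + j) nu hnu1 (hbig _ (by omega)) m' (fun x hx =>
        (Finset.mem_sdiff.1 (hm' hx)).1)
    · intro j
      rw [hcard]
      exact hn1 j
    · intro j
      rw [hcard, hrdef]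
      exact hn2 j
    · intro j
      exact (hC j).1
    · intro j
      exact (hC j).2
  obtain ⟨C', hC'⟩ := engine h nu (a.V 1) η C _ _ r D _ hS
  refine ⟨C', fun X m => ?_⟩
  have := hC' X m
  have e : 3 * η * (a.V 1 : ℝ) * nu = η0 := by
    rw [hη]
    have h1 : (a.V 1 : ℝ) ≠ 0 := by
      have : (0 : ℝ) < (a.V 1 : ℝ) := by exact_mod_cast hLam1
      exact this.ne'
    have h2 : (nu : ℝ) ≠ 0 := by
      have : (0 : ℝ) < (nu : ℝ) := by exact_mod_cast hnu1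
      exact this.ne'
    field_simp
  rw [e] at this
  exact this

end LQ

end
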