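import Pool.Agent.Lib.LQ.Defs2

/-
Module MiFacts (library LQ, MP_9bf8b0_al).
Simple facts on minorities.
card_S: S1 and S0 partition Ω.powerset.  Mi is S0 if z in maj and S1 otherwise, always the smaller one:
2 * Mi.card <= 2^N, Mi.card <= S1.card, Mi.card <= S0.card; and Mi.card = min.  If NLc with 1 <= lam and a set X of
at most half... (see the statements).
mi_eq_empty: if z is in c n for all n ⊆ Ω or for none, then Mi = ∅.
-/

set_option autoImplicit false

open Classical
open scoped Pointwise symmDiff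

noncomputable section

namespace LQ

open LL

namespace MiFactsAux

theorem mi_of_mem {α B : Type} (Ω : Finset α) (c : Finset α → Finset B) (z : B) (bb : Set B)
    (h : z ∈ bb) : Ω.powerset.filter (fun n => ¬ (z ∈ c n ↔ z ∈ bb)) = S0 Ω c z := by
  unfold S0
  refine Finset.filter_congr fun n _ => ?_
  tauto

theorem mi_of_not_mem {α B : Type} (Ω : Finset α) (c : Finset α → Finset B) (z : B) (bb : Set B)
    (h : z ∉ bb) : Ω.powerset.filter (fun n => ¬ (z ∈ c n ↔ z ∈ bb)) = S1 Ω c z := by
  unfold S1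
  refine Finset.filter_congr fun n _ => ?_
  tauto

end MiFactsAux

theorem card_S {α B : Type} (Ω : Finset α) (c : Finset α → Finset B) (z : B) :
    (S1 Ω c z).card + (S0 Ω c z).card = 2 ^ Ω.card := by
  unfold S1 S0
  rw [Finset.card_filter_add_card_filter_not, Finset.card_powerset]

theorem mi_le_S1 {α B : Type} (Ω : Finset α) (c : Finset α → Finset B) (z : B) :
    (Mi Ω c z).card ≤ (S1 Ω c z).card := by
  unfold Mi
  by_cases h : z ∈ maj Ω c
  · rw [MiFactsAux.mi_of_mem Ω c z _ h]
    exact le_of_lt h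
  · rw [MiFactsAux.mi_of_not_mem Ω c z _ h]

theorem mi_le_S0 {α B : Type} (Ω : Finset α) (c : Finset α → Finset B) (z : B) :
    (Mi Ω c z).card ≤ (S0 Ω c z).card := by
  unfold Mi
  by_cases h : z ∈ maj Ω c
  · rw [MiFactsAux.mi_of_mem Ω c z _ h]
  · rw [MiFactsAux.mi_of_not_mem Ω c z _ h]
    exact not_lt.1 h

theorem mi_half {α B : Type} (Ω : Finset α) (c : Finset α → Finset B) (z : B) :
    (Mi Ω c z).card * 2 ^ 1 ≤ 2 ^ Ω.card := by
  have h1 := card_S Ω c z
  have h2 := mi_le_S1 Ω c z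
  have h3 := mi_le_S0 Ω c z
  rw [pow_one]
  omega

theorem mi_eq_empty {α B : Type} (Ω : Finset α) (c : Finset α → Finset B) (z : B)
    (h : ∀ n, n ⊆ Ω → ∀ n', n' ⊆ Ω → (z ∈ c n ↔ z ∈ c n')) : Mi Ω c z = ∅ := by
  have h2 := mi_le_S1 Ω c z
  have h3 := mi_le_S0 Ω c z
  rw [← Finset.card_eq_zero]
  by_cases h0 : z ∈ c ∅
  · have h4 : S0 Ω c z = ∅ := by
      unfold S0
      rw [Finset.filter_eq_empty_iff]
      intro n hn hz
      exact hz ((h n (Finset.mem_powerset.1 hn) ∅ (Finset.empty_subset _)).2 h0)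
    rw [h4, Finset.card_empty] at h3
    omega
  · have h4 : S1 Ω c z = ∅ := by
      unfold S1
      rw [Finset.filter_eq_empty_iff]
      intro n hn hz
      exact h0 ((h n (Finset.mem_powerset.1 hn) ∅ (Finset.empty_subset _)).1 hz)
    rw [h4, Finset.card_empty] at h2
    omega

/-- If `z` has the wrong value with respect to a set `bb` for fewer than half of the `n`, then `z` has the
same value in `bb` and in the majority. -/
theorem maj_of_few {α B : Type} (Ω : Finset α) (c : Finset α → Finset B) (z : B) (bb : Set B)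
    (h : 2 * (Ω.powerset.filter (fun n => ¬ (z ∈ c n ↔ z ∈ bb))).card < 2 ^ Ω.card) :
    (z ∈ maj Ω c ↔ z ∈ bb) := by
  have h1 := card_S Ω c z
  by_cases hb : z ∈ bb
  · rw [MiFactsAux.mi_of_mem Ω c z _ hb] at h
    have h2 : (S0 Ω c z).card < (S1 Ω c z).card := by omega
    exact ⟨fun _ => hb, fun _ => h2⟩
  · rw [MiFactsAux.mi_of_not_mem Ω c z _ hb] at h
    have h2 : ¬ (S0 Ω c z).card < (S1 Ω c z).card := by omega
    exact ⟨fun hm => absurd hm h2, fun hm => absurd hm hb⟩

end LQ

end
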