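import Pool.Agent.Lib.LQ.EdgeBd
import Pool.Agent.Lib.LQ.MiFacts
import Pool.Agent.Lib.LQ.Basic

/-
Module NLDecay (library LQ, MP_9bf8b0_al).
Proof by induction on k; k = 0: filter card <= Mi card.  Step: F' := filter with k*l, F := filter with (k+1)*l, F ⊆ F'.
F.card * 2^lam <= Mi.card * 2^lam <= 2^N, so edge_bd: lam * F.card <= #{(n,x): n in F, x in Ω, n ∆ {x} not in F}.
For such (n,x): z is not in c n ∆ c (n ∆ {x}), otherwise len((p n)⁻¹ z) <= l <= (k+1) l (hC.loc) contradicts n in F (len symmetric).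
So n ∆ {x} is in Mi Ω c z, and by hC.pos and the triangle inequality len(z⁻¹ p(n ∆ {x})) > (k+1) l - l = k l.  So n ∆ {x} is in F' minus F.
The map (n,x) -> (n ∆ {x}, x) is injective, so lam * F.card <= N * (F'.card - F.card), i.e. (N + lam) F.card <= N F'.card.
Multiply: F.card (N+lam)^(k+1) <= N F'.card (N+lam)^k <= N * Mi.card * N^k.
-/

set_option autoImplicit false

open Classical
open scoped Pointwise symmDiff

noncomputable section

namespace LQ

open LL

namespace NLDecayAux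

theorem sd_sd {α : Type} (n : Finset α) (x : α) : (n ∆ {x}) ∆ {x} = n := by
  rw [symmDiff_assoc, symmDiff_self]
  exact symmDiff_bot n

theorem sd_subset {α : Type} {Ω n : Finset α} {x : α} (hn : n ⊆ Ω) (hx : x ∈ Ω) :
    n ∆ {x} ⊆ Ω := by
  intro y hy
  rw [Finset.mem_symmDiff, Finset.mem_singleton] at hy
  rcases hy with h | h
  · exact hn h.1
  · rw [h.1]; exact hx

/-- counting edges from `F` to `F' \ F` -/
theorem count {α : Type} (Ω : Finset α) (F F' : Finset (Finset α)) (hFF : F ⊆ F')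
    (h : ∀ n, n ∈ F → ∀ x, x ∈ Ω → n ∆ {x} ∈ F') :
    ∑ n ∈ F, (Ω.filter (fun x => n ∆ {x} ∉ F)).card ≤ (F'.card - F.card) * Ω.card := by
  have h1 : ∑ n ∈ F, (Ω.filter (fun x => n ∆ {x} ∉ F)).card =
      (F.sigma (fun n => Ω.filter (fun x => n ∆ {x} ∉ F))).card := by
    rw [Finset.card_sigma]
  have h2 : (F'.card - F.card) * Ω.card = ((F' \ F) ×ˢ Ω).card := by
    rw [Finset.card_product, Finset.card_sdiff_of_subset hFF]
  rw [h1, h2]
  refine Finset.card_le_card_of_injOn (fun w => (w.1 ∆ {w.2}, w.2)) ?_ ?_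
  · rintro ⟨n, x⟩ hw
    have hw' := Finset.mem_sigma.1 (Finset.mem_coe.1 hw)
    have hx := Finset.mem_filter.1 hw'.2
    exact Finset.mem_coe.2 (Finset.mem_product.2
      ⟨Finset.mem_sdiff.2 ⟨h n hw'.1 x hx.1, hx.2⟩, hx.1⟩)
  · rintro ⟨n, x⟩ _ ⟨m, y⟩ _ he
    have e1 : n ∆ {x} = m ∆ {y} := congrArg Prod.fst he
    have e2 : x = y := congrArg Prod.snd he
    subst e2
    have e3 : (n ∆ {x}) ∆ {x} = (m ∆ {x}) ∆ {x} := by rw [e1]
    rw [sd_sd, sd_sd] at e3
    rw [e3]

end NLDecayAux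

theorem nl_decay {α B : Type} [Group B] (b : NG B) (Ω : Finset α) (l : ℕ) (c : Finset α → Finset B)
    (p : Finset α → B) (hC : Cube b Ω l c p) (lam : ℕ) (hNL : NLc Ω c lam) (z : B) (k : ℕ) :
    ((Mi Ω c z).filter (fun n => k * l < b.len (z⁻¹ * p n))).card * (Ω.card + lam) ^ k
      ≤ (Mi Ω c z).card * Ω.card ^ k := by
  induction k with
  | zero =>
    rw [pow_zero, pow_zero, Nat.mul_one, Nat.mul_one]
    exact Finset.card_le_card (Finset.filter_subset _ _)
  | succ k ih =>
    set F' := (Mi Ω c z).filter (fun n => k * l < b.len (z⁻¹ * p n)) with hF'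
    set F := (Mi Ω c z).filter (fun n => (k + 1) * l < b.len (z⁻¹ * p n)) with hF
    have hkl : (k + 1) * l = k * l + l := by ring
    have hFF : F ⊆ F' := by
      intro n hn
      have h1 := Finset.mem_filter.1 hn
      refine Finset.mem_filter.2 ⟨h1.1, ?_⟩
      have := h1.2
      omega
    have hstep : ∀ n, n ∈ F → ∀ x, x ∈ Ω → n ∆ {x} ∈ F' := by
      intro n hn x hx
      have h1 := Finset.mem_filter.1 hn
      have h2 := Finset.mem_filter.1 h1.1
      have hnΩ : n ⊆ Ω := Finset.mem_powerset.1 h2.1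
      have hz : z ∉ c n ∆ c (n ∆ {x}) := by
        intro hz
        have h3 := hC.loc n hnΩ x hx z hz
        rw [NG.len_symm] at h3
        have := h1.2
        omega
      have hiff : z ∈ c n ↔ z ∈ c (n ∆ {x}) := by
        rw [Finset.mem_symmDiff] at hz
        tauto
      have hmi : n ∆ {x} ∈ Mi Ω c z := by
        refine Finset.mem_filter.2 ⟨Finset.mem_powerset.2 (NLDecayAux.sd_subset hnΩ hx), ?_⟩
        rw [← hiff]
        exact h2.2
      refine Finset.mem_filter.2 ⟨hmi, ?_⟩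
      have h4 := b.tri z (p (n ∆ {x})) (p n)
      have h5 := hC.pos n hnΩ x hx
      rw [NG.len_symm] at h5
      have := h1.2
      omega
    have hcard : F.card * 2 ^ lam ≤ 2 ^ Ω.card :=
      (Nat.mul_le_mul_right _ (Finset.card_le_card (Finset.filter_subset _ _))).trans (hNL z)
    have h6 := (edge_bd Ω F lam hcard).trans (NLDecayAux.count Ω F F' hFF hstep)
    have h7 : F.card ≤ F'.card := Finset.card_le_card hFF
    have h8 : F.card * (Ω.card + lam) ≤ Ω.card * F'.card := by
      obtain ⟨e, he⟩ := Nat.exists_eq_add_of_le h7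
      rw [he, Nat.add_sub_cancel_left] at h6
      rw [he]
      nlinarith
    calc F.card * (Ω.card + lam) ^ (k + 1) = (F.card * (Ω.card + lam)) * (Ω.card + lam) ^ k := by
          ring
      _ ≤ (Ω.card * F'.card) * (Ω.card + lam) ^ k := Nat.mul_le_mul_right _ h8
      _ = Ω.card * (F'.card * (Ω.card + lam) ^ k) := by ring
      _ ≤ Ω.card * ((Mi Ω c z).card * Ω.card ^ k) := Nat.mul_le_mul_left _ ih
      _ = (Mi Ω c z).card * Ω.card ^ (k + 1) := by ring

end LQ

end
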