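import Pool.Agent.Lib.LQ.NLSum
import Pool.Agent.Lib.LQ.NLDecay

/-
Module NLGood (library LQ, MP_9bf8b0_al).
Proof.  Z := biUnion of c n over n ⊆ Ω (finite).  For z not in Z: z is not in maj (S1 is empty) and not in c n.  For n ⊆ Ω put
Δ n := Z.filter (fun z => ¬ (z ∈ c n ↔ z ∈ maj Ω c)); it satisfies the iff in Good for all z.  If n is not good then
(1) m + 1 <= (Δ n).card or (2) there is z in Δ n with len((p n)⁻¹ z) > k l.
Let Sg := sum over z in Z of (Mi z).card = sum over n ⊆ Ω of (Δ n).card.  nl_sum: 2 lam Sg <= l N 2^N.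
(1): #(1) * (m+1) <= Sg, so 8 lam (m+1) #(1) <= 4 l N 2^N <= lam (m+1) 2^N (h2), so 8 #(1) <= 2^N.
(2): #(2) <= sum_z #(filter of nl_decay), so 8 lam (N+lam)^k #(2) <= 8 lam N^k Sg <= 4 l N N^k 2^N <= lam (N+lam)^k 2^N (h3), so
8 #(2) <= 2^N ((N+lam)^k lam > 0).  Together 4 #bad <= 2^N.
-/

set_option autoImplicit false

open Classical
open scoped Pointwise symmDiff

noncomputable section

namespace LQ

open LL

theorem nl_good {α B : Type} [Group B] (b : NG B) (Ω : Finset α) (l : ℕ) (c : Finset α → Finset B)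
    (p : Finset α → B) (hC : Cube b Ω l c p) (lam : ℕ) (hNL : NLc Ω c lam) (m k : ℕ) (hlam : 1 ≤ lam)
    (h2 : 4 * (Ω.card * l) ≤ lam * (m + 1))
    (h3 : 4 * (l * Ω.card * Ω.card ^ k) ≤ lam * (Ω.card + lam) ^ k) :
    4 * (Ω.powerset.filter (fun n => ¬ Good b (maj Ω c) m (k * l) (c n) (p n))).card ≤ 2 ^ Ω.card := by
  set N := Ω.card with hN
  let Z : Finset B := Ω.powerset.biUnion c
  let Df : Finset α → Finset B := fun n => Z.filter (fun z => ¬ (z ∈ c n ↔ z ∈ maj Ω c))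
  have hmaj : ∀ z, z ∉ Z → z ∉ maj Ω c := by
    intro z hz h
    have h1 : S1 Ω c z = ∅ := by
      refine Finset.filter_eq_empty_iff.2 fun n hn hz' => hz ?_
      exact Finset.mem_biUnion.2 ⟨n, hn, hz'⟩
    have h2 : (S0 Ω c z).card < (S1 Ω c z).card := h
    rw [h1, Finset.card_empty] at h2
    omega
  have hDf : ∀ n, n ⊆ Ω → ∀ z, z ∈ Df n ↔ ¬ (z ∈ c n ↔ z ∈ maj Ω c) := by
    intro n hn z
    constructor
    · exact fun h => (Finset.mem_filter.1 h).2
    · intro h
      refine Finset.mem_filter.2 ⟨?_, h⟩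
      by_contra hz
      apply h
      have h1 : z ∉ c n := fun h2 => hz (Finset.mem_biUnion.2 ⟨n, Finset.mem_powerset.2 hn, h2⟩)
      exact ⟨fun h2 => absurd h2 h1, fun h2 => absurd h2 (hmaj z hz)⟩
  set Sg := ∑ z ∈ Z, (Mi Ω c z).card with hSg
  have hSg2 : Sg = ∑ n ∈ Ω.powerset, (Df n).card := by
    rw [hSg]
    simp only [Mi, Df, Finset.card_filter]
    exact Finset.sum_comm
  have hsum : 2 * lam * Sg ≤ l * N * 2 ^ N := nl_sum Ω c l lam hC.crd hNL Z
  set B1 := Ω.powerset.filter (fun n => m + 1 ≤ (Df n).card) with hB1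
  set B2 := Z.biUnion (fun z => (Mi Ω c z).filter (fun n => k * l < b.len (z⁻¹ * p n))) with hB2
  have hbad : Ω.powerset.filter (fun n => ¬ Good b (maj Ω c) m (k * l) (c n) (p n)) ⊆ B1 ∪ B2 := by
    intro n hn
    obtain ⟨hn1, hn2⟩ := Finset.mem_filter.1 hn
    have hnΩ := Finset.mem_powerset.1 hn1
    by_contra hcon
    rw [Finset.mem_union, not_or] at hcon
    apply hn2
    refine ⟨Df n, hDf n hnΩ, ?_, ?_⟩
    · by_contra h
      exact hcon.1 (Finset.mem_filter.2 ⟨hn1, by omega⟩)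
    · intro z hz
      by_contra h
      apply hcon.2
      refine Finset.mem_biUnion.2 ⟨z, (Finset.mem_filter.1 hz).1, Finset.mem_filter.2 ⟨?_, ?_⟩⟩
      · exact Finset.mem_filter.2 ⟨hn1, (Finset.mem_filter.1 hz).2⟩
      · have h2 : z⁻¹ * p n = ((p n)⁻¹ * z)⁻¹ := by group
        rw [h2, b.len_inv]
        omega
  have h8a : 8 * B1.card ≤ 2 ^ N := by
    have e1 : B1.card * (m + 1) ≤ Sg := by
      rw [hSg2]
      have e2 : B1.card • (m + 1) ≤ ∑ n ∈ B1, (Df n).card :=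
        Finset.card_nsmul_le_sum _ _ _ fun n hn => (Finset.mem_filter.1 hn).2
      rw [smul_eq_mul] at e2
      exact e2.trans (Finset.sum_le_sum_of_subset (Finset.filter_subset _ _))
    have hpos : 0 < lam * (m + 1) := by positivity
    refine Nat.le_of_mul_le_mul_left ?_ hpos
    calc lam * (m + 1) * (8 * B1.card) = 8 * lam * (B1.card * (m + 1)) := by ring
      _ ≤ 8 * lam * Sg := Nat.mul_le_mul_left _ e1
      _ = 4 * (2 * lam * Sg) := by ring
      _ ≤ 4 * (l * N * 2 ^ N) := Nat.mul_le_mul_left _ hsum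
      _ = 4 * (N * l) * 2 ^ N := by ring
      _ ≤ lam * (m + 1) * 2 ^ N := Nat.mul_le_mul_right _ h2
  have h8b : 8 * B2.card ≤ 2 ^ N := by
    have e1 : B2.card * (N + lam) ^ k ≤ Sg * N ^ k := by
      calc B2.card * (N + lam) ^ k ≤ (∑ z ∈ Z, ((Mi Ω c z).filter
            (fun n => k * l < b.len (z⁻¹ * p n))).card) * (N + lam) ^ k :=
            Nat.mul_le_mul_right _ Finset.card_biUnion_le
        _ = ∑ z ∈ Z, ((Mi Ω c z).filter
            (fun n => k * l < b.len (z⁻¹ * p n))).card * (N + lam) ^ k := Finset.sum_mul _ _ _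
        _ ≤ ∑ z ∈ Z, (Mi Ω c z).card * N ^ k :=
            Finset.sum_le_sum fun z _ => nl_decay b Ω l c p hC lam hNL z k
        _ = Sg * N ^ k := (Finset.sum_mul _ _ _).symm
    have hpos : 0 < lam * (N + lam) ^ k := by positivity
    refine Nat.le_of_mul_le_mul_left ?_ hpos
    calc lam * (N + lam) ^ k * (8 * B2.card) = 8 * lam * (B2.card * (N + lam) ^ k) := by ring
      _ ≤ 8 * lam * (Sg * N ^ k) := Nat.mul_le_mul_left _ e1
      _ = 4 * (2 * lam * Sg) * N ^ k := by ring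
      _ ≤ 4 * (l * N * 2 ^ N) * N ^ k :=
          Nat.mul_le_mul_right _ (Nat.mul_le_mul_left _ hsum)
      _ = 4 * (l * N * N ^ k) * 2 ^ N := by ring
      _ ≤ lam * (N + lam) ^ k * 2 ^ N := Nat.mul_le_mul_right _ h3
  have hc := (Finset.card_le_card hbad).trans (Finset.card_union_le _ _)
  omega

end LQ

end
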