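import Pool.Agent.Lib.LQ.QDFacts
import Pool.Agent.Lib.LQ.NLGood
import Pool.Agent.Lib.LQ.CountGood

/-
Module HighW (library LQ, MP_9bf8b0_al).
Notation l := K * (2 * s + 3), Ω := a.ball s, N := a.V s = Ω.card (rfl).
count_w: apply count_good with ι := Finset A, c := cc ψ X, p := pp ψ X, C0 := a.wr.V K (QD.fib_cube with Y := ⟨u, q⟩), r := k * l;
then hp.p4.
good_w: nl_good with the cube QD.cube (radius s, K * (2 s + 1) <= l) and hp.p2, hp.p3; unfold NL, bg.
-/

set_option autoImplicit false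

open Classical
open scoped Pointwise symmDiff

noncomputable section

namespace LQ

open LL

variable {A B : Type} [Group A] [Group B] {a : NG A} {b : NG B} {K : ℕ} {ψ : LL A → LL B}
variable {s lam k m hh R D : ℕ}

theorem count_w (h : QD a b K ψ) (hp : HP a b K s lam k m hh R D) (X : LL A) (bb : Set B) (β : B)
    (G : Finset (Finset A))
    (hg : ∀ n, n ∈ G → Good b bb m (k * (K * (2 * s + 3))) (cc ψ X n) (pp ψ X n))
    (hpos : ∀ n, n ∈ G → b.len (β⁻¹ * pp ψ X n) ≤ R) : 4 * G.card < 2 ^ a.V s := by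
  have h1 := count_good b bb m (k * (K * (2 * s + 3))) R (a.wr.V K) β G (cc ψ X) (pp ψ X)
    (fun u q => h.fib_cube X ⟨u, q⟩ _ (fun n hn => (Finset.mem_filter.1 hn).2)) hg hpos
  exact lt_of_le_of_lt (Nat.mul_le_mul_left 4 h1) hp.p4

theorem good_w (h : QD a b K ψ) (hp : HP a b K s lam k m hh R D) (X : LL A) (hX : NL a ψ s lam X) :
    4 * ((a.ball s).powerset.filter (fun n =>
      ¬ Good b (bg a ψ s X) m (k * (K * (2 * s + 3))) (cc ψ X n) (pp ψ X n))).card ≤ 2 ^ a.V s := by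
  have hC : Cube b (a.ball s) (K * (2 * s + 3)) (cc ψ X) (pp ψ X) :=
    h.cube X (a.ball s) s (K * (2 * s + 3)) (fun x hx => (a.mem_ball s x).1 hx)
      (Nat.mul_le_mul_left K (by omega))
  exact nl_good b (a.ball s) (K * (2 * s + 3)) (cc ψ X) (pp ψ X) hC lam hX m k
    (le_trans (by norm_num) hp.p1) hp.p2 hp.p3

end LQ

end
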