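import Pool.Agent.Lib.LQ.Compare
import Pool.Agent.Lib.LQ.Sphere

/-
Module LinLin (library LQ, MP_9bf8b0_al).
Proof.  V n <= C (n + 1), so a.V (2S) <= C (2S+1) <= 3 C S =: c S for S >= 1, c := 3 C (C >= 1 since V >= 1).  exists_small_sph: s in (S, 2S] with sph s <= c; V s >= s + 1 > S (succ_le_V).
M := max (a.wr.V 1) (b.wr.V 1) >= 1, Q := 32 M^(K(2K+1)+3K) c.  For r >= 1 take S := Q r: then 32 r M^.. sph s <= Q r = S <= a.V s, compare:
27 b.V r <= 64 (V s + logb 2 (V s) + K logb 2 M) <= 64 (2 V (2S) + K logb 2 M) <= 64 (2 c Q r + K logb 2 M) <= C' (r + 1).  For r = 0: V 0 = 1.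
-/

set_option autoImplicit false

open Classical
open scoped Pointwise symmDiff

noncomputable section

namespace LQ

open LL

variable {A B : Type} [Group A] [Group B] {a : NG A} {b : NG B} {K : ℕ} {ψ : LL A → LL B}

theorem linear_of_linear [Infinite A] (h : QD a b K ψ) (hl : Linear a) : Linear b := by
  obtain ⟨C, hC⟩ := hl
  have hC1 : 1 ≤ C := by
    have h0 := hC 0
    rw [a.V_zero] at h0
    omega
  set M := max (a.wr.V 1) (b.wr.V 1) with hM
  have hMa : a.wr.V 1 ≤ M := le_max_left _ _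
  have hMb : b.wr.V 1 ≤ M := le_max_right _ _
  have hM1 : 1 ≤ M := (a.wr.V_pos 1).trans hMa
  set E := K * (2 * K + 1) + 3 * K with hE
  set c := 3 * C with hc
  set Q := 32 * M ^ E * c with hQ
  have hME : 1 ≤ M ^ E := Nat.one_le_pow _ _ hM1
  have hQ1 : 1 ≤ Q := by
    have : 0 < 32 * M ^ E * c := by positivity
    omega
  have hlogM : 0 ≤ Real.logb 2 M :=
    Real.logb_nonneg (by norm_num) (by exact_mod_cast hM1)
  set L := ⌈(K : ℝ) * Real.logb 2 M⌉₊ with hL
  have hL1 : (K : ℝ) * Real.logb 2 M ≤ L := Nat.le_ceil _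
  refine ⟨64 * (2 * (c * Q) + L) + 1, fun r => ?_⟩
  rcases Nat.eq_zero_or_pos r with rfl | hr
  · rw [b.V_zero]
    omega
  · have hS1 : 1 ≤ Q * r := Nat.mul_pos hQ1 hr
    have hV2 : a.V (2 * (Q * r)) ≤ c * (Q * r) := by
      refine (hC _).trans ?_
      calc C * (2 * (Q * r) + 1) ≤ C * (3 * (Q * r)) := Nat.mul_le_mul_left _ (by omega)
        _ = c * (Q * r) := by rw [hc]; ring
    obtain ⟨s, hs1, hs2, hs3⟩ := exists_small_sph a (Q * r) c hS1 hV2
    have hVs : s + 1 ≤ a.V s := a.succ_le_V s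
    have hcond : 32 * r * M ^ (K * (2 * K + 1) + 3 * K) * a.sph s ≤ a.V s := by
      calc 32 * r * M ^ (K * (2 * K + 1) + 3 * K) * a.sph s
          ≤ 32 * r * M ^ E * c := Nat.mul_le_mul_left _ hs3
        _ = Q * r := by rw [hQ]; ring
        _ ≤ a.V s := by omega
    have hcmp := compare h M r s hMa hMb hr hcond
    have hVc : a.V s ≤ c * (Q * r) := (a.V_mono hs2).trans hV2
    have hVcR : (a.V s : ℝ) ≤ (c * Q : ℕ) * r := by
      have : a.V s ≤ c * Q * r := by rw [mul_assoc]; exact hVc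
      exact_mod_cast this
    have hlog : Real.logb 2 (a.V s) ≤ a.V s := by
      rw [Real.logb_le_iff_le_rpow (by norm_num) (by exact_mod_cast a.V_pos s)]
      rw [Real.rpow_natCast]
      exact_mod_cast (Nat.lt_two_pow_self (n := a.V s)).le
    have hr1 : (1 : ℝ) ≤ r := by exact_mod_cast hr
    have hLnn : (0 : ℝ) ≤ L := Nat.cast_nonneg _
    have hcQ : (0 : ℝ) ≤ ((c * Q : ℕ) : ℝ) := Nat.cast_nonneg _
    have hVb : (0 : ℝ) ≤ b.V r := Nat.cast_nonneg _
    have hfin : (b.V r : ℝ) ≤ ((64 * (2 * (c * Q) + L) + 1) * (r + 1) : ℕ) := by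
      have h1 : (b.V r : ℝ) ≤ 64 * (2 * ((c * Q : ℕ) * r) + L) := by linarith
      have h2 : ((((64 * (2 * (c * Q) + L) + 1) * (r + 1) : ℕ)) : ℝ)
          = (64 * (2 * ((c * Q : ℕ) : ℝ) + L) + 1) * (r + 1) := by
        push_cast
        ring
      rw [h2]
      have h3 : (L : ℝ) ≤ L * (r + 1) := by nlinarith
      nlinarith
    exact_mod_cast hfin

end LQ

end
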