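import Pool.Agent.Lib.LQ.Basic

/-
Module LinQI (library LQ, MP_9bf8b0_al).
For every x choose m(x) with len((g^m(x))⁻¹ x) <= D.  f x := g'^m(x).
For integers: |m| <= len(g^m) <= |m| len g (zpow; natAbs), same for g'.
b.len((f x)⁻¹ f y) = len(g'^(m y - m x)) <= |m y - m x| L', |m y - m x| <= len(g^(m y - m x)) <= len(x⁻¹ y) + 2 D.
Conversely len(x⁻¹ y) <= 2 D + len(g^(m y - m x)) <= 2 D + L |m y - m x| <= 2 D + L len((f x)⁻¹ f y).
Density: y in B, n with len((g'^n)⁻¹ y) <= D; x := g^n; |m(x) - n| <= len(g^(n - m(x))) <= D; so len((f x)⁻¹ y) <= L' D + D.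
K := the sum of all the constants.
-/

set_option autoImplicit false

open Classical
open scoped Pointwise symmDiff

noncomputable section

namespace LQ

open LL

variable {A B : Type} [Group A] [Group B]

private theorem len_pow_le (a : NG A) (g : A) (m : ℕ) : a.len (g ^ m) ≤ m * a.len g := by
  induction m with
  | zero => simp [a.len_one]
  | succ n ih =>
    rw [pow_succ, Nat.succ_mul]
    exact le_trans (a.len_mul _ _) (Nat.add_le_add_right ih _)

private theorem len_zpow_eq (a : NG A) (g : A) (m : ℤ) : a.len (g ^ m) = a.len (g ^ m.natAbs) := by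
  rcases Int.natAbs_eq m with h | h
  · conv_lhs => rw [h]
    rw [zpow_natCast]
  · conv_lhs => rw [h]
    rw [zpow_neg, zpow_natCast, a.len_inv]

theorem qi_of_axes (a : NG A) (b : NG B) (g : A) (g' : B) (hg : ∀ m : ℕ, m ≤ a.len (g ^ m))
    (hg' : ∀ m : ℕ, m ≤ b.len (g' ^ m)) (D : ℕ) (hD : ∀ x, ∃ m : ℤ, a.len ((g ^ m)⁻¹ * x) ≤ D)
    (hD' : ∀ y, ∃ m : ℤ, b.len ((g' ^ m)⁻¹ * y) ≤ D) : QI a b := by
  choose m hm using hD
  choose m' hm' using hD'
  have hga : ∀ k : ℤ, k.natAbs ≤ a.len (g ^ k) := fun k => by rw [len_zpow_eq]; exact hg _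
  have hgb : ∀ k : ℤ, k.natAbs ≤ b.len (g' ^ k) := fun k => by rw [len_zpow_eq]; exact hg' _
  have hga' : ∀ k : ℤ, a.len (g ^ k) ≤ k.natAbs * a.len g := fun k => by
    rw [len_zpow_eq]; exact len_pow_le a g _
  have hgb' : ∀ k : ℤ, b.len (g' ^ k) ≤ k.natAbs * b.len g' := fun k => by
    rw [len_zpow_eq]; exact len_pow_le b g' _
  have hza : ∀ i j : ℤ, (g ^ i)⁻¹ * g ^ j = g ^ (j - i) := fun i j => by
    rw [← zpow_neg, ← zpow_add]; congr 1; ring
  have hzb : ∀ i j : ℤ, (g' ^ i)⁻¹ * g' ^ j = g' ^ (j - i) := fun i j => by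
    rw [← zpow_neg, ← zpow_add]; congr 1; ring
  -- comparison of lengths
  have h1 : ∀ x y, a.len (g ^ (m y - m x)) ≤ a.len (x⁻¹ * y) + 2 * D := by
    intro x y
    have t1 := a.tri (g ^ m x) x (g ^ m y)
    have t2 := a.tri x y (g ^ m y)
    have t3 := hm x
    have t4 := hm y
    rw [a.len_symm y (g ^ m y)] at t2
    rw [← hza]
    omega
  have h2 : ∀ x y, a.len (x⁻¹ * y) ≤ 2 * D + a.len (g ^ (m y - m x)) := by
    intro x y
    have t1 := a.tri x (g ^ m x) y
    have t2 := a.tri (g ^ m x) (g ^ m y) y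
    have t3 := hm x
    have t4 := hm y
    rw [a.len_symm x (g ^ m x)] at t1
    rw [hza] at t2
    omega
  refine ⟨fun x => g' ^ m x, b.len g' + 2 * D * b.len g' + a.len g + 2 * D + b.len g' * D + D, ?_, ?_, ?_⟩
  · intro x y
    show b.len ((g' ^ m x)⁻¹ * g' ^ m y) ≤ _
    rw [hzb]
    have t1 := hgb' (m y - m x)
    have t2 := le_trans (hga (m y - m x)) (h1 x y)
    have t3 : (m y - m x).natAbs * b.len g' ≤ (a.len (x⁻¹ * y) + 2 * D) * b.len g' :=
      Nat.mul_le_mul_right _ t2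
    nlinarith [Nat.zero_le (a.len (x⁻¹ * y) * (2 * D * b.len g' + a.len g + 2 * D + b.len g' * D + D)),
      Nat.zero_le (b.len g' * D)]
  · intro x y
    show _ ≤ _ * b.len ((g' ^ m x)⁻¹ * g' ^ m y) + _
    rw [hzb]
    have t1 := hgb (m y - m x)
    have t2 := h2 x y
    have t3 := hga' (m y - m x)
    have t4 : (m y - m x).natAbs * a.len g ≤ b.len (g' ^ (m y - m x)) * a.len g :=
      Nat.mul_le_mul_right _ t1
    nlinarith [Nat.zero_le (b.len (g' ^ (m y - m x)) * (b.len g' + 2 * D * b.len g' + 2 * D + b.len g' * D + D)),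
      Nat.zero_le (b.len g' * D), Nat.zero_le (b.len g')]
  · intro z
    refine ⟨g ^ m' z, ?_⟩
    show b.len ((g' ^ m (g ^ m' z))⁻¹ * z) ≤ _
    have t1 := hm (g ^ m' z)
    rw [hza] at t1
    have t2 := le_trans (hga _) t1
    have t3 := b.tri (g' ^ m (g ^ m' z)) (g' ^ m' z) z
    have t4 := hm' z
    rw [hzb] at t3
    have t5 := hgb' (m' z - m (g ^ m' z))
    have t6 : (m' z - m (g ^ m' z)).natAbs * b.len g' ≤ D * b.len g' :=
      Nat.mul_le_mul_right _ t2
    nlinarith [Nat.zero_le (b.len g' * D), Nat.zero_le (b.len g'), Nat.zero_le (a.len g)]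

end LQ

end
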