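import Pool.Agent.Lib.LQ.Conc
import Pool.Agent.Lib.LQ.Cross
import Pool.Agent.Lib.LQ.Basic

/-
Module LocBig (library LQ, MP_9bf8b0_al).
Proof: let T0 := {n ⊆ Ω : for all m' in S1, h <= (n ∆ m').card} and T1 := the same with S0.
CLAIM: if w + l < len(z⁻¹ p n) then n in T0 ∪ T1 (both filtered powersets).  Suppose z not in c n (the case z in c n is the
same with S0).  If n is not in T0 there is m' in S1 (m' ⊆ Ω, z in c m') with (n ∆ m').card < h.  By cross with
Q := (z not in c .) there are n' ⊆ Ω, x in Ω, (n ∆ n').card < (n ∆ m').card < h, z not in c n', z in c (n' ∆ {x}).  So z is in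
c n' ∆ c (n' ∆ {x}), hC.loc gives len((p n')⁻¹ z) <= l and hw gives len((p n)⁻¹ p n') <= w, so
len(z⁻¹ p n) = len((p n)⁻¹ z) <= w + l.
Then #bad * m <= #T0 * m + #T1 * m <= #T0 * S1.card + #T1 * S0.card <= 2 * 4^N exp(-h^2/N) by conc twice.
-/

set_option autoImplicit false

open Classical
open scoped Pointwise symmDiff

noncomputable section

namespace LQ

open LL

namespace LocBigAux

theorem near {α B : Type} [Group B] (b : NG B) (Ω : Finset α) (l : ℕ) (c : Finset α → Finset B)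
    (p : Finset α → B) (hC : Cube b Ω l c p) (z : B) (h w : ℕ)
    (hw : ∀ n n', n ⊆ Ω → n' ⊆ Ω → (n ∆ n').card < h → b.len ((p n)⁻¹ * p n') ≤ w)
    (n m' : Finset α) (hn : n ⊆ Ω) (hm : m' ⊆ Ω) (hne : ¬ (z ∈ c m' ↔ z ∈ c n))
    (hlt : (n ∆ m').card < h) : b.len (z⁻¹ * p n) ≤ w + l := by
  obtain ⟨n', x, hn', hx, hlt', hQ, hnQ⟩ := cross Ω (fun k => (z ∈ c k ↔ z ∈ c n)) n m' hn hm
    Iff.rfl hne
  have hz : z ∈ c n' ∆ c (n' ∆ {x}) := by
    rw [Finset.mem_symmDiff]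
    tauto
  have e1 := hC.loc n' hn' x hx z hz
  have e2 := hw n n' hn hn' (hlt'.trans hlt)
  have e3 := b.tri (p n) (p n') z
  rw [b.len_symm]
  omega

end LocBigAux

theorem loc_big {α B : Type} [Group B] (b : NG B) (Ω : Finset α) (l : ℕ) (c : Finset α → Finset B)
    (p : Finset α → B) (hC : Cube b Ω l c p) (z : B) (m h w : ℕ)
    (h1 : m ≤ (S1 Ω c z).card) (h0 : m ≤ (S0 Ω c z).card)
    (hw : ∀ n n', n ⊆ Ω → n' ⊆ Ω → (n ∆ n').card < h → b.len ((p n)⁻¹ * p n') ≤ w) :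
    ((Ω.powerset.filter (fun n => w + l < b.len (z⁻¹ * p n))).card : ℝ) * m
      ≤ 2 * 4 ^ Ω.card * Real.exp (-((h : ℝ) ^ 2 / (Ω.card : ℝ))) := by
  set T1 : Finset (Finset α) := Ω.powerset.filter (fun n => ∀ m', m' ∈ S1 Ω c z → h ≤ (n ∆ m').card)
    with hT1
  set T0 : Finset (Finset α) := Ω.powerset.filter (fun n => ∀ m', m' ∈ S0 Ω c z → h ≤ (n ∆ m').card)
    with hT0
  have hs1 : ∀ n, n ∈ S1 Ω c z → n ⊆ Ω := fun n hn =>
    Finset.mem_powerset.1 (Finset.mem_filter.1 hn).1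
  have hs0 : ∀ n, n ∈ S0 Ω c z → n ⊆ Ω := fun n hn =>
    Finset.mem_powerset.1 (Finset.mem_filter.1 hn).1
  have c1 := conc Ω (S1 Ω c z) hs1 h
  have c0 := conc Ω (S0 Ω c z) hs0 h
  rw [← hT1] at c1
  rw [← hT0] at c0
  have hsub : (Ω.powerset.filter (fun n => w + l < b.len (z⁻¹ * p n))) ⊆ T1 ∪ T0 := by
    intro n hn
    obtain ⟨hn1, hn2⟩ := Finset.mem_filter.1 hn
    have hnΩ := Finset.mem_powerset.1 hn1
    rw [Finset.mem_union]
    by_cases hzn : z ∈ c n
    · right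
      rw [hT0, Finset.mem_filter]
      refine ⟨hn1, fun m' hm' => ?_⟩
      by_contra hlt
      have hzm : z ∉ c m' := (Finset.mem_filter.1 hm').2
      have := LocBigAux.near b Ω l c p hC z h w hw n m' hnΩ (hs0 m' hm') (by tauto)
        (not_le.1 hlt)
      omega
    · left
      rw [hT1, Finset.mem_filter]
      refine ⟨hn1, fun m' hm' => ?_⟩
      by_contra hlt
      have hzm : z ∈ c m' := (Finset.mem_filter.1 hm').2
      have := LocBigAux.near b Ω l c p hC z h w hw n m' hnΩ (hs1 m' hm') (by tauto)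
        (not_le.1 hlt)
      omega
  have hcard : ((Ω.powerset.filter (fun n => w + l < b.len (z⁻¹ * p n))).card : ℝ)
      ≤ (T1.card : ℝ) + T0.card := by
    exact_mod_cast (Finset.card_le_card hsub).trans (Finset.card_union_le _ _)
  have hm1 : (m : ℝ) ≤ (S1 Ω c z).card := by exact_mod_cast h1
  have hm0 : (m : ℝ) ≤ (S0 Ω c z).card := by exact_mod_cast h0
  have hm : (0 : ℝ) ≤ m := Nat.cast_nonneg m
  calc ((Ω.powerset.filter (fun n => w + l < b.len (z⁻¹ * p n))).card : ℝ) * m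
      ≤ ((T1.card : ℝ) + T0.card) * m := mul_le_mul_of_nonneg_right hcard hm
    _ = (T1.card : ℝ) * m + T0.card * m := by ring
    _ ≤ (T1.card : ℝ) * (S1 Ω c z).card + T0.card * (S0 Ω c z).card :=
        add_le_add (mul_le_mul_of_nonneg_left hm1 (Nat.cast_nonneg _))
          (mul_le_mul_of_nonneg_left hm0 (Nat.cast_nonneg _))
    _ ≤ 2 * 4 ^ Ω.card * Real.exp (-((h : ℝ) ^ 2 / (Ω.card : ℝ))) := by linarith

end LQ

end
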