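import Pool.Agent.Lib.LQ.LocStable

/-!
Stability of the located cursor along decompositions (MP_9bf8b0_al).
-/

set_option autoImplicit false

open Classical
open scoped Pointwise symmDiff

noncomputable section

namespace LQ

open LL

variable {A B : Type} [Group A] [Group B] {a : NG A} {b : NG B} {K : ℕ} {ψ : LL A → LL B}

theorem loc_dec (h : QD a b K ψ) (Ω : Finset A) (s r D R : ℕ) (hs : ∀ x, x ∈ Ω → a.len x ≤ s)
    (h1 : 4 * ((2 * (K * (2 * s + 1)) * Ω.card + 1) * D) ≤ 2 ^ Ω.card)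
    (h2 : 2 * (a.wr.V K * (b.V r * b.wr.V (K * R))) < 2 ^ Ω.card)
    (β : LL A → B) (hβ : ∀ X, Loc b ψ Ω r D X (β X)) (J : ℕ) (m : Finset A) (hm : Dec a R J m) (X : LL A) :
    b.len ((β X)⁻¹ * β (X * lamp m)) ≤ 2 * J * (r + K * (2 * s + 1)) := by
  induction J generalizing m X with
  | zero =>
    have : m = ∅ := hm
    subst this
    rw [LL.lamp_empty, mul_one, inv_mul_cancel, b.len_one]
    exact Nat.zero_le _
  | succ J ih =>
    obtain ⟨m1, m2, hm1, hm2, rfl⟩ := hm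
    have h3 := loc_stable h Ω s r D R hs h1 h2 X m1 hm1 (β X) (β (X * lamp m1)) (hβ _) (hβ _)
    have h4 := ih m2 hm2 (X * lamp m1)
    have h5 := b.tri (β X) (β (X * lamp m1)) (β (X * lamp m1 * lamp m2))
    rw [LL.lamp_symmDiff, ← mul_assoc]
    calc _ ≤ _ := h5
      _ ≤ 2 * (r + K * (2 * s + 1)) + 2 * J * (r + K * (2 * s + 1)) := Nat.add_le_add h3 h4
      _ = 2 * (J + 1) * (r + K * (2 * s + 1)) := by ring

end LQ

end
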