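import Pool.Agent.Lib.LQ.EdgeBd
import Pool.Agent.Lib.LQ.MiFacts

/-
Majority (library LQ, MP_9bf8b0_al).
Proof.  For z in Y let A := Mi Ω c z.  By mi_half and edge_bd (lam = 1): A.card <= number of pairs (n,x), n in A, x in Ω, n ∆ {x} not in A.
For such a pair z is in c n ∆ c (n ∆ {x}) (exactly one of n, n ∆ {x} has the majority value at z, both are ⊆ Ω), so n is in DD by hloc
(contrapositive, z in Y).  The left side is at most the sum over z in Z of A_z.card, where Z is the finite set of those z in Y lying in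
some symmetric difference c n ∆ c (n ∆ {x}) with n in DD, n ⊆ Ω, x in Ω: if Mi z is nonempty, its boundary is nonempty (1 * card <= boundary), so z
lies in Z.  So left side <= number of triples (n,x,z) with n in DD (n ⊆ Ω), x in Ω, z in c n ∆ c (n ∆ {x}) <= DD.card * Ω.card * l.
-/

set_option autoImplicit false

open Classical
open scoped Pointwise symmDiff

noncomputable section

namespace LQ

open LL

theorem majority {α B : Type} (Ω : Finset α) (c : Finset α → Finset B) (l : ℕ) (Y : Set B)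
    (DD : Finset (Finset α))
    (hcrd : ∀ n, n ⊆ Ω → ∀ x, x ∈ Ω → (c n ∆ c (n ∆ {x})).card ≤ l)
    (hloc : ∀ n, n ⊆ Ω → n ∉ DD → ∀ x, x ∈ Ω → ∀ z, z ∈ c n ∆ c (n ∆ {x}) → z ∉ Y) :
    (Ω.powerset.filter (fun n => ∃ z, z ∈ Y ∧ ¬ (z ∈ c n ↔ z ∈ maj Ω c))).card
      ≤ l * Ω.card * DD.card := by
  set DD' : Finset (Finset α) := DD.filter (fun n => n ⊆ Ω) with hDD'
  have key : ∀ z, z ∈ Y → ∀ n, n ∈ Mi Ω c z → ∀ x, x ∈ Ω → n ∆ {x} ∉ Mi Ω c z →
      n ∈ DD' ∧ z ∈ c n ∆ c (n ∆ {x}) := by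
    intro z hz n hn x hx hnx
    have hn' := Finset.mem_filter.1 hn
    have hnΩ : n ⊆ Ω := Finset.mem_powerset.1 hn'.1
    have hsub : n ∆ {x} ⊆ Ω := by
      intro y hy
      rcases Finset.mem_symmDiff.1 hy with ⟨h1, _⟩ | ⟨h1, _⟩
      · exact hnΩ h1
      · rw [Finset.mem_singleton.1 h1]; exact hx
    have h2 : (z ∈ c (n ∆ {x}) ↔ z ∈ maj Ω c) := by
      by_contra hcon
      exact hnx (Finset.mem_filter.2 ⟨Finset.mem_powerset.2 hsub, hcon⟩)
    have h3 : z ∈ c n ∆ c (n ∆ {x}) := by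
      rw [Finset.mem_symmDiff]
      have h4 := hn'.2
      by_cases ha : z ∈ c n
      · left
        refine ⟨ha, fun hb => h4 ⟨fun _ => h2.1 hb, fun _ => ha⟩⟩
      · right
        refine ⟨?_, ha⟩
        by_contra hb
        exact h4 ⟨fun h => absurd h ha, fun h => absurd (h2.2 h) hb⟩
    refine ⟨Finset.mem_filter.2 ⟨?_, hnΩ⟩, h3⟩
    by_contra hD
    exact hloc n hnΩ hD x hx z h3 hz
  set Z : Finset B := (DD' ×ˢ Ω).biUnion
    (fun q => (c q.1 ∆ c (q.1 ∆ {q.2})).filter (fun z => z ∈ Y)) with hZ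
  have hbd : ∀ z, (Mi Ω c z).card ≤
      ∑ n ∈ Mi Ω c z, (Ω.filter (fun x => n ∆ {x} ∉ Mi Ω c z)).card := by
    intro z
    have := edge_bd Ω (Mi Ω c z) 1 (mi_half Ω c z)
    simpa using this
  -- step 1
  have s1 : (Ω.powerset.filter (fun n => ∃ z, z ∈ Y ∧ ¬ (z ∈ c n ↔ z ∈ maj Ω c))).card
      ≤ ∑ z ∈ Z, (Mi Ω c z).card := by
    refine le_trans (Finset.card_le_card ?_) Finset.card_biUnion_le
    intro n hn
    rcases Finset.mem_filter.1 hn with ⟨hnp, z, hz, hne⟩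
    have hnM : n ∈ Mi Ω c z := Finset.mem_filter.2 ⟨hnp, hne⟩
    refine Finset.mem_biUnion.2 ⟨z, ?_, hnM⟩
    have hpos : 0 < (Mi Ω c z).card := Finset.card_pos.2 ⟨n, hnM⟩
    have hpos2 : 0 < ∑ n ∈ Mi Ω c z, (Ω.filter (fun x => n ∆ {x} ∉ Mi Ω c z)).card :=
      lt_of_lt_of_le hpos (hbd z)
    obtain ⟨n', hn', hc⟩ := Finset.exists_ne_zero_of_sum_ne_zero (Nat.pos_iff_ne_zero.1 hpos2)
    obtain ⟨x, hx⟩ := Finset.card_pos.1 (Nat.pos_of_ne_zero hc)
    rcases Finset.mem_filter.1 hx with ⟨hxΩ, hxn⟩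
    obtain ⟨k1, k2⟩ := key z hz n' hn' x hxΩ hxn
    exact Finset.mem_biUnion.2 ⟨(n', x), Finset.mem_product.2 ⟨k1, hxΩ⟩,
      Finset.mem_filter.2 ⟨k2, hz⟩⟩
  -- step 2
  have s2 : ∀ z ∈ Z, (Mi Ω c z).card ≤
      ∑ n ∈ DD', ∑ x ∈ Ω, (if z ∈ c n ∆ c (n ∆ {x}) then 1 else 0) := by
    intro z hzZ
    have hz : z ∈ Y := by
      obtain ⟨q, _, hq⟩ := Finset.mem_biUnion.1 hzZ
      exact (Finset.mem_filter.1 hq).2
    refine le_trans (hbd z) ?_
    have e1 : ∀ n ∈ Mi Ω c z, (Ω.filter (fun x => n ∆ {x} ∉ Mi Ω c z)).card ≤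
        (if n ∈ DD' then ∑ x ∈ Ω, (if z ∈ c n ∆ c (n ∆ {x}) then 1 else 0) else 0) := by
      intro n hn
      by_cases hD : n ∈ DD'
      · rw [if_pos hD, ← Finset.card_filter]
        refine Finset.card_le_card ?_
        intro x hx
        rcases Finset.mem_filter.1 hx with ⟨hxΩ, hxn⟩
        exact Finset.mem_filter.2 ⟨hxΩ, (key z hz n hn x hxΩ hxn).2⟩
      · rw [if_neg hD]
        refine le_of_eq ?_
        rw [Finset.card_eq_zero]
        refine Finset.filter_eq_empty_iff.2 ?_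
        intro x hxΩ hxn
        exact hD (key z hz n hn x hxΩ hxn).1
    refine le_trans (Finset.sum_le_sum e1) ?_
    rw [← Finset.sum_filter]
    refine Finset.sum_le_sum_of_subset ?_
    intro n hn
    exact (Finset.mem_filter.1 hn).2
  refine le_trans s1 (le_trans (Finset.sum_le_sum s2) ?_)
  rw [Finset.sum_comm]
  have s3 : ∀ n ∈ DD', (∑ z ∈ Z, ∑ x ∈ Ω, (if z ∈ c n ∆ c (n ∆ {x}) then 1 else 0)) ≤
      Ω.card * l := by
    intro n hn
    rw [Finset.sum_comm]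
    have : ∀ x ∈ Ω, (∑ z ∈ Z, (if z ∈ c n ∆ c (n ∆ {x}) then 1 else 0)) ≤ l := by
      intro x hx
      rw [← Finset.card_filter]
      refine le_trans (Finset.card_le_card ?_) (hcrd n (Finset.mem_filter.1 hn).2 x hx)
      intro z hz
      exact (Finset.mem_filter.1 hz).2
    refine le_trans (Finset.sum_le_sum this) ?_
    rw [Finset.sum_const, smul_eq_mul]
  refine le_trans (Finset.sum_le_sum s3) ?_
  rw [Finset.sum_const, smul_eq_mul]
  have h1 : DD'.card ≤ DD.card := Finset.card_le_card (Finset.filter_subset _ _)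
  calc DD'.card * (Ω.card * l) ≤ DD.card * (Ω.card * l) := Nat.mul_le_mul_right _ h1
    _ = l * Ω.card * DD.card := by ring

end LQ

end
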