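import Pool.Agent.Lib.LQ.QDFacts
import Pool.Agent.Lib.LQ.Majority

/-
Module LocStable (library LQ, MP_9bf8b0_al).
Notation l := K * (2 * s + 1), N := Ω.card, X' := X * lamp m, c n := cc ψ X n, p n := pp ψ X n, c' n := cc ψ X' n, p' n := pp ψ X' n.
Suppose len(z⁻¹ z') > 2 (r + l).  DD := {n ⊆ Ω : r < len(z⁻¹ p n)}, DD' := {n ⊆ Ω : r < len(z'⁻¹ p' n)}, both of card <= D (hz, hz').
Y := {y | r + l < len(z⁻¹ y)}.  For n ⊆ Ω, n not in DD, x in Ω, y in c n ∆ c (n ∆ {x}): len((p n)⁻¹ y) <= l (cube), so len(z⁻¹ y) <= r + l, y not in Y.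
majority: bb := maj Ω c satisfies #E <= l N D, E := {n ⊆ Ω : exists y in Y, not (y in c n iff y in bb)}.
Y' := complement of Y.  For n ⊆ Ω, n not in DD', y in c' n ∆ c' (n ∆ {x}): len(z'⁻¹ y) <= r + l, so len(z⁻¹ y) > r + l (triangle, len(z⁻¹ z') > 2(r+l)), y in Y, so
y not in Y'.  majority for c' and Y': bb' := maj Ω c', #E' <= l N D.
G := Ω.powerset minus (DD ∪ E ∪ E'): G.card >= 2^N - (2 l N + 1) D >= 2^N / 2 (h1).
For n ⊆ Ω: X' * lamp n = (X * lamp n) * lamp m (lamps commute), so psi(X' * lamp n) = psi(X * lamp n) * w n with len(w n) <= K * kap m <= K * R (QD.exists_step).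
c' n = c n ∆ (p n • (w n).u), so c n = c' n ∆ (p n • (w n).u).
The map n -> (p n, w n) sends G into (z • ball r) × (b.wr.ball (K R)), of card b.V r * b.wr.V (K R).  If two n1, n2 in G have the same (p, w) then
c n1 = c n2: at y in Y both agree with bb; at y not in Y: y in c' n_i iff y in bb', so y in c n_i iff (y in bb' xor y in p • w.u).  So fibres have
card <= a.wr.V K (QD.fib_cube), hence G.card <= a.wr.V K * (b.V r * b.wr.V (K R)).  With h2: 2^N <= 2 G.card < 2^N.  Contradiction.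
-/

set_option autoImplicit false

open Classical
open scoped Pointwise symmDiff

noncomputable section

namespace LQ

open LL

variable {A B : Type} [Group A] [Group B] {a : NG A} {b : NG B} {K : ℕ} {ψ : LL A → LL B}

theorem loc_stable (h : QD a b K ψ) (Ω : Finset A) (s r D R : ℕ) (hs : ∀ x, x ∈ Ω → a.len x ≤ s)
    (h1 : 4 * ((2 * (K * (2 * s + 1)) * Ω.card + 1) * D) ≤ 2 ^ Ω.card)
    (h2 : 2 * (a.wr.V K * (b.V r * b.wr.V (K * R))) < 2 ^ Ω.card)
    (X : LL A) (m : Finset A) (hm : a.kap m ≤ R) (z z' : B)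
    (hz : Loc b ψ Ω r D X z) (hz' : Loc b ψ Ω r D (X * lamp m) z') :
    b.len (z⁻¹ * z') ≤ 2 * (r + K * (2 * s + 1)) := by
  by_contra hcon
  push Not at hcon
  set l := K * (2 * s + 1) with hl
  set X' := X * lamp m with hX'
  set c := cc ψ X with hc
  set pn := pp ψ X with hpn
  set c' := cc ψ X' with hc'
  have hcube := h.cube X Ω s l hs le_rfl
  have hcube' := h.cube X' Ω s l hs le_rfl
  unfold Loc at hz hz'
  set DD := Ω.powerset.filter (fun n => r < b.len (z⁻¹ * pp ψ X n)) with hDD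
  set DD' := Ω.powerset.filter (fun n => r < b.len (z'⁻¹ * pp ψ X' n)) with hDD'
  set Y : Set B := {y | r + l < b.len (z⁻¹ * y)} with hY
  set Y' : Set B := {y | b.len (z⁻¹ * y) ≤ r + l} with hY'
  have hE := majority Ω c l Y DD hcube.crd (by
    intro n hn hnD x hx y hy hyY
    have e1 := hcube.loc n hn x hx y hy
    have e2 : b.len (z⁻¹ * pp ψ X n) ≤ r := by
      by_contra hc2
      push Not at hc2
      exact hnD (Finset.mem_filter.2 ⟨Finset.mem_powerset.2 hn, hc2⟩)
    have e3 := b.tri z (pp ψ X n) y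
    have e4 : r + l < b.len (z⁻¹ * y) := hyY
    omega)
  have hE' := majority Ω c' l Y' DD' hcube'.crd (by
    intro n hn hnD x hx y hy hyY
    have e1 := hcube'.loc n hn x hx y hy
    have e2 : b.len (z'⁻¹ * pp ψ X' n) ≤ r := by
      by_contra hc2
      push Not at hc2
      exact hnD (Finset.mem_filter.2 ⟨Finset.mem_powerset.2 hn, hc2⟩)
    have e3 := b.tri z' (pp ψ X' n) y
    have e4 : b.len (z⁻¹ * y) ≤ r + l := hyY
    have e5 := b.tri z y z'
    have e6 := b.len_symm y z'
    omega)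
  set E := Ω.powerset.filter (fun n => ∃ y, y ∈ Y ∧ ¬ (y ∈ c n ↔ y ∈ maj Ω c)) with hEd
  set E' := Ω.powerset.filter (fun n => ∃ y, y ∈ Y' ∧ ¬ (y ∈ c' n ↔ y ∈ maj Ω c')) with hEd'
  set G := Ω.powerset \ (DD ∪ E ∪ E') with hG
  have hGcard : 2 ^ Ω.card ≤ G.card + (2 * l * Ω.card + 1) * D := by
    have e1 : Ω.powerset ⊆ G ∪ (DD ∪ E ∪ E') := by
      intro n hn
      rw [hG, Finset.sdiff_union_self_eq_union]
      exact Finset.mem_union_left _ hn
    have e2 := Finset.card_le_card e1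
    rw [Finset.card_powerset] at e2
    have e3 := Finset.card_union_le G (DD ∪ E ∪ E')
    have e4 := Finset.card_union_le (DD ∪ E) E'
    have e5 := Finset.card_union_le DD E
    have e6 : l * Ω.card * DD.card ≤ l * Ω.card * D := Nat.mul_le_mul_left _ hz
    have e7 : l * Ω.card * DD'.card ≤ l * Ω.card * D := Nat.mul_le_mul_left _ hz'
    have e8 : (2 * l * Ω.card + 1) * D = l * Ω.card * D + l * Ω.card * D + D := by ring
    rw [e8]
    omega
  have hGhalf : 2 ^ Ω.card ≤ 2 * G.card := by omega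
  choose w hw1 hw2 using fun n : Finset A => h.exists_step (X * lamp n) (lamp m)
  have hcn : ∀ n, c' n = c n ∆ (pn n • (w n).u) := by
    intro n
    have e1 : X' * lamp n = X * lamp n * lamp m := by
      rw [hX', mul_assoc, LL.lamp_comm, ← mul_assoc]
    show (ψ (X' * lamp n)).u = _
    rw [e1, hw1]
    rfl
  have hmap : ∀ n ∈ G, (fun n => (z⁻¹ * pn n, w n)) n ∈ (b.ball r) ×ˢ (b.wr.ball (K * R)) := by
    intro n hn
    rw [Finset.mem_product]
    rw [hG, Finset.mem_sdiff] at hn
    constructor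
    · rw [NG.mem_ball]
      by_contra hc2
      push Not at hc2
      exact hn.2 (Finset.mem_union_left _ (Finset.mem_union_left _
        (Finset.mem_filter.2 ⟨hn.1, hc2⟩)))
    · rw [NG.mem_ball]
      have e1 : a.wr.len (lamp m) ≤ R := hm
      exact (hw2 n).trans (Nat.mul_le_mul_left _ e1)
  have hfib := Finset.card_le_mul_card_image_of_maps_to hmap (a.wr.V K) (by
    rintro ⟨β, ω⟩ _
    rcases (G.filter fun n => (z⁻¹ * pn n, w n) = (β, ω)).eq_empty_or_nonempty with he | ⟨n0, hn0⟩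
    · rw [he, Finset.card_empty]
      exact Nat.zero_le _
    · refine h.fib_cube X (ψ (X * lamp n0)) _ (fun n hn => ?_)
      rw [Finset.mem_filter] at hn hn0
      have hpe : pn n = pn n0 := by
        have e1 : z⁻¹ * pn n = z⁻¹ * pn n0 := congrArg Prod.fst (hn.2.trans hn0.2.symm)
        exact mul_left_cancel e1
      have hwe : w n = w n0 := congrArg Prod.snd (hn.2.trans hn0.2.symm)
      refine ⟨?_, hpe⟩
      have hnG := hn.1
      have hn0G := hn0.1
      rw [hG, Finset.mem_sdiff] at hnG hn0G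
      have key : ∀ k, (k ∈ Ω.powerset ∧ k ∉ DD ∪ E ∪ E') →
          (∀ y, y ∈ Y → (y ∈ c k ↔ y ∈ maj Ω c)) ∧ (∀ y, y ∈ Y' → (y ∈ c' k ↔ y ∈ maj Ω c')) := by
        intro k hk
        constructor
        · intro y hy
          by_contra hc2
          exact hk.2 (Finset.mem_union_left _ (Finset.mem_union_right _
            (Finset.mem_filter.2 ⟨hk.1, y, hy, hc2⟩)))
        · intro y hy
          by_contra hc2
          exact hk.2 (Finset.mem_union_right _ (Finset.mem_filter.2 ⟨hk.1, y, hy, hc2⟩))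
      show c n = c n0
      ext y
      by_cases hy : r + l < b.len (z⁻¹ * y)
      · rw [(key n hnG).1 y hy, (key n0 hn0G).1 y hy]
      · push Not at hy
        have e1 := (key n hnG).2 y hy
        have e2 := (key n0 hn0G).2 y hy
        have e3 : y ∈ c' n ↔ y ∈ c' n0 := e1.trans e2.symm
        rw [hcn, hcn, hpe, hwe, Finset.mem_symmDiff, Finset.mem_symmDiff] at e3
        tauto)
  rw [Finset.card_product] at hfib
  have e9 : G.card ≤ a.wr.V K * (b.V r * b.wr.V (K * R)) := hfib
  omega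

end LQ

end
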