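import Pool.Agent.Lib.LQ.WrFacts

/-!
A closed walk through the whole ball (depth first search), switching lamps on the way (MP_9bf8b0_al).
-/

set_option autoImplicit false

open Classical
open scoped Pointwise symmDiff

noncomputable section

namespace LQ

open LL

variable {A : Type} [Group A]

namespace TourAux

theorem mul_lamp_comm (P : LL A) (n : Finset A) : P * LL.lamp n = LL.lamp (P.q • n) * P := by
  ext1
  · simp only [LL.mul_u, LL.lamp, one_smul]
    exact symmDiff_comm _ _
  · simp [LL.lamp]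

theorem len_prod_le (a : NG A) (L : List (LL A)) (h : ∀ g, g ∈ L → a.wr.len g ≤ 1) :
    a.wr.len L.prod ≤ L.length := by
  induction L with
  | nil => simp [a.wr.len_one]
  | cons g L ih =>
    rw [List.prod_cons, List.length_cons]
    have h1 := a.wr.len_mul g L.prod
    have h2 := h g List.mem_cons_self
    have h3 := ih (fun g' hg' => h g' (List.mem_cons_of_mem _ hg'))
    omega

theorem mv_mul_mv_inv (t : A) : LL.mv t * LL.mv t⁻¹ = (1 : LL A) := by
  rw [← LL.mv_mul, mul_inv_cancel, LL.mv_one]

theorem len_mv_le (a : NG A) (t : A) (ht : a.len t ≤ 1) : a.wr.len (LL.mv t) ≤ 1 :=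
  (a.wr_mv_le t).trans ht

theorem tour (a : NG A) (n : ℕ) : ∀ E : Finset A, E.card = n + 1 → (1 : A) ∈ E →
    (∀ x, x ∈ E → x ≠ 1 → ∃ y, y ∈ E ∧ ∃ t, x = y * t ∧ a.len y + 1 = a.len x ∧ a.len t ≤ 1) →
    ∀ v : Finset A, v ⊆ E → ∃ L : List (LL A), (∀ g, g ∈ L → a.wr.len g ≤ 1) ∧
      L.prod = LL.lamp v ∧ L.length ≤ 3 * (n + 1) ∧
      ∀ x, x ∈ E → ∃ L1 L2, L = L1 ++ L2 ∧ (L1.prod).q = x := by
  induction n with
  | zero =>
    intro E hc h1 _ v hv
    obtain ⟨x, rfl⟩ := Finset.card_eq_one.1 hc
    have hx : x = 1 := (Finset.mem_singleton.1 h1).symm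
    subst hx
    rcases Finset.subset_singleton_iff.1 hv with rfl | rfl
    · refine ⟨[], by simp, by simp [LL.lamp_empty], by simp, ?_⟩
      intro x hx
      refine ⟨[], [], rfl, ?_⟩
      rw [Finset.mem_singleton.1 hx]
      rfl
    · refine ⟨[LL.lamp {1}], ?_, by simp, by simp, ?_⟩
      · intro g hg
        rw [List.mem_singleton.1 hg]
        exact a.wr_lamp_one
      · intro x hx
        refine ⟨[], [LL.lamp {1}], rfl, ?_⟩
        rw [Finset.mem_singleton.1 hx]
        rfl
  | succ n ih =>
    intro E hc h1 hcl v hv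
    obtain ⟨x, hxE, hmax⟩ := Finset.exists_max_image E (fun x => a.len x) ⟨1, h1⟩
    have hx1 : x ≠ 1 := by
      rintro rfl
      have : E ⊆ {1} := by
        intro y hy
        rw [Finset.mem_singleton]
        apply a.eq_one
        have := hmax y hy
        rw [a.len_one] at this
        omega
      have := Finset.card_le_card this
      rw [Finset.card_singleton] at this
      omega
    obtain ⟨y, hyE, t, hxy, hyl, ht⟩ := hcl x hxE hx1
    have hyx : y ≠ x := by
      rintro rfl
      omega
    have hc' : (E.erase x).card = n + 1 := by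
      rw [Finset.card_erase_of_mem hxE, hc]
      omega
    have h1' : (1 : A) ∈ E.erase x := Finset.mem_erase.2 ⟨fun h => hx1 h.symm, h1⟩
    have hcl' : ∀ z, z ∈ E.erase x → z ≠ 1 →
        ∃ y, y ∈ E.erase x ∧ ∃ t, z = y * t ∧ a.len y + 1 = a.len z ∧ a.len t ≤ 1 := by
      intro z hz hz1
      obtain ⟨y', hy', t', e, hl, ht'⟩ := hcl z (Finset.mem_of_mem_erase hz) hz1
      refine ⟨y', Finset.mem_erase.2 ⟨?_, hy'⟩, t', e, hl, ht'⟩
      rintro rfl
      have := hmax z (Finset.mem_of_mem_erase hz)
      omega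
    obtain ⟨L, hL, hprod, hlen, hvis⟩ := ih (E.erase x) hc' h1' hcl' (v.erase x)
      (Finset.erase_subset_erase x hv)
    obtain ⟨L1, L2, hL12, hq⟩ := hvis y (Finset.mem_erase.2 ⟨hyx, hyE⟩)
    -- the middle word
    obtain ⟨w, mid, hwlen, hwq, hmidgen, hmidprod, hmidlen, hpre⟩ : ∃ (w : Finset A) (mid : List (LL A)),
        w = (if x ∈ v then {t} else ∅) ∧ True ∧ (∀ g, g ∈ mid → a.wr.len g ≤ 1) ∧
        mid.prod = LL.lamp w ∧ mid.length ≤ 3 ∧ ∃ M, mid = LL.mv t :: M := by
      by_cases hxv : x ∈ v
      · refine ⟨{t}, [LL.mv t, LL.lamp {1}, LL.mv t⁻¹], by rw [if_pos hxv], trivial, ?_, ?_, by simp,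
          _, rfl⟩
        · intro g hg
          simp only [List.mem_cons, List.not_mem_nil, or_false] at hg
          rcases hg with rfl | rfl | rfl
          · exact len_mv_le a t ht
          · exact a.wr_lamp_one
          · exact len_mv_le a t⁻¹ (by rwa [a.len_inv])
        · have := LL.lamp_smul t ({1} : Finset A)
          rw [Finset.smul_finset_singleton, smul_eq_mul, mul_one] at this
          rw [this]
          simp [mul_assoc]
      · refine ⟨∅, [LL.mv t, LL.mv t⁻¹], by rw [if_neg hxv], trivial, ?_, ?_, by simp, _, rfl⟩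
        · intro g hg
          simp only [List.mem_cons, List.not_mem_nil, or_false] at hg
          rcases hg with rfl | rfl
          · exact len_mv_le a t ht
          · exact len_mv_le a t⁻¹ (by rwa [a.len_inv])
        · rw [LL.lamp_empty]
          simp [mv_mul_mv_inv]
    refine ⟨L1 ++ mid ++ L2, ?_, ?_, ?_, ?_⟩
    · intro g hg
      rw [List.mem_append, List.mem_append] at hg
      rcases hg with (hg | hg) | hg
      · exact hL g (by rw [hL12]; exact List.mem_append_left _ hg)
      · exact hmidgen g hg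
      · exact hL g (by rw [hL12]; exact List.mem_append_right _ hg)
    · rw [List.prod_append, List.prod_append, hmidprod, mul_lamp_comm, mul_assoc,
        ← List.prod_append, ← hL12, hprod, ← LL.lamp_symmDiff, hq]
      congr 1
      rw [hwlen]
      by_cases hxv : x ∈ v
      · rw [if_pos hxv, Finset.smul_finset_singleton, smul_eq_mul, ← hxy]
        ext z
        simp only [Finset.mem_symmDiff, Finset.mem_singleton, Finset.mem_erase]
        constructor
        · rintro (⟨rfl, _⟩ | ⟨⟨_, h⟩, _⟩)
          · exact hxv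
          · exact h
        · intro h
          by_cases hz : z = x
          · left
            exact ⟨hz, fun h' => h'.1 hz⟩
          · right
            exact ⟨⟨hz, h⟩, hz⟩
      · rw [if_neg hxv, Finset.smul_finset_empty, Finset.erase_eq_of_notMem hxv]
        exact bot_symmDiff v
    · rw [List.length_append, List.length_append]
      rw [hL12, List.length_append] at hlen
      omega
    · intro z hz
      by_cases hzx : z = x
      · obtain ⟨M, hM⟩ := hpre
        refine ⟨L1 ++ [LL.mv t], M ++ L2, ?_, ?_⟩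
        · rw [hM]
          simp
        · rw [List.prod_append, List.prod_singleton, LL.mul_mv_q, hq, hzx, hxy]
      · obtain ⟨M1, M2, hM, hMq⟩ := hvis z (Finset.mem_erase.2 ⟨hzx, hz⟩)
        rw [hL12] at hM
        rcases List.append_eq_append_iff.1 hM with ⟨c, hc1, hc2⟩ | ⟨c, hc1, hc2⟩
        · -- M1 = L1 ++ c, L2 = c ++ M2
          refine ⟨L1 ++ mid ++ c, M2, ?_, ?_⟩
          · rw [hc2]
            simp
          · rw [List.prod_append, List.prod_append, hmidprod, mul_lamp_comm, mul_assoc,
              ← List.prod_append, ← hc1, LL.mul_q]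
            simp [LL.lamp, hMq]
        · -- L1 = M1 ++ c, M2 = c ++ L2
          refine ⟨M1, c ++ mid ++ L2, ?_, hMq⟩
          rw [hc1]
          simp

end TourAux

theorem kap_ball (a : NG A) (ρ : ℕ) (v : Finset A) (hv : v ⊆ a.ball ρ) : a.kap v ≤ 3 * a.V ρ := by
  obtain ⟨n, hn⟩ : ∃ n, (a.ball ρ).card = n + 1 := ⟨a.V ρ - 1, by
    have := a.V_pos ρ
    rw [NG.V] at this ⊢
    omega⟩
  obtain ⟨L, hL, hprod, hlen, -⟩ := TourAux.tour a n (a.ball ρ) hn (a.one_mem_ball ρ) (by
    intro x hx hx1
    obtain ⟨m, hm⟩ : ∃ m, a.len x = m + 1 := by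
      refine ⟨a.len x - 1, ?_⟩
      have : a.len x ≠ 0 := fun h => hx1 (a.eq_one x h)
      omega
    obtain ⟨y, t, e, hy, ht⟩ := a.split x m hm
    refine ⟨y, ?_, t, e, by omega, ht⟩
    rw [NG.mem_ball] at hx ⊢
    omega) v hv
  rw [NG.kap, ← hprod, NG.V, hn]
  exact (TourAux.len_prod_le a L hL).trans hlen

end LQ

end
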