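import Pool.Agent.Lib.LQ.Comb
import Pool.Agent.Lib.LQ.Tour
import Pool.Agent.Lib.LQ.DecCard

/-
Module NetDec (library LQ, MP_9bf8b0_al).
q := 2 ρ + 1, V := a.V ρ, k := 2^(j+1), I(m) := (range k).filter (part a γ ρ m i ≠ ∅).
(1) For m' ⊆ tube k: kap m' <= 2 k q + 3 V * I(m').card (kap_tube, kap_ball for i in I(m'), kap ∅ = 0 otherwise).
(2) If I(m').card <= g := 2^j / (6 nu) then kap m' <= 4 * 2^j q + 3 V g <= R := 2^j V / nu: Nat.le_div_iff_mul_le:
nu (4 * 2^j q) <= 2^j V / 2 (h1: 8 nu q <= V) and nu 3 V g <= 2^j V / 2 (6 nu g <= 2^j).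
(3) By induction on J': for m' ⊆ tube k with I(m').card <= J' * g: Dec a R J' m'.  J' = 0: all parts empty, m' = ∅ (sum_part).  Step: if I(m').card <= g use
m' and ∅ (dec_empty); else choose I1 ⊆ I(m') with card g, m1 := m' ∩ (biUnion over I1 of the balls γ(iq) • ball ρ), m2 := m' \ m1; I(m1) = I1 (balls are disjoint),
I(m2) = I(m') \ I1.
(4) For m ⊆ tube 2^(j+1) \ tube 2^j: I(m) ⊆ [2^j, 2^(j+1)) so I(m).card <= 2^j <= 12 nu * g because 2^j >= 12 nu (h2): g >= 1 and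
2^j < 6 nu (g + 1) <= 12 nu g.
-/

set_option autoImplicit false

open Classical
open scoped Pointwise symmDiff

noncomputable section

namespace LQ

open LL

variable {A : Type} [Group A] {a : NG A} {γ : ℕ → A}

namespace NetDecAux

/-- the cell number `i` -/
def cell (a : NG A) (γ : ℕ → A) (ρ i : ℕ) : Finset A := γ (i * (2 * ρ + 1)) • a.ball ρ

theorem part_eq_empty (hγ : Ray a γ) (ρ : ℕ) (I : Finset ℕ) (m : Finset A)
    (hm : m ⊆ I.biUnion (cell a γ ρ)) (i : ℕ) (hi : i ∉ I) : part a γ ρ m i = ∅ := by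
  rw [Finset.eq_empty_iff_forall_notMem]
  intro y hy
  unfold part at hy
  rw [Finset.mem_inter, Finset.mem_inv_smul_finset_iff] at hy
  obtain ⟨i', hi', hx⟩ := Finset.mem_biUnion.1 (hm hy.1)
  have hne : i ≠ i' := fun h => hi (h ▸ hi')
  have h1 : γ (i * (2 * ρ + 1)) • y ∈ γ (i * (2 * ρ + 1)) • a.ball ρ :=
    Finset.smul_mem_smul_finset hy.2
  exact Finset.disjoint_left.1 (tube_disj hγ ρ i i' hne) h1 hx

theorem kap_le (hγ : Ray a γ) (ρ k : ℕ) (I : Finset ℕ) (hI : I ⊆ Finset.range k) (m : Finset A)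
    (hm : m ⊆ I.biUnion (cell a γ ρ)) :
    a.kap m ≤ 2 * (k * (2 * ρ + 1)) + 3 * a.V ρ * I.card := by
  have h1 : m ⊆ tube a γ ρ k := hm.trans (Finset.biUnion_subset_biUnion_of_subset_left _ hI)
  have h2 := kap_tube hγ ρ k m h1
  have h3 : ∑ i ∈ Finset.range k, a.kap (part a γ ρ m i) ≤ 3 * a.V ρ * I.card := by
    have h4 : ∑ i ∈ Finset.range k, a.kap (part a γ ρ m i) = ∑ i ∈ I, a.kap (part a γ ρ m i) := by
      symm
      refine Finset.sum_subset hI fun i _ hi => ?_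
      rw [part_eq_empty hγ ρ I m hm i hi]
      exact NG.kap_empty a
    rw [h4]
    have h5 : ∑ i ∈ I, a.kap (part a γ ρ m i) ≤ ∑ _i ∈ I, 3 * a.V ρ :=
      Finset.sum_le_sum fun i _ => kap_ball a ρ _ Finset.inter_subset_right
    rw [Finset.sum_const, smul_eq_mul] at h5
    exact h5.trans (le_of_eq (Nat.mul_comm _ _))
  omega

theorem dec (hγ : Ray a γ) (ρ k g R : ℕ) (hR : 2 * (k * (2 * ρ + 1)) + 3 * a.V ρ * g ≤ R)
    (m : Finset A) : ∀ J : ℕ, ∀ I : Finset ℕ, I ⊆ Finset.range k → I.card ≤ J * g →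
      Dec a R J (m ∩ I.biUnion (cell a γ ρ)) := by
  intro J
  induction J with
  | zero =>
    intro I _ hc
    have hI0 : I = ∅ := by
      rw [← Finset.card_eq_zero]
      omega
    subst hI0
    show m ∩ (∅ : Finset ℕ).biUnion (cell a γ ρ) = ∅
    simp
  | succ J ih =>
    intro I hI hc
    obtain ⟨I1, hI1, hc1⟩ := Finset.exists_subset_card_eq (s := I) (n := min g I.card)
      (min_le_right _ _)
    have hc2 : (I \ I1).card ≤ J * g := by
      rw [Finset.card_sdiff_of_subset hI1, hc1]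
      rw [Nat.succ_mul] at hc
      rcases le_total g I.card with h | h
      · rw [min_eq_left h]; omega
      · rw [min_eq_right h]; omega
    refine ⟨m ∩ I1.biUnion (cell a γ ρ), m ∩ (I \ I1).biUnion (cell a γ ρ), ?_,
      ih (I \ I1) (Finset.sdiff_subset.trans hI) hc2, ?_⟩
    · refine (kap_le hγ ρ k I1 (hI1.trans hI) _ Finset.inter_subset_right).trans
        (le_trans ?_ hR)
      have : I1.card ≤ g := by rw [hc1]; exact min_le_left _ _
      gcongr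
    · have hdisj : Disjoint (m ∩ I1.biUnion (cell a γ ρ)) (m ∩ (I \ I1).biUnion (cell a γ ρ)) := by
        rw [Finset.disjoint_left]
        intro x hx hx'
        obtain ⟨i, hi, hxi⟩ := Finset.mem_biUnion.1 (Finset.mem_inter.1 hx).2
        obtain ⟨i', hi', hxi'⟩ := Finset.mem_biUnion.1 (Finset.mem_inter.1 hx').2
        have hne : i ≠ i' := fun h => (Finset.mem_sdiff.1 hi').2 (h ▸ hi)
        exact Finset.disjoint_left.1 (tube_disj hγ ρ i i' hne) hxi hxi'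
      rw [hdisj.symmDiff_eq_sup, Finset.sup_eq_union, ← Finset.inter_union_distrib_left,
        ← Finset.union_biUnion, Finset.union_sdiff_of_subset hI1]

end NetDecAux

theorem net_dec (hγ : Ray a γ) (ρ j nu : ℕ) (hnu : 1 ≤ nu) (h1 : 8 * nu * (2 * ρ + 1) ≤ a.V ρ)
    (h2 : 12 * nu ≤ 2 ^ j) (m : Finset A) (hm : m ⊆ tube a γ ρ (2 ^ (j + 1)) \ tube a γ ρ (2 ^ j)) :
    Dec a (2 ^ j * a.V ρ / nu) (12 * nu) m := by
  have hR : 2 * (2 ^ (j + 1) * (2 * ρ + 1)) + 3 * a.V ρ * (2 ^ j / (6 * nu)) ≤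
      2 ^ j * a.V ρ / nu := by
    rw [Nat.le_div_iff_mul_le (by omega)]
    have h3 : (6 * nu) * (2 ^ j / (6 * nu)) ≤ 2 ^ j := Nat.mul_div_le _ _
    have h4 : 8 * nu * (2 * ρ + 1) * 2 ^ j ≤ a.V ρ * 2 ^ j := Nat.mul_le_mul_right _ h1
    have h5 : (6 * nu) * (2 ^ j / (6 * nu)) * a.V ρ ≤ 2 ^ j * a.V ρ := Nat.mul_le_mul_right _ h3
    rw [pow_succ]
    generalize 2 ^ j / (6 * nu) = g at *
    generalize 2 ^ j = P at *
    nlinarith
  have hJ : (Finset.Ico (2 ^ j) (2 ^ (j + 1))).card ≤ 12 * nu * (2 ^ j / (6 * nu)) := by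
    rw [Nat.card_Ico, pow_succ]
    have h3 : 2 ^ j < 6 * nu * (2 ^ j / (6 * nu) + 1) := Nat.lt_mul_div_succ _ (by omega)
    have h6 : 1 ≤ 2 ^ j / (6 * nu) := by
      rw [Nat.le_div_iff_mul_le (by omega)]
      omega
    generalize 2 ^ j / (6 * nu) = g at *
    generalize 2 ^ j = P at *
    have h7 : 6 * nu ≤ 6 * nu * g := Nat.le_mul_of_pos_right _ h6
    have h8 : 6 * nu * (g + 1) = 6 * nu * g + 6 * nu := by ring
    have h9 : 12 * nu * g = 6 * nu * g + 6 * nu * g := by ring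
    omega
  have hk := NetDecAux.dec hγ ρ (2 ^ (j + 1)) (2 ^ j / (6 * nu)) (2 ^ j * a.V ρ / nu) hR m
    (12 * nu) (Finset.Ico (2 ^ j) (2 ^ (j + 1)))
    (fun i hi => Finset.mem_range.2 (Finset.mem_Ico.1 hi).2) hJ
  have hme : m ∩ (Finset.Ico (2 ^ j) (2 ^ (j + 1))).biUnion (NetDecAux.cell a γ ρ) = m := by
    rw [Finset.inter_eq_left]
    intro x hx
    obtain ⟨hx1, hx2⟩ := Finset.mem_sdiff.1 (hm hx)
    obtain ⟨i, hi, hxi⟩ := Finset.mem_biUnion.1 hx1
    refine Finset.mem_biUnion.2 ⟨i, Finset.mem_Ico.2 ⟨?_, Finset.mem_range.1 hi⟩, hxi⟩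
    by_contra hlt
    exact hx2 (Finset.mem_biUnion.2 ⟨i, Finset.mem_range.2 (not_le.1 hlt), hxi⟩)
  rw [hme] at hk
  exact hk

end LQ

end
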