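import Pool.Agent.Lib.LQ.Comb
import Pool.Agent.Lib.LQ.QDFacts
import Pool.Agent.Lib.LQ.LocBig
import Pool.Agent.Lib.LQ.MiFacts

/-
NetLoc (library LQ, MP_9bf8b0_al).
q := 2 ρ + 1, V := a.V ρ >= 1, N := k V = Ω.card (tube_card), Ω := tube a γ ρ k, Rm := 3 (K (q N)), c := cc ψ X, p := pp ψ X.
(1) kap n <= 2 k q + q n.card <= 3 q N for n ⊆ Ω (k <= N).  So len((ψ X).q⁻¹ p n) <= Rm (QD.pos) and z in (ψ X).u ∆ c n implies len((ψ X).q⁻¹ z) <= Rm (QD.mem_u).
(2) CLAIM: some z has m0 <= (Mi Ω c z).card.  Suppose not.  Z := (ψ X).q • b.ball Rm (card b.V Rm).  For z not in Z the truth value of z in c n is the same for all n ⊆ Ω (that of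
z in (ψ X).u), so Mi Ω c z = ∅ (mi_eq_empty).  Let G := {n ⊆ Ω : for all z, z in c n iff z in maj Ω c}; the other n lie in the union of Mi Ω c z, z in Z,
so 2^N <= G.card + b.V Rm * m0.  All n in G have the same c n, so n -> p n has fibres of card <= a.wr.V K (QD.fib_cube) and p n in Z:
G.card <= a.wr.V K * b.V Rm.  So 2^N <= b.V Rm * (m0 + a.wr.V K), contradicting hm0.
(3) loc_big with this z, m := m0 (mi_le_S1, mi_le_S0), h := hh, l := K (2 (k q) + 1) (cube: QD.cube with s := k q by tube_len),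
w := K (2 (k q) + q hh): for (n ∆ n').card < hh: X * lamp n' = X * lamp n * lamp (n ∆ n'), len <= K kap(n ∆ n') <= K (2 k q + q hh) by kap_tube_card.
-/

set_option autoImplicit false

open Classical
open scoped Pointwise symmDiff

noncomputable section

namespace LQ

open LL

variable {A B : Type} [Group A] [Group B] {a : NG A} {b : NG B} {K : ℕ} {ψ : LL A → LL B} {γ : ℕ → A}

theorem net_loc (h : QD a b K ψ) (hγ : Ray a γ) (ρ k m0 hh : ℕ) (X : LL A)
    (hm0 : b.V (3 * (K * ((2 * ρ + 1) * (k * a.V ρ)))) * (m0 + a.wr.V K) < 2 ^ (k * a.V ρ)) :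
    ∃ z, (((tube a γ ρ k).powerset.filter (fun n =>
        K * (2 * (k * (2 * ρ + 1)) + (2 * ρ + 1) * hh) + K * (2 * (k * (2 * ρ + 1)) + 1)
          < b.len (z⁻¹ * pp ψ X n))).card : ℝ) * m0
      ≤ 2 * 4 ^ (k * a.V ρ) * Real.exp (-((hh : ℝ) ^ 2 / ((k * a.V ρ : ℕ) : ℝ))) := by
  have hcard : (tube a γ ρ k).card = k * a.V ρ := tube_card hγ ρ k
  obtain ⟨Ω, hΩ⟩ : ∃ Ω, tube a γ ρ k = Ω := ⟨_, rfl⟩
  obtain ⟨Rm, hRm⟩ : ∃ Rm, 3 * (K * ((2 * ρ + 1) * (k * a.V ρ))) = Rm := ⟨_, rfl⟩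
  rw [hΩ] at hcard ⊢
  rw [hRm] at hm0
  -- the cost of a subset
  have hkap : ∀ n, n ⊆ Ω → K * a.wr.len (lamp n) ≤ Rm := by
    intro n hn
    have h1 : a.kap n ≤ 2 * (k * (2 * ρ + 1)) + (2 * ρ + 1) * n.card :=
      kap_tube_card hγ ρ k n (by rw [hΩ]; exact hn)
    have h2 : n.card ≤ k * a.V ρ := by
      rw [← hcard]
      exact Finset.card_le_card hn
    have h3 : k ≤ k * a.V ρ := Nat.le_mul_of_pos_right k (a.V_pos ρ)
    have h4 : k * (2 * ρ + 1) ≤ (2 * ρ + 1) * (k * a.V ρ) := by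
      rw [mul_comm]
      exact Nat.mul_le_mul_left _ h3
    have h5 : (2 * ρ + 1) * n.card ≤ (2 * ρ + 1) * (k * a.V ρ) := Nat.mul_le_mul_left _ h2
    have h6 : a.kap n ≤ 3 * ((2 * ρ + 1) * (k * a.V ρ)) := by omega
    have h7 : K * a.kap n ≤ K * (3 * ((2 * ρ + 1) * (k * a.V ρ))) := Nat.mul_le_mul_left _ h6
    rw [← hRm]
    calc K * a.wr.len (lamp n) = K * a.kap n := rfl
      _ ≤ K * (3 * ((2 * ρ + 1) * (k * a.V ρ))) := h7
      _ = 3 * (K * ((2 * ρ + 1) * (k * a.V ρ))) := by ring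
  -- a point with a large minority
  have hclaim : ∃ z, m0 ≤ (Mi Ω (cc ψ X) z).card := by
    by_contra hc
    push Not at hc
    obtain ⟨Z, hZ⟩ : ∃ Z : Finset B, (ψ X).q • b.ball Rm = Z := ⟨_, rfl⟩
    have hZmem : ∀ z, b.len ((ψ X).q⁻¹ * z) ≤ Rm → z ∈ Z := by
      intro z hz
      rw [← hZ, Finset.mem_smul_finset]
      exact ⟨(ψ X).q⁻¹ * z, (b.mem_ball _ _).2 hz, by rw [smul_eq_mul, mul_inv_cancel_left]⟩
    have hZcard : Z.card = b.V Rm := by
      rw [← hZ, Finset.card_smul_finset]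
      rfl
    have hout : ∀ z, z ∉ Z → Mi Ω (cc ψ X) z = ∅ := by
      intro z hz
      have key : ∀ n, n ⊆ Ω → (z ∈ cc ψ X n ↔ z ∈ (ψ X).u) := by
        intro n hn
        by_contra hne
        apply hz
        apply hZmem
        refine (h.mem_u X (lamp n) z ?_).trans (hkap n hn)
        rw [Finset.mem_symmDiff]
        change _ ∧ z ∉ cc ψ X n ∨ z ∈ cc ψ X n ∧ _
        tauto
      apply mi_eq_empty
      intro n hn n' hn'
      rw [key n hn, key n' hn']
    obtain ⟨G, hG⟩ : ∃ G : Finset (Finset A),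
        Ω.powerset.filter (fun n => ∀ z, z ∈ cc ψ X n ↔ z ∈ maj Ω (cc ψ X)) = G := ⟨_, rfl⟩
    have hcov : Ω.powerset ⊆ G ∪ Z.biUnion (Mi Ω (cc ψ X)) := by
      intro n hn
      rw [Finset.mem_union]
      by_cases hg : ∀ z, z ∈ cc ψ X n ↔ z ∈ maj Ω (cc ψ X)
      · left
        rw [← hG, Finset.mem_filter]
        exact ⟨hn, hg⟩
      · right
        push Not at hg
        obtain ⟨z, hz⟩ := hg
        have hzM : n ∈ Mi Ω (cc ψ X) z := by
          rw [Mi, Finset.mem_filter]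
          exact ⟨hn, by tauto⟩
        have hzZ : z ∈ Z := by
          by_contra hzz
          rw [hout z hzz] at hzM
          exact absurd hzM (Finset.notMem_empty _)
        exact Finset.mem_biUnion.2 ⟨z, hzZ, hzM⟩
    have h1 : 2 ^ (k * a.V ρ) ≤ G.card + b.V Rm * m0 := by
      rw [← hcard, ← Finset.card_powerset]
      calc Ω.powerset.card ≤ (G ∪ Z.biUnion (Mi Ω (cc ψ X))).card := Finset.card_le_card hcov
        _ ≤ G.card + (Z.biUnion (Mi Ω (cc ψ X))).card := Finset.card_union_le _ _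
        _ ≤ G.card + b.V Rm * m0 := by
            apply Nat.add_le_add_left
            rw [← hZcard]
            exact Finset.card_biUnion_le_card_mul _ _ _ (fun z _ => (hc z).le)
    have h2 : G.card ≤ a.wr.V K * Z.card := by
      apply Finset.card_le_mul_card_image_of_maps_to (f := fun n => pp ψ X n)
      · intro n hn
        rw [← hG, Finset.mem_filter, Finset.mem_powerset] at hn
        apply hZmem
        exact (h.pos X (lamp n)).trans (hkap n hn.1)
      · intro p _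
        rcases (G.filter (fun n => pp ψ X n = p)).eq_empty_or_nonempty with he | ⟨n0, hn0⟩
        · rw [he, Finset.card_empty]
          exact Nat.zero_le _
        · refine h.fib_cube X ⟨cc ψ X n0, p⟩ _ ?_
          intro n hn
          rw [Finset.mem_filter, ← hG, Finset.mem_filter] at hn hn0
          refine ⟨?_, hn.2⟩
          ext z
          rw [hn.1.2 z, hn0.1.2 z]
    rw [hZcard] at h2
    have h3 : b.V Rm * (m0 + a.wr.V K) = a.wr.V K * b.V Rm + b.V Rm * m0 := by ring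
    omega
  obtain ⟨z, hz⟩ := hclaim
  refine ⟨z, ?_⟩
  have hC : Cube b Ω (K * (2 * (k * (2 * ρ + 1)) + 1)) (cc ψ X) (pp ψ X) :=
    h.cube X Ω (k * (2 * ρ + 1)) _ (fun x hx => tube_len hγ ρ k x (by rw [hΩ]; exact hx)) le_rfl
  have hw : ∀ n n', n ⊆ Ω → n' ⊆ Ω → (n ∆ n').card < hh →
      b.len ((pp ψ X n)⁻¹ * pp ψ X n') ≤ K * (2 * (k * (2 * ρ + 1)) + (2 * ρ + 1) * hh) := by
    intro n n' hn hn' hlt
    have e : X * lamp n' = X * lamp n * lamp (n ∆ n') := by
      rw [mul_assoc, ← LL.lamp_symmDiff, symmDiff_symmDiff_cancel_left]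
    have h1 : b.len ((ψ (X * lamp n)).q⁻¹ * (ψ (X * lamp n * lamp (n ∆ n'))).q)
        ≤ K * a.wr.len (lamp (n ∆ n')) := h.pos (X * lamp n) (lamp (n ∆ n'))
    rw [← e] at h1
    refine h1.trans (Nat.mul_le_mul_left _ ?_)
    have hsub : n ∆ n' ⊆ tube a γ ρ k := by
      rw [hΩ]
      intro x hx
      rw [Finset.mem_symmDiff] at hx
      rcases hx with hx | hx
      · exact hn hx.1
      · exact hn' hx.1
    have h2 : a.kap (n ∆ n') ≤ 2 * (k * (2 * ρ + 1)) + (2 * ρ + 1) * (n ∆ n').card :=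
      kap_tube_card hγ ρ k (n ∆ n') hsub
    exact h2.trans (Nat.add_le_add_left (Nat.mul_le_mul_left _ hlt.le) _)
  have hfin := loc_big b Ω _ (cc ψ X) (pp ψ X) hC z m0 hh _
    (hz.trans (mi_le_S1 Ω (cc ψ X) z)) (hz.trans (mi_le_S0 Ω (cc ψ X) z)) hw
  rw [hcard] at hfin
  exact hfin

end LQ

end
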