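import Pool.Agent.Lib.LQ.Basic

/-
NetNum (library LQ, MP_9bf8b0_al).
Choice of parameters.  q := 2 ρ + 1, V := a.V ρ, N := 2^j V.
(a) a is not of linear growth: for every C there is ρ with a.V ρ > C (ρ + 1), so V / q can be made as large as we like: choose ρ with 8 nu q <= V and
4 K q / V <= η / 4.
(b) F : ℕ large (depending on K, q, η): K q / F <= η / 4.  E := 2 F^2.  hh := N / F + 1 (natural division), so hh >= N / F (real) and
K q hh <= K q N / F + K q <= (η/4) N + K q.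
r := K (2 (2^j q) + q hh) + K (2 (2^j q) + 1) = 4 K 2^j q + K q hh + K <= (η/4) N + (η/4) N + K q + K <= η N for N large.
(c) b subexponential: for N large b.V (3 K q N) <= 2^(N/(2E)) roughly: apply hsub with ε := log 2 / (3 K q * 2 E) (real), so b.V (3 K q N) <= exp(N log 2/(2 E)) = 2^(N/(2E)) (real power).
m0 := a natural number with 2^(N - N/E)/2 <= m0 <= 2^(N - N/E) (real powers; e.g. floor), m0 >= 1 for N large.
Then b.V * (m0 + V_W K) <= 2^(N - N/(2E)) + c 2^(N/(2E)) < 2^N.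
(d) exp(-hh^2/N) <= exp(-N/F^2) <= 2^(-N/F^2) = 2^(-2N/E).  2 * 4^N * exp(..) <= 2 * 2^(2N - 2N/E); so it is <= D m0 if D >= 4 * 2^(N - N/E): D := that rounded up.
(e) 4 (2 l N + 1) D <= 2^N for N large because D / 2^N decays exponentially in N/E and 2 l N + 1 is polynomial in N (l = K(2 2^j q + 1) <= 3 K q N).
(f) r <= 3 K q N (or r <= η N, η may be assumed <= 1), so b.V r <= 2^(N/(2E)) <= 2^(N/8); b.wr.V (K (N/nu)) <= 2^(mu K N/nu) <= 2^(N/4) (hnu, V_le_pow); so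
2 * V_W K * (..) < 2^N for N large.
N >= 2^j, so N large means j >= j0.  Also 12 nu <= 2^j for j >= j0.
-/

set_option autoImplicit false

open Classical
open scoped Pointwise symmDiff

noncomputable section

namespace LQ

open LL

variable {A B : Type} [Group A] [Group B]

namespace NetNumAux

private theorem poly_exp (C : ℕ) : ∃ e0 : ℕ, ∀ e : ℕ, e0 ≤ e → C * (e + 1) ^ 2 ≤ 4 ^ e := by
  have h1 : ∀ e : ℕ, e + 1 ≤ 2 ^ e := fun e => Nat.lt_two_pow_self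
  -- `(e+1)^2 * C ≤ 4^e` via `e = 3 f + t`
  have ht := tendsto_pow_const_div_const_pow_of_one_lt 2 (show (1 : ℝ) < 4 by norm_num)
  have hev : ∀ᶠ n : ℕ in Filter.atTop, ((n : ℝ) ^ 2 / (4 : ℝ) ^ n) < 1 / (4 * (C + 1)) := by
    apply (tendsto_order.1 ht).2
    positivity
  obtain ⟨e0, he0⟩ := Filter.eventually_atTop.1 hev
  refine ⟨e0, fun e he => ?_⟩
  have h2 := he0 (e + 1) (by omega)
  have hpos : (0 : ℝ) < (4 : ℝ) ^ (e + 1) := by positivity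
  rw [div_lt_iff₀ hpos] at h2
  have h3 : ((C * (e + 1) ^ 2 : ℕ) : ℝ) ≤ ((4 ^ e : ℕ) : ℝ) := by
    push_cast
    push_cast at h2
    have hC : (0 : ℝ) < 4 * ((C : ℝ) + 1) := by positivity
    have h4 : 4 * ((C : ℝ) + 1) * ((e : ℝ) + 1) ^ 2 < 4 ^ (e + 1) := by
      have := mul_lt_mul_of_pos_left h2 hC
      calc 4 * ((C : ℝ) + 1) * ((e : ℝ) + 1) ^ 2
          < 4 * ((C : ℝ) + 1) * (1 / (4 * ((C : ℝ) + 1)) * 4 ^ (e + 1)) := this
        _ = 4 ^ (e + 1) := by field_simp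
    rw [pow_succ (4 : ℝ) e] at h4
    nlinarith [sq_nonneg ((e : ℝ) + 1)]
  exact_mod_cast h3

private theorem sub_bd (b : NG B) (hsub : Subexp b) (M G : ℕ) (hM : 1 ≤ M) (hG : 1 ≤ G) :
    ∃ N1 : ℕ, ∀ N : ℕ, N1 ≤ N → b.V (M * N) ≤ 2 ^ (N / G) := by
  have hl2 : (0 : ℝ) < Real.log 2 := Real.log_pos (by norm_num)
  have hM' : (0 : ℝ) < (M : ℝ) := by exact_mod_cast hM
  have hG' : (0 : ℝ) < (G : ℝ) := by exact_mod_cast hG
  obtain ⟨r0, hr0⟩ := hsub (Real.log 2 / (M * (2 * G))) (by positivity)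
  refine ⟨r0 + 2 * G, fun N hN => ?_⟩
  have h1 := hr0 (M * N) (by nlinarith)
  have h2 : Real.exp (Real.log 2 / (M * (2 * G)) * ((M * N : ℕ) : ℝ)) ≤ (2 : ℝ) ^ (N / G) := by
    have h3 : Real.log 2 / (M * (2 * G)) * ((M * N : ℕ) : ℝ) ≤ (N / G : ℕ) * Real.log 2 := by
      have h4 : Real.log 2 / (M * (2 * G)) * ((M * N : ℕ) : ℝ) = (N : ℝ) / (2 * G) * Real.log 2 := by
        push_cast
        field_simp
      rw [h4]
      apply mul_le_mul_of_nonneg_right _ hl2.le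
      rw [div_le_iff₀ (by positivity)]
      have h5 : N ≤ (N / G) * (2 * G) := by
        have h6 : N < (N / G + 1) * G := by
          have := Nat.lt_div_mul_add (a := N) (b := G) (by omega)
          nlinarith
        have h7 : 1 ≤ N / G := (Nat.le_div_iff_mul_le (by omega)).2 (by omega)
        nlinarith
      exact_mod_cast h5
    calc Real.exp (Real.log 2 / (M * (2 * G)) * ((M * N : ℕ) : ℝ))
        ≤ Real.exp ((N / G : ℕ) * Real.log 2) := Real.exp_le_exp.2 h3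
      _ = (2 : ℝ) ^ (N / G) := by
          rw [Real.exp_nat_mul, Real.exp_log (by norm_num)]
  have h8 : (b.V (M * N) : ℝ) ≤ ((2 ^ (N / G) : ℕ) : ℝ) := by
    push_cast
    exact h1.trans h2
  exact_mod_cast h8

private theorem exp_bd (N F e hh : ℕ) (hN : 1 ≤ N) (hF : 1 ≤ F) (he : 4 * F ^ 2 * e ≤ N)
    (hh1 : N ≤ hh * F) : 4 ^ N * Real.exp (-((hh : ℝ) ^ 2 / (N : ℝ))) ≤ 4 ^ (N - 2 * e) := by
  have hN' : (0 : ℝ) < (N : ℝ) := by exact_mod_cast hN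
  have hF' : (0 : ℝ) < (F : ℝ) := by exact_mod_cast hF
  have h1 : (4 * (e : ℝ)) ≤ (hh : ℝ) ^ 2 / (N : ℝ) := by
    rw [le_div_iff₀ hN']
    have h2 : (N : ℝ) ≤ hh * F := by exact_mod_cast hh1
    have h3 : 4 * (F : ℝ) ^ 2 * e ≤ N := by exact_mod_cast he
    have h4 : (N : ℝ) ^ 2 ≤ (hh : ℝ) ^ 2 * (F : ℝ) ^ 2 := by
      rw [← mul_pow]
      exact pow_le_pow_left₀ hN'.le h2 2
    have h5 : 4 * (F : ℝ) ^ 2 * e * N ≤ (hh : ℝ) ^ 2 * (F : ℝ) ^ 2 := by nlinarith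
    have hF2 : (0 : ℝ) < (F : ℝ) ^ 2 := by positivity
    have h6 : (F : ℝ) ^ 2 * (4 * (e : ℝ) * N) ≤ (F : ℝ) ^ 2 * (hh : ℝ) ^ 2 := by nlinarith
    exact le_of_mul_le_mul_left h6 hF2
  have h7 : Real.exp (-((hh : ℝ) ^ 2 / (N : ℝ))) ≤ ((4 : ℝ) ^ (2 * e))⁻¹ := by
    have h8 : (4 : ℝ) ^ (2 * e) ≤ Real.exp (4 * (e : ℝ)) := by
      have h9 : Real.exp (4 * (e : ℝ)) = (Real.exp 1 ^ 4) ^ e := by
        rw [← pow_mul, ← Real.exp_nat_mul]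
        push_cast
        ring_nf
      rw [h9, pow_mul]
      apply pow_le_pow_left₀ (by norm_num)
      have h10 := Real.add_one_le_exp (1 : ℝ)
      nlinarith [pow_le_pow_left₀ (by norm_num : (0:ℝ) ≤ 2) (by linarith : (2:ℝ) ≤ Real.exp 1) 4]
    rw [Real.exp_neg]
    apply inv_anti₀ (by positivity)
    exact h8.trans (Real.exp_le_exp.2 h1)
  have h11 : 2 * e ≤ N := by
    have : 2 * e ≤ 4 * F ^ 2 * e := by
      apply Nat.mul_le_mul_right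
      nlinarith [Nat.one_le_pow 2 F hF]
    omega
  calc (4 : ℝ) ^ N * Real.exp (-((hh : ℝ) ^ 2 / (N : ℝ))) ≤ 4 ^ N * ((4 : ℝ) ^ (2 * e))⁻¹ := by
        apply mul_le_mul_of_nonneg_left h7 (by positivity)
    _ = 4 ^ (N - 2 * e) := by
        rw [← div_eq_mul_inv, div_eq_iff (by positivity), ← pow_add, Nat.sub_add_cancel h11]

private theorem core (a : NG A) (b : NG B) (K mu nu q : ℕ) (hq : 1 ≤ q) (hK : 1 ≤ K)
    (h3 : b.wr.V 1 ≤ 2 ^ mu) (hnu : 4 * mu * K ≤ nu) (hsub : Subexp b)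
    (η : ℝ) (hη : 0 < η) :
    ∃ N0 : ℕ, ∀ N : ℕ, N0 ≤ N → ∀ S : ℕ, 8 * S ≤ N → 16 * (K : ℝ) * S ≤ η * N →
      ∃ m0 hh D : ℕ, 1 ≤ m0 ∧
      b.V (3 * (K * (q * N))) * (m0 + a.wr.V K) < 2 ^ N ∧
      ((K * (2 * S + q * hh) + K * (2 * S + 1) : ℕ) : ℝ) ≤ η * (N : ℝ) ∧
      2 * 4 ^ N * Real.exp (-((hh : ℝ) ^ 2 / (N : ℝ))) ≤ (D : ℝ) * m0 ∧
      4 * ((2 * (K * (2 * S + 1)) * N + 1) * D) ≤ 2 ^ N ∧
      2 * (a.wr.V K * (b.V (K * (2 * S + q * hh) + K * (2 * S + 1)) * b.wr.V (K * (N / nu)))) < 2 ^ N := by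
  have hK' : (1 : ℝ) ≤ (K : ℝ) := by exact_mod_cast hK
  have hq' : (1 : ℝ) ≤ (q : ℝ) := by exact_mod_cast hq
  -- choice of `F`
  obtain ⟨F, hF2, hFη⟩ : ∃ F : ℕ, 2 ≤ F ∧ 4 * ((K : ℝ) * q) ≤ η * F := by
    obtain ⟨F, hF⟩ := exists_nat_ge (4 * ((K : ℝ) * q) / η)
    refine ⟨F + 2, by omega, ?_⟩
    rw [div_le_iff₀ hη] at hF
    push_cast
    nlinarith
  set G : ℕ := 4 * F ^ 2 with hG
  have hG16 : 16 ≤ G := by
    rw [hG]; nlinarith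
  set c : ℕ := a.wr.V K with hc
  obtain ⟨N1, hN1⟩ := sub_bd b hsub (3 * (K * q)) G (by nlinarith [Nat.mul_pos hK hq]) (by omega)
  obtain ⟨e0, he0⟩ := poly_exp (8 * (6 * K * G ^ 2 + 1))
  obtain ⟨N2, hN2⟩ := exists_nat_ge (2 * ((K : ℝ) * q + K) / η)
  refine ⟨N1 + (e0 + 1) * G + N2 + (4 * c + 16), fun N hN S hS hSη => ?_⟩
  have hNG : (e0 + 1) * G ≤ N := by omega
  set e : ℕ := N / G with he
  have he1 : e0 + 1 ≤ e := (Nat.le_div_iff_mul_le (by omega)).2 hNG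
  have heN : G * e ≤ N := Nat.mul_div_le N G
  have hNe : N < G * (e + 1) := by
    have := Nat.lt_div_mul_add (a := N) (b := G) (by omega)
    nlinarith
  have hee : 16 * e ≤ N := (Nat.mul_le_mul_right e hG16).trans heN
  have hc2 : 4 * c + 16 ≤ N := by omega
  have hcl : c < 2 ^ c := Nat.lt_two_pow_self
  have hbV : b.V (3 * (K * (q * N))) ≤ 2 ^ e := by
    have := hN1 N (by omega)
    rwa [show 3 * (K * q) * N = 3 * (K * (q * N)) by ring] at this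
  have hN2' : (K : ℝ) * q + K ≤ η / 2 * N := by
    have h1 : (N2 : ℝ) ≤ N := by exact_mod_cast (by omega : N2 ≤ N)
    have h2 := hN2.trans h1
    rw [div_le_iff₀ hη] at h2
    nlinarith
  have hhF : N ≤ (N / F + 1) * F := by
    have := Nat.lt_div_mul_add (a := N) (b := F) (by omega)
    nlinarith
  refine ⟨2 ^ (N - 2 * e), N / F + 1, 2 ^ (N - 2 * e + 1), Nat.one_le_two_pow, ?_, ?_, ?_, ?_, ?_⟩
  · have h1 : 2 ^ e * (2 ^ (N - 2 * e) + c) < 2 ^ N := by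
      have h2 : 2 ^ e * 2 ^ (N - 2 * e) ≤ 2 ^ (N - 1) := by
        rw [← pow_add]
        exact Nat.pow_le_pow_right (by norm_num) (by omega)
      have h4 : 2 ^ e * c < 2 ^ (N - 1) := by
        calc 2 ^ e * c < 2 ^ e * 2 ^ c := Nat.mul_lt_mul_of_pos_left hcl (by positivity)
          _ = 2 ^ (e + c) := (pow_add _ _ _).symm
          _ ≤ 2 ^ (N - 1) := Nat.pow_le_pow_right (by norm_num) (by omega)
      have h5 : 2 ^ (N - 1) + 2 ^ (N - 1) = 2 ^ N := by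
        rw [← two_mul, ← pow_succ', Nat.sub_add_cancel (by omega)]
      rw [mul_add]
      omega
    exact (Nat.mul_le_mul_right _ hbV).trans_lt h1
  · have hdiv : ((N / F : ℕ) : ℝ) ≤ (N : ℝ) / F := Nat.cast_div_le
    have hFpos : (0 : ℝ) < (F : ℝ) := by
      have : 0 < F := by omega
      exact_mod_cast this
    have h1 : (K : ℝ) * q * ((N : ℝ) / F) ≤ η / 4 * N := by
      rw [mul_div_assoc', div_le_iff₀ hFpos]
      have hN0 : (0 : ℝ) ≤ (N : ℝ) := Nat.cast_nonneg N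
      nlinarith
    have h2 : (K : ℝ) * q * ((N / F : ℕ) : ℝ) ≤ η / 4 * N :=
      (mul_le_mul_of_nonneg_left hdiv (by positivity)).trans h1
    push_cast
    nlinarith
  · have h1 := exp_bd N F e (N / F + 1) (by omega) (by omega) (by rw [← hG]; exact heN) hhF
    have h2 : (2 : ℝ) * 4 ^ (N - 2 * e) = ((2 ^ (N - 2 * e + 1) : ℕ) : ℝ) * ((2 ^ (N - 2 * e) : ℕ) : ℝ) := by
      push_cast
      rw [show (4 : ℝ) = 2 * 2 by norm_num, mul_pow, pow_succ]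
      ring
    rw [← h2, mul_assoc]
    exact mul_le_mul_of_nonneg_left h1 (by norm_num)
  · have h1 := he0 e (by omega)
    have h2 : 8 * (2 * (K * (2 * S + 1)) * N + 1) ≤ 8 * (6 * K * G ^ 2 + 1) * (e + 1) ^ 2 := by
      have h4 : 2 * S + 1 ≤ 3 * N := by omega
      have h5 : 2 * (K * (2 * S + 1)) * N ≤ 6 * K * (G * (e + 1)) ^ 2 := by
        calc 2 * (K * (2 * S + 1)) * N ≤ 2 * (K * (3 * N)) * N := by gcongr
          _ = 6 * K * N ^ 2 := by ring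
          _ ≤ 6 * K * (G * (e + 1)) ^ 2 := by
            gcongr
      have h6 : 1 ≤ (e + 1) ^ 2 := Nat.one_le_pow _ _ (by omega)
      calc 8 * (2 * (K * (2 * S + 1)) * N + 1) ≤ 8 * (6 * K * (G * (e + 1)) ^ 2 + (e + 1) ^ 2) := by
            gcongr
        _ = 8 * (6 * K * G ^ 2 + 1) * (e + 1) ^ 2 := by ring
    have h7 : 8 * (2 * (K * (2 * S + 1)) * N + 1) ≤ 4 ^ e := h2.trans h1
    calc 4 * ((2 * (K * (2 * S + 1)) * N + 1) * 2 ^ (N - 2 * e + 1))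
        = 8 * (2 * (K * (2 * S + 1)) * N + 1) * 2 ^ (N - 2 * e) := by
          rw [pow_succ]; ring
      _ ≤ 4 ^ e * 2 ^ (N - 2 * e) := Nat.mul_le_mul_right _ h7
      _ = 2 ^ N := by
          rw [show (4 : ℕ) = 2 ^ 2 by norm_num, ← pow_mul, ← pow_add]
          congr 1
          omega
  · have hr : K * (2 * S + q * (N / F + 1)) + K * (2 * S + 1) ≤ 3 * (K * (q * N)) := by
      have h1 : 2 * S + q * (N / F + 1) + (2 * S + 1) ≤ 3 * (q * N) := by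
        have h2 : N / F + 1 ≤ N := by
          have : N / F ≤ N / 2 := Nat.div_le_div_left hF2 (by norm_num)
          omega
        have h4 : q * (N / F + 1) ≤ q * N := Nat.mul_le_mul_left q h2
        have h5 : N ≤ q * N := Nat.le_mul_of_pos_left N hq
        omega
      calc K * (2 * S + q * (N / F + 1)) + K * (2 * S + 1)
          = K * (2 * S + q * (N / F + 1) + (2 * S + 1)) := by ring
        _ ≤ K * (3 * (q * N)) := Nat.mul_le_mul_left K h1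
        _ = 3 * (K * (q * N)) := by ring
    have h1 : b.V (K * (2 * S + q * (N / F + 1)) + K * (2 * S + 1)) ≤ 2 ^ e := (b.V_mono hr).trans hbV
    have h2 : b.wr.V (K * (N / nu)) ≤ 2 ^ (N / 4) := by
      calc b.wr.V (K * (N / nu)) ≤ b.wr.V 1 ^ (K * (N / nu)) := b.wr.V_le_pow _
        _ ≤ (2 ^ mu) ^ (K * (N / nu)) := Nat.pow_le_pow_left h3 _
        _ = 2 ^ (mu * (K * (N / nu))) := (pow_mul _ _ _).symm
        _ ≤ 2 ^ (N / 4) := by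
          apply Nat.pow_le_pow_right (by norm_num)
          rw [Nat.le_div_iff_mul_le (by norm_num)]
          calc mu * (K * (N / nu)) * 4 = (4 * mu * K) * (N / nu) := by ring
            _ ≤ nu * (N / nu) := Nat.mul_le_mul_right _ hnu
            _ ≤ N := Nat.mul_div_le N nu
    calc 2 * (c * (b.V (K * (2 * S + q * (N / F + 1)) + K * (2 * S + 1)) * b.wr.V (K * (N / nu))))
        ≤ 2 * (c * (2 ^ e * 2 ^ (N / 4))) := by gcongr
      _ < 2 * (2 ^ c * (2 ^ e * 2 ^ (N / 4))) := by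
          have : 0 < 2 ^ e * 2 ^ (N / 4) := by positivity
          have := Nat.mul_lt_mul_of_pos_right hcl this
          omega
      _ = 2 ^ (c + (e + N / 4) + 1) := by
          rw [pow_succ, pow_add, pow_add]; ring
      _ ≤ 2 ^ N := Nat.pow_le_pow_right (by norm_num) (by omega)

end NetNumAux

theorem net_num (a : NG A) (b : NG B) (K mu nu : ℕ) (hK : 1 ≤ K) (hmu : 1 ≤ mu)
    (h3 : b.wr.V 1 ≤ 2 ^ mu) (hnu : 4 * mu * K ≤ nu) (hlin : ¬ Linear a) (hsub : Subexp b)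
    (η : ℝ) (hη : 0 < η) :
    ∃ ρ j0 : ℕ, 8 * nu * (2 * ρ + 1) ≤ a.V ρ ∧ ∀ j : ℕ, j0 ≤ j → 12 * nu ≤ 2 ^ j ∧
      ∃ m0 hh D : ℕ, 1 ≤ m0 ∧
      b.V (3 * (K * ((2 * ρ + 1) * (2 ^ j * a.V ρ)))) * (m0 + a.wr.V K) < 2 ^ (2 ^ j * a.V ρ) ∧
      ((K * (2 * (2 ^ j * (2 * ρ + 1)) + (2 * ρ + 1) * hh) + K * (2 * (2 ^ j * (2 * ρ + 1)) + 1) : ℕ) : ℝ)
        ≤ η * ((2 ^ j * a.V ρ : ℕ) : ℝ) ∧
      2 * 4 ^ (2 ^ j * a.V ρ) * Real.exp (-((hh : ℝ) ^ 2 / ((2 ^ j * a.V ρ : ℕ) : ℝ))) ≤ (D : ℝ) * m0 ∧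
      4 * ((2 * (K * (2 * (2 ^ j * (2 * ρ + 1)) + 1)) * (2 ^ j * a.V ρ) + 1) * D)
        ≤ 2 ^ (2 ^ j * a.V ρ) ∧
      2 * (a.wr.V K * (b.V (K * (2 * (2 ^ j * (2 * ρ + 1)) + (2 * ρ + 1) * hh)
          + K * (2 * (2 ^ j * (2 * ρ + 1)) + 1)) * b.wr.V (K * (2 ^ j * a.V ρ / nu))))
        < 2 ^ (2 ^ j * a.V ρ) := by
  have hK' : (1 : ℝ) ≤ (K : ℝ) := by exact_mod_cast hK
  obtain ⟨C0, hC0⟩ := exists_nat_ge (32 * (K : ℝ) / η)
  obtain ⟨ρ, hρ⟩ : ∃ ρ : ℕ, (C0 + 16 * nu) * (ρ + 1) < a.V ρ := by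
    by_contra hc
    push Not at hc
    exact hlin ⟨C0 + 16 * nu, hc⟩
  have hV1 : 8 * nu * (2 * ρ + 1) ≤ a.V ρ := by nlinarith
  have hnu1 : 1 ≤ nu := by
    have : 1 ≤ 4 * mu * K := Nat.mul_pos (Nat.mul_pos (by norm_num) hmu) hK
    omega
  have hV2 : 8 * (2 * ρ + 1) ≤ a.V ρ := by nlinarith
  have hV3 : 16 * (K : ℝ) * ((2 * ρ + 1 : ℕ) : ℝ) ≤ η * (a.V ρ : ℝ) := by
    have h1 : ((C0 : ℝ) + 16 * nu) * ((ρ : ℝ) + 1) < (a.V ρ : ℝ) := by exact_mod_cast hρ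
    have h2 : 32 * (K : ℝ) ≤ C0 * η := by rwa [div_le_iff₀ hη] at hC0
    have hρ0 : (0 : ℝ) ≤ (ρ : ℝ) := Nat.cast_nonneg ρ
    have hnu0 : (0 : ℝ) ≤ (nu : ℝ) := Nat.cast_nonneg nu
    have h4 : 32 * (K : ℝ) * ((ρ : ℝ) + 1) ≤ C0 * η * ((ρ : ℝ) + 1) :=
      mul_le_mul_of_nonneg_right h2 (by linarith)
    have h5 : η * (((C0 : ℝ) + 16 * nu) * ((ρ : ℝ) + 1)) ≤ η * (a.V ρ : ℝ) :=
      mul_le_mul_of_nonneg_left h1.le hη.le
    have h6 : 0 ≤ η * (16 * (nu : ℝ) * ((ρ : ℝ) + 1)) := by positivity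
    push_cast
    nlinarith
  obtain ⟨N0, hN0⟩ := NetNumAux.core a b K mu nu (2 * ρ + 1) (by omega) hK h3 hnu hsub η hη
  refine ⟨ρ, N0 + 12 * nu, hV1, fun j hj => ⟨?_, ?_⟩⟩
  · have : j < 2 ^ j := Nat.lt_two_pow_self
    omega
  · have hj2 : j < 2 ^ j := Nat.lt_two_pow_self
    have hVp : 1 ≤ a.V ρ := a.V_pos ρ
    have hN : N0 ≤ 2 ^ j * a.V ρ := by nlinarith
    have hS1 : 8 * (2 ^ j * (2 * ρ + 1)) ≤ 2 ^ j * a.V ρ := by
      calc 8 * (2 ^ j * (2 * ρ + 1)) = 2 ^ j * (8 * (2 * ρ + 1)) := by ring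
        _ ≤ 2 ^ j * a.V ρ := Nat.mul_le_mul_left _ hV2
    have hS2 : 16 * (K : ℝ) * ((2 ^ j * (2 * ρ + 1) : ℕ) : ℝ) ≤ η * ((2 ^ j * a.V ρ : ℕ) : ℝ) := by
      rw [Nat.cast_mul, Nat.cast_mul]
      have h1 : (0 : ℝ) ≤ ((2 ^ j : ℕ) : ℝ) := Nat.cast_nonneg _
      calc 16 * (K : ℝ) * (((2 ^ j : ℕ) : ℝ) * ((2 * ρ + 1 : ℕ) : ℝ))
          = ((2 ^ j : ℕ) : ℝ) * (16 * (K : ℝ) * ((2 * ρ + 1 : ℕ) : ℝ)) := by ring
        _ ≤ ((2 ^ j : ℕ) : ℝ) * (η * (a.V ρ : ℝ)) := mul_le_mul_of_nonneg_left hV3 h1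
        _ = η * (((2 ^ j : ℕ) : ℝ) * (a.V ρ : ℝ)) := by ring
    exact hN0 (2 ^ j * a.V ρ) hN (2 ^ j * (2 * ρ + 1)) hS1 hS2

end LQ

end
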