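import Pool.Agent.Lib.LQ.Basic

/-!
Existence of a geodesic ray in an infinite group (library LQ, MP_9bf8b0_al).
-/

set_option autoImplicit false

open Classical
open scoped Pointwise symmDiff

noncomputable section

namespace LQ

open LL

variable {A : Type} [Group A]

namespace RayExAux

theorem geod (a : NG A) : ∀ (n : ℕ) (x : A), a.len x = n → ∃ g : ℕ → A, g 0 = 1 ∧ g n = x ∧
    ∀ i j, i ≤ j → j ≤ n → a.len ((g i)⁻¹ * g j) = j - i := by
  intro n
  induction n with
  | zero =>
    intro x hx
    refine ⟨fun _ => 1, rfl, (a.eq_one x hx).symm, ?_⟩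
    intro i j _ hj
    have : j = 0 := by omega
    subst this
    simp [a.len_one]
  | succ n ih =>
    intro x hx
    obtain ⟨y, t, hxy, hy, ht⟩ := a.split x n hx
    obtain ⟨g, h0, hn, hg⟩ := ih y hy
    refine ⟨fun i => if i ≤ n then g i else x, by simp [h0], by simp, ?_⟩
    intro i j hij hj
    by_cases hjn : j ≤ n
    · have hin : i ≤ n := hij.trans hjn
      simp only [hjn, hin, if_true]
      exact hg i j hij hjn
    · have hj' : j = n + 1 := by omega
      subst hj'
      by_cases hin : i ≤ n
      · simp only [hin, if_true, hjn, if_false]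
        have h1 : a.len ((g i)⁻¹ * y) = n - i := by rw [← hn]; exact hg i n hin le_rfl
        have h2 : a.len ((g i)⁻¹ * x) ≤ (n - i) + 1 := by
          have h3 : (g i)⁻¹ * x = ((g i)⁻¹ * y) * t := by rw [hxy, mul_assoc]
          rw [h3]
          exact (a.len_mul _ _).trans (by omega)
        have h4 : a.len (g i) = i := by
          have := hg 0 i (Nat.zero_le _) hin
          rw [h0, inv_one, one_mul] at this
          omega
        have h5 : n + 1 ≤ i + a.len ((g i)⁻¹ * x) := by
          have h6 : x = g i * ((g i)⁻¹ * x) := by group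
          have h7 := a.len_mul (g i) ((g i)⁻¹ * x)
          rw [← h6, hx, h4] at h7
          exact h7
        omega
      · have hi' : i = n + 1 := by omega
        subst hi'
        simp [a.len_one]

end RayExAux

open RayExAux in
theorem exists_ray [Infinite A] (a : NG A) : ∃ γ : ℕ → A, Ray a γ := by
  choose x hx using fun n => a.exists_len_eq n
  choose g h0 _ hg using fun n => geod a n (x n) (hx n)
  set U : Ultrafilter ℕ := Filter.hyperfilter ℕ with hU
  have hge : ∀ i : ℕ, ∀ᶠ n in (U : Filter ℕ), i ≤ n := by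
    intro i
    have h1 : (Filter.cofinite : Filter ℕ).Eventually (fun n => i ≤ n) := by
      rw [Nat.cofinite_eq_atTop]
      exact Filter.eventually_ge_atTop i
    exact Filter.hyperfilter_le_cofinite h1
  have hval : ∀ i : ℕ, ∃ v : A, ∀ᶠ n in (U : Filter ℕ), g n i = v := by
    intro i
    have h1 : (⋃ v ∈ ((a.ball i : Finset A) : Set A), {n | g n i = v}) ∈ U := by
      have h2 := hge i
      change {n | i ≤ n} ∈ (U : Filter ℕ) at h2
      refine Filter.mem_of_superset h2 ?_
      intro n hn
      have h3 := hg n 0 i (Nat.zero_le _) hn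
      rw [h0, inv_one, one_mul] at h3
      rw [Set.mem_iUnion₂]
      refine ⟨g n i, ?_, rfl⟩
      rw [Finset.mem_coe, a.mem_ball]
      omega
    obtain ⟨v, _, hv⟩ := (Ultrafilter.finite_biUnion_mem_iff (a.ball i).finite_toSet).1 h1
    exact ⟨v, hv⟩
  choose γ hγ using hval
  refine ⟨γ, ?_, ?_⟩
  · obtain ⟨n, hn⟩ := (hγ 0).exists
    rw [← hn, h0]
  · intro i j hij
    obtain ⟨n, ⟨hn1, hn2⟩, hn3⟩ := (((hγ i).and (hγ j)).and (hge j)).exists
    rw [← hn1, ← hn2]
    exact hg n i j hij hn3

end LQ

end
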