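import Pool.Agent.Lib.LQ.Engine
import Pool.Agent.Lib.LQ.NetDec
import Pool.Agent.Lib.LQ.NetLoc
import Pool.Agent.Lib.LQ.NetNum
import Pool.Agent.Lib.LQ.RayEx

/-
Module NetDrift (library LQ, MP_9bf8b0_al).
Proof.  Let η0 > 0.  mu >= 1 with b.wr.V 1 <= 2^mu, nu := 4 mu K >= 1.  η' := η0 / (6 nu (48 nu + 3)), γ a ray (exists_ray), net_num with η' gives ρ, j0.
For i : ℕ put j := j0 + i, Ω i := tube a γ ρ (2^j), card = 2^j V (tube_card), s i := 2^j q (tube_len), m0, hh, D from net_num, r i := K (2 (2^j q) + q hh) + K (2 (2^j q) + 1),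
J i := 12 nu, Lam := 2, η := (48 nu + 3) η', C := 0.
Scales: mono: tube_mono; grow: 2^(j+1) V = 2 (2^j V); unb: V >= 1; rad; loc: net_loc and net_num: #bad * m0 <= 2 4^N exp <= D m0 and m0 >= 1, so #bad <= D;
dec: net_dec; n1, n2: net_num (l = K (2 s + 1)).
n3: r i <= η' N_i and l i := K (2 s i + 1) <= r i <= η' N_i; N_{i+1} = 2 N_i, so each term 2 (12 nu) (r i + l i) + r i + r (i+1) <= (48 nu + 3) η' N_i, and
∑_{i<j} N_i <= N_j (N_i = 2^i N_0).  n4: 2 (r + l) <= 4 η' N <= η N.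
engine: drift constant 3 η Lam nu = 6 nu (48 nu + 3) η' = η0.
-/

set_option autoImplicit false

open Classical
open scoped Pointwise symmDiff

noncomputable section

namespace LQ

open LL

variable {A B : Type} [Group A] [Group B] {a : NG A} {b : NG B} {K : ℕ} {ψ : LL A → LL B}

theorem drift_net [Infinite A] (h : QD a b K ψ) (hlin : ¬ Linear a) (hsub : Subexp b) : Drift a b ψ := by
  intro η0 hη0
  obtain ⟨mu, hmu1, hmu⟩ : ∃ mu : ℕ, 1 ≤ mu ∧ b.wr.V 1 ≤ 2 ^ mu :=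
    ⟨b.wr.V 1, b.wr.V_pos 1, Nat.lt_two_pow_self.le⟩
  obtain ⟨nu, hnu⟩ : ∃ nu : ℕ, nu = 4 * mu * K := ⟨_, rfl⟩
  have hnu1 : 1 ≤ nu := by
    rw [hnu]
    have := h.kpos
    nlinarith
  have hnuR : (1 : ℝ) ≤ (nu : ℝ) := by exact_mod_cast hnu1
  obtain ⟨η', hη'⟩ : ∃ η' : ℝ, η' = η0 / (6 * nu * (48 * nu + 3)) := ⟨_, rfl⟩
  have hden : (0 : ℝ) < 6 * nu * (48 * nu + 3) := by positivity
  have hη'0 : 0 < η' := by
    rw [hη']
    exact div_pos hη0 hden
  obtain ⟨γ, hγ⟩ := exists_ray a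
  obtain ⟨ρ, j0, hρ, hj⟩ := net_num a b K mu nu h.kpos hmu1 hmu hnu.ge hlin hsub η' hη'0
  have hi : ∀ i : ℕ, _ := fun i => hj (j0 + i) (Nat.le_add_right _ _)
  have h12 : ∀ i, 12 * nu ≤ 2 ^ (j0 + i) := fun i => (hi i).1
  choose m0 hh D hm1 hV hr hD hn1 hn2 using fun i => (hi i).2
  have hcard : ∀ i, (tube a γ ρ (2 ^ (j0 + i))).card = 2 ^ (j0 + i) * a.V ρ := fun i => tube_card hγ ρ _
  have hVpos : 1 ≤ a.V ρ := a.V_pos ρ
  obtain ⟨N, hN⟩ : ∃ N : ℕ → ℕ, ∀ i, N i = 2 ^ (j0 + i) * a.V ρ := ⟨_, fun _ => rfl⟩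
  have hN2 : ∀ i, N (i + 1) = 2 * N i := by
    intro i
    rw [hN, hN, ← add_assoc, pow_succ]
    ring
  have hsum : ∀ j, (∑ i ∈ Finset.range j, (N i : ℝ)) ≤ N j := by
    intro j
    induction j with
    | zero => simp
    | succ j ih =>
      rw [Finset.sum_range_succ, hN2]
      push_cast
      linarith
  obtain ⟨r, hrdef⟩ : ∃ r : ℕ → ℕ, ∀ i, r i = K * (2 * (2 ^ (j0 + i) * (2 * ρ + 1)) + (2 * ρ + 1) * hh i)
      + K * (2 * (2 ^ (j0 + i) * (2 * ρ + 1)) + 1) := ⟨_, fun _ => rfl⟩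
  obtain ⟨s, hsdef⟩ : ∃ s : ℕ → ℕ, ∀ i, s i = 2 ^ (j0 + i) * (2 * ρ + 1) := ⟨_, fun _ => rfl⟩
  have hrN : ∀ i, (r i : ℝ) ≤ η' * N i := by
    intro i
    have := hr i
    rw [← hrdef i, ← hN i] at this
    exact this
  have hlr : ∀ i, K * (2 * s i + 1) ≤ r i := by
    intro i
    rw [hrdef, hsdef]
    exact Nat.le_add_left _ _
  have hlN : ∀ i, ((K * (2 * s i + 1) : ℕ) : ℝ) ≤ η' * N i := by
    intro i
    refine le_trans ?_ (hrN i)
    exact_mod_cast hlr i
  have hS : Scales a b K ψ nu 2 ((48 * nu + 3) * η') 0 (fun i => tube a γ ρ (2 ^ (j0 + i))) s r D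
      (fun _ => 12 * nu) := by
    refine ⟨hnu1, by positivity, ?_, ?_, ?_, ?_, ?_, ?_, ?_, ?_, ?_, ?_⟩
    · intro j
      exact tube_mono ρ (Nat.pow_le_pow_right (by norm_num) (by omega))
    · intro j
      rw [hcard, hcard, ← hN, ← hN, hN2]
    · intro n
      refine ⟨n, ?_⟩
      rw [hcard]
      calc n ≤ 2 ^ n := Nat.lt_two_pow_self.le
        _ ≤ 2 ^ (j0 + n) := Nat.pow_le_pow_right (by norm_num) (by omega)
        _ ≤ 2 ^ (j0 + n) * a.V ρ := Nat.le_mul_of_pos_right _ hVpos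
    · intro j x hx
      rw [hsdef]
      exact tube_len hγ ρ _ x hx
    · intro j X
      obtain ⟨z, hz⟩ := net_loc h hγ ρ (2 ^ (j0 + j)) (m0 j) (hh j) X (hV j)
      refine ⟨z, ?_⟩
      have hz2 := hz.trans (hD j)
      rw [← hrdef j] at hz2
      have hm0 : (0 : ℝ) < (m0 j : ℝ) := by exact_mod_cast hm1 j
      have hz3 := le_of_mul_le_mul_right hz2 hm0
      rw [Loc]
      exact_mod_cast hz3
    · intro j m hm
      rw [hcard]
      refine net_dec hγ ρ (j0 + j) nu hnu1 hρ (h12 j) m ?_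
      rw [add_assoc]
      exact hm
    · intro j
      rw [hcard, hsdef]
      exact hn1 j
    · intro j
      rw [hcard, hrdef]
      exact hn2 j
    · intro j
      rw [hcard, ← hN, add_zero]
      calc (∑ i ∈ Finset.range j,
          ((2 * (12 * nu) * (r i + K * (2 * s i + 1)) + r i + r (i + 1) : ℕ) : ℝ))
          ≤ ∑ i ∈ Finset.range j, ((48 * nu + 3) * η') * (N i : ℝ) := by
            apply Finset.sum_le_sum
            intro i _
            have a1 := hrN i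
            have a2 := hrN (i + 1)
            have a3 := hlN i
            rw [hN2] at a2
            push_cast at a2 a3 ⊢
            have a4 : (0 : ℝ) ≤ 24 * nu := by positivity
            nlinarith [mul_le_mul_of_nonneg_left (add_le_add a1 a3) a4]
        _ = ((48 * nu + 3) * η') * ∑ i ∈ Finset.range j, (N i : ℝ) := by rw [Finset.mul_sum]
        _ ≤ ((48 * nu + 3) * η') * N j := by
            apply mul_le_mul_of_nonneg_left (hsum j)
            positivity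
    · intro j
      rw [hcard, ← hN, add_zero]
      have a1 := hrN j
      have a3 := hlN j
      have a5 : (0 : ℝ) ≤ η' * N j := by positivity
      push_cast at a3 ⊢
      nlinarith
  obtain ⟨C', hC'⟩ := engine h nu 2 _ 0 _ s r D _ hS
  refine ⟨C', fun X m => ?_⟩
  have := hC' X m
  have e : 3 * ((48 * (nu : ℝ) + 3) * η') * ((2 : ℕ) : ℝ) * nu = η0 := by
    rw [hη']
    push_cast
    field_simp
    ring
  rw [e] at this
  exact this

end LQ

end
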