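import Pool.Agent.Lib.LQ.QDFacts

/-
Module QuasiInv (library LQ, MP_9bf8b0_al).
Let ψ, K0 be given by QI, K1 := K0 + 1 (or max).  q1 for ψ: len g <= 1 => len((ψX)⁻¹ ψ(Xg)) <= K0 * 1 + K0 <= 2 K1.  Choose φ Y with b.wr.len((ψ(φ Y))⁻¹ Y) <= K1 (third clause).
φ: len((φY)⁻¹ φY') <= K0 len((ψφY)⁻¹ ψφY') + K0 <= K0 (2 K1 + len(Y⁻¹Y')) + K0;  len(Y⁻¹Y') <= 2 K1 + len((ψφY)⁻¹ ψφY') <= 2 K1 + K0 len((φY)⁻¹ φY') + K0.
len(X⁻¹ φ(ψX)) <= K0 len((ψX)⁻¹ ψφψX) + K0 <= K0 K1 + K0.  Surjectivity of φ up to a constant follows from the last line.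
Take K := 10 (K1 + 1)^2, every condition is monotone in K.
-/

set_option autoImplicit false

open Classical
open scoped Pointwise symmDiff

noncomputable section

namespace LQ

open LL

variable {A B : Type} [Group A] [Group B]

theorem exists_pair (a : NG A) (b : NG B) (hQ : QI a.wr b.wr) :
    ∃ (K : ℕ) (ψ : LL A → LL B) (φ : LL B → LL A), QD a b K ψ ∧ QD b a K φ ∧
      (∀ X, a.wr.len (X⁻¹ * φ (ψ X)) ≤ K) ∧ (∀ Y, b.wr.len (Y⁻¹ * ψ (φ Y)) ≤ K) := by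
  obtain ⟨ψ, K0, h1, h2, h3⟩ := hQ
  choose φ hφ using h3
  set K : ℕ := 10 * (K0 + 1) ^ 2 with hK
  have k1 : K0 ≤ K := by nlinarith
  have k2 : 2 * K0 * K0 + 3 * K0 ≤ K := by nlinarith
  have k3 : 1 ≤ K := by nlinarith
  have hψφ : ∀ Y, b.wr.len (Y⁻¹ * ψ (φ Y)) ≤ K0 := by
    intro Y
    rw [b.wr.len_symm]
    exact hφ Y
  have hφψ : ∀ X, a.wr.len ((φ (ψ X))⁻¹ * X) ≤ K := by
    intro X
    have e1 := h2 (φ (ψ X)) X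
    have e2 := hφ (ψ X)
    have e3 : K0 * b.wr.len ((ψ (φ (ψ X)))⁻¹ * ψ X) ≤ K0 * K0 := Nat.mul_le_mul le_rfl e2
    have e4 : K0 * K0 + K0 ≤ K := by nlinarith
    omega
  refine ⟨K, ψ, φ, ⟨k3, ?_, ?_, ?_⟩, ⟨k3, ?_, ?_, ?_⟩, ?_, fun Y => (hψφ Y).trans k1⟩
  · intro X g hg
    have e1 := h1 X (X * g)
    rw [inv_mul_cancel_left] at e1
    have e2 : K0 * a.wr.len g ≤ K0 * 1 := Nat.mul_le_mul le_rfl hg
    have e3 : K0 * 1 + K0 ≤ K := by nlinarith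
    omega
  · intro X X'
    have e1 := h2 X X'
    have e2 : K0 * b.wr.len ((ψ X)⁻¹ * ψ X') ≤ K * b.wr.len ((ψ X)⁻¹ * ψ X') :=
      Nat.mul_le_mul k1 le_rfl
    omega
  · intro Y
    exact ⟨φ Y, (hφ Y).trans k1⟩
  · intro Y g hg
    have e1 := h2 (φ Y) (φ (Y * g))
    have e2 := b.wr.tri (ψ (φ Y)) Y (ψ (φ (Y * g)))
    have e3 := b.wr.tri Y (Y * g) (ψ (φ (Y * g)))
    rw [inv_mul_cancel_left] at e3
    have e4 := hφ Y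
    have e5 := hψφ (Y * g)
    have e6 : K0 * b.wr.len ((ψ (φ Y))⁻¹ * ψ (φ (Y * g))) ≤ K0 * (2 * K0 + 1) :=
      Nat.mul_le_mul le_rfl (by omega)
    have e7 : K0 * (2 * K0 + 1) + K0 ≤ K := by nlinarith
    omega
  · intro Y Y'
    have e2 := b.wr.tri Y (ψ (φ Y)) Y'
    have e3 := b.wr.tri (ψ (φ Y)) (ψ (φ Y')) Y'
    have e4 := hψφ Y
    have e5 := hφ Y'
    have e6 := h1 (φ Y) (φ Y')
    have e7 : K0 * a.wr.len ((φ Y)⁻¹ * φ Y') ≤ K * a.wr.len ((φ Y)⁻¹ * φ Y') :=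
      Nat.mul_le_mul k1 le_rfl
    have e8 : 3 * K0 ≤ K := by nlinarith
    omega
  · intro X
    exact ⟨ψ X, hφψ X⟩
  · intro X
    rw [a.wr.len_symm]
    exact hφψ X

end LQ

end
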