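import Pool.Agent.Lib.LQ.Basic

/-
Module TubeFacts (library LQ, MP_9bf8b0_al).
q := 2 ρ + 1.  tube_disj: for i < j the balls γ(i q) • ball ρ and γ(j q) • ball ρ are disjoint: a common point would give
(j - i) q = len(γ(iq)⁻¹ γ(jq)) <= 2 ρ < q.  So the card of the disjoint union is k * V ρ (card_smul_finset).
tube_mono: Finset.biUnion over range k ⊆ range k'.  tube_len: len(γ(iq) y) <= i q + ρ <= (k-1) q + ρ <= k q (len(γ n) = n as γ 0 = 1).
tube_part: for x in tube k, x is in γ(i q) • ball ρ for a unique i < k.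
sum_part: the sets (γ(iq))⁻¹ • n ∩ ball ρ = (γ(iq))⁻¹ • (n ∩ γ(iq) • ball ρ) have cards summing to n.card for n ⊆ tube k.
-/

set_option autoImplicit false

open Classical
open scoped Pointwise symmDiff

noncomputable section

namespace LQ

open LL

variable {A : Type} [Group A] {a : NG A} {γ : ℕ → A}

theorem ray_len (hγ : Ray a γ) (n : ℕ) : a.len (γ n) = n := by
  have h := hγ.2 0 n (Nat.zero_le _)
  rw [hγ.1] at h
  simpa using h

theorem tube_disj (hγ : Ray a γ) (ρ : ℕ) (i j : ℕ) (hij : i ≠ j) :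
    Disjoint (γ (i * (2 * ρ + 1)) • a.ball ρ) (γ (j * (2 * ρ + 1)) • a.ball ρ) := by
  have key : ∀ i j : ℕ, i < j →
      Disjoint (γ (i * (2 * ρ + 1)) • a.ball ρ) (γ (j * (2 * ρ + 1)) • a.ball ρ) := by
    intro i j hlt
    rw [Finset.disjoint_left]
    intro x hx hx'
    obtain ⟨y, hy, hyx⟩ := Finset.mem_smul_finset.1 hx
    obtain ⟨y', hy', hyx'⟩ := Finset.mem_smul_finset.1 hx'
    rw [NG.mem_ball] at hy hy'
    have h1 := hγ.2 (i * (2 * ρ + 1)) (j * (2 * ρ + 1)) (Nat.mul_le_mul_right _ hlt.le)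
    have h2 : (γ (i * (2 * ρ + 1)))⁻¹ * γ (j * (2 * ρ + 1)) = y * y'⁻¹ := by
      have h3 : γ (i * (2 * ρ + 1)) * y = γ (j * (2 * ρ + 1)) * y' := by
        have e1 : γ (i * (2 * ρ + 1)) * y = x := hyx
        have e2 : γ (j * (2 * ρ + 1)) * y' = x := hyx'
        rw [e1, e2]
      rw [inv_mul_eq_iff_eq_mul, ← mul_assoc, h3]
      group
    rw [h2] at h1
    have h4 := a.len_mul y y'⁻¹
    rw [a.len_inv] at h4
    have h5 : (i + 1) * (2 * ρ + 1) ≤ j * (2 * ρ + 1) := Nat.mul_le_mul_right _ hlt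
    rw [Nat.add_mul] at h5
    omega
  rcases lt_or_gt_of_ne hij with h | h
  · exact key i j h
  · exact (key j i h).symm

theorem tube_card (hγ : Ray a γ) (ρ k : ℕ) : (tube a γ ρ k).card = k * a.V ρ := by
  unfold tube
  rw [Finset.card_biUnion]
  · simp only [Finset.card_smul_finset]
    rw [Finset.sum_const, Finset.card_range, smul_eq_mul]
    rfl
  · intro i _ j _ hij
    exact tube_disj hγ ρ i j hij

theorem tube_mono (ρ : ℕ) {k k' : ℕ} (h : k ≤ k') : tube a γ ρ k ⊆ tube a γ ρ k' := by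
  unfold tube
  exact Finset.biUnion_subset_biUnion_of_subset_left _ (Finset.range_subset_range.2 h)

theorem tube_len (hγ : Ray a γ) (ρ k : ℕ) (x : A) (hx : x ∈ tube a γ ρ k) : a.len x ≤ k * (2 * ρ + 1) := by
  unfold tube at hx
  obtain ⟨i, hi, hx1⟩ := Finset.mem_biUnion.1 hx
  obtain ⟨y, hy, hyx⟩ := Finset.mem_smul_finset.1 hx1
  rw [NG.mem_ball] at hy
  have hik : i + 1 ≤ k := Finset.mem_range.1 hi
  have h1 : a.len x ≤ i * (2 * ρ + 1) + ρ := by
    rw [← hyx]
    refine (a.len_mul _ _).trans ?_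
    rw [ray_len hγ]
    omega
  have h2 : (i + 1) * (2 * ρ + 1) ≤ k * (2 * ρ + 1) := Nat.mul_le_mul_right _ hik
  rw [Nat.add_mul] at h2
  omega

/-- The part of `n` in the `i`-th ball, seen from the centre. -/
def part (a : NG A) (γ : ℕ → A) (ρ : ℕ) (n : Finset A) (i : ℕ) : Finset A :=
  ((γ (i * (2 * ρ + 1)))⁻¹ • n) ∩ a.ball ρ

namespace TubeFactsAux

theorem part_card (ρ : ℕ) (n : Finset A) (i : ℕ) :
    (part a γ ρ n i).card = (n ∩ γ (i * (2 * ρ + 1)) • a.ball ρ).card := by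
  rw [← Finset.card_smul_finset (γ (i * (2 * ρ + 1))) (part a γ ρ n i)]
  unfold part
  rw [Finset.smul_finset_inter, smul_inv_smul]

end TubeFactsAux

theorem sum_part (hγ : Ray a γ) (ρ k : ℕ) (n : Finset A) (hn : n ⊆ tube a γ ρ k) :
    ∑ i ∈ Finset.range k, (part a γ ρ n i).card = n.card := by
  have h1 : n = (Finset.range k).biUnion (fun i => n ∩ γ (i * (2 * ρ + 1)) • a.ball ρ) := by
    rw [← Finset.inter_biUnion]
    exact (Finset.inter_eq_left.2 hn).symm
  have h2 : ((Finset.range k).biUnion (fun i => n ∩ γ (i * (2 * ρ + 1)) • a.ball ρ)).card =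
      ∑ i ∈ Finset.range k, (n ∩ γ (i * (2 * ρ + 1)) • a.ball ρ).card := by
    refine Finset.card_biUnion ?_
    intro i _ j _ hij
    exact (tube_disj hγ ρ i j hij).mono Finset.inter_subset_right Finset.inter_subset_right
  rw [← h1] at h2
  rw [h2]
  exact Finset.sum_congr rfl fun i _ => TubeFactsAux.part_card ρ n i

end LQ

end
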