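import Pool.Agent.Lib.LQ.RayEx
import Pool.Agent.Lib.LQ.Sphere
import Pool.Agent.Lib.LQ.TubeFacts

/-!
Periodicity of geodesic rays under linear growth (MP_9bf8b0_al).
-/

set_option autoImplicit false

open Classical
open scoped Pointwise symmDiff

noncomputable section

namespace LQ

open LL

variable {A : Type} [Group A]

theorem RayPerAux.pigeon (a : NG A) (γ : ℕ → A) (hγ : Ray a γ) (c s : ℕ) (hs : a.sph s ≤ c) :
    ∃ i j, i < j ∧ j ≤ c ∧ (γ i)⁻¹ * γ (i + s) = (γ j)⁻¹ * γ (j + s) := by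
  have hcard : ((a.ball s).filter (fun x => a.len x = s)).card < (Finset.range (c + 1)).card := by
    rw [Finset.card_range]
    exact Nat.lt_succ_of_le hs
  have hmaps : ∀ i ∈ Finset.range (c + 1),
      (γ i)⁻¹ * γ (i + s) ∈ (a.ball s).filter (fun x => a.len x = s) := by
    intro i _
    have h := hγ.2 i (i + s) (Nat.le_add_right i s)
    rw [Nat.add_sub_cancel_left] at h
    rw [Finset.mem_filter, NG.mem_ball]
    exact ⟨h.le, h⟩
  obtain ⟨x, hx, y, hy, hxy, he⟩ := Finset.exists_ne_map_eq_of_card_lt_of_maps_to hcard hmaps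
  rw [Finset.mem_range] at hx hy
  rcases lt_or_gt_of_ne hxy with h | h
  · exact ⟨x, y, h, by omega, he⟩
  · exact ⟨y, x, h, by omega, he.symm⟩

theorem exists_periodic [Infinite A] (a : NG A) (hl : Linear a) :
    ∃ (γ : ℕ → A) (g : A) (i j : ℕ), Ray a γ ∧ i < j ∧ ∀ n : ℕ, ∃ k, n ≤ k ∧ g * γ (i + k) = γ (j + k) := by
  obtain ⟨γ, hγ⟩ := exists_ray a
  obtain ⟨C, hC⟩ := hl
  have hsm : ∀ n : ℕ, ∃ s, n ≤ s ∧ a.sph s ≤ 3 * C := by
    intro n
    have h1 : a.V (2 * (n + 1)) ≤ 3 * C * (n + 1) := by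
      refine (hC (2 * (n + 1))).trans ?_
      have : C * (2 * (n + 1) + 1) ≤ C * (3 * (n + 1)) := Nat.mul_le_mul_left C (by omega)
      calc _ ≤ _ := this
        _ = _ := by ring
    obtain ⟨s, hs1, -, hs2⟩ := exists_small_sph a (n + 1) (3 * C) (by omega) h1
    exact ⟨s, by omega, hs2⟩
  choose σ hσ1 hσ2 using hsm
  have hp : ∀ n : ℕ, ∃ p : Fin (3 * C + 1) × Fin (3 * C + 1), p.1 < p.2 ∧
      (γ p.1)⁻¹ * γ (p.1 + σ n) = (γ p.2)⁻¹ * γ (p.2 + σ n) := by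
    intro n
    obtain ⟨i, j, hij, hj, he⟩ := RayPerAux.pigeon a γ hγ (3 * C) (σ n) (hσ2 n)
    exact ⟨(⟨i, by omega⟩, ⟨j, by omega⟩), hij, he⟩
  choose P hP1 hP2 using hp
  obtain ⟨⟨i, j⟩, hinf⟩ := Finite.exists_infinite_fiber P
  have hinf' : (P ⁻¹' {(i, j)}).Infinite := Set.infinite_coe_iff.1 hinf
  obtain ⟨n0, hn0⟩ := hinf'.nonempty
  have hij : i < j := by
    have := hP1 n0
    rw [show P n0 = (i, j) from hn0] at this
    exact this
  refine ⟨γ, γ j * (γ i)⁻¹, i, j, hγ, hij, fun n => ?_⟩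
  obtain ⟨m, hm, hnm⟩ := hinf'.exists_gt n
  have hm' : P m = (i, j) := hm
  refine ⟨σ m, (hnm.le).trans (hσ1 m), ?_⟩
  have h := hP2 m
  rw [hm'] at h
  have h' : (γ i)⁻¹ * γ (i + σ m) = (γ j)⁻¹ * γ (j + σ m) := h
  rw [mul_assoc, h', mul_inv_cancel_left]

end LQ

end
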