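import Pool.Agent.Lib.LQ.HighDrift
import Pool.Agent.Lib.LQ.NetDrift
import Pool.Agent.Lib.LQ.LinLin
import Pool.Agent.Lib.LQ.ExpHigh
import Pool.Agent.Lib.LQ.RayPer
import Pool.Agent.Lib.LQ.Busemann
import Pool.Agent.Lib.LQ.AxisDense
import Pool.Agent.Lib.LQ.LinQI
import Pool.Agent.Lib.LQ.FinCase
import Pool.Agent.Lib.LQ.QuasiInv
import Pool.Agent.Lib.LQ.Deduct

/-!
Main theorem for word lengths: quasi-isometric lamplighters have quasi-isometric bases (MP_9bf8b0_al).
-/

set_option autoImplicit false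

open Classical
open scoped Pointwise symmDiff

noncomputable section

namespace LQ

open LL

variable {A B : Type} [Group A] [Group B]

theorem exists_axis [Infinite A] (a : NG A) (hl : Linear a) :
    ∃ (g : A) (D : ℕ), (∀ m : ℕ, m ≤ a.len (g ^ m)) ∧ ∀ x, ∃ m : ℤ, a.len ((g ^ m)⁻¹ * x) ≤ D := by
  obtain ⟨γ, g, i, j, hγ, hij, hinf⟩ := exists_periodic a hl
  have h1 := axis_len a γ hγ g i j hij hinf
  obtain ⟨D, hD⟩ := axis_dense a hl g h1
  exact ⟨g, D, h1, hD⟩

theorem qi_of_linear [Infinite A] [Infinite B] (a : NG A) (b : NG B) (ha : Linear a) (hb : Linear b) :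
    QI a b := by
  obtain ⟨g, D, hg, hD⟩ := exists_axis a ha
  obtain ⟨g', D', hg', hD'⟩ := exists_axis b hb
  refine qi_of_axes a b g g' hg hg' (max D D') ?_ ?_
  · intro x
    obtain ⟨m, hm⟩ := hD x
    exact ⟨m, hm.trans (le_max_left _ _)⟩
  · intro y
    obtain ⟨m, hm⟩ := hD' y
    exact ⟨m, hm.trans (le_max_right _ _)⟩

theorem drift_all {a : NG A} {b : NG B} {K : ℕ} {ψ : LL A → LL B} [Infinite A] [Infinite B]
    (h : QD a b K ψ) (ha : ¬ Linear a) : Drift a b ψ := by
  by_cases sb : Subexp b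
  · exact drift_net h ha sb
  · exact drift_high h (high_of_not_subexp h sb)

theorem main_ng (a : NG A) (b : NG B) (hQ : QI a.wr b.wr) : QI a b := by
  obtain ⟨K, ψ, φ, hψ, hφ, h1, h2⟩ := exists_pair a b hQ
  by_cases fA : Finite A
  · haveI := fA
    haveI : Finite B := finite_of_finite hψ
    exact qi_of_finite a b
  by_cases fB : Finite B
  · haveI := fB
    haveI : Finite A := finite_of_finite hφ
    exact qi_of_finite a b
  haveI : Infinite A := not_finite_iff_infinite.1 fA
  haveI : Infinite B := not_finite_iff_infinite.1 fB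
  by_cases la : Linear a
  · exact qi_of_linear a b la (linear_of_linear hψ la)
  by_cases lb : Linear b
  · exact absurd (linear_of_linear hφ lb) la
  exact qi_of_drift hψ hφ h1 h2 (drift_all hψ la) (drift_all hφ lb)

end LQ

end
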