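import Pool.Agent.Lib.LQ.EdgeBd
import Pool.Agent.Lib.LQ.MiFacts

/-
Module NLSum (library LQ, MP_9bf8b0_al).
Proof.  For z: A := Mi Ω c z, by hNL and edge_bd: lam * A.card <= #{(n,x) : n in A, x in Ω, n ∆ {x} not in A} =: e(z).
Let T := all triples (n,x,z), n ⊆ Ω, x in Ω, z in Z, z in c n ∆ c (n ∆ {x}).  T.card <= 2^N * N * l.  The pairs counted by e(z) are triples of T with
n in A; the involution (n,x,z) -> (n ∆ {x}, x, z) of T maps them to triples with n not in A (that is n ∆ {x} not in A), so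
2 * sum_z e(z) <= T.card.
-/

set_option autoImplicit false

open Classical
open scoped Pointwise symmDiff

noncomputable section

namespace LQ

open LL

namespace NLSumAux

theorem sub_sd {α : Type} {Ω n : Finset α} {x : α} (hn : n ⊆ Ω) (hx : x ∈ Ω) : n ∆ {x} ⊆ Ω := by
  intro y hy
  simp only [Finset.mem_symmDiff, Finset.mem_singleton] at hy
  rcases hy with ⟨h, _⟩ | ⟨rfl, _⟩
  · exact hn h
  · exact hx

theorem mem_Mi {α B : Type} {Ω : Finset α} {c : Finset α → Finset B} {z : B} {n : Finset α} :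
    n ∈ Mi Ω c z ↔ n ⊆ Ω ∧ ¬ (z ∈ c n ↔ z ∈ maj Ω c) := by
  unfold Mi
  rw [Finset.mem_filter, Finset.mem_powerset]

theorem P_le {α B : Type} (Ω : Finset α) (c : Finset α → Finset B) (z : B) {x : α} (hx : x ∈ Ω) :
    2 * ((Mi Ω c z).filter (fun n => n ∆ {x} ∉ Mi Ω c z)).card ≤
      (Ω.powerset.filter (fun n => z ∈ c n ∆ c (n ∆ {x}))).card := by
  set P := (Mi Ω c z).filter (fun n => n ∆ {x} ∉ Mi Ω c z) with hP
  set Q := Ω.powerset.filter (fun n => n ∉ Mi Ω c z ∧ n ∆ {x} ∈ Mi Ω c z) with hQ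
  have hinv : ∀ n : Finset α, (n ∆ {x}) ∆ {x} = n := fun n => symmDiff_symmDiff_cancel_right _ _
  have hPQ : P.card = Q.card := by
    refine Finset.card_bij (fun n _ => n ∆ {x}) ?_ ?_ ?_
    · intro n hn
      rw [hP, Finset.mem_filter] at hn
      rw [hQ, Finset.mem_filter, Finset.mem_powerset, hinv]
      exact ⟨sub_sd (mem_Mi.mp hn.1).1 hx, hn.2, hn.1⟩
    · intro n _ n' _ h
      have h1 : (n ∆ {x}) ∆ {x} = (n' ∆ {x}) ∆ {x} := congrArg (fun s => s ∆ {x}) h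
      rwa [hinv, hinv] at h1
    · intro n hn
      rw [hQ, Finset.mem_filter, Finset.mem_powerset] at hn
      refine ⟨n ∆ {x}, ?_, hinv n⟩
      rw [hP, Finset.mem_filter, hinv]
      exact ⟨hn.2.2, hn.2.1⟩
  have hdisj : Disjoint P Q := by
    rw [Finset.disjoint_left]
    intro n h1 h2
    rw [hP, Finset.mem_filter] at h1
    rw [hQ, Finset.mem_filter] at h2
    exact h2.2.1 h1.1
  have hsub : P ∪ Q ⊆ Ω.powerset.filter (fun n => z ∈ c n ∆ c (n ∆ {x})) := by
    intro n hn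
    rw [Finset.mem_filter, Finset.mem_powerset, Finset.mem_symmDiff]
    rw [Finset.mem_union, hP, hQ, Finset.mem_filter, Finset.mem_filter, Finset.mem_powerset] at hn
    rcases hn with ⟨h1, h2⟩ | ⟨h0, h1, h2⟩
    · have h3 := mem_Mi.mp h1
      have h4 := sub_sd h3.1 hx
      refine ⟨h3.1, ?_⟩
      rw [mem_Mi] at h2
      tauto
    · have h3 := mem_Mi.mp h2
      refine ⟨h0, ?_⟩
      rw [mem_Mi] at h1
      tauto
  calc 2 * P.card = P.card + Q.card := by rw [two_mul, ← hPQ]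
    _ = (P ∪ Q).card := (Finset.card_union_of_disjoint hdisj).symm
    _ ≤ _ := Finset.card_le_card hsub

end NLSumAux

open NLSumAux

theorem nl_sum {α B : Type} (Ω : Finset α) (c : Finset α → Finset B) (l lam : ℕ)
    (hcrd : ∀ n, n ⊆ Ω → ∀ x, x ∈ Ω → (c n ∆ c (n ∆ {x})).card ≤ l)
    (hNL : NLc Ω c lam) (Z : Finset B) :
    2 * lam * ∑ z ∈ Z, (Mi Ω c z).card ≤ l * Ω.card * 2 ^ Ω.card := by
  have h1 : ∀ z ∈ Z, 2 * lam * (Mi Ω c z).card ≤
      ∑ x ∈ Ω, (Ω.powerset.filter (fun n => z ∈ c n ∆ c (n ∆ {x}))).card := by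
    intro z _
    have h2 := edge_bd Ω (Mi Ω c z) lam (hNL z)
    have h3 : ∑ n ∈ Mi Ω c z, (Ω.filter (fun x => n ∆ {x} ∉ Mi Ω c z)).card =
        ∑ x ∈ Ω, ((Mi Ω c z).filter (fun n => n ∆ {x} ∉ Mi Ω c z)).card := by
      simp only [Finset.card_filter]
      exact Finset.sum_comm
    calc 2 * lam * (Mi Ω c z).card = 2 * (lam * (Mi Ω c z).card) := by ring
      _ ≤ 2 * ∑ x ∈ Ω, ((Mi Ω c z).filter (fun n => n ∆ {x} ∉ Mi Ω c z)).card := by
          rw [← h3]
          exact Nat.mul_le_mul_left _ h2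
      _ = ∑ x ∈ Ω, 2 * ((Mi Ω c z).filter (fun n => n ∆ {x} ∉ Mi Ω c z)).card := by
          rw [Finset.mul_sum]
      _ ≤ _ := Finset.sum_le_sum fun x hx => P_le Ω c z hx
  calc 2 * lam * ∑ z ∈ Z, (Mi Ω c z).card = ∑ z ∈ Z, 2 * lam * (Mi Ω c z).card := by
        rw [Finset.mul_sum]
    _ ≤ ∑ z ∈ Z, ∑ x ∈ Ω, (Ω.powerset.filter (fun n => z ∈ c n ∆ c (n ∆ {x}))).card :=
        Finset.sum_le_sum h1
    _ = ∑ x ∈ Ω, ∑ n ∈ Ω.powerset, (Z.filter (fun z => z ∈ c n ∆ c (n ∆ {x}))).card := by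
        rw [Finset.sum_comm]
        refine Finset.sum_congr rfl fun x _ => ?_
        simp only [Finset.card_filter]
        exact Finset.sum_comm
    _ ≤ ∑ x ∈ Ω, ∑ n ∈ Ω.powerset, l := by
        refine Finset.sum_le_sum fun x hx => Finset.sum_le_sum fun n hn => ?_
        refine le_trans (Finset.card_le_card fun z hz => ?_) (hcrd n (Finset.mem_powerset.mp hn) x hx)
        exact (Finset.mem_filter.mp hz).2
    _ = l * Ω.card * 2 ^ Ω.card := by
        rw [Finset.sum_const, Finset.sum_const, Finset.card_powerset, smul_eq_mul, smul_eq_mul]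
        ring

end LQ

end
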