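import Pool.Agent.Lib.LQ.QDFacts
import Pool.Agent.Lib.LQ.LocBig
import Pool.Agent.Lib.LQ.MiFacts

/-!
A state which is not of type NL is located (library LQ, MP_9bf8b0_al).
-/

set_option autoImplicit false

open Classical
open scoped Pointwise symmDiff

noncomputable section

namespace LQ

open LL

variable {A B : Type} [Group A] [Group B] {a : NG A} {b : NG B} {K : ℕ} {ψ : LL A → LL B}
variable {s lam k m hh R D : ℕ}

namespace NotNLAux

theorem pp_close (h : QD a b K ψ) (X : LL A) (s w hh : ℕ) (n n' : Finset A) (hn : n ⊆ a.ball s)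
    (hn' : n' ⊆ a.ball s) (hc : (n ∆ n').card < hh) (hw : K * ((2 * s + 1) * hh) ≤ w) :
    b.len ((pp ψ X n)⁻¹ * pp ψ X n') ≤ w := by
  have e : X * LL.lamp n' = X * LL.lamp n * LL.lamp (n ∆ n') := by
    rw [mul_assoc, ← LL.lamp_symmDiff, symmDiff_symmDiff_cancel_left]
  have h1 : b.len ((pp ψ X n)⁻¹ * pp ψ X n') ≤ K * a.kap (n ∆ n') := by
    simp only [pp]
    rw [e]
    exact h.pos _ _
  have h2 : a.kap (n ∆ n') ≤ (2 * s + 1) * (n ∆ n').card := by
    refine a.kap_le_card _ s (fun x hx => ?_)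
    rw [Finset.mem_symmDiff] at hx
    rcases hx with ⟨hx, _⟩ | ⟨hx, _⟩
    · exact (a.mem_ball s x).1 (hn hx)
    · exact (a.mem_ball s x).1 (hn' hx)
  have h3 : (2 * s + 1) * (n ∆ n').card ≤ (2 * s + 1) * hh := Nat.mul_le_mul_left _ hc.le
  exact h1.trans ((Nat.mul_le_mul_left K (h2.trans h3)).trans hw)

theorem final_ineq {bad M P L D : ℝ} (hP : 0 < P) (hM : 0 ≤ bad) (E : ℝ)
    (h1 : bad * M ≤ 2 * (P * P) * E) (h2 : P ≤ M * L) (hL : 0 ≤ L)
    (h6 : 2 * L * P * E ≤ D) : bad ≤ D := by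
  have h3 : bad * P ≤ 2 * L * P * E * P := by
    calc bad * P ≤ bad * (M * L) := mul_le_mul_of_nonneg_left h2 hM
      _ = bad * M * L := by ring
      _ ≤ 2 * (P * P) * E * L := mul_le_mul_of_nonneg_right h1 hL
      _ = 2 * L * P * E * P := by ring
  exact (le_of_mul_le_mul_right h3 hP).trans h6

end NotNLAux

theorem loc_of_not_nl (h : QD a b K ψ) (hp : HP a b K s lam k m hh R D) (X : LL A)
    (hX : ¬ NL a ψ s lam X) : ∃ z, Loc b ψ (a.ball s) ((hh + 1) * (K * (2 * s + 3))) D X z := by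
  unfold NL NLc at hX
  push Not at hX
  obtain ⟨z, hz⟩ := hX
  refine ⟨z, ?_⟩
  unfold Loc
  have hC : Cube b (a.ball s) (K * (2 * s + 3)) (cc ψ X) (pp ψ X) :=
    h.cube X (a.ball s) s _ (fun x hx => (a.mem_ball s x).1 hx)
      (Nat.mul_le_mul_left K (by omega))
  have hbig := loc_big b (a.ball s) (K * (2 * s + 3)) (cc ψ X) (pp ψ X) hC z
    (Mi (a.ball s) (cc ψ X) z).card hh (hh * (K * (2 * s + 3))) (mi_le_S1 _ _ _) (mi_le_S0 _ _ _)
    (fun n n' hn hn' hc => NotNLAux.pp_close h X s _ hh n n' hn hn' hc (by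
      calc K * ((2 * s + 1) * hh) ≤ K * ((2 * s + 3) * hh) :=
            Nat.mul_le_mul_left K (Nat.mul_le_mul_right hh (by omega))
        _ = hh * (K * (2 * s + 3)) := by ring))
  rw [show hh * (K * (2 * s + 3)) + K * (2 * s + 3) = (hh + 1) * (K * (2 * s + 3)) by ring] at hbig
  have hV : (a.ball s).card = a.V s := rfl
  rw [hV] at hbig hz
  have h6 := hp.p6
  have hzR : (2 : ℝ) ^ a.V s ≤ ((Mi (a.ball s) (cc ψ X) z).card : ℝ) * 2 ^ lam := by
    exact_mod_cast hz.le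
  have h4 : (4 : ℝ) ^ a.V s = 2 ^ a.V s * 2 ^ a.V s := by
    rw [← mul_pow]
    norm_num
  rw [h4] at hbig
  have hfin := NotNLAux.final_ineq (P := (2 : ℝ) ^ a.V s) (by positivity)
    (by positivity) _ hbig hzR (by positivity) h6
  exact_mod_cast hfin

end LQ

end
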