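import Pool.Agent.Lib.LQ.Defs

/-!
Word length of a finite generating set; the word length on the lamplighter group (MP_9bf8b0_al).
-/

set_option autoImplicit false

open Classical
open scoped Pointwise symmDiff

noncomputable section

namespace LQ

variable {G : Type} [Group G]

theorem exists_ofGen (S : Finset G) (hS : Subgroup.closure (S : Set G) = ⊤) :
    ∃ a : NG G, ∀ x n, a.len x ≤ n ↔ x ∈ (insert (1 : G) ((S : Set G) ∪ (S : Set G)⁻¹)) ^ n := by
  set T : Set G := insert (1 : G) ((S : Set G) ∪ (S : Set G)⁻¹) with hT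
  have h1 : (1 : G) ∈ T := Set.mem_insert _ _
  have hmono : ∀ {n m : ℕ}, n ≤ m → T ^ n ⊆ T ^ m := fun h => Set.pow_subset_pow_right h1 h
  have hTinv : T⁻¹ = T := by
    rw [hT]
    ext x
    simp only [Set.mem_inv, Set.mem_insert_iff, Set.mem_union, inv_eq_one, inv_inv]
    tauto
  have hpinv : ∀ n, (T ^ n)⁻¹ = T ^ n := by
    intro n
    rw [← inv_pow, hTinv]
  have hex : ∀ x : G, ∃ n, x ∈ T ^ n := by
    intro x
    have hx : x ∈ Subgroup.closure (S : Set G) := by rw [hS]; trivial
    induction hx using Subgroup.closure_induction with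
    | mem x hx => exact ⟨1, by rw [pow_one]; exact Or.inr (Or.inl hx)⟩
    | one => exact ⟨0, by simp⟩
    | mul x y _ _ hx hy =>
      obtain ⟨n, hn⟩ := hx
      obtain ⟨m, hm⟩ := hy
      exact ⟨n + m, by rw [pow_add]; exact Set.mul_mem_mul hn hm⟩
    | inv x _ hx =>
      obtain ⟨n, hn⟩ := hx
      exact ⟨n, by rw [← hpinv n]; simpa using hn⟩
  have hle : ∀ x n, Nat.find (hex x) ≤ n ↔ x ∈ T ^ n := by
    intro x n
    constructor
    · intro h
      exact hmono h (Nat.find_spec (hex x))
    · intro h
      exact Nat.find_min' (hex x) h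
  have hmul : ∀ x y, Nat.find (hex (x * y)) ≤ Nat.find (hex x) + Nat.find (hex y) := by
    intro x y
    rw [hle, pow_add]
    exact Set.mul_mem_mul (Nat.find_spec (hex x)) (Nat.find_spec (hex y))
  refine ⟨{ len := fun x => Nat.find (hex x)
            len_one := ?_
            eq_one := ?_
            len_inv := ?_
            len_mul := hmul
            split := ?_
            fin := ?_ }, ?_⟩
  · have := (hle 1 0).2 (by simp)
    simpa using this
  · intro x hx
    have := (hle x 0).1 (le_of_eq hx)
    simpa using this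
  · intro x
    apply le_antisymm
    · rw [hle, ← hpinv]
      simpa using Nat.find_spec (hex x)
    · rw [hle, ← hpinv]
      exact Nat.find_spec (hex x⁻¹)
  · intro x n hx
    have hxn : x ∈ T ^ (n + 1) := (hle x (n + 1)).1 (le_of_eq hx)
    rw [pow_succ] at hxn
    obtain ⟨y, hy, t, ht, rfl⟩ := hxn
    have ht1 : Nat.find (hex t) ≤ 1 := (hle t 1).2 (by simpa using ht)
    have hy1 : Nat.find (hex y) ≤ n := (hle y n).2 hy
    have := hmul y t
    refine ⟨y, t, rfl, ?_, ht1⟩
    have hx' : Nat.find (hex (y * t)) = n + 1 := hx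
    omega
  · intro n
    have hTf : T.Finite := by
      rw [hT]
      exact (S.finite_toSet.union S.finite_toSet.inv).insert _
    have hset : {x | Nat.find (hex x) ≤ n} = T ^ n := by
      ext x
      exact hle x n
    rw [hset]
    clear hset
    induction n with
    | zero => simp
    | succ n ih => rw [pow_succ]; exact ih.mul hTf
  · intro x n
    exact hle x n

/-- The word length of a finite generating set. -/
def NG.ofGen (S : Finset G) (hS : Subgroup.closure (S : Set G) = ⊤) : NG G :=
  (exists_ofGen S hS).choose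

theorem NG.ofGen_len_le (S : Finset G) (hS : Subgroup.closure (S : Set G) = ⊤) (x : G) (n : ℕ) :
    (NG.ofGen S hS).len x ≤ n ↔ x ∈ (insert (1 : G) ((S : Set G) ∪ (S : Set G)⁻¹)) ^ n :=
  (exists_ofGen S hS).choose_spec x n

/-- The generators of the lamplighter group: moves of length at most one and the lamp at the cursor. -/
def NG.wrGen (a : NG G) : Finset (LL G) := insert (LL.lamp {1}) ((a.ball 1).image LL.mv)

theorem NG.wrGen_mem_of_closed (a : NG G) (P : Set (LL G)) (h1 : (1 : LL G) ∈ P)
    (hm : ∀ X ∈ P, ∀ t, a.len t ≤ 1 → X * LL.mv t ∈ P)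
    (hl : ∀ X ∈ P, X * LL.lamp {1} ∈ P) : ∀ X, X ∈ P := by
  have hmv : ∀ (n : ℕ) (h : G), a.len h = n → ∀ X ∈ P, X * LL.mv h ∈ P := by
    intro n
    induction n with
    | zero =>
      intro h hh X hX
      have : h = 1 := a.eq_one h hh
      subst this
      have : LL.mv (1 : G) = 1 := rfl
      rw [this, mul_one]
      exact hX
    | succ n ih =>
      intro h hh X hX
      obtain ⟨y, t, rfl, hy, ht⟩ := a.split h n hh
      have e : LL.mv (y * t) = LL.mv y * LL.mv t := by
        ext1 <;> simp [LL.mv]
      rw [e, ← mul_assoc]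
      exact hm _ (ih y hy X hX) t ht
  have hlx : ∀ (x : G), ∀ X ∈ P, X * LL.lamp {x} ∈ P := by
    intro x X hX
    have e : LL.lamp {x} = LL.mv x * LL.lamp {1} * LL.mv x⁻¹ := by
      ext1 <;> simp [LL.mv, LL.lamp]
    rw [e, ← mul_assoc, ← mul_assoc]
    exact hmv _ _ rfl _ (hl _ (hmv _ _ rfl _ hX))
  have hlv : ∀ (v : Finset G), ∀ X ∈ P, X * LL.lamp v ∈ P := by
    intro v
    induction v using Finset.induction_on with
    | empty =>
      intro X hX
      have : LL.lamp (∅ : Finset G) = 1 := rfl
      rw [this, mul_one]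
      exact hX
    | insert x v hx ih =>
      intro X hX
      have e : LL.lamp (insert x v) = LL.lamp {x} * LL.lamp v := by
        ext1
        · ext y
          simp only [LL.lamp, LL.mul_u, one_smul, Finset.mem_insert, Finset.mem_symmDiff,
            Finset.mem_singleton]
          constructor
          · rintro (rfl | h)
            · exact Or.inl ⟨rfl, hx⟩
            · exact Or.inr ⟨h, fun h' => hx (h' ▸ h)⟩
          · rintro (⟨h, _⟩ | ⟨h, _⟩)
            · exact Or.inl h
            · exact Or.inr h
        · simp [LL.lamp]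
      rw [e, ← mul_assoc]
      exact ih _ (hlx x X hX)
  intro X
  have e : X = 1 * LL.lamp X.u * LL.mv X.q := by
    rw [one_mul]
    ext1
    · simp only [LL.mul_u, LL.lamp, LL.mv, Finset.smul_finset_empty]
      exact (symmDiff_bot X.u).symm
    · simp [LL.lamp, LL.mv]
  rw [e]
  exact hmv _ _ rfl _ (hlv _ _ h1)

theorem NG.wrGen_closure (a : NG G) : Subgroup.closure (a.wrGen : Set (LL G)) = ⊤ := by
  rw [eq_top_iff]
  intro X _
  refine NG.wrGen_mem_of_closed a (Subgroup.closure (a.wrGen : Set (LL G)) : Set (LL G)) ?_ ?_ ?_ X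
  · exact Subgroup.one_mem _
  · intro Y hY t ht
    refine Subgroup.mul_mem _ hY (Subgroup.subset_closure ?_)
    simp only [NG.wrGen, Finset.coe_insert, Finset.coe_image, Set.mem_insert_iff, Set.mem_image,
      Finset.mem_coe]
    exact Or.inr ⟨t, (a.mem_ball 1 t).2 ht, rfl⟩
  · intro Y hY
    refine Subgroup.mul_mem _ hY (Subgroup.subset_closure ?_)
    simp [NG.wrGen]

/-- The word length on the lamplighter group over `G`. -/
def NG.wr (a : NG G) : NG (LL G) := NG.ofGen a.wrGen a.wrGen_closure

/-- The cost of switching the lamps `v` with the cursor returning. -/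
def NG.kap (a : NG G) (v : Finset G) : ℕ := a.wr.len (LL.lamp v)

end LQ

end
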