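import Pool.Agent.Lib.LQ.Spread
import Pool.Agent.Lib.LQ.NotNL
import Pool.Agent.Lib.LQ.MiFacts

/-
Module Pres1 (library LQ, MP_9bf8b0_al).
Notation l := K * (2 * s + 3), N := a.V s, X' := X * lamp {x}.  For every n: X' * lamp n = X * lamp n * lamp {x} (lamps commute), and
a.wr.len (lamp {x}) = kap {x} <= 2 (s+1) + 1 = 2 s + 3, so by QD.pos, QD.mem_u:
(i) len((pp ψ X n)⁻¹ * pp ψ X' n) <= l, (ii) z in cc ψ X n ∆ cc ψ X' n implies len((pp ψ X n)⁻¹ z) <= l.
Step 1, X' is NL: otherwise loc_of_not_nl gives z such that all but D of the n ⊆ ball s have len(z⁻¹ pp ψ X' n) <= (hh+1) l, hence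
len(z⁻¹ pp ψ X n) <= (hh+2) l <= R (hp.p5).  So #{n : len(z⁻¹ pp ψ X n) <= R} >= 2^N - D >= 2^N / 2 (hp.p7, 4 D <= 2^N), contradicting spread.
Step 2, same background: suppose z is in exactly one of bg X, bg X'.  #{n : z in cc X n iff z in bg X fails} = Mi.card <= 2^N / 2^lam <= 2^N / 4
(lam >= 2, hp.p1), same for X'.  For the other n (at least half of all n) z is in exactly one of cc ψ X n, cc ψ X' n, so by (ii)
len(z⁻¹ pp ψ X n) <= l <= R, contradicting spread for X (strict: 2 # < 2^N).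
-/

set_option autoImplicit false

open Classical
open scoped Pointwise symmDiff

noncomputable section

namespace LQ

open LL

variable {A B : Type} [Group A] [Group B] {a : NG A} {b : NG B} {K : ℕ} {ψ : LL A → LL B}
variable {s lam k m hh R D : ℕ}

namespace Pres1Aux

theorem comm_lamp (X : LL A) (x : A) (n : Finset A) :
    X * LL.lamp {x} * LL.lamp n = X * LL.lamp n * LL.lamp {x} := by
  rw [mul_assoc, LL.lamp_comm, ← mul_assoc]

theorem len_key (a : NG A) (K s : ℕ) (x : A) (hx : a.len x ≤ s + 1) :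
    K * a.wr.len (LL.lamp {x}) ≤ K * (2 * s + 3) := by
  have h1 := a.kap_singleton x
  rw [NG.kap] at h1
  exact Nat.mul_le_mul_left K (h1.trans (by omega))

theorem len_sym (b : NG B) (x y : B) : b.len (x⁻¹ * y) = b.len (y⁻¹ * x) := by
  rw [← b.len_inv (x⁻¹ * y), mul_inv_rev, inv_inv]

theorem step_i (h : QD a b K ψ) (X : LL A) (x : A) (hx : a.len x ≤ s + 1) (n : Finset A) :
    b.len ((pp ψ X n)⁻¹ * pp ψ (X * LL.lamp {x}) n) ≤ K * (2 * s + 3) := by
  simp only [pp]
  rw [comm_lamp]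
  exact (h.pos _ _).trans (len_key a K s x hx)

theorem step_ii (h : QD a b K ψ) (X : LL A) (x : A) (hx : a.len x ≤ s + 1) (n : Finset A) (z : B)
    (hz : z ∈ cc ψ X n ∆ cc ψ (X * LL.lamp {x}) n) :
    b.len ((pp ψ X n)⁻¹ * z) ≤ K * (2 * s + 3) := by
  simp only [cc] at hz
  simp only [pp]
  rw [comm_lamp] at hz
  exact (h.mem_u _ _ z hz).trans (len_key a K s x hx)

theorem card_P (a : NG A) (s : ℕ) : (a.ball s).powerset.card = 2 ^ a.V s := by
  rw [Finset.card_powerset]
  rfl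

end Pres1Aux

open Pres1Aux in
theorem pres1 (h : QD a b K ψ) (hp : HP a b K s lam k m hh R D) (X : LL A) (hX : NL a ψ s lam X)
    (x : A) (hx : a.len x ≤ s + 1) :
    NL a ψ s lam (X * lamp {x}) ∧ bg a ψ s (X * lamp {x}) = bg a ψ s X := by
  have hlR : (hh + 2) * (K * (2 * s + 3)) ≤ R :=
    (Nat.mul_le_mul_right _ (by omega)).trans hp.p5
  have hlR1 : K * (2 * s + 3) ≤ R := by
    refine le_trans ?_ hlR
    exact Nat.le_mul_of_pos_left _ (by omega)
  have step1 : NL a ψ s lam (X * LL.lamp {x}) := by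
    by_contra hN
    obtain ⟨z, hz⟩ := loc_of_not_nl h hp _ hN
    have hs := spread h hp X hX z
    set F1 := (a.ball s).powerset.filter
      (fun n => (hh + 1) * (K * (2 * s + 3)) < b.len (z⁻¹ * pp ψ (X * LL.lamp {x}) n)) with hF1
    set F2 := (a.ball s).powerset.filter (fun n => b.len (z⁻¹ * pp ψ X n) ≤ R) with hF2
    have hz' : F1.card ≤ D := hz
    have hsub : (a.ball s).powerset ⊆ F1 ∪ F2 := by
      intro n hn
      by_cases h1 : (hh + 1) * (K * (2 * s + 3)) < b.len (z⁻¹ * pp ψ (X * LL.lamp {x}) n)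
      · exact Finset.mem_union_left _ (Finset.mem_filter.2 ⟨hn, h1⟩)
      · refine Finset.mem_union_right _ (Finset.mem_filter.2 ⟨hn, ?_⟩)
        have h2 := b.len_mul (z⁻¹ * pp ψ (X * LL.lamp {x}) n)
          ((pp ψ (X * LL.lamp {x}) n)⁻¹ * pp ψ X n)
        rw [mul_assoc, mul_inv_cancel_left] at h2
        have h3 := step_i h X x hx n
        rw [len_sym] at h3
        have h4 : (hh + 2) * (K * (2 * s + 3)) = (hh + 1) * (K * (2 * s + 3)) + K * (2 * s + 3) := by
          ring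
        omega
    have h1 := Finset.card_le_card hsub
    have h2 := Finset.card_union_le F1 F2
    rw [card_P] at h1
    have h3 := hp.p7
    omega
  refine ⟨step1, ?_⟩
  have hpow : 4 ≤ 2 ^ lam := by
    calc 4 = 2 ^ 2 := by norm_num
      _ ≤ 2 ^ lam := Nat.pow_le_pow_right (by norm_num) hp.p1
  ext z
  by_contra hne
  set A1 := Mi (a.ball s) (cc ψ X) z with hA1
  set A2 := Mi (a.ball s) (cc ψ (X * LL.lamp {x})) z with hA2
  set F2 := (a.ball s).powerset.filter (fun n => b.len (z⁻¹ * pp ψ X n) ≤ R) with hF2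
  have hs : 2 * F2.card < 2 ^ a.V s := spread h hp X hX z
  have c1 : 4 * A1.card ≤ 2 ^ a.V s := by
    have h1 : A1.card * 2 ^ lam ≤ 2 ^ (a.ball s).card := hX z
    calc 4 * A1.card = A1.card * 4 := mul_comm _ _
      _ ≤ A1.card * 2 ^ lam := Nat.mul_le_mul le_rfl hpow
      _ ≤ 2 ^ a.V s := h1
  have c2 : 4 * A2.card ≤ 2 ^ a.V s := by
    have h1 : A2.card * 2 ^ lam ≤ 2 ^ (a.ball s).card := step1 z
    calc 4 * A2.card = A2.card * 4 := mul_comm _ _
      _ ≤ A2.card * 2 ^ lam := Nat.mul_le_mul le_rfl hpow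
      _ ≤ 2 ^ a.V s := h1
  have hsub : (a.ball s).powerset ⊆ (A1 ∪ A2) ∪ F2 := by
    intro n hn
    by_cases h1 : n ∈ A1
    · exact Finset.mem_union_left _ (Finset.mem_union_left _ h1)
    by_cases h2 : n ∈ A2
    · exact Finset.mem_union_left _ (Finset.mem_union_right _ h2)
    refine Finset.mem_union_right _ (Finset.mem_filter.2 ⟨hn, ?_⟩)
    have e1 : z ∈ cc ψ X n ↔ z ∈ maj (a.ball s) (cc ψ X) := by
      by_contra h3
      exact h1 (Finset.mem_filter.2 ⟨hn, h3⟩)
    have e2 : z ∈ cc ψ (X * LL.lamp {x}) n ↔ z ∈ maj (a.ball s) (cc ψ (X * LL.lamp {x})) := by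
      by_contra h3
      exact h2 (Finset.mem_filter.2 ⟨hn, h3⟩)
    have e3 : ¬ (z ∈ maj (a.ball s) (cc ψ (X * LL.lamp {x})) ↔ z ∈ maj (a.ball s) (cc ψ X)) := hne
    have h4 : z ∈ cc ψ X n ∆ cc ψ (X * LL.lamp {x}) n := by
      rw [Finset.mem_symmDiff]
      tauto
    have h5 := step_ii h X x hx n z h4
    rw [len_sym] at h5
    omega
  have h1 := Finset.card_le_card hsub
  have h2 := Finset.card_union_le (A1 ∪ A2) F2
  have h3 := Finset.card_union_le A1 A2
  rw [card_P] at h1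
  omega

end LQ

end
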