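import Pool.Agent.Lib.LQ.Pres1

/-
Module Pres1W (library LQ, MP_9bf8b0_al).
pres1w: induction on the finite set w (Finset.induction_on): lamp (insert x w) = lamp w * lamp {x} (insert x w = w ∆ {x} as x not in w,
LL.lamp_symmDiff), pres1.
not_nl_w: if X * lamp w were NL then X * lamp w * lamp w = X would be NL by pres1w.
-/

set_option autoImplicit false

open Classical
open scoped Pointwise symmDiff

noncomputable section

namespace LQ

open LL

variable {A B : Type} [Group A] [Group B] {a : NG A} {b : NG B} {K : ℕ} {ψ : LL A → LL B}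
variable {s lam k m hh R D : ℕ}

theorem pres1w (h : QD a b K ψ) (hp : HP a b K s lam k m hh R D) (X : LL A) (hX : NL a ψ s lam X)
    (w : Finset A) (hw : ∀ x, x ∈ w → a.len x ≤ s + 1) :
    NL a ψ s lam (X * lamp w) ∧ bg a ψ s (X * lamp w) = bg a ψ s X := by
  induction w using Finset.induction_on with
  | empty =>
    rw [LL.lamp_empty, mul_one]
    exact ⟨hX, rfl⟩
  | insert x w hxw ih =>
    obtain ⟨h1, h2⟩ := ih fun y hy => hw y (Finset.mem_insert_of_mem hy)
    have h3 : insert x w = w ∆ {x} := by
      ext y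
      rw [Finset.mem_insert, Finset.mem_symmDiff, Finset.mem_singleton]
      constructor
      · rintro (rfl | hy)
        · exact Or.inr ⟨rfl, hxw⟩
        · left
          refine ⟨hy, ?_⟩
          rintro rfl
          exact hxw hy
      · rintro (⟨hy, _⟩ | ⟨hy, _⟩)
        · exact Or.inr hy
        · exact Or.inl hy
    have h4 : X * LL.lamp (insert x w) = X * LL.lamp w * LL.lamp {x} := by
      rw [h3, LL.lamp_symmDiff, mul_assoc]
    obtain ⟨h5, h6⟩ := pres1 h hp (X * LL.lamp w) h1 x (hw x (Finset.mem_insert_self x w))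
    rw [h4]
    exact ⟨h5, h6.trans h2⟩

theorem not_nl_w (h : QD a b K ψ) (hp : HP a b K s lam k m hh R D) (X : LL A) (hX : ¬ NL a ψ s lam X)
    (w : Finset A) (hw : ∀ x, x ∈ w → a.len x ≤ s + 1) : ¬ NL a ψ s lam (X * lamp w) := by
  intro hN
  apply hX
  have h1 := (pres1w h hp (X * LL.lamp w) hN w hw).1
  have h2 : LL.lamp w * LL.lamp w = (1 : LL A) := by
    nth_rewrite 1 [← LL.lamp_inv w]
    exact inv_mul_cancel _
  rw [mul_assoc, h2, mul_one] at h1
  exact h1

end LQ

end
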