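import Pool.Agent.Lib.LQ.Pres1W
import Pool.Agent.Lib.LQ.Fibre

/-
Module Pres2A (library LQ, MP_9bf8b0_al).
Notation l := K * (2 * s + 3), N := a.V s, Ω := a.ball s, tΩ := t • Ω (card N), Ω'' := Ω ∪ tΩ.  Every x in Ω'' has len <= s + 1; for x in Ω'' \ tΩ we have
x in Ω, so len(t⁻¹ x) <= s + 1.
Suppose X * mv t is not NL.
Bad n'' := not Good b (bg a ψ s X) m (k*l) (cc ψ X n'') (pp ψ X n'').
(1) For m' ⊆ Ω'' \ Ω: X * lamp m' is NL with the same background (pres1w), so good_w for X * lamp m' and cc_lamp, pp_lamp give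
4 * #{n ⊆ Ω : Bad (m' ∆ n)} <= 2^N.  card_le_of_fibres (Ω ⊆ Ω''): 4 * #{n'' ⊆ Ω'' : Bad n''} <= 2^Ω''.card.
(2) exists_fibre_le for tΩ ⊆ Ω'': there is m' ⊆ Ω'' \ tΩ with 4 * #{n' ⊆ tΩ : Bad (m' ∆ n')} <= 2^N.
(3) Let X'' := X * mv t * lamp (t⁻¹ • m').  It is not NL by not_nl_w.  loc_of_not_nl: z with
#{n ⊆ Ω : (hh+1) l < len(z⁻¹ pp ψ X'' n)} <= D.  For n ⊆ Ω: X'' * lamp n = X * mv t * lamp(t⁻¹ • (m' ∆ t • n)) = X * lamp (m' ∆ t • n) * mv t (LL.mul_mv_lamp),
so len((pp ψ X (m' ∆ t • n))⁻¹ * pp ψ X'' n) <= K (QD.pos, wr_mv_le, len t <= 1), K <= l (K * 3 <= l).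
So for all but D of the n ⊆ Ω: len(z⁻¹ pp ψ X (m' ∆ t • n)) <= (hh+1) l + l <= R (hp.p5).
(4) G := the image under n -> m' ∆ t • n (injective) of those n ⊆ Ω with this bound and with not Bad.  n -> t • n is a bijection of the subsets of Ω with
those of tΩ.  G.card >= 2^N - D - 2^N/4 >= 2^N / 2 (4 D <= 2^N); count_w with bb := bg a ψ s X, β := z: 4 * G.card < 2^N.  Contradiction.
-/

set_option autoImplicit false

open Classical
open scoped Pointwise symmDiff

noncomputable section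

namespace LQ

open LL

variable {A B : Type} [Group A] [Group B] {a : NG A} {b : NG B} {K : ℕ} {ψ : LL A → LL B}
variable {s lam k m hh R D : ℕ}

namespace Pres2AAux

theorem move_eq (X : LL A) (t : A) (m' n : Finset A) :
    X * mv t * lamp (t⁻¹ • m') * lamp n = X * lamp (m' ∆ (t • n)) * mv t := by
  rw [LL.mul_mv_lamp, Finset.smul_finset_symmDiff, inv_smul_smul, LL.lamp_symmDiff, ← mul_assoc]

theorem len_move (h : QD a b K ψ) (X : LL A) (t : A) (ht : a.len t ≤ 1) (m' n : Finset A) :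
    b.len ((pp ψ X (m' ∆ (t • n)))⁻¹ * pp ψ (X * mv t * lamp (t⁻¹ • m')) n) ≤ K := by
  have h1 := h.pos (X * lamp (m' ∆ (t • n))) (mv t)
  rw [← move_eq] at h1
  have h2 := a.wr_mv_le t
  have h3 : K * a.wr.len (mv t) ≤ K * 1 := Nat.mul_le_mul_left K (h2.trans ht)
  simp only [pp]
  omega

end Pres2AAux

theorem pres2a (h : QD a b K ψ) (hp : HP a b K s lam k m hh R D) (X : LL A) (hX : NL a ψ s lam X)
    (t : A) (ht : a.len t ≤ 1) : NL a ψ s lam (X * mv t) := by
  by_contra hneg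
  have hT : (t • a.ball s).card = a.V s := by
    rw [Finset.card_smul_finset, NG.V]
  have hΩ : (a.ball s).card = a.V s := rfl
  obtain ⟨Bad, hBad⟩ : ∃ Bad : Finset A → Prop, ∀ n, Bad n ↔
      ¬ Good b (bg a ψ s X) m (k * (K * (2 * s + 3))) (cc ψ X n) (pp ψ X n) := ⟨_, fun n => Iff.rfl⟩
  -- step 1
  have h1 : 4 * ((a.ball s ∪ t • a.ball s).powerset.filter Bad).card
      ≤ 2 ^ (a.ball s ∪ t • a.ball s).card := by
    refine card_le_of_fibres (a.ball s) (a.ball s ∪ t • a.ball s) Finset.subset_union_left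
      Bad 4 (fun m' hm' => ?_)
    have hm1 : ∀ x, x ∈ m' → a.len x ≤ s + 1 := by
      intro x hx
      have hx' := (Finset.mem_sdiff.1 (hm' hx)).1
      rcases Finset.mem_union.1 hx' with h' | h'
      · have := (a.mem_ball s x).1 h'
        omega
      · obtain ⟨y, hy, rfl⟩ := Finset.mem_smul_finset.1 h'
        have h2 := (a.mem_ball s y).1 hy
        have h3 := a.len_mul t y
        rw [smul_eq_mul]
        omega
    obtain ⟨hN, hb⟩ := pres1w h hp X hX m' hm1
    have h2 := good_w h hp (X * lamp m') hN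
    rw [hb] at h2
    simp only [cc_lamp, pp_lamp] at h2
    have h3 : ((a.ball s).powerset.filter (fun n => Bad (m' ∆ n))).card ≤
        ((a.ball s).powerset.filter (fun n =>
      ¬ Good b (bg a ψ s X) m (k * (K * (2 * s + 3))) (cc ψ X (m' ∆ n)) (pp ψ X (m' ∆ n)))).card := by
      apply Finset.card_le_card
      intro n hn
      rw [Finset.mem_filter] at hn ⊢
      exact ⟨hn.1, (hBad _).1 hn.2⟩
    rw [hΩ]
    omega
  -- step 2
  obtain ⟨m', hm', hm2⟩ := exists_fibre_le (t • a.ball s) (a.ball s ∪ t • a.ball s)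
    Finset.subset_union_right Bad 4 h1
  rw [hT] at hm2
  -- step 3
  have hw : ∀ x, x ∈ t⁻¹ • m' → a.len x ≤ s + 1 := by
    intro x hx
    obtain ⟨y, hy, rfl⟩ := Finset.mem_smul_finset.1 hx
    obtain ⟨h2, h3⟩ := Finset.mem_sdiff.1 (hm' hy)
    have hy' : y ∈ a.ball s := by
      rcases Finset.mem_union.1 h2 with h' | h'
      · exact h'
      · exact absurd h' h3
    have h4 := (a.mem_ball s y).1 hy'
    have h5 := a.len_mul t⁻¹ y
    rw [a.len_inv] at h5
    rw [smul_eq_mul]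
    omega
  obtain ⟨z, hz⟩ := loc_of_not_nl h hp _ (not_nl_w h hp _ hneg _ hw)
  unfold Loc at hz
  -- step 4
  set A1 : Finset (Finset A) := (t • a.ball s).powerset.filter (fun n => Bad (m' ∆ n)) with hA1
  set A0 : Finset (Finset A) := (a.ball s).powerset.filter (fun n =>
    (hh + 1) * (K * (2 * s + 3)) < b.len (z⁻¹ * pp ψ (X * mv t * lamp (t⁻¹ • m')) n)) with hA0
  set A2 : Finset (Finset A) := A0.image (fun n => t • n) with hA2
  have hA2c : A2.card ≤ D := Finset.card_image_le.trans hz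
  set G0 : Finset (Finset A) := ((t • a.ball s).powerset \ A1) \ A2 with hG0
  have hinj : Function.Injective (fun n' : Finset A => m' ∆ n') := symmDiff_right_injective m'
  have hcard : 2 ^ a.V s ≤ G0.card + A1.card + D := by
    have e1 : ((t • a.ball s).powerset).card = 2 ^ a.V s := by
      rw [Finset.card_powerset, hT]
    have e2 := Finset.le_card_sdiff A1 ((t • a.ball s).powerset)
    have e3 := Finset.le_card_sdiff A2 ((t • a.ball s).powerset \ A1)
    rw [← hG0] at e3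
    omega
  have hcount := count_w h hp X (bg a ψ s X) z (G0.image (fun n' => m' ∆ n')) (by
    intro n hn
    obtain ⟨n', hn', rfl⟩ := Finset.mem_image.1 hn
    rw [hG0, Finset.mem_sdiff, Finset.mem_sdiff] at hn'
    by_contra hc
    exact hn'.1.2 (by
      rw [hA1, Finset.mem_filter]
      exact ⟨hn'.1.1, (hBad _).2 hc⟩)) (by
    intro n hn
    obtain ⟨n', hn', rfl⟩ := Finset.mem_image.1 hn
    rw [hG0, Finset.mem_sdiff, Finset.mem_sdiff] at hn'
    have hn1 : n' ⊆ t • a.ball s := Finset.mem_powerset.1 hn'.1.1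
    have e0 : t • (t⁻¹ • n') = n' := smul_inv_smul t n'
    have hsub : t⁻¹ • n' ⊆ a.ball s := by
      have := Finset.smul_finset_subset_smul_finset (a := t⁻¹) hn1
      rwa [inv_smul_smul] at this
    have e1 : ¬ ((hh + 1) * (K * (2 * s + 3))
        < b.len (z⁻¹ * pp ψ (X * mv t * lamp (t⁻¹ • m')) (t⁻¹ • n'))) := by
      intro hc
      apply hn'.2
      rw [hA2, Finset.mem_image]
      refine ⟨t⁻¹ • n', ?_, e0⟩
      rw [hA0, Finset.mem_filter, Finset.mem_powerset]
      exact ⟨hsub, hc⟩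
    have e2 := Pres2AAux.len_move h X t ht m' (t⁻¹ • n')
    rw [e0] at e2
    have e3 := b.tri z (pp ψ (X * mv t * lamp (t⁻¹ • m')) (t⁻¹ • n')) (pp ψ X (m' ∆ n'))
    rw [b.len_symm (pp ψ (X * mv t * lamp (t⁻¹ • m')) (t⁻¹ • n')) (pp ψ X (m' ∆ n'))] at e3
    have e4 := hp.p5
    have e5 : K ≤ K * (2 * s + 3) := Nat.le_mul_of_pos_right K (by omega)
    have e6 : (hh + 3) * (K * (2 * s + 3)) = (hh + 1) * (K * (2 * s + 3)) + 2 * (K * (2 * s + 3)) := by
      ring
    omega)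
  rw [Finset.card_image_of_injective _ hinj] at hcount
  have hp7 := hp.p7
  have hpos : 0 < 2 ^ a.V s := Nat.pos_of_ne_zero (by positivity)
  omega

end LQ

end
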