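import Pool.Agent.Lib.LQ.HighW

/-!
The cursor of a state of type NL is spread out (MP_9bf8b0_al).
-/

set_option autoImplicit false

open Classical
open scoped Pointwise symmDiff

noncomputable section

namespace LQ

open LL

variable {A B : Type} [Group A] [Group B] {a : NG A} {b : NG B} {K : ℕ} {ψ : LL A → LL B}
variable {s lam k m hh R D : ℕ}

theorem spread (h : QD a b K ψ) (hp : HP a b K s lam k m hh R D) (X : LL A) (hX : NL a ψ s lam X) (β : B) :
    2 * ((a.ball s).powerset.filter (fun n => b.len (β⁻¹ * pp ψ X n) ≤ R)).card < 2 ^ a.V s := by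
  have h1 := good_w h hp X hX
  set G := (a.ball s).powerset.filter (fun n => b.len (β⁻¹ * pp ψ X n) ≤ R ∧
    Good b (bg a ψ s X) m (k * (K * (2 * s + 3))) (cc ψ X n) (pp ψ X n)) with hG
  have h2 : 4 * G.card < 2 ^ a.V s :=
    count_w h hp X (bg a ψ s X) β G (fun n hn => (Finset.mem_filter.1 hn).2.2)
      (fun n hn => (Finset.mem_filter.1 hn).2.1)
  have h3 : ((a.ball s).powerset.filter (fun n => b.len (β⁻¹ * pp ψ X n) ≤ R)).card ≤
      G.card + ((a.ball s).powerset.filter (fun n =>
      ¬ Good b (bg a ψ s X) m (k * (K * (2 * s + 3))) (cc ψ X n) (pp ψ X n))).card := by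
    refine (Finset.card_le_card ?_).trans (Finset.card_union_le _ _)
    intro n hn
    rw [Finset.mem_filter] at hn
    rw [Finset.mem_union, hG, Finset.mem_filter, Finset.mem_filter]
    by_cases hc : Good b (bg a ψ s X) m (k * (K * (2 * s + 3))) (cc ψ X n) (pp ψ X n)
    · exact Or.inl ⟨hn.1, hn.2, hc⟩
    · exact Or.inr ⟨hn.1, hc⟩
  omega

end LQ

end
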